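import Pool.Agent.H538.K8

set_option autoImplicit false

/-!
# Near pairs of integers with few prime factors in `(Q, z]`, for every level
-/

namespace Pool.Agent.H538

open Finset Filter Topology
open Pool.Agent.W66 (sift_two ratio_bound MM MM_ne two_dvd_MM lt_of_not_dvd_MM)
open Pool.Agent.Helper112.E456.SieveAux (DD)

open Classical in
/-- fixed divisors, one block -/
lemma gfix_block {b : ℕ} (hb : 2 ≤ b) (j : ℕ) : ∃ K : ℝ, 0 < K ∧
    ∃ P : ℕ, 2 ≤ P ∧ ∀ Q ≥ P, ∀ z : ℝ, 3 ≤ z → ∀ h r : ℕ, h ≤ Q → 0 < r →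
    r < b ^ h → ∀ T1 T2 : Finset ℕ, (∀ l ∈ T1, l.Prime) → (∀ l ∈ T2, l.Prime) → T1.card ≤ j → T2.card ≤ j →
    ∀ c : ℕ, tp T1 * tp T2 ≤ c →
    (((range ⌊z⌋₊).filter (fun i => SC Q z b h r T1 T2
      (c + tp T1 * tp T2 * i))).card : ℝ) ≤ K * (Real.log Q / Real.log z) ^ 2 * ⌊z⌋₊ := by
  obtain ⟨C0, hC0, hsv⟩ := sift_two
  obtain ⟨C1, hC1, hrat⟩ := ratio_bound hb
  refine ⟨C0 * ((8 : ℝ) ^ (2 * j) * C1) ^ 2 / (1 / 2) ^ 2, by positivity, ?_⟩
  obtain ⟨P, hP⟩ := eventually_atTop.1 hrat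
  refine ⟨max P 2, le_max_right _ _, fun Q hQ z hz3 h r hhQ hr hrb T1 T2 hT1 hT2 hc1 hc2 c htc => ?_⟩
  have hQP : P ≤ Q := (le_max_left _ _).trans hQ
  have hQ2 : 2 ≤ Q := (le_max_right _ _).trans hQ
  have hQ2' : (2 : ℝ) ≤ Q := by exact_mod_cast hQ2
  set N0 := ⌊z⌋₊ with hN0
  have hN0le : (N0 : ℝ) ≤ z := Nat.floor_le (by linarith)
  have hN0gt : z < N0 + 1 := Nat.lt_floor_add_one _
  have hN02 : 2 ≤ N0 := Nat.le_floor (by push_cast; linarith)
  have hN0r : (2 : ℝ) ≤ N0 := by exact_mod_cast hN02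
  have hz : (N0 : ℝ) ^ ((1 : ℝ) / 8) ≤ z := by
    calc (N0 : ℝ) ^ ((1 : ℝ) / 8) ≤ (N0 : ℝ) ^ (1 : ℝ) :=
          Real.rpow_le_rpow_of_exponent_le (by linarith) (by norm_num)
      _ = N0 := Real.rpow_one _
      _ ≤ _ := hN0le
  have ht1 : 0 < tp T1 := Finset.prod_pos fun l hl => (hT1 l hl).pos
  have ht2 : 0 < tp T2 := Finset.prod_pos fun l hl => (hT2 l hl).pos
  set t := tp T1 * tp T2 with ht
  have ht0 : 0 < t := by positivity
  set S := (range N0).filter (fun i => SC Q z b h r T1 T2 (c + t * i)) with hS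
  set S' := S.image (fun i => i + 1) with hS'
  have hcard : S'.card = S.card := Finset.card_image_of_injective _ (fun x y hxy => by omega)
  set M := MM Q b h r * (t * t * t) with hM
  have hMM0 : MM Q b h r ≠ 0 := MM_ne hb hr
  have hM0 : M ≠ 0 := by positivity
  set b₁ := c - t with hb₁
  have hb₁t : b₁ + t = c := by omega
  have hDD : DD t b₁ (b ^ h * t) (b ^ h * b₁ + r) ∣ M := by
    unfold DD
    have e2 : (((t * (b ^ h * b₁ + r) : ℕ) : ℤ) - ((b ^ h * t * b₁ : ℕ) : ℤ)).natAbs = t * r := by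
      have : (((t * (b ^ h * b₁ + r) : ℕ) : ℤ) - ((b ^ h * t * b₁ : ℕ) : ℤ)) = ((t * r : ℕ) : ℤ) := by
        push_cast; ring
      rw [this, Int.natAbs_natCast]
    rw [e2, hM]
    unfold MM
    exact ⟨primorial Q, by ring⟩
  have hmain := hsv t b₁ (b ^ h * t) (b ^ h * b₁ + r) N0 M ht0 (by positivity)
    ((two_dvd_MM hQ2).mul_right _) hM0 hDD hN02 S' (by
      intro n hn
      obtain ⟨i, hi, rfl⟩ := Finset.mem_image.1 hn
      have := mem_range.1 (mem_filter.1 hi).1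
      rw [mem_Icc]
      omega) (by
      intro n hn l hl hlz hlM
      obtain ⟨i, hi, rfl⟩ := Finset.mem_image.1 hn
      have hlM1 : ¬ l ∣ MM Q b h r := fun hd => hlM (hd.mul_right _)
      have hlt : ¬ l ∣ t := fun hd => hlM ((hd.mul_left _).mul_left _)
      have hql := lt_of_not_dvd_MM hl hlM1
      obtain ⟨_, _, _, hsc⟩ := mem_filter.1 hi
      have hlP : l ∈ PZ Q z := (mem_PZ (by linarith)).2 ⟨hl, hql, hlz.trans hz⟩
      have hl1 : l ∉ T1 := fun hm => hlt ((Finset.dvd_prod_of_mem (fun l => l) hm).mul_right _)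
      have hl2 : l ∉ T2 := fun hm => hlt ((Finset.dvd_prod_of_mem (fun l => l) hm).mul_left _)
      have e1 : t * (i + 1) + b₁ = c + t * i := by rw [← hb₁t]; ring
      have e2 : b ^ h * t * (i + 1) + (b ^ h * b₁ + r) = b ^ h * (c + t * i) + r := by
        rw [← hb₁t]; ring
      rw [e1, e2]
      exact hsc l hlP hl1 hl2)
  rw [hcard] at hmain
  have hr1 := hP Q hQP h r hhQ hr hrb
  have hlQ0 : 0 ≤ Real.log Q := Real.log_natCast_nonneg Q
  have hrt : ((t : ℕ) : ℝ) / (Nat.totient t : ℝ) ≤ 2 ^ (2 * j) := by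
    refine (ratio_mul ht1 ht2).trans ?_
    have h1 := ratio_tp T1 hT1
    have h2 := ratio_tp T2 hT2
    calc _ ≤ (2 : ℝ) ^ T1.card * 2 ^ T2.card := mul_le_mul h1 h2 (by positivity) (by positivity)
      _ = 2 ^ (T1.card + T2.card) := by rw [pow_add]
      _ ≤ 2 ^ (2 * j) := pow_le_pow_right₀ (by norm_num) (by omega)
  have hrt3 : ((t * t * t : ℕ) : ℝ) / (Nat.totient (t * t * t) : ℝ) ≤ 8 ^ (2 * j) := by
    have h1 := ratio_mul (show 0 < t * t by positivity) ht0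
    have h2 := ratio_mul ht0 ht0
    have h0 : 0 ≤ ((t : ℕ) : ℝ) / (Nat.totient t : ℝ) := by positivity
    calc _ ≤ _ := h1
      _ ≤ (((t : ℕ) : ℝ) / (Nat.totient t : ℝ) * (((t : ℕ) : ℝ) / (Nat.totient t : ℝ))) *
          (((t : ℕ) : ℝ) / (Nat.totient t : ℝ)) := mul_le_mul_of_nonneg_right h2 h0
      _ ≤ ((2 : ℝ) ^ (2 * j) * 2 ^ (2 * j)) * 2 ^ (2 * j) := by gcongr
      _ = 8 ^ (2 * j) := by
          rw [← mul_pow, ← mul_pow]
          norm_num
  have hrM : ((M : ℕ) : ℝ) / (Nat.totient M : ℝ) ≤ 8 ^ (2 * j) * C1 * Real.log Q := by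
    rw [hM]
    refine (ratio_mul (Nat.pos_of_ne_zero hMM0) (by positivity)).trans ?_
    calc _ ≤ (C1 * Real.log Q) * 8 ^ (2 * j) :=
          mul_le_mul hr1 hrt3 (by positivity) (by positivity)
      _ = _ := by ring
  have hr0 : 0 ≤ ((M : ℕ) : ℝ) / (Nat.totient M : ℝ) := by positivity
  have hz0 : 0 < Real.log z := Real.log_pos (by linarith)
  have hlogH : 1 / 2 * Real.log z ≤ Real.log N0 := by
    have h1 : z ≤ (N0 : ℝ) ^ 2 := by nlinarith
    have h2 := Real.log_le_log (by linarith) h1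
    rw [Real.log_pow] at h2
    push_cast at h2
    linarith
  have hlbp : 0 < 1 / 2 * Real.log z := by positivity
  calc (S.card : ℝ) ≤ C0 * (((M : ℕ) : ℝ) / (Nat.totient M : ℝ)) ^ 2 * N0 / (Real.log N0) ^ 2 := hmain
    _ ≤ C0 * (8 ^ (2 * j) * C1 * Real.log Q) ^ 2 * N0 / (1 / 2 * Real.log z) ^ 2 := by gcongr
    _ = _ := by
        rw [div_pow]
        field_simp

open Classical in
/-- fixed divisors, a long interval -/
lemma gfix_long {b : ℕ} (hb : 2 ≤ b) (j : ℕ) : ∃ K : ℝ, 0 < K ∧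
    ∃ P : ℕ, 2 ≤ P ∧ ∀ Q ≥ P, ∀ z : ℝ, 3 ≤ z → ∀ h r : ℕ, h ≤ Q → 0 < r →
    r < b ^ h → ∀ T1 T2 : Finset ℕ, T1 ⊆ PZ Q z → T2 ⊆ PZ Q z →
    Disjoint T1 T2 → T1.card ≤ j → T2.card ≤ j → ∀ X N : ℕ,
    z ^ (2 * j + 1) ≤ N → N ≤ X →
    (((range N).filter (fun k => SC Q z b h r T1 T2 (X + k))).card : ℝ) ≤
      K * (Real.log Q / Real.log z) ^ 2 * (N * ((tp T1 : ℝ)⁻¹ * (tp T2 : ℝ)⁻¹)) := by
  obtain ⟨K, hK, P, hP2, hP⟩ := gfix_block hb j
  refine ⟨3 * K, by positivity, max P b, hP2.trans (le_max_left _ _),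
    fun Q hQ z hz3 h r hhQ hr hrb T1 T2 hT1 hT2 hdis hc1 hc2 X N hN hNX => ?_⟩
  have hQP : P ≤ Q := (le_max_left _ _).trans hQ
  have hQb : b ≤ Q := (le_max_right _ _).trans hQ
  have hone := hP Q hQP z hz3
  have hz0 : 0 < z := by linarith
  have hz1 : 1 ≤ z := by linarith
  set N0 := ⌊z⌋₊ with hN0
  have hN02 : 2 ≤ N0 := Nat.le_floor (by push_cast; linarith)
  have hN0le : (N0 : ℝ) ≤ z := Nat.floor_le hz0.le
  have hT1' := fun l hl => (mem_PZ hz0.le).1 (hT1 hl : l ∈ PZ Q z)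
  have hT2' := fun l hl => (mem_PZ hz0.le).1 (hT2 hl : l ∈ PZ Q z)
  have ht1 : 0 < tp T1 := tp_pos hz0.le hT1
  have ht2 : 0 < tp T2 := tp_pos hz0.le hT2
  set t := tp T1 * tp T2 with ht
  have ht0 : 0 < t := by positivity
  have htle : (t : ℝ) ≤ z ^ (2 * j) := by
    have h1 := tp_le hz1 hT1 hc1
    have h2 := tp_le hz1 hT2 hc2
    rw [ht]
    push_cast
    calc (tp T1 : ℝ) * tp T2 ≤ z ^ j * z ^ j := mul_le_mul h1 h2 (Nat.cast_nonneg _) (by positivity)
      _ = z ^ (2 * j) := by rw [← pow_add, two_mul]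
  have htN0 : (t : ℝ) * N0 ≤ N := by
    calc (t : ℝ) * N0 ≤ z ^ (2 * j) * z := mul_le_mul htle hN0le (Nat.cast_nonneg _) (by positivity)
      _ = z ^ (2 * j + 1) := by rw [pow_succ]
      _ ≤ N := hN
  have htN0' : t * N0 ≤ N := by exact_mod_cast htN0
  set E := (range N).filter (fun k => SC Q z b h r T1 T2 (X + k)) with hE
  rcases E.eq_empty_or_nonempty with hemp | hne
  · rw [hemp]
    simp only [card_empty, Nat.cast_zero]
    positivity
  set k0 := E.min' hne with hk0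
  have hk0E : k0 ∈ E := Finset.min'_mem _ _
  have hcop : Nat.Coprime (tp T1) (tp T2) := by
    unfold tp
    refine Nat.Coprime.prod_left fun l hl => Nat.Coprime.prod_right fun m hm => ?_
    refine (Nat.coprime_primes (hT1' l hl).1 (hT2' m hm).1).2 ?_
    rintro rfl
    exact (Finset.disjoint_left.1 hdis hl) hm
  have hcopb : Nat.Coprime (tp T2) (b ^ h) := by
    refine Nat.Coprime.pow_right _ ?_
    unfold tp
    refine Nat.Coprime.prod_left fun l hl => ?_
    refine (Nat.Prime.coprime_iff_not_dvd (hT2' l hl).1).2 fun hd => ?_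
    have h1 := Nat.le_of_dvd (by omega) hd
    have h2 := (hT2' l hl).2.1
    omega
  have hprog : ∀ k ∈ E, t ∣ k - k0 := by
    intro k hk
    have hkk : k0 ≤ k := Finset.min'_le _ _ hk
    obtain ⟨_, a1, a2, _⟩ := mem_filter.1 hk
    obtain ⟨_, b1, b2, _⟩ := mem_filter.1 hk0E
    rw [ht]
    refine Nat.Coprime.mul_dvd_of_dvd_of_dvd hcop ?_ ?_
    · have h1 := Nat.dvd_sub a1 b1
      have e : X + k - (X + k0) = k - k0 := by omega
      rwa [e] at h1
    · have h1 := Nat.dvd_sub a2 b2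
      have e : b ^ h * (X + k) + r - (b ^ h * (X + k0) + r) = b ^ h * (k - k0) := by
        rw [Nat.add_sub_add_right, ← Nat.mul_sub]
        congr 1
        omega
      rw [e] at h1
      exact hcopb.dvd_of_dvd_mul_left h1
  have htX : t ≤ X + k0 := by
    have h1 : t ≤ t * N0 := Nat.le_mul_of_pos_right _ (by omega)
    omega
  have hsub : E ⊆ ((range (N / t + 1)).filter (fun u => SC Q z b h r T1 T2 (X + k0 + t * u))).image
      (fun u => k0 + t * u) := by
    intro k hk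
    obtain ⟨u, hu⟩ := hprog k hk
    have hkk : k0 ≤ k := Finset.min'_le _ _ hk
    have hk' : k = k0 + t * u := by omega
    obtain ⟨c1, c2⟩ := mem_filter.1 hk
    rw [mem_range] at c1
    rw [mem_image]
    refine ⟨u, ?_, hk'.symm⟩
    rw [mem_filter, mem_range]
    refine ⟨?_, ?_⟩
    · have h1 : u * t ≤ N := by
        rw [mul_comm]; omega
      have := (Nat.le_div_iff_mul_le ht0).2 h1
      omega
    · rw [hk', ← add_assoc] at c2
      exact c2
  have h1 : (E.card : ℝ) ≤ (((range (N / t + 1)).filter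
      (fun u => SC Q z b h r T1 T2 (X + k0 + t * u))).card : ℝ) := by
    exact_mod_cast (card_le_card hsub).trans card_image_le
  have h2 := block_cover (fun u => SC Q z b h r T1 T2 (X + k0 + t * u)) (N1 := N0) (by omega)
    (K := K * (Real.log Q / Real.log z) ^ 2 * N0) (fun a => by
      have h3 := hone h r hhQ hr hrb T1 T2 (fun l hl => (hT1' l hl).1) (fun l hl => (hT2' l hl).1) hc1 hc2
        (X + k0 + t * a) (by
          have : t ≤ X + k0 + t * a := by omega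
          exact this)
      refine le_trans (le_of_eq ?_) h3
      refine congrArg (fun s : Finset ℕ => (s.card : ℝ)) (Finset.filter_congr fun i _ => ?_)
      have e : X + k0 + t * (a + i) = X + k0 + t * a + t * i := by ring
      show SC Q z b h r T1 T2 (X + k0 + t * (a + i)) ↔ SC Q z b h r T1 T2 (X + k0 + t * a + t * i)
      rw [e]) 0 (N / t + 1)
  simp only [zero_add] at h2
  refine (h1.trans h2).trans ?_
  have ht0r : (0 : ℝ) < t := by exact_mod_cast ht0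
  have hN00 : (0 : ℝ) < N0 := by exact_mod_cast (by omega : 0 < N0)
  have h4 : (((N / t + 1) / N0 + 1 : ℕ) : ℝ) * N0 ≤ 3 * (N / t) := by
    have h5 : (((N / t + 1) / N0 : ℕ) : ℝ) * N0 ≤ ((N / t + 1 : ℕ) : ℝ) := by
      exact_mod_cast Nat.div_mul_le_self _ _
    have h6 : ((N / t : ℕ) : ℝ) ≤ (N : ℝ) / t := Nat.cast_div_le
    have h7 : (N0 : ℝ) ≤ (N : ℝ) / t := by
      rw [le_div_iff₀ ht0r]
      linarith
    have h8 : (1 : ℝ) ≤ (N0 : ℝ) := by exact_mod_cast (by omega : 1 ≤ N0)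
    push_cast at h5 ⊢
    linarith
  calc (((N / t + 1) / N0 + 1 : ℕ) : ℝ) * (K * (Real.log Q / Real.log z) ^ 2 * N0) =
        K * (Real.log Q / Real.log z) ^ 2 * ((((N / t + 1) / N0 + 1 : ℕ) : ℝ) * N0) := by ring
    _ ≤ K * (Real.log Q / Real.log z) ^ 2 * (3 * (N / t)) := mul_le_mul_of_nonneg_left h4 (by positivity)
    _ = _ := by
        rw [ht]
        push_cast
        field_simp

open Classical in
/-- near pairs of integers with at most `j` prime factors in `(Q, z]` -/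
theorem gnear_few {b : ℕ} (hb : 2 ≤ b) (j : ℕ) : ∃ K : ℝ, 0 < K ∧
    ∃ P : ℕ, 2 ≤ P ∧ ∀ Q ≥ P, ∀ z : ℝ, 3 ≤ z → ∀ h r : ℕ, h ≤ Q → 0 < r → r < b ^ h → ∀ X N : ℕ,
    z ^ (2 * j + 1) ≤ N → N ≤ X →
    (((range N).filter (fun k => (TN Q z (X + k)).card ≤ j ∧
      (TN Q z (b ^ h * (X + k) + r)).card ≤ j)).card : ℝ) ≤
      K * ((1 + S1 Q z) ^ (2 * j) * (Real.log Q / Real.log z) ^ 2) * N := by
  obtain ⟨K, hK, P, hP2, hP⟩ := gfix_long hb j
  refine ⟨K * ((j : ℝ) + 1) ^ 2, by positivity, P, hP2,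
    fun q hq z hz3 h r hhQ hr hrb X N hN hNX => ?_⟩
  have hz0 : 0 < z := by linarith
  set Q := PZ q z with hQ
  set s := S1 q z with hs
  have hs0 : 0 ≤ s := S1_nonneg q z
  -- the covering
  have hsub : (range N).filter (fun k => (TN q z (X + k)).card ≤ j ∧ (TN q z (b ^ h * (X + k) + r)).card ≤ j) ⊆
      (range (j + 1)).biUnion (fun i1 => (Q.powersetCard i1).biUnion (fun T1 =>
        (range (j + 1)).biUnion (fun i2 => (Q.powersetCard i2).biUnion (fun T2 =>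
          (range N).filter (fun k => Disjoint T1 T2 ∧ SC q z b h r T1 T2 (X + k)))))) := by
    intro k hk
    obtain ⟨h1, h2, h3⟩ := mem_filter.1 hk
    set T1 := TN q z (X + k) with hT1
    set T2 := TN q z (b ^ h * (X + k) + r) \ T1 with hT2
    have hT2sub : T2 ⊆ TN q z (b ^ h * (X + k) + r) := sdiff_subset
    have hT2c : T2.card ≤ j := (card_le_card hT2sub).trans h3
    refine mem_biUnion.2 ⟨T1.card, mem_range.2 (by omega), mem_biUnion.2 ⟨T1,
      mem_powersetCard.2 ⟨TN_sub q z _, rfl⟩, mem_biUnion.2 ⟨T2.card, mem_range.2 (by omega),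
      mem_biUnion.2 ⟨T2, mem_powersetCard.2 ⟨hT2sub.trans (TN_sub q z _), rfl⟩, mem_filter.2 ⟨h1, ?_, ?_, ?_, ?_⟩⟩⟩⟩⟩
    · exact disjoint_sdiff
    · exact tp_TN_dvd hz0.le _
    · refine dvd_trans ?_ (tp_TN_dvd (q := q) hz0.le (b ^ h * (X + k) + r))
      exact Finset.prod_dvd_prod_of_subset _ _ _ hT2sub
    · intro l hl hl1 hl2
      have g1 : ¬ l ∣ X + k := fun hd => hl1 (mem_filter.2 ⟨hl, hd⟩)
      refine ⟨g1, fun hd => hl2 ?_⟩
      exact Finset.mem_sdiff.2 ⟨mem_filter.2 ⟨hl, hd⟩, hl1⟩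
  have h1 : (((range N).filter (fun k => (TN q z (X + k)).card ≤ j ∧
      (TN q z (b ^ h * (X + k) + r)).card ≤ j)).card : ℝ) ≤
      ∑ i1 ∈ range (j + 1), ∑ T1 ∈ Q.powersetCard i1, ∑ i2 ∈ range (j + 1), ∑ T2 ∈ Q.powersetCard i2,
        (((range N).filter (fun k => Disjoint T1 T2 ∧ SC q z b h r T1 T2 (X + k))).card : ℝ) := by
    refine (Nat.cast_le.2 ((card_le_card hsub).trans card_biUnion_le)).trans ?_
    rw [Nat.cast_sum]
    refine Finset.sum_le_sum fun i1 _ => ?_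
    refine (Nat.cast_le.2 card_biUnion_le).trans ?_
    rw [Nat.cast_sum]
    refine Finset.sum_le_sum fun T1 _ => ?_
    refine (Nat.cast_le.2 card_biUnion_le).trans ?_
    rw [Nat.cast_sum]
    refine Finset.sum_le_sum fun i2 _ => ?_
    refine (Nat.cast_le.2 card_biUnion_le).trans ?_
    rw [Nat.cast_sum]
  have h2 : ∑ i1 ∈ range (j + 1), ∑ T1 ∈ Q.powersetCard i1, ∑ i2 ∈ range (j + 1), ∑ T2 ∈ Q.powersetCard i2,
        (((range N).filter (fun k => Disjoint T1 T2 ∧ SC q z b h r T1 T2 (X + k))).card : ℝ) ≤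
      ∑ i1 ∈ range (j + 1), ∑ T1 ∈ Q.powersetCard i1, ∑ i2 ∈ range (j + 1), ∑ T2 ∈ Q.powersetCard i2,
        K * (Real.log q / Real.log z) ^ 2 * N * (tp T1 : ℝ)⁻¹ * (tp T2 : ℝ)⁻¹ := by
    refine Finset.sum_le_sum fun i1 hi1 => Finset.sum_le_sum fun T1 hT1 => Finset.sum_le_sum fun i2 hi2 =>
      Finset.sum_le_sum fun T2 hT2 => ?_
    rw [mem_range] at hi1 hi2
    obtain ⟨a1, a2⟩ := mem_powersetCard.1 hT1
    obtain ⟨b1, b2⟩ := mem_powersetCard.1 hT2
    by_cases hd : Disjoint T1 T2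
    · have h3 := hP q hq z hz3 h r hhQ hr hrb T1 T2 a1 b1 hd (by omega) (by omega) X N hN hNX
      simp only [hd, true_and]
      refine h3.trans (le_of_eq ?_)
      ring
    · simp only [hd, false_and, Finset.filter_false, Finset.card_empty, Nat.cast_zero]
      positivity
  have h3 : ∑ i1 ∈ range (j + 1), ∑ T1 ∈ Q.powersetCard i1, ∑ i2 ∈ range (j + 1), ∑ T2 ∈ Q.powersetCard i2,
        K * (Real.log q / Real.log z) ^ 2 * N * (tp T1 : ℝ)⁻¹ * (tp T2 : ℝ)⁻¹ =
      K * (Real.log q / Real.log z) ^ 2 * N *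
        ((∑ i ∈ range (j + 1), esum Q i) * (∑ i ∈ range (j + 1), esum Q i)) := by
    simp only [← esum_tp, ← Finset.mul_sum]
    simp only [Finset.sum_mul, Finset.mul_sum]
    refine Finset.sum_congr rfl fun i1 _ => Finset.sum_congr rfl fun T1 _ => Finset.sum_congr rfl fun i2 _ =>
      Finset.sum_congr rfl fun T2 _ => ?_
    ring
  have h4 : ∑ i ∈ range (j + 1), esum Q i ≤ ((j : ℝ) + 1) * (1 + s) ^ j := by
    calc ∑ i ∈ range (j + 1), esum Q i ≤ ∑ i ∈ range (j + 1), (1 + s) ^ j := by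
          refine Finset.sum_le_sum fun i hi => ?_
          rw [mem_range] at hi
          calc esum Q i ≤ s ^ i := esum_le' Q i
            _ ≤ (1 + s) ^ i := pow_le_pow_left₀ hs0 (by linarith) _
            _ ≤ (1 + s) ^ j := pow_le_pow_right₀ (by linarith) (by omega)
      _ = _ := by
          rw [Finset.sum_const, card_range, nsmul_eq_mul]
          push_cast
          ring
  have h5 : 0 ≤ ∑ i ∈ range (j + 1), esum Q i := Finset.sum_nonneg fun i _ => esum_nonneg Q i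
  refine (h1.trans h2).trans ?_
  rw [h3]
  calc K * (Real.log q / Real.log z) ^ 2 * N * ((∑ i ∈ range (j + 1), esum Q i) * (∑ i ∈ range (j + 1), esum Q i)) ≤
        K * (Real.log q / Real.log z) ^ 2 * N *
          ((((j : ℝ) + 1) * (1 + s) ^ j) * (((j : ℝ) + 1) * (1 + s) ^ j)) := by
        gcongr
    _ = _ := by ring

end Pool.Agent.H538
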