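import Pool.Agent.H538.G9

set_option autoImplicit false

/-!
# The law for the levels, for almost every amplitude
-/

namespace Pool.Agent.H538

open Finset Filter Topology MeasureTheory
open Pool.Agent.Y895.PM (U01)
open Pool.Agent.Y895.OL (gF VI FI VI_nonneg)
open Pool.Agent.Y895.PT (lim_of_close2)

variable {r : ℕ} {z : ℕ → ℕ → ℝ} {x s C : ℝ} {Q0 : ℕ}

/-- the law with the cut off weight -/
theorem LF.law (h : LF r z x s C Q0) {b : ℕ} (hb : 2 ≤ b) (k : Fin r → ℕ) (S : Set ℕ) (hS : Thick S) :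
    ∀ᵐ β : ℝ, 0 < β → Tendsto (fun n : ℕ => (cA (EV r z k) b S β n : ℝ) / VI {p | p.Prime} (wL r z k Q0) S n) atTop
      (𝓝 1) := by
  have hdiv := h.V_div k hS
  refine transferW hb S hdiv fun a d ha => ?_
  have h1 : ∀ j : ℕ, ∀ᵐ t ∂U01, ∀ᶠ n : ℕ in atTop,
      (1 - 1 / ((j : ℝ) + 2)) * 1 * VI {p | p.Prime} (wL r z k Q0) S n ≤
        FI {p | p.Prime} (gF (ind (EV r z k)) b (fun q => a * b ^ (q - d)) (fun q => q - d)) S n t ∧
      FI {p | p.Prime} (gF (ind (EV r z k)) b (fun q => a * b ^ (q - d)) (fun q => q - d)) S n t ≤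
        (1 + 1 / ((j : ℝ) + 2)) * 1 * VI {p | p.Prime} (wL r z k Q0) S n := by
    intro j
    have hk : (0 : ℝ) < (j : ℝ) + 2 := by positivity
    have h2 := h.block hb k a d ha (ε := 1 / (2 * ((j : ℝ) + 2))) (by positivity) (by
      rw [mul_one_div, div_le_iff₀ (by positivity)]
      have : (0 : ℝ) ≤ j := Nat.cast_nonneg j
      nlinarith) S hS
    filter_upwards [h2] with t ht
    filter_upwards [ht] with n hn
    have e1 : (1 - 1 / ((j : ℝ) + 2)) * 1 = 1 - 2 * (1 / (2 * ((j : ℝ) + 2))) := by field_simp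
    have e2 : (1 + 1 / ((j : ℝ) + 2)) * 1 = 1 + 2 * (1 / (2 * ((j : ℝ) + 2))) := by field_simp
    rw [e1, e2]
    exact hn
  filter_upwards [ae_all_iff.2 h1] with t ht
  exact lim_of_close2 one_pos hdiv ht

open Classical in
/-- the sum of the weights over the primes of `S` -/
noncomputable def DW (w : ℕ → ℝ) (S : Set ℕ) (n : ℕ) : ℝ :=
  ∑ p ∈ (range (n + 1)).filter (fun p => p.Prime ∧ p ∈ S), w p

lemma DW_ratio {w w' : ℕ → ℝ} {S : Set ℕ} (Q : ℕ) (hw : ∀ q ≥ Q, w q = w' q)
    (hdiv : Tendsto (DW w' S) atTop atTop) : Tendsto (fun n => DW w S n / DW w' S n) atTop (𝓝 1) := by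
  classical
  set c := ∑ p ∈ range Q, |w p - w' p| with hc
  have h1 : ∀ n, |DW w S n - DW w' S n| ≤ c := by
    intro n
    unfold DW
    rw [← Finset.sum_sub_distrib]
    refine (Finset.abs_sum_le_sum_abs _ _).trans ?_
    have h2 : ∑ p ∈ (range (n + 1)).filter (fun p => p.Prime ∧ p ∈ S), |w p - w' p| ≤
        ∑ p ∈ (range (n + 1)) ∪ range Q, |w p - w' p| :=
      Finset.sum_le_sum_of_subset_of_nonneg (fun p hp => mem_union_left _ (mem_filter.1 hp).1)
        fun p _ _ => abs_nonneg _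
    refine h2.trans (le_of_eq ?_)
    symm
    refine Finset.sum_subset subset_union_right fun p _ hp => ?_
    rw [mem_range, not_lt] at hp
    rw [hw p hp, sub_self, abs_zero]
  have h3 : Tendsto (fun n => (DW w S n - DW w' S n) / DW w' S n) atTop (𝓝 0) := by
    refine squeeze_zero_norm' ?_ (hdiv.const_div_atTop c)
    filter_upwards [hdiv.eventually_gt_atTop 0] with n hn
    rw [Real.norm_eq_abs, abs_div, abs_of_pos hn]
    exact div_le_div_of_nonneg_right (h1 n) hn.le
  have h4 := h3.add_const 1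
  rw [zero_add] at h4
  refine h4.congr' ?_
  filter_upwards [hdiv.eventually_gt_atTop 0] with n hn
  rw [sub_div, div_self hn.ne']
  ring

lemma VI_DW (w : ℕ → ℝ) (S : Set ℕ) : VI {p | p.Prime} w S = DW w S := by
  funext n
  exact VI_filter w S n

/-- **The law for the levels.** -/
theorem law_levels (hz : Levels r z) (S : Set ℕ) (hS : Thick S) {b : ℕ} (hb : 2 ≤ b) (k : Fin r → ℕ)
    {w : ℕ → ℝ} (hw : ∀ᶠ q in atTop, w q = WW' r z k q) :
    ∀ᵐ β : ℝ, 0 < β → Tendsto (fun n : ℕ => (cA (EV r z k) b S β n : ℝ) / DW w S n) atTop (𝓝 1) := by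
  obtain ⟨x, s, C, Q0, h⟩ := exists_LF hz
  obtain ⟨Q1, hQ1⟩ := hw.exists_forall_of_atTop
  have hdiv := h.V_div k hS
  rw [VI_DW] at hdiv
  have hr := DW_ratio (w := w) (w' := wL r z k Q0) (max Q0 Q1) (fun q hq => by
    rw [hQ1 q ((le_max_right _ _).trans hq)]
    exact (if_pos ((le_max_left _ _).trans hq) : wL r z k Q0 q = WW' r z k q).symm) hdiv
  filter_upwards [h.law hb k S hS] with β hβ h0
  have h1 := hβ h0
  rw [VI_DW] at h1
  have h2 := h1.div hr one_ne_zero
  rw [div_one] at h2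
  refine h2.congr' ?_
  filter_upwards [hdiv.eventually_gt_atTop 0] with n hn
  simp only [Pi.div_apply]
  rw [div_div_div_cancel_right₀ hn.ne']

/-- convergence of the means -/
theorem mean_lim {w : ℕ → ℝ} {S : Set ℕ} {c : ℝ} (hw : Tendsto w atTop (𝓝 c))
    (hdiv : Tendsto (DW (fun _ => 1) S) atTop atTop) :
    Tendsto (fun n => DW w S n / DW (fun _ => 1) S n) atTop (𝓝 c) := by
  classical
  set g : ℕ → ℝ := fun p => if p.Prime ∧ p ∈ S then 1 else 0 with hg
  set f : ℕ → ℝ := fun p => (w p - c) * g p with hf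
  have e1 : ∀ n, ∑ p ∈ range (n + 1), g p = DW (fun _ => 1) S n := by
    intro n
    unfold DW
    rw [Finset.sum_filter]
  have e2 : ∀ n, ∑ p ∈ range (n + 1), f p = DW w S n - c * DW (fun _ => 1) S n := by
    intro n
    unfold DW
    rw [Finset.mul_sum, ← Finset.sum_sub_distrib, Finset.sum_filter]
    refine Finset.sum_congr rfl fun p _ => ?_
    simp only [hf, hg]
    split_ifs <;> ring
  have h1 : f =o[atTop] g := by
    have h2 : (fun p => w p - c) =o[atTop] fun _ => (1 : ℝ) := by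
      rw [Asymptotics.isLittleO_one_iff]
      have := hw.sub_const c
      rwa [sub_self] at this
    have h3 := h2.mul_isBigO (Asymptotics.isBigO_refl g atTop)
    simpa only [one_mul] using h3
  have h4 : Tendsto (fun n => ∑ i ∈ range n, g i) atTop atTop := by
    rw [← tendsto_add_atTop_iff_nat 1]
    exact hdiv.congr fun n => (e1 n).symm
  have h5 := h1.sum_range (fun p => by simp only [hg]; split_ifs <;> simp) h4
  have h6 := (h5.tendsto_div_nhds_zero).comp (tendsto_add_atTop_nat 1)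
  have h7 := h6.add_const c
  rw [zero_add] at h7
  refine h7.congr' ?_
  filter_upwards [hdiv.eventually_gt_atTop 0] with n hn
  simp only [Function.comp]
  rw [e1, e2, sub_div, mul_div_assoc, div_self hn.ne']
  ring

lemma Thick.div {S : Set ℕ} (hS : Thick S) : Tendsto (DW (fun _ => 1) S) atTop atTop := by
  classical
  obtain ⟨c, hc, hev⟩ := hS
  have h1 : Tendsto (fun n : ℕ => c * ((n : ℝ) / Real.log n)) atTop atTop := by
    refine Tendsto.const_mul_atTop hc ?_
    have h2 : Tendsto (fun x : ℝ => x / Real.log x) atTop atTop := by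
      have h3 := (Real.isLittleO_log_id_atTop).tendsto_div_nhds_zero
      have h4 : ∀ᶠ x : ℝ in atTop, 0 < Real.log x / id x := by
        filter_upwards [eventually_gt_atTop 1] with x hx
        exact div_pos (Real.log_pos hx) (by simp only [id]; linarith)
      have h5 := (tendsto_nhdsWithin_iff.2 ⟨h3, h4⟩).inv_tendsto_nhdsGT_zero
      refine h5.congr fun x => ?_
      simp only [Pi.inv_apply, inv_div, id]
    exact h2.comp tendsto_natCast_atTop_atTop
  refine tendsto_atTop_mono' _ ?_ h1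
  filter_upwards [hev] with n hn
  refine hn.trans ?_
  unfold DW
  rw [Finset.sum_const, nsmul_eq_mul, mul_one]
  have : ((Ioc (n / 2) n).filter (fun p => p.Prime ∧ p ∈ S)).card ≤
      ((range (n + 1)).filter (fun p => p.Prime ∧ p ∈ S)).card := by
    refine Finset.card_le_card fun p hp => ?_
    rw [mem_filter, mem_Ioc] at hp
    rw [mem_filter, mem_range]
    exact ⟨by omega, hp.2⟩
  exact_mod_cast this

/-- **The law with the limiting weights.** -/
theorem law_limit (hz : Levels r z) (S : Set ℕ) (hS : Thick S) {u : Fin r → ℝ}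
    (hu : ∀ i : Fin r, Tendsto (fun p : ℕ => Real.log (z (i + 1) p) / Real.log (z i p)) atTop (𝓝 (u i)))
    {b : ℕ} (hb : 2 ≤ b) (k : Fin r → ℕ) :
    ∀ᵐ β : ℝ, 0 < β → Tendsto (fun n : ℕ => (cA (EV r z k) b S β n : ℝ) / DW (fun _ => 1) S n) atTop
      (𝓝 (∏ i, wgt (k i) (u i))) := by
  obtain ⟨x, s, C, Q0, h⟩ := exists_LF hz
  have hu1 : ∀ i, 1 < u i := fun i =>
    lt_of_lt_of_le h.hx (ge_of_tendsto (hu i) (by
      filter_upwards [eventually_ge_atTop Q0] with q hq
      exact h.ustep hq i.2))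
  have hW : Tendsto (WW' r z k) atTop (𝓝 (∏ i, wgt (k i) (u i))) := by
    unfold WW'
    refine tendsto_finsetProd _ fun i _ => ?_
    have hu0 : u i ≠ 0 := by linarith [hu1 i]
    have hl := (hu i).log hu0
    have h2 := ((hu i).inv₀ hu0).mul (hl.pow (k i))
    have h3 := h2.div_const ((k i).factorial : ℝ)
    exact h3
  have hWpos : ∏ i, wgt (k i) (u i) ≠ 0 := (Finset.prod_pos fun i _ => wgt_pos (hu1 i)).ne'
  have hm := mean_lim hW hS.div
  have hdivV := h.V_div k hS
  rw [VI_DW] at hdivV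
  have hr := DW_ratio (w := WW' r z k) (w' := wL r z k Q0) Q0 (fun q hq => (if_pos hq : wL r z k Q0 q = WW' r z k q).symm) hdivV
  filter_upwards [law_levels hz S hS hb k (w := WW' r z k) (Eventually.of_forall fun _ => rfl)] with β hβ h0
  have h1 := (hβ h0).mul hm
  rw [one_mul] at h1
  refine h1.congr' ?_
  filter_upwards [hr.eventually_ne one_ne_zero] with n hn
  have hne : DW (WW' r z k) S n ≠ 0 := fun h0 => hn (by rw [h0, zero_div])
  rw [div_mul_div_cancel₀ hne]

/-- the set of all numbers is thick -/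
theorem thick_univ : Thick Set.univ := by
  classical
  obtain ⟨κ, X0, hκ, hκ2, hX0, hpnt⟩ := pnt_short (1 / 2) (by norm_num)
  refine ⟨κ / 2, by positivity, ?_⟩
  have h1 : Tendsto (fun n : ℕ => (n : ℝ) ^ κ) atTop atTop :=
    (tendsto_rpow_atTop hκ).comp tendsto_natCast_atTop_atTop
  filter_upwards [h1.eventually_ge_atTop (1 / κ), tendsto_natCast_atTop_atTop.eventually_ge_atTop X0,
    eventually_ge_atTop 2] with n hn1 hn2 hn3
  have hn0 : (0 : ℝ) < n := by exact_mod_cast (by omega : 0 < n)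
  have hl0 : 0 < Real.log n := Real.log_pos (by exact_mod_cast (by omega : 1 < n))
  have h2 := hpnt n hn2 (κ * n) (by
    rw [Real.rpow_sub hn0, Real.rpow_one, div_le_iff₀ (by positivity)]
    rw [div_le_iff₀ hκ] at hn1
    nlinarith) le_rfl
  have h3 := (abs_le.1 h2).1
  have h4 : κ / 2 * (n / Real.log n) ≤ (PR n (κ * n)).card := by
    rw [mul_div_assoc', div_le_iff₀ hl0]
    linarith
  refine h4.trans ?_
  have h5 : PR n (κ * n) ⊆ (Ioc (n / 2) n).filter (fun p => p.Prime ∧ p ∈ Set.univ) := by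
    intro p hp
    unfold PR at hp
    rw [mem_filter, mem_Ioc, Nat.floor_natCast] at hp
    rw [mem_filter, mem_Ioc]
    refine ⟨⟨lt_of_le_of_lt ?_ hp.1.1, hp.1.2⟩, hp.2, Set.mem_univ _⟩
    apply Nat.le_floor
    have h6 : ((n / 2 : ℕ) : ℝ) ≤ (n : ℝ) / 2 := Nat.cast_div_le
    nlinarith
  refine (Nat.cast_le (α := ℝ)).2 ((Finset.card_le_card h5).trans (le_of_eq ?_))
  congr 1
  ext p
  simp only [mem_filter]

end Pool.Agent.H538
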