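import Pool.Agent.H538.G1
import Pool.Graph.R_seed8.H154R3.Task469B

set_option autoImplicit false

/-!
# The number of the integers with given numbers of prime factors in several sets, in an interval
-/

namespace Pool.Agent.H538

open Finset Filter Topology
open Pool.Agent.H446R2 (dn)

/-- the elements of `P` which divide `n` -/
def DV (P : Finset ℕ) (n : ℕ) : Finset ℕ := P.filter (fun l => l ∣ n)

lemma mem_DV {P : Finset ℕ} {n l : ℕ} : l ∈ DV P n ↔ l ∈ P ∧ l ∣ n := by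
  unfold DV
  exact mem_filter

/-- the loss of the sieve -/
noncomputable def eR (R : ℕ) : ℝ := 2 * (2 ^ 24 * (1 / 2) ^ (2 * R))

lemma eR_nonneg (R : ℕ) : 0 ≤ eR R := by unfold eR; positivity

lemma eR_le_one {R : ℕ} (hR : 13 ≤ R) : eR R ≤ 1 := by
  unfold eR
  have h1 : (1 / 2 : ℝ) ^ (2 * R) ≤ (1 / 2) ^ 26 :=
    pow_le_pow_of_le_one (by norm_num) (by norm_num) (by omega)
  have h2 : (2 : ℝ) * (2 ^ 24 * (1 / 2) ^ 26) ≤ 1 := by norm_num
  linarith

/-- the density of the integers with the set `T` of divisors in `P` -/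
noncomputable def dT (P T : Finset ℕ) : ℝ := (∏ l ∈ T, ((l : ℝ))⁻¹) * ∏ l ∈ P \ T, (1 - ((l : ℝ))⁻¹)

lemma one_sub_nonneg {l : ℕ} (hl : l.Prime) : 0 ≤ 1 - ((l : ℝ))⁻¹ := by
  have h2 : (2 : ℝ) ≤ l := by exact_mod_cast hl.two_le
  have : ((l : ℝ))⁻¹ ≤ 1 / 2 := by rw [← one_div]; exact one_div_le_one_div_of_le (by norm_num) h2
  linarith

lemma one_sub_le {l : ℕ} : 1 - ((l : ℝ))⁻¹ ≤ 1 := by
  have : (0 : ℝ) ≤ ((l : ℝ))⁻¹ := by positivity
  linarith

lemma dT_nonneg {P T : Finset ℕ} (hP : ∀ l ∈ P, l.Prime) : 0 ≤ dT P T := by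
  unfold dT
  refine mul_nonneg (Finset.prod_nonneg fun _ _ => by positivity) (Finset.prod_nonneg fun l hl => ?_)
  exact one_sub_nonneg (hP l (Finset.mem_sdiff.1 hl).1)

lemma tp_dvd {T : Finset ℕ} (hT : ∀ l ∈ T, l.Prime) {n : ℕ} (h : ∀ l ∈ T, l ∣ n) : tp T ∣ n := by
  unfold tp
  exact Finset.prod_primes_dvd n (fun l hl => (hT l hl).prime) h

/-- one set of divisors -/
lemma fix_count {P T : Finset ℕ} (hP : ∀ l ∈ P, l.Prime) (hT : T ⊆ P) {R : ℕ} (hR : 13 ≤ R) {I : ℕ}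
    (hI : 1 ≤ I) (hPI : ∀ l ∈ P, l ≤ 2 ^ 2 ^ I) (m y : ℕ) :
    |(((Ioc m (m + y)).filter (fun n => DV P n = T)).card : ℝ) - dT P T * y| ≤
      eR R * dT P T * y + ((2 : ℝ) ^ ((4 * R + 8) * 2 ^ I) + 2) := by
  have hTp : ∀ l ∈ T, l.Prime := fun l hl => hP l (hT hl)
  have ht0 : 0 < tp T := Finset.prod_pos fun l hl => (hTp l hl).pos
  set t := tp T with ht
  set W := ∏ l ∈ P \ T, (1 - ((l : ℝ))⁻¹) with hW
  have hW0 : 0 ≤ W := Finset.prod_nonneg fun l hl => one_sub_nonneg (hP l (Finset.mem_sdiff.1 hl).1)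
  have hW1 : W ≤ 1 := Finset.prod_le_one (fun l hl => one_sub_nonneg (hP l (Finset.mem_sdiff.1 hl).1))
    fun l _ => one_sub_le
  have hdT : dT P T = (t : ℝ)⁻¹ * W := by
    unfold dT
    rw [ht]
    unfold tp
    push_cast
    rw [Finset.prod_inv_distrib]
  have hset : (Ioc m (m + y)).filter (fun n => DV P n = T) =
      ((Ioc (m / t) ((m + y) / t)).filter (fun n => ∀ l ∈ P \ T, ¬ l ∣ n)).image (fun n => t * n) := by
    ext n
    rw [mem_filter, mem_image, mem_Ioc]
    constructor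
    · rintro ⟨⟨h1, h2⟩, h3⟩
      have hd : t ∣ n := tp_dvd hTp fun l hl => by
        rw [← h3] at hl
        exact (mem_DV.1 hl).2
      obtain ⟨c, rfl⟩ := hd
      refine ⟨c, ?_, rfl⟩
      rw [mem_filter, mem_Ioc, Nat.div_lt_iff_lt_mul ht0, Nat.le_div_iff_mul_le ht0]
      refine ⟨⟨by linarith [mul_comm t c], by linarith [mul_comm t c]⟩, fun l hl hlc => ?_⟩
      obtain ⟨g1, g2⟩ := Finset.mem_sdiff.1 hl
      apply g2
      rw [← h3, mem_DV]
      exact ⟨g1, hlc.mul_left _⟩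
    · rintro ⟨c, hc, rfl⟩
      rw [mem_filter, mem_Ioc, Nat.div_lt_iff_lt_mul ht0, Nat.le_div_iff_mul_le ht0] at hc
      obtain ⟨⟨h1, h2⟩, h3⟩ := hc
      refine ⟨⟨by linarith [mul_comm t c], by linarith [mul_comm t c]⟩, ?_⟩
      ext l
      rw [mem_DV]
      constructor
      · rintro ⟨g1, g2⟩
        by_contra g3
        rcases (hP l g1).dvd_mul.1 g2 with h | h
        · rw [ht] at h
          unfold tp at h
          obtain ⟨q, hq, hlq⟩ := (Prime.dvd_finsetProd_iff (hP l g1).prime _).1 h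
          have := (Nat.prime_dvd_prime_iff_eq (hP l g1) (hTp q hq)).1 hlq
          exact g3 (this ▸ hq)
        · exact h3 l (Finset.mem_sdiff.2 ⟨g1, g3⟩) h
      · intro g1
        exact ⟨hT g1, (Finset.dvd_prod_of_mem (fun l => l) g1).mul_right _⟩
  have hcard : ((Ioc m (m + y)).filter (fun n => DV P n = T)).card =
      ((Ioc (m / t) ((m + y) / t)).filter (fun n => ∀ l ∈ P \ T, ¬ l ∣ n)).card := by
    rw [hset, Finset.card_image_of_injective]
    intro a b hab
    exact Nat.eq_of_mul_eq_mul_left ht0 hab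
  have hle : m / t ≤ (m + y) / t := Nat.div_le_div_right (by omega)
  obtain ⟨k', hk'⟩ : ∃ k', (m + y) / t = m / t + k' := ⟨(m + y) / t - m / t, by omega⟩
  have ht0r : (0 : ℝ) < t := by exact_mod_cast ht0
  have hk1 : |(k' : ℝ) - (y : ℝ) / t| ≤ 1 := by
    have e1 : (k' : ℝ) = (((m + y) / t : ℕ) : ℝ) - ((m / t : ℕ) : ℝ) := by
      rw [hk']; push_cast; ring
    have a1 : ((m + y : ℕ) : ℝ) / t - 1 < (((m + y) / t : ℕ) : ℝ) := by
      have h1 : m + y < ((m + y) / t + 1) * t := by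
        have := Nat.div_add_mod (m + y) t
        have h2 := Nat.mod_lt (m + y) ht0
        nlinarith
      have h2 : ((m + y : ℕ) : ℝ) < ((((m + y) / t : ℕ) : ℝ) + 1) * t := by exact_mod_cast h1
      rw [sub_lt_iff_lt_add, div_lt_iff₀ ht0r]
      exact h2
    have a2 : (((m + y) / t : ℕ) : ℝ) ≤ ((m + y : ℕ) : ℝ) / t := Nat.cast_div_le
    have a3 : ((m : ℕ) : ℝ) / t - 1 < ((m / t : ℕ) : ℝ) := by
      have h1 : m < (m / t + 1) * t := by
        have := Nat.div_add_mod m t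
        have h2 := Nat.mod_lt m ht0
        nlinarith
      have h2 : ((m : ℕ) : ℝ) < (((m / t : ℕ) : ℝ) + 1) * t := by exact_mod_cast h1
      rw [sub_lt_iff_lt_add, div_lt_iff₀ ht0r]
      exact h2
    have a4 : ((m / t : ℕ) : ℝ) ≤ ((m : ℕ) : ℝ) / t := Nat.cast_div_le
    have e2 : ((m + y : ℕ) : ℝ) / t = (m : ℝ) / t + (y : ℝ) / t := by push_cast; ring
    rw [e2] at a1 a2
    rw [e1, abs_le]
    constructor <;> linarith
  have h1 := Pool.Agent.H154R3.Fund.sieve_two (P \ T) (fun l hl => hP l (Finset.mem_sdiff.1 hl).1) R hR I hI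
    (fun l hl => hPI l (Finset.mem_sdiff.1 hl).1) (m / t) k'
  have hdn : ∏ p ∈ P \ T, (1 - dn p) = W := by
    rw [hW]
    refine Finset.prod_congr rfl fun l _ => ?_
    unfold dn
    rw [one_div]
  rw [hdn] at h1
  rw [hcard, hk']
  have he : 2 * (2 ^ 24 * (1 / 2 : ℝ) ^ (2 * R)) = eR R := rfl
  rw [he] at h1
  set cc := (((Ioc (m / t) (m / t + k')).filter (fun n => ∀ l ∈ P \ T, ¬ l ∣ n)).card : ℝ) with hcc
  have e0 := eR_nonneg R
  have e1 := eR_le_one hR
  obtain ⟨b1, b2⟩ := abs_le.1 hk1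
  have c1 : W * k' ≤ W * ((y : ℝ) / t) + 1 := by nlinarith
  have c2 : W * ((y : ℝ) / t) - 1 ≤ W * k' := by nlinarith
  have c3 : dT P T * y = W * ((y : ℝ) / t) := by rw [hdT]; ring
  have c4 : eR R * W * k' ≤ eR R * (W * ((y : ℝ) / t)) + 1 := by
    have := mul_le_mul_of_nonneg_left c1 e0
    nlinarith
  rw [mul_assoc (eR R) (dT P T), c3]
  obtain ⟨d1, d2⟩ := abs_le.1 h1
  rw [abs_le]
  constructor <;> linarith

/-- the density of the integers with exactly `k` divisors in `P` -/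
noncomputable def mu (P : Finset ℕ) (k : ℕ) : ℝ := ∑ T ∈ P.powersetCard k, dT P T

lemma mu_nonneg {P : Finset ℕ} (hP : ∀ l ∈ P, l.Prime) (k : ℕ) : 0 ≤ mu P k :=
  Finset.sum_nonneg fun _ _ => dT_nonneg hP

open Classical in
/-- several sets of primes -/
theorem multi_count {r : ℕ} (P : Fin r → Finset ℕ) (k : Fin r → ℕ) (hP : ∀ i, ∀ l ∈ P i, l.Prime)
    (hdis : ∀ i j, i ≠ j → Disjoint (P i) (P j)) {R : ℕ} (hR : 13 ≤ R) {I B : ℕ}
    (hI : 1 ≤ I) (hPB : ∀ i, ∀ l ∈ P i, l ≤ B) (hB : B ≤ 2 ^ 2 ^ I) (m y : ℕ) :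
    |(((Ioc m (m + y)).filter (fun n => ∀ i, (DV (P i) n).card = k i)).card : ℝ) - (∏ i, mu (P i) (k i)) * y| ≤
      eR R * (∏ i, mu (P i) (k i)) * y + (B : ℝ) ^ (∑ i, k i) * ((2 : ℝ) ^ ((4 * R + 8) * 2 ^ I) + 2) := by
  classical
  set PP : Finset ℕ := univ.biUnion P with hPP
  have hPPp : ∀ l ∈ PP, l.Prime := by
    intro l hl
    obtain ⟨i, _, hi⟩ := mem_biUnion.1 hl
    exact hP i l hi
  have hPPI : ∀ l ∈ PP, l ≤ 2 ^ 2 ^ I := by
    intro l hl
    obtain ⟨i, _, hi⟩ := mem_biUnion.1 hl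
    exact (hPB i l hi).trans hB
  set F : Finset (Fin r → Finset ℕ) := Fintype.piFinset (fun i => (P i).powersetCard (k i)) with hF
  have hFm : ∀ T ∈ F, ∀ i, T i ⊆ P i ∧ (T i).card = k i := by
    intro T hT i
    exact mem_powersetCard.1 (Fintype.mem_piFinset.1 hT i)
  -- the fibres
  have hfib : (((Ioc m (m + y)).filter (fun n => ∀ i, (DV (P i) n).card = k i)).card : ℝ) =
      ∑ T ∈ F, (((Ioc m (m + y)).filter (fun n => DV PP n = univ.biUnion T)).card : ℝ) := by
    have h1 := Finset.card_eq_sum_card_fiberwise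
      (s := (Ioc m (m + y)).filter (fun n => ∀ i, (DV (P i) n).card = k i)) (t := F)
      (f := fun n => fun i => DV (P i) n) (by
        intro n hn
        have hn' := (mem_filter.1 hn).2
        refine Finset.mem_coe.2 (Fintype.mem_piFinset.2 fun i => mem_powersetCard.2 ⟨filter_subset _ _, hn' i⟩))
    rw [h1]
    push_cast
    refine Finset.sum_congr rfl fun T hT => ?_
    congr 2
    ext n
    simp only [mem_filter]
    constructor
    · rintro ⟨⟨h2, _⟩, h3⟩
      refine ⟨h2, ?_⟩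
      ext l
      rw [mem_DV, hPP, mem_biUnion, mem_biUnion]
      constructor
      · rintro ⟨⟨i, hi, hl⟩, hd⟩
        refine ⟨i, hi, ?_⟩
        rw [← h3]
        exact mem_DV.2 ⟨hl, hd⟩
      · rintro ⟨i, hi, hl⟩
        rw [← h3] at hl
        exact ⟨⟨i, hi, (mem_DV.1 hl).1⟩, (mem_DV.1 hl).2⟩
    · rintro ⟨h2, h3⟩
      have h4 : (fun i => DV (P i) n) = T := by
        funext i
        ext l
        rw [mem_DV]
        constructor
        · rintro ⟨g1, g2⟩
          have g3 : l ∈ univ.biUnion T := by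
            rw [← h3, mem_DV]
            exact ⟨mem_biUnion.2 ⟨i, mem_univ _, g1⟩, g2⟩
          obtain ⟨j, _, hj⟩ := mem_biUnion.1 g3
          by_cases hij : i = j
          · rw [hij]; exact hj
          · exact absurd ((hFm T hT j).1 hj) (Finset.disjoint_left.1 (hdis i j hij) g1)
        · intro g1
          refine ⟨(hFm T hT i).1 g1, ?_⟩
          have g3 : l ∈ DV PP n := by
            rw [h3]
            exact mem_biUnion.2 ⟨i, mem_univ _, g1⟩
          exact (mem_DV.1 g3).2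
      refine ⟨⟨h2, fun i => ?_⟩, h4⟩
      have h5 : DV (P i) n = T i := congrFun h4 i
      rw [h5]
      exact (hFm T hT i).2
  -- the densities
  have hdens : ∀ T ∈ F, dT PP (univ.biUnion T) = ∏ i, dT (P i) (T i) := by
    intro T hT
    have hTdis : ∀ i ∈ (univ : Finset (Fin r)), ∀ j ∈ (univ : Finset (Fin r)), i ≠ j → Disjoint (T i) (T j) :=
      fun i _ j _ hij => Finset.disjoint_of_subset_left (hFm T hT i).1
        (Finset.disjoint_of_subset_right (hFm T hT j).1 (hdis i j hij))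
    have hsd : PP \ univ.biUnion T = univ.biUnion (fun i => P i \ T i) := by
      ext l
      simp only [hPP, Finset.mem_sdiff, mem_biUnion, mem_univ, true_and]
      constructor
      · rintro ⟨⟨i, hi⟩, h2⟩
        exact ⟨i, hi, fun h => h2 ⟨i, h⟩⟩
      · rintro ⟨i, hi1, hi2⟩
        refine ⟨⟨i, hi1⟩, ?_⟩
        rintro ⟨j, hj⟩
        by_cases hij : i = j
        · rw [hij] at hi2; exact hi2 hj
        · exact Finset.disjoint_left.1 (hdis i j hij) hi1 ((hFm T hT j).1 hj)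
    have hSdis : ∀ i ∈ (univ : Finset (Fin r)), ∀ j ∈ (univ : Finset (Fin r)), i ≠ j →
        Disjoint (P i \ T i) (P j \ T j) :=
      fun i _ j _ hij => Finset.disjoint_of_subset_left sdiff_subset
        (Finset.disjoint_of_subset_right sdiff_subset (hdis i j hij))
    unfold dT
    rw [hsd, Finset.prod_biUnion hTdis, Finset.prod_biUnion hSdis, ← Finset.prod_mul_distrib]
  have hsum : ∑ T ∈ F, dT PP (univ.biUnion T) = ∏ i, mu (P i) (k i) := by
    rw [Finset.sum_congr rfl hdens]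
    unfold mu
    rw [Finset.prod_univ_sum]
  -- the number of the sets
  have hcardF : (F.card : ℝ) ≤ (B : ℝ) ^ (∑ i, k i) := by
    rw [hF, Fintype.card_piFinset]
    push_cast
    rw [← Finset.prod_pow_eq_pow_sum]
    refine Finset.prod_le_prod (fun _ _ => by positivity) fun i _ => ?_
    rw [card_powersetCard]
    have h1 : (P i).card ≤ B := by
      calc (P i).card ≤ (Icc 1 B).card := Finset.card_le_card fun l hl =>
            mem_Icc.2 ⟨(hP i l hl).one_lt.le, hPB i l hl⟩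
        _ = B := by simp
    have h2 : (P i).card.choose (k i) ≤ B ^ k i :=
      (Nat.choose_le_pow _ _).trans (Nat.pow_le_pow_left h1 _)
    exact_mod_cast h2
  have hone : ∀ T ∈ F, |(((Ioc m (m + y)).filter (fun n => DV PP n = univ.biUnion T)).card : ℝ) -
      dT PP (univ.biUnion T) * y| ≤
      eR R * dT PP (univ.biUnion T) * y + ((2 : ℝ) ^ ((4 * R + 8) * 2 ^ I) + 2) := by
    intro T hT
    have hsub : univ.biUnion T ⊆ PP := by
      intro l hl
      obtain ⟨i, hi, hl'⟩ := mem_biUnion.1 hl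
      exact mem_biUnion.2 ⟨i, hi, (hFm T hT i).1 hl'⟩
    have h1 := fix_count hPPp hsub hR hI hPPI m y
    convert h1 using 5
  rw [hfib, ← hsum, Finset.sum_mul, ← Finset.sum_sub_distrib]
  refine (Finset.abs_sum_le_sum_abs _ _).trans ((Finset.sum_le_sum hone).trans ?_)
  rw [Finset.sum_add_distrib, Finset.sum_const, nsmul_eq_mul]
  have h3 : ∑ T ∈ F, eR R * dT PP (univ.biUnion T) * (y : ℝ) =
      eR R * (∑ T ∈ F, dT PP (univ.biUnion T)) * y := by
    rw [Finset.mul_sum, Finset.sum_mul]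
  rw [h3]
  have h4 : 0 ≤ (2 : ℝ) ^ ((4 * R + 8) * 2 ^ I) + 2 := by positivity
  have := mul_le_mul_of_nonneg_right hcardF h4
  have h5 : ∑ T ∈ F, dT PP (univ.biUnion T) * (y : ℝ) = (∑ T ∈ F, dT PP (univ.biUnion T)) * y := by
    rw [Finset.sum_mul]
  linarith

end Pool.Agent.H538
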