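import Pool.Agent.H538.G2

set_option autoImplicit false

/-!
# Mertens: the density of the integers with `k` prime factors in `(x, y]`
-/

namespace Pool.Agent.H538

open Finset Filter Topology

/-- the primes in `(x, y]` -/
noncomputable def PJ (x y : ℝ) : Finset ℕ := PZ ⌊x⌋₊ y

lemma mem_PJ {x y : ℝ} (hx : 0 ≤ x) (hy : 0 ≤ y) {l : ℕ} : l ∈ PJ x y ↔ l.Prime ∧ x < l ∧ (l : ℝ) ≤ y := by
  unfold PJ
  rw [mem_PZ hy, Nat.floor_lt hx]

/-- the weight `(1 / u) (log u) ^ k / k!` -/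
noncomputable def wgt (k : ℕ) (u : ℝ) : ℝ := u⁻¹ * (Real.log u) ^ k / k.factorial

lemma wgt_pos {k : ℕ} {u : ℝ} (hu : 1 < u) : 0 < wgt k u := by
  unfold wgt
  have := Real.log_pos hu
  positivity

lemma wgt_nonneg {k : ℕ} {u : ℝ} (hu : 1 ≤ u) : 0 ≤ wgt k u := by
  unfold wgt
  have := Real.log_nonneg hu
  positivity

lemma wgt_le_one {k : ℕ} {u : ℝ} (hu : 1 ≤ u) : wgt k u ≤ 1 := by
  unfold wgt
  have h0 := Real.log_nonneg hu
  have h1 : (Real.log u) ^ k / k.factorial ≤ Real.exp (Real.log u) := Real.pow_div_factorial_le_exp _ h0 k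
  rw [Real.exp_log (by linarith)] at h1
  rw [mul_div_assoc, inv_mul_le_iff₀ (by linarith), mul_one]
  exact h1

/-- the sum over the squares -/
lemma sum_sq_le {Q : ℕ} (hQ : 1 ≤ Q) {P : Finset ℕ} (hP : ∀ l ∈ P, Q < l) :
    ∑ l ∈ P, ((l : ℝ)⁻¹) ^ 2 ≤ 1 / Q := by
  have h1 : ∑ l ∈ P, ((l : ℝ)⁻¹) ^ 2 ≤ ∑ l ∈ P, (1 / ((l : ℝ) - 1) - 1 / l) := by
    refine Finset.sum_le_sum fun l hl => ?_
    have h2 := hP l hl
    have h3 : (2 : ℝ) ≤ l := by exact_mod_cast (by omega : 2 ≤ l)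
    rw [div_sub_div _ _ (by linarith) (by linarith), inv_pow, ← one_div, div_le_div_iff₀ (by positivity)
      (by nlinarith)]
    nlinarith
  refine h1.trans ?_
  set N := P.sup id with hN
  have hsub : P ⊆ Ioc Q (max Q N) := by
    intro l hl
    rw [mem_Ioc]
    exact ⟨hP l hl, (Finset.le_sup (f := id) hl).trans (le_max_right _ _)⟩
  have h2 : ∑ l ∈ P, (1 / ((l : ℝ) - 1) - 1 / l) ≤ ∑ l ∈ Ioc Q (max Q N), (1 / ((l : ℝ) - 1) - 1 / l) := by
    refine Finset.sum_le_sum_of_subset_of_nonneg hsub fun l hl _ => ?_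
    have h4 := (mem_Ioc.1 hl).1
    have h3 : (2 : ℝ) ≤ l := by exact_mod_cast (by omega : 2 ≤ l)
    rw [sub_nonneg]
    exact one_div_le_one_div_of_le (by linarith) (by linarith)
  refine h2.trans ?_
  have h3 : ∀ M : ℕ, Q ≤ M → ∑ l ∈ Ioc Q M, (1 / ((l : ℝ) - 1) - 1 / l) = 1 / Q - 1 / M := by
    intro M hM
    induction M, hM using Nat.le_induction with
    | base => simp
    | succ M hM ih =>
      rw [← Finset.sum_Ioc_consecutive _ hM (Nat.le_succ M), ih, Finset.sum_Ioc_succ_top (by omega)]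
      simp
  rw [h3 _ (le_max_left _ _)]
  have : (0 : ℝ) ≤ 1 / (max Q N : ℕ) := by positivity
  linarith

/-- the product of the `1 - 1 / l` -/
noncomputable def vP (P : Finset ℕ) : ℝ := ∏ l ∈ P, (1 - ((l : ℝ))⁻¹)

lemma vP_le {P : Finset ℕ} (hP : ∀ l ∈ P, l.Prime) : vP P ≤ Real.exp (-∑ l ∈ P, ((l : ℝ))⁻¹) := by
  unfold vP
  rw [← Finset.sum_neg_distrib, Real.exp_sum]
  refine Finset.prod_le_prod (fun l hl => one_sub_nonneg (hP l hl)) fun l _ => ?_
  have := Real.add_one_le_exp (-((l : ℝ))⁻¹)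
  linarith

lemma le_vP {P : Finset ℕ} (hP : ∀ l ∈ P, l.Prime) {Q : ℕ} (hQ : 1 ≤ Q) (hPQ : ∀ l ∈ P, Q < l) :
    Real.exp (-(∑ l ∈ P, ((l : ℝ))⁻¹) - 1 / Q) ≤ vP P := by
  have h1 : Real.exp (∑ l ∈ P, (-((l : ℝ))⁻¹ - ((l : ℝ)⁻¹) ^ 2)) ≤ vP P := by
    unfold vP
    rw [Real.exp_sum]
    refine Finset.prod_le_prod (fun l hl => (Real.exp_pos _).le) fun l hl => ?_
    have h2 : (2 : ℝ) ≤ l := by exact_mod_cast (hP l hl).two_le
    set x := ((l : ℝ))⁻¹ with hx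
    have hx0 : 0 ≤ x := by positivity
    have hx1 : x ≤ 1 / 2 := by rw [hx, ← one_div]; exact one_div_le_one_div_of_le (by norm_num) h2
    -- exp (-x - x^2) ≤ 1 - x
    have h3 : Real.exp (-(x + x ^ 2)) ≤ 1 / (1 + (x + x ^ 2) + (x + x ^ 2) ^ 2 / 2) := by
      rw [Real.exp_neg, ← one_div]
      exact one_div_le_one_div_of_le (by positivity) (Real.quadratic_le_exp_of_nonneg (by positivity))
    have h4 : 1 / (1 + (x + x ^ 2) + (x + x ^ 2) ^ 2 / 2) ≤ 1 - x := by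
      rw [div_le_iff₀ (by positivity)]
      have e : (1 - x) * (1 + (x + x ^ 2) + (x + x ^ 2) ^ 2 / 2) = 1 + x ^ 2 / 2 * (1 - x - x ^ 2 - x ^ 3) := by
        ring
      rw [e]
      have h5 : x ^ 2 ≤ 1 / 4 := by nlinarith
      have h6 : x ^ 3 ≤ 1 / 8 := by nlinarith [mul_nonneg hx0 (mul_nonneg hx0 hx0)]
      have h7 : 0 ≤ x ^ 2 / 2 * (1 - x - x ^ 2 - x ^ 3) := mul_nonneg (by positivity) (by linarith)
      linarith
    calc Real.exp (-x - x ^ 2) = Real.exp (-(x + x ^ 2)) := by ring_nf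
      _ ≤ _ := h3.trans h4
  refine le_trans (Real.exp_le_exp.2 ?_) h1
  rw [Finset.sum_sub_distrib, Finset.sum_neg_distrib]
  have := sum_sq_le hQ hPQ
  linarith

lemma vP_pos {P : Finset ℕ} (hP : ∀ l ∈ P, l.Prime) : 0 < vP P := by
  unfold vP
  refine Finset.prod_pos fun l hl => ?_
  have h2 : (2 : ℝ) ≤ l := by exact_mod_cast (hP l hl).two_le
  have : ((l : ℝ))⁻¹ ≤ 1 / 2 := by rw [← one_div]; exact one_div_le_one_div_of_le (by norm_num) h2
  linarith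

lemma dT_bounds {P T : Finset ℕ} (hP : ∀ l ∈ P, l.Prime) {Q : ℕ} (hQ : 1 ≤ Q) (hPQ : ∀ l ∈ P, Q < l)
    (hT : T ⊆ P) :
    vP P * ∏ l ∈ T, ((l : ℝ))⁻¹ ≤ dT P T ∧
      dT P T ≤ (1 + 1 / (Q : ℝ)) ^ T.card * (vP P * ∏ l ∈ T, ((l : ℝ))⁻¹) := by
  have hsplit : vP P = (∏ l ∈ P \ T, (1 - ((l : ℝ))⁻¹)) * ∏ l ∈ T, (1 - ((l : ℝ))⁻¹) := by
    unfold vP
    rw [Finset.prod_sdiff hT]
  have hT0 : 0 ≤ ∏ l ∈ T, ((l : ℝ))⁻¹ := Finset.prod_nonneg fun _ _ => by positivity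
  have hS0 : 0 ≤ ∏ l ∈ P \ T, (1 - ((l : ℝ))⁻¹) :=
    Finset.prod_nonneg fun l hl => one_sub_nonneg (hP l (Finset.mem_sdiff.1 hl).1)
  have hA1 : ∏ l ∈ T, (1 - ((l : ℝ))⁻¹) ≤ 1 :=
    Finset.prod_le_one (fun l hl => one_sub_nonneg (hP l (hT hl))) fun l _ => one_sub_le
  have hQ0 : (1 : ℝ) ≤ Q := by exact_mod_cast hQ
  have hA2 : 1 ≤ (1 + 1 / (Q : ℝ)) ^ T.card * ∏ l ∈ T, (1 - ((l : ℝ))⁻¹) := by
    rw [← Finset.prod_const, ← Finset.prod_mul_distrib]
    have h0 : ∏ l ∈ T, (1 : ℝ) ≤ ∏ l ∈ T, ((1 + 1 / (Q : ℝ)) * (1 - ((l : ℝ))⁻¹)) := by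
      refine Finset.prod_le_prod (fun _ _ => zero_le_one) ?_
      intro l hl
      have h3 := hPQ l (hT hl)
      have h4 : (Q : ℝ) + 1 ≤ l := by exact_mod_cast h3
      have hl0 : (0 : ℝ) < l := by linarith
      have e : (1 + 1 / (Q : ℝ)) * (1 - ((l : ℝ))⁻¹) = ((Q + 1) * (l - 1)) / (Q * l) := by
        field_simp
      rw [e, le_div_iff₀ (by positivity)]
      nlinarith
    rwa [Finset.prod_const_one] at h0
  unfold dT
  constructor
  · rw [hsplit]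
    calc _ = (∏ l ∈ T, ((l : ℝ))⁻¹) * (∏ l ∈ P \ T, (1 - ((l : ℝ))⁻¹)) * ∏ l ∈ T, (1 - ((l : ℝ))⁻¹) := by ring
      _ ≤ (∏ l ∈ T, ((l : ℝ))⁻¹) * (∏ l ∈ P \ T, (1 - ((l : ℝ))⁻¹)) * 1 :=
          mul_le_mul_of_nonneg_left hA1 (mul_nonneg hT0 hS0)
      _ = _ := by ring
  · rw [hsplit]
    calc (∏ l ∈ T, ((l : ℝ))⁻¹) * ∏ l ∈ P \ T, (1 - ((l : ℝ))⁻¹) =
          ((∏ l ∈ T, ((l : ℝ))⁻¹) * ∏ l ∈ P \ T, (1 - ((l : ℝ))⁻¹)) * 1 := by ring
      _ ≤ ((∏ l ∈ T, ((l : ℝ))⁻¹) * ∏ l ∈ P \ T, (1 - ((l : ℝ))⁻¹)) *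
          ((1 + 1 / (Q : ℝ)) ^ T.card * ∏ l ∈ T, (1 - ((l : ℝ))⁻¹)) :=
          mul_le_mul_of_nonneg_left hA2 (mul_nonneg hT0 hS0)
      _ = _ := by ring

lemma mu_bounds {P : Finset ℕ} (hP : ∀ l ∈ P, l.Prime) {Q : ℕ} (hQ : 1 ≤ Q) (hPQ : ∀ l ∈ P, Q < l) (k : ℕ) :
    vP P * esum P k ≤ mu P k ∧ mu P k ≤ (1 + 1 / (Q : ℝ)) ^ k * (vP P * esum P k) := by
  unfold mu esum
  constructor
  · rw [Finset.mul_sum]
    exact Finset.sum_le_sum fun T hT => (dT_bounds hP hQ hPQ (mem_powersetCard.1 hT).1).1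
  · rw [Finset.mul_sum, Finset.mul_sum]
    refine Finset.sum_le_sum fun T hT => ?_
    have h1 := (dT_bounds hP hQ hPQ (mem_powersetCard.1 hT).1).2
    rwa [(mem_powersetCard.1 hT).2] at h1

/-- Mertens for real endpoints -/
lemma S1_real : ∃ C : ℝ, 0 < C ∧ ∀ x y : ℝ, 3 ≤ x → x ≤ y →
    |S1 ⌊x⌋₊ y - Real.log (Real.log y / Real.log x)| ≤ C / Real.log x := by
  obtain ⟨C, hC0, hC⟩ := Pool.Agent.Helper923.HMertens.mertens_ratio
  refine ⟨2 * C + 4, by positivity, fun x y hx hxy => ?_⟩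
  have hx2 : 2 ≤ ⌊x⌋₊ := Nat.le_floor (by push_cast; linarith)
  have hxy' : ⌊x⌋₊ ≤ ⌊y⌋₊ := Nat.floor_mono hxy
  have h1 := hC ⌊x⌋₊ ⌊y⌋₊ hx2 hxy'
  have e1 : ∑ p ∈ (Finset.Ioc ⌊x⌋₊ ⌊y⌋₊).filter Nat.Prime, (1 : ℝ) / p = S1 ⌊x⌋₊ y := by
    unfold S1 PZ
    refine Finset.sum_congr rfl fun p _ => ?_
    rw [one_div]
  rw [e1] at h1
  -- floors
  have hfl : ∀ t : ℝ, 3 ≤ t → Real.log ⌊t⌋₊ ≤ Real.log t ∧ Real.log t ≤ Real.log ⌊t⌋₊ + 1 / 2 ∧
      1 / 2 * Real.log t ≤ Real.log ⌊t⌋₊ ∧ 1 / 2 < Real.log ⌊t⌋₊ := by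
    intro t ht
    have a0 : 3 ≤ ⌊t⌋₊ := Nat.le_floor (by push_cast; linarith)
    have a1 : (3 : ℝ) ≤ ⌊t⌋₊ := by exact_mod_cast a0
    have a2 : (⌊t⌋₊ : ℝ) ≤ t := Nat.floor_le (by linarith)
    have a3 : t < ⌊t⌋₊ + 1 := Nat.lt_floor_add_one t
    have a4 : Real.log t ≤ Real.log ⌊t⌋₊ + 1 / 2 := by
      have b1 : t ≤ ⌊t⌋₊ * (1 + 1 / 3) := by linarith
      have b2 := Real.log_le_log (by linarith) b1
      rw [Real.log_mul (by linarith) (by norm_num)] at b2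
      have b3 : Real.log (1 + 1 / 3 : ℝ) ≤ 1 / 3 := by
        have := Real.log_le_sub_one_of_pos (show (0 : ℝ) < 1 + 1 / 3 by norm_num)
        linarith
      linarith
    have a5 : 1 < Real.log ⌊t⌋₊ := by
      rw [Real.lt_log_iff_exp_lt (by linarith)]
      have := Real.exp_one_lt_d9
      linarith
    exact ⟨Real.log_le_log (by linarith) a2, a4, by linarith, by linarith⟩
  have hfl' : ∀ t : ℝ, 3 ≤ t → |Real.log (Real.log t) - Real.log (Real.log ⌊t⌋₊)| ≤ 1 / Real.log t := by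
    intro t ht
    obtain ⟨b1, b2, b3, b4⟩ := hfl t ht
    have hlt : 0 < Real.log t := by linarith
    have h2 : Real.log (Real.log ⌊t⌋₊) ≤ Real.log (Real.log t) := Real.log_le_log (by linarith) b1
    rw [abs_of_nonneg (by linarith), ← Real.log_div (by linarith) (by linarith)]
    have h3 := Real.log_le_sub_one_of_pos (show 0 < Real.log t / Real.log ⌊t⌋₊ by
      apply div_pos <;> linarith)
    refine h3.trans ?_
    have h4 : Real.log t / Real.log ⌊t⌋₊ - 1 = (Real.log t - Real.log ⌊t⌋₊) / Real.log ⌊t⌋₊ := by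
      rw [sub_div, div_self (by linarith : Real.log (⌊t⌋₊ : ℝ) ≠ 0)]
    rw [h4, div_le_div_iff₀ (by linarith) hlt]
    nlinarith
  obtain ⟨x1, x2, x3, x4⟩ := hfl x hx
  obtain ⟨y1, y2, y3, y4⟩ := hfl y (hx.trans hxy)
  have hlx : 0 < Real.log x := by linarith
  have hly : 0 < Real.log y := by linarith
  have hlxy : Real.log x ≤ Real.log y := Real.log_le_log (by linarith) hxy
  have h2 : C / Real.log ⌊x⌋₊ ≤ 2 * C / Real.log x := by
    rw [div_le_div_iff₀ (by linarith) hlx]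
    nlinarith
  have h3 := hfl' x hx
  have h4 := hfl' y (hx.trans hxy)
  have h5 : 1 / Real.log y ≤ 1 / Real.log x := one_div_le_one_div_of_le hlx hlxy
  rw [Real.log_div hly.ne' hlx.ne']
  rw [Real.log_div (by linarith) (by linarith)] at h1
  have h6 : (2 * C + 4) / Real.log x = 2 * C / Real.log x + 4 * (1 / Real.log x) := by ring
  rw [h6]
  have h7 : 0 < 1 / Real.log x := by positivity
  rw [abs_le] at h1 h3 h4 ⊢
  constructor <;> linarith [h1.1, h1.2, h3.1, h3.2, h4.1, h4.2]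

/-- the factors tend to one -/
lemma factor_small (k : ℕ) {lam0 ε : ℝ} (hl : 0 < lam0) (hε : 0 < ε) : ∃ t : ℝ, 0 < t ∧ (k + 1) * t ≤ lam0 ∧
    Real.exp t * (1 + t / lam0) ^ k * (1 + t) ^ k ≤ 1 + ε ∧
    1 - ε ≤ Real.exp (-(2 * t)) * (1 - (k + 1) * t / lam0) ^ k := by
  have c1 : Continuous fun t : ℝ => Real.exp t * (1 + t / lam0) ^ k * (1 + t) ^ k := by fun_prop
  have c2 : Continuous fun t : ℝ => Real.exp (-(2 * t)) * (1 - (k + 1) * t / lam0) ^ k := by fun_prop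
  have t1 := c1.tendsto 0
  have t2 := c2.tendsto 0
  simp only [Real.exp_zero, zero_div, add_zero, one_pow, mul_one, mul_zero, neg_zero, sub_zero] at t1 t2
  have e1 := t1.eventually (gt_mem_nhds (show (1 : ℝ) < 1 + ε by linarith))
  have e2 := t2.eventually (lt_mem_nhds (show (1 : ℝ) - ε < 1 by linarith))
  obtain ⟨δ, hδ, h⟩ := Metric.eventually_nhds_iff.1 (e1.and e2)
  refine ⟨min (δ / 2) (lam0 / (k + 1)), by positivity, ?_, ?_⟩
  · calc ((k : ℝ) + 1) * min (δ / 2) (lam0 / (k + 1)) ≤ (k + 1) * (lam0 / (k + 1)) := by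
          gcongr
          exact min_le_right _ _
      _ = lam0 := by field_simp
  · set t := min (δ / 2) (lam0 / (k + 1)) with ht
    have ht0 : 0 < t := by positivity
    have h1 := h (y := t) (by
      rw [Real.dist_eq, sub_zero, abs_of_pos ht0]
      have := min_le_left (δ / 2) (lam0 / (k + 1))
      linarith)
    exact ⟨h1.1.le, h1.2.le⟩

/-- **The density of the integers with exactly `k` prime factors in `(x, y]`.** -/
theorem mu_asymp (k : ℕ) {x0 ε : ℝ} (hx0 : 1 < x0) (hε : 0 < ε) : ∃ X0 : ℝ, 3 ≤ X0 ∧ ∀ x y : ℝ, X0 ≤ x →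
    x ^ x0 ≤ y → |mu (PJ x y) k - wgt k (Real.log y / Real.log x)| ≤ ε * wgt k (Real.log y / Real.log x) := by
  obtain ⟨C, hC, hS⟩ := S1_real
  have hl0 : 0 < Real.log x0 := Real.log_pos hx0
  obtain ⟨t, ht, htl, hup, hlo⟩ := factor_small k hl0 hε
  refine ⟨max (max 3 (Real.exp (C / t))) (1 + 1 / t), (le_max_left _ _).trans (le_max_left _ _),
    fun x y hx hxy => ?_⟩
  have hx3 : 3 ≤ x := ((le_max_left _ _).trans (le_max_left _ _)).trans hx
  have hxC : Real.exp (C / t) ≤ x := ((le_max_right _ _).trans (le_max_left _ _)).trans hx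
  have hxt : 1 + 1 / t ≤ x := (le_max_right _ _).trans hx
  have hx1 : 1 ≤ x := by linarith
  have hxy' : x ≤ y := by
    calc x = x ^ (1 : ℝ) := (Real.rpow_one x).symm
      _ ≤ x ^ x0 := Real.rpow_le_rpow_of_exponent_le hx1 hx0.le
      _ ≤ y := hxy
  have hlx : 0 < Real.log x := Real.log_pos (by linarith)
  have hly : x0 * Real.log x ≤ Real.log y := by
    rw [← Real.log_rpow (by linarith)]
    exact Real.log_le_log (by positivity) hxy
  set u := Real.log y / Real.log x with hu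
  have hux : x0 ≤ u := by rw [hu, le_div_iff₀ hlx]; exact hly
  have hu0 : 0 < u := by linarith
  set lam := Real.log u with hlam
  have hlam0 : Real.log x0 ≤ lam := Real.log_le_log (by linarith) hux
  have hlampos : 0 < lam := by linarith
  have hClx : C / Real.log x ≤ t := by
    rw [div_le_iff₀ hlx]
    have := (Real.le_log_iff_exp_le (by linarith)).2 hxC
    rw [div_le_iff₀ ht] at this
    linarith
  set Q := ⌊x⌋₊ with hQ
  have hQ2 : 2 ≤ Q := Nat.le_floor (by push_cast; linarith)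
  have hQt : 1 / (Q : ℝ) ≤ t := by
    have h1 : x < Q + 1 := Nat.lt_floor_add_one x
    have h2 : 1 / t ≤ Q := by linarith
    rw [div_le_iff₀ (by positivity)]
    rw [div_le_iff₀ ht] at h2
    linarith
  have hPp : ∀ l ∈ PJ x y, l.Prime := fun l hl => ((mem_PZ (by linarith)).1 hl).1
  have hPQ : ∀ l ∈ PJ x y, Q < l := fun l hl => ((mem_PZ (by linarith)).1 hl).2.1
  obtain ⟨m1, m2⟩ := mu_bounds hPp (by omega : 1 ≤ Q) hPQ k
  set s := ∑ l ∈ PJ x y, ((l : ℝ))⁻¹ with hs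
  have hsS : |s - lam| ≤ t := (hS x y hx3 hxy').trans hClx
  obtain ⟨s1, s2⟩ := abs_le.1 hsS
  have hv1 := vP_le hPp
  have hv2 := le_vP hPp (by omega : 1 ≤ Q) hPQ
  rw [← hs] at hv1 hv2
  have hexpu : Real.exp (-lam) = u⁻¹ := by rw [Real.exp_neg, hlam, Real.exp_log hu0]
  have hkf : (0 : ℝ) < k.factorial := by positivity
  have he1 := esum_le k (PJ x y)
  rw [← hs] at he1
  have ht1 : t ≤ Real.log x0 := by
    have : (0 : ℝ) ≤ k * t := by positivity
    linarith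
  have hkt : ((k : ℝ) + 1) * t ≤ lam := htl.trans hlam0
  have he2 := le_esum k ht.le (PJ x y) (fun l hl => by
    have h3 := hPQ l hl
    have h4 : (Q : ℝ) ≤ l := by exact_mod_cast h3.le
    refine le_trans ?_ hQt
    rw [← one_div]
    exact one_div_le_one_div_of_le (by positivity) h4) (by rw [← hs]; linarith)
  rw [← hs] at he2
  have hvpos := vP_pos hPp
  have hes := esum_nonneg (PJ x y) k
  have hwdef : wgt k u = u⁻¹ * lam ^ k / k.factorial := rfl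
  have hw0 : 0 ≤ wgt k u := wgt_nonneg (by linarith)
  rw [abs_le]
  constructor
  · -- lower bound
    have g1 : Real.exp (-(2 * t)) * u⁻¹ ≤ vP (PJ x y) := by
      refine le_trans ?_ hv2
      rw [← hexpu, ← Real.exp_add]
      apply Real.exp_le_exp.2
      linarith
    have g2 : (1 - (k + 1) * t / Real.log x0) * lam ≤ s - k * t := by
      have g3 : (k + 1) * t ≤ (k + 1) * t / Real.log x0 * lam := by
        rw [div_mul_eq_mul_div, le_div_iff₀ hl0]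
        exact mul_le_mul_of_nonneg_left hlam0 (by positivity)
      nlinarith
    have g4 : 0 ≤ (1 - (k + 1) * t / Real.log x0) * lam := by
      apply mul_nonneg _ hlampos.le
      rw [sub_nonneg, div_le_one hl0]
      exact htl
    have g5 : ((1 - (k + 1) * t / Real.log x0) * lam) ^ k / k.factorial ≤ esum (PJ x y) k := by
      rw [div_le_iff₀ hkf, mul_comm (esum _ _)]
      exact (pow_le_pow_left₀ g4 g2 k).trans he2
    have g6 : (1 - ε) * wgt k u ≤ mu (PJ x y) k := by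
      calc (1 - ε) * wgt k u ≤ (Real.exp (-(2 * t)) * (1 - (k + 1) * t / Real.log x0) ^ k) * wgt k u :=
            mul_le_mul_of_nonneg_right hlo hw0
        _ = (Real.exp (-(2 * t)) * u⁻¹) * (((1 - (k + 1) * t / Real.log x0) * lam) ^ k / k.factorial) := by
            rw [hwdef, mul_pow]; ring
        _ ≤ vP (PJ x y) * esum (PJ x y) k :=
            mul_le_mul g1 g5 (div_nonneg (pow_nonneg g4 k) hkf.le) hvpos.le
        _ ≤ _ := m1
    linarith
  · -- upper bound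
    have g1 : vP (PJ x y) ≤ Real.exp t * u⁻¹ := by
      refine hv1.trans ?_
      rw [← hexpu, ← Real.exp_add]
      apply Real.exp_le_exp.2
      linarith
    have g2 : s ≤ (1 + t / Real.log x0) * lam := by
      have g3 : t ≤ t / Real.log x0 * lam := by
        rw [div_mul_eq_mul_div, le_div_iff₀ hl0]
        exact mul_le_mul_of_nonneg_left hlam0 ht.le
      nlinarith
    have hs0 : 0 ≤ s := Finset.sum_nonneg fun _ _ => by positivity
    have g5 : esum (PJ x y) k ≤ ((1 + t / Real.log x0) * lam) ^ k / k.factorial := by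
      rw [le_div_iff₀ hkf, mul_comm (esum _ _)]
      exact he1.trans (pow_le_pow_left₀ hs0 g2 k)
    have g7 : (1 + 1 / (Q : ℝ)) ^ k ≤ (1 + t) ^ k := pow_le_pow_left₀ (by positivity) (by linarith) k
    have g6 : mu (PJ x y) k ≤ (1 + ε) * wgt k u := by
      calc mu (PJ x y) k ≤ (1 + 1 / (Q : ℝ)) ^ k * (vP (PJ x y) * esum (PJ x y) k) := m2
        _ ≤ (1 + t) ^ k * ((Real.exp t * u⁻¹) * (((1 + t / Real.log x0) * lam) ^ k / k.factorial)) := by
            apply mul_le_mul g7 _ (mul_nonneg hvpos.le hes) (by positivity)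
            exact mul_le_mul g1 g5 hes (by positivity)
        _ = (Real.exp t * (1 + t / Real.log x0) ^ k * (1 + t) ^ k) * wgt k u := by
            rw [hwdef, mul_pow]; ring
        _ ≤ _ := mul_le_mul_of_nonneg_right hup hw0
    linarith

end Pool.Agent.H538
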