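import Pool.Agent.H538.S7

set_option autoImplicit false

/-!
# The law for sieved events with a local density, for almost every amplitude
-/

namespace Pool.Agent.H538

open Finset Filter Topology MeasureTheory
open Pool.Agent.TH888.R (wt wt_nonneg wt_le_one)
open Pool.Agent.Y895.PM (U01)
open Pool.Agent.Y895.OL (gF VI FI)
open Pool.Agent.Y895.PT (lim_of_close2)

theorem block_law {b : ℕ} (hb : 2 ≤ b) {A : ℕ → ℕ → Prop} {η c : ℝ} (hη : 0 < η) (hA : Sieved A η)
    (hc : 0 < c) (hD : HasDens b A c) (a j : ℕ) (ha : 1 ≤ a)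
    (S : Set ℕ) (hdiv : Tendsto (VI {p | p.Prime} wt S) atTop atTop) :
    ∀ᵐ t ∂U01, Tendsto (fun n : ℕ =>
      FI {p | p.Prime} (gF (ind A) b (fun q => a * b ^ (q - j)) (fun q => q - j)) S n t /
        VI {p | p.Prime} wt S n) atTop (𝓝 c) := by
  have h1 : ∀ k : ℕ, ∀ᵐ t ∂U01, ∀ᶠ n : ℕ in atTop, (1 - 1 / ((k : ℝ) + 2)) * c * VI {p | p.Prime} wt S n ≤
        FI {p | p.Prime} (gF (ind A) b (fun q => a * b ^ (q - j)) (fun q => q - j)) S n t ∧
      FI {p | p.Prime} (gF (ind A) b (fun q => a * b ^ (q - j)) (fun q => q - j)) S n t ≤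
        (1 + 1 / ((k : ℝ) + 2)) * c * VI {p | p.Prime} wt S n := by
    intro k
    have hk : (0 : ℝ) < (k : ℝ) + 2 := by positivity
    have h2 := block_sharp hb hη hA hc hD a j ha (ε := c / (2 * ((k : ℝ) + 2))) (by positivity) (by
      rw [mul_div_assoc']
      rw [div_le_iff₀ (by positivity)]
      have : (0 : ℝ) ≤ k := Nat.cast_nonneg k
      nlinarith) S hdiv
    filter_upwards [h2] with t ht
    filter_upwards [ht] with n hn
    have e1 : (1 - 1 / ((k : ℝ) + 2)) * c = c - 2 * (c / (2 * ((k : ℝ) + 2))) := by field_simp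
    have e2 : (1 + 1 / ((k : ℝ) + 2)) * c = c + 2 * (c / (2 * ((k : ℝ) + 2))) := by field_simp
    rw [e1, e2]
    exact hn
  filter_upwards [ae_all_iff.2 h1] with t ht
  exact lim_of_close2 hc hdiv ht

lemma ae_affine {P : ℝ → Prop} (h : ∀ᵐ t : ℝ, P t) {c : ℝ} (hc : c ≠ 0) (d : ℝ) :
    ∀ᵐ x : ℝ, P (x * c + d) := by
  have h1 : ∀ᵐ x : ℝ, P (x + d) :=
    (measurePreserving_add_right volume d).quasiMeasurePreserving.ae h
  have h2 : Measure.QuasiMeasurePreserving (fun x : ℝ => x * c) volume volume := by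
    refine ⟨measurable_mul_const c, ?_⟩
    rw [Real.map_volume_mul_right hc]
    exact Measure.smul_absolutelyContinuous
  exact h2.ae h1

open Classical in
/-- the number of primes `p ≤ n` in `S` with `A p (⌈β b ^ p⌉ - 1)` -/
noncomputable def cA (A : ℕ → ℕ → Prop) (b : ℕ) (S : Set ℕ) (β : ℝ) (n : ℕ) : ℕ :=
  ((Finset.range (n + 1)).filter (fun p => p.Prime ∧ p ∈ S ∧ A p (⌈β * (b : ℝ) ^ p⌉₊ - 1))).card

open Classical in
/-- the weight -/
noncomputable def vS (S : Set ℕ) (n : ℕ) : ℝ :=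
  ∑ p ∈ (Finset.range (n + 1)).filter (fun p => p.Prime ∧ p ∈ S), Real.log p / p

lemma vS_eq (S : Set ℕ) (n : ℕ) : vS S n = VI {p | p.Prime} wt S n := by
  classical
  unfold vS VI
  rw [Finset.sum_filter]
  refine Finset.sum_congr rfl fun p _ => ?_
  by_cases h : p.Prime ∧ p ∈ S
  · rw [if_pos h, if_pos ⟨h.2, h.1⟩]
    rfl
  · rw [if_neg h, if_neg fun h1 => h ⟨h1.2, h1.1⟩]

/-- the integers of the block model -/
lemma ceil_eq {x : ℝ} (hx : 0 ≤ x) (h : ∀ k : ℕ, x ≠ k) (c : ℕ) : ⌈(c : ℝ) + x⌉₊ - 1 = c + ⌊x⌋₊ := by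
  have h1 : ⌈(c : ℝ) + x⌉₊ = c + ⌊x⌋₊ + 1 := by
    rw [Nat.ceil_eq_iff (by omega)]
    have h2 := Nat.floor_le hx
    have h3 := Nat.lt_floor_add_one x
    have h4 : (⌊x⌋₊ : ℝ) < x := lt_of_le_of_ne h2 (h _).symm
    constructor
    · push_cast [Nat.add_sub_cancel]
      linarith
    · push_cast
      linarith
  omega

theorem law_beta {b : ℕ} (hb : 2 ≤ b) {A : ℕ → ℕ → Prop} {η c : ℝ} (hη : 0 < η) (hA : Sieved A η)
    (hc : 0 < c) (hD : HasDens b A c) (S : Set ℕ) (hdiv : Tendsto (vS S) atTop atTop) :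
    ∀ᵐ β : ℝ, 0 < β → Tendsto (fun n : ℕ => (cA A b S β n : ℝ) / vS S n) atTop (𝓝 c) := by
  classical
  have hbr : (2 : ℝ) ≤ b := by exact_mod_cast hb
  have hb0 : (0 : ℝ) < b := by linarith
  have hvs : vS S = VI {p | p.Prime} wt S := funext (vS_eq S)
  have hdiv' : Tendsto (VI {p | p.Prime} wt S) atTop atTop := by rw [← hvs]; exact hdiv
  have hb1 : ∀ a j : ℕ, ∀ᵐ β : ℝ, 1 ≤ a → 0 ≤ β * (b : ℝ) ^ j + (-(a : ℝ)) → β * (b : ℝ) ^ j + (-(a : ℝ)) < 1 →
      Tendsto (fun n : ℕ => (cA A b S β n : ℝ) / vS S n) atTop (𝓝 c) := by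
    intro a j
    by_cases ha : 1 ≤ a
    swap
    · exact Eventually.of_forall fun β h => absurd h ha
    have h1 := block_law hb hη hA hc hD a j ha S hdiv'
    unfold U01 at h1
    rw [ae_restrict_iff' measurableSet_Ico] at h1
    have h2 : ∀ᵐ t : ℝ, ∀ M k : ℕ, t ≠ k / (b : ℝ) ^ M := by
      rw [ae_all_iff]
      intro M
      rw [ae_all_iff]
      intro k
      exact Measure.ae_ne volume _
    have h3 := ae_affine (h1.and h2) (c := (b : ℝ) ^ j) (by positivity) (-(a : ℝ))
    filter_upwards [h3] with β hβ _ g0 g1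
    obtain ⟨hβ1, hβ2⟩ := hβ
    set t := β * (b : ℝ) ^ j + (-(a : ℝ)) with ht
    have hlim := hβ1 ⟨g0, g1⟩
    -- comparison of the counting functions
    have hval : ∀ p ≥ j, ⌈β * (b : ℝ) ^ p⌉₊ - 1 = a * b ^ (p - j) + ⌊(b : ℝ) ^ (p - j) * t⌋₊ := by
      intro p hp
      have e1 : β * (b : ℝ) ^ p = ((a * b ^ (p - j) : ℕ) : ℝ) + (b : ℝ) ^ (p - j) * t := by
        have : (b : ℝ) ^ p = (b : ℝ) ^ j * (b : ℝ) ^ (p - j) := by
          rw [← pow_add, Nat.add_sub_cancel' hp]
        rw [this, ht]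
        push_cast
        ring
      rw [e1, ceil_eq (by positivity)]
      intro k hk
      have h0 : (0 : ℝ) < (b : ℝ) ^ (p - j) := by positivity
      refine hβ2 (p - j) k ?_
      rw [eq_div_iff h0.ne']
      linarith
    have hcmp : ∀ n : ℕ, |(cA A b S β n : ℝ) -
        FI {p | p.Prime} (gF (ind A) b (fun q => a * b ^ (q - j)) (fun q => q - j)) S n t| ≤ j := by
      intro n
      have e1 : (cA A b S β n : ℝ) = ∑ p ∈ range (n + 1), if p ∈ S ∧ p ∈ {p : ℕ | p.Prime} then
          ind A p (⌈β * (b : ℝ) ^ p⌉₊ - 1) else 0 := by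
        unfold cA
        rw [Finset.card_filter, Nat.cast_sum]
        refine Finset.sum_congr rfl fun p _ => ?_
        unfold ind
        by_cases g1 : p.Prime <;> by_cases g2 : p ∈ S <;> by_cases g3 : A p (⌈β * (b : ℝ) ^ p⌉₊ - 1) <;>
          simp [g1, g2, g3]
      rw [e1]
      unfold FI
      rw [← Finset.sum_sub_distrib]
      have e2 : ∀ p ∈ range (n + 1), |((if p ∈ S ∧ p ∈ {p : ℕ | p.Prime} then
          ind A p (⌈β * (b : ℝ) ^ p⌉₊ - 1) else 0) - (if p ∈ S ∧ p ∈ {p : ℕ | p.Prime} then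
          gF (ind A) b (fun q => a * b ^ (q - j)) (fun q => q - j) p t else 0))| ≤
          if p < j then 1 else 0 := by
        intro p _
        by_cases hp : p < j
        · rw [if_pos hp]
          split_ifs
          · unfold gF
            have k1 := ind_nonneg A p (⌈β * (b : ℝ) ^ p⌉₊ - 1)
            have k2 := ind_le_one A p (⌈β * (b : ℝ) ^ p⌉₊ - 1)
            have k3 := ind_nonneg A p (a * b ^ (p - j) + ⌊(b : ℝ) ^ (p - j) * t⌋₊)
            have k4 := ind_le_one A p (a * b ^ (p - j) + ⌊(b : ℝ) ^ (p - j) * t⌋₊)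
            rw [abs_le]
            constructor <;> linarith
          · simp
        · rw [if_neg hp]
          push Not at hp
          have e3 : gF (ind A) b (fun q => a * b ^ (q - j)) (fun q => q - j) p t =
              ind A p (⌈β * (b : ℝ) ^ p⌉₊ - 1) := by
            unfold gF
            rw [hval p hp]
          rw [e3, sub_self, abs_zero]
      refine (Finset.abs_sum_le_sum_abs _ _).trans ((Finset.sum_le_sum
        (g := fun p => if p < j then (1 : ℝ) else 0) fun p hp => ?_).trans ?_)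
      · refine le_trans (le_of_eq ?_) (e2 p hp)
        congr!
      rw [← Finset.sum_filter, Finset.sum_const, nsmul_eq_mul, mul_one]
      have e4 : ((range (n + 1)).filter (fun p => p < j)).card ≤ j := by
        calc ((range (n + 1)).filter (fun p => p < j)).card ≤ (range j).card :=
              Finset.card_le_card fun p hp => by
                rw [Finset.mem_filter] at hp
                exact Finset.mem_range.2 hp.2
          _ = j := card_range j
      exact_mod_cast e4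
    rw [hvs]
    have hdiff : Tendsto (fun n : ℕ => ((cA A b S β n : ℝ) -
        FI {p | p.Prime} (gF (ind A) b (fun q => a * b ^ (q - j)) (fun q => q - j)) S n t) /
        VI {p | p.Prime} wt S n) atTop (𝓝 0) := by
      have h4 : Tendsto (fun n : ℕ => (j : ℝ) / VI {p | p.Prime} wt S n) atTop (𝓝 0) :=
        hdiv'.const_div_atTop _
      refine squeeze_zero_norm' ?_ h4
      filter_upwards [hdiv'.eventually_gt_atTop 0] with n hn
      rw [Real.norm_eq_abs, abs_div, abs_of_pos hn]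
      exact div_le_div_of_nonneg_right (hcmp n) hn.le
    have hadd := hdiff.add hlim
    rw [zero_add] at hadd
    refine hadd.congr fun n => ?_
    ring
  have hall : ∀ᵐ β : ℝ, ∀ a j : ℕ, 1 ≤ a → 0 ≤ β * (b : ℝ) ^ j + (-(a : ℝ)) → β * (b : ℝ) ^ j + (-(a : ℝ)) < 1 →
      Tendsto (fun n : ℕ => (cA A b S β n : ℝ) / vS S n) atTop (𝓝 c) := by
    rw [ae_all_iff]
    intro a
    rw [ae_all_iff]
    exact hb1 a
  filter_upwards [hall] with β hβ hβ0
  obtain ⟨j, hj⟩ := pow_unbounded_of_one_lt (1 / β) (show (1 : ℝ) < b by linarith)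
  have h1 : 1 < β * (b : ℝ) ^ j := by
    rw [div_lt_iff₀ hβ0] at hj
    linarith
  have h2 := Nat.floor_le (show 0 ≤ β * (b : ℝ) ^ j by linarith)
  have h3 := Nat.lt_floor_add_one (β * (b : ℝ) ^ j)
  exact hβ ⌊β * (b : ℝ) ^ j⌋₊ j (Nat.le_floor (by push_cast; linarith)) (by linarith) (by linarith)

end Pool.Agent.H538
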