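import Pool.Agent.H538.K9
import Pool.Agent.H538.S8

set_option autoImplicit false

/-!
# Weights, local densities and the abstract law with a general row bound
-/

namespace Pool.Agent.H538

open Finset Filter Topology MeasureTheory
open Pool.Agent.TH888.R (gr gr_mono one_le_gr)
open Pool.Agent.Y895.OL (gF gM cg Row row_of ae_U01 floor_lt_pow VI FI VI_tail FI_tail VI_nonneg)

/-- the weight of the integers with `j + 1` prime factors -/
noncomputable def wk (j q : ℕ) : ℝ := (Real.log q) ^ (j + 1) / ((j + 1).factorial * q)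

lemma wk_nonneg (j q : ℕ) : 0 ≤ wk j q := by
  have := Real.log_natCast_nonneg q
  unfold wk
  positivity

lemma wk_le_one (j q : ℕ) : wk j q ≤ 1 := by
  unfold wk
  rcases Nat.eq_zero_or_pos q with h | h
  · subst h; simp
  · have hq0 : (0 : ℝ) < q := by exact_mod_cast h
    have h1 := Real.pow_div_factorial_le_exp (Real.log q) (Real.log_natCast_nonneg q) (j + 1)
    rw [Real.exp_log hq0] at h1
    have hf : (0 : ℝ) < (j + 1).factorial := by exact_mod_cast Nat.factorial_pos _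
    rw [div_le_iff₀ hf] at h1
    rw [div_le_one (by positivity)]
    linarith

/-- block sums as counts -/
lemma block_KC (j q : ℕ) {B L : ℕ} (hB : 1 ≤ B) :
    ∑ D ∈ range L, ind (AK j) q (B + D) = KC (j + 1) q ((B : ℝ) + L - 1) L := by
  classical
  unfold KC
  have e1 : ⌊(B : ℝ) + L - 1 - L⌋₊ = B - 1 := by
    have : (B : ℝ) + L - 1 - L = ((B - 1 : ℕ) : ℝ) := by push_cast [hB]; ring
    rw [this, Nat.floor_natCast]
  have e2 : ⌊(B : ℝ) + L - 1⌋₊ = B + L - 1 := by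
    have : (B : ℝ) + L - 1 = ((B + L - 1 : ℕ) : ℝ) := by
      rw [Nat.cast_sub (by omega)]; push_cast; ring
    rw [this, Nat.floor_natCast]
  rw [e1, e2]
  have e3 : Ioc (B - 1) (B + L - 1) = Ico B (B + L) := by
    ext x; simp only [mem_Ioc, mem_Ico]; omega
  have e4 := Finset.sum_Ico_eq_sum_range (fun n => ind (AK j) q n) B (B + L)
  rw [Nat.add_sub_cancel_left] at e4
  rw [e3, ← e4, Finset.card_filter, Nat.cast_sum]
  refine Finset.sum_congr rfl fun n _ => ?_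
  unfold ind
  by_cases h : AK j q n
  · rw [if_pos h, if_pos (show Om q n = j + 1 from h)]; simp
  · rw [if_neg h, if_neg (show ¬ Om q n = j + 1 from h)]; simp

/-- the constant -/
noncomputable def ck (b j : ℕ) : ℝ := (j + 1) * Real.exp Real.eulerMascheroniConstant / Real.log b

theorem AK_dens {b : ℕ} (hb : 2 ≤ b) (j : ℕ) : ∀ ε : ℝ, 0 < ε → ∃ (δ : ℝ) (K0 : ℕ),
    0 < δ ∧ δ ≤ 1 / 8 ∧ ∀ C : ℝ, 0 < C → ∃ P : ℕ, ∀ q ≥ P, ∀ B L : ℕ, K0 * L ≤ B →
    (B : ℝ) ≤ C * (b : ℝ) ^ q → Real.exp ((1 - δ) * (q * Real.log b)) ≤ L →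
    |∑ D ∈ range L, ind (AK j) q (B + D) - ck b j * wk j q * L| ≤ ε * wk j q * L := by
  intro ε hε
  have hbr : (2 : ℝ) ≤ b := by exact_mod_cast hb
  have hb0 : (0 : ℝ) < b := by linarith
  have hlb : 0 < Real.log b := Real.log_pos (by linarith)
  have hf : (0 : ℝ) < (j + 1).factorial := by exact_mod_cast Nat.factorial_pos _
  obtain ⟨δ, κ, hδ, hδ8, hκ, hκ4, hd⟩ := densK j (show 0 < ε * Real.log b / (j + 1).factorial by positivity)
  refine ⟨δ, ⌈1 / κ⌉₊, hδ, hδ8, fun C hC => ?_⟩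
  obtain ⟨P, hP2, hP⟩ := hd (Real.log b) hlb |Real.log (2 * C)| (abs_nonneg _)
  refine ⟨P, fun q hq B L hKL hBC hL => ?_⟩
  have hL0 : (0 : ℝ) < L := lt_of_lt_of_le (Real.exp_pos _) hL
  have hL1 : 1 ≤ L := by exact_mod_cast (Nat.cast_pos.1 hL0)
  have hL1r : (1 : ℝ) ≤ L := by exact_mod_cast hL1
  have hK : 1 / κ ≤ (⌈1 / κ⌉₊ : ℝ) := Nat.le_ceil _
  have hKLr : (⌈1 / κ⌉₊ : ℝ) * L ≤ B := by exact_mod_cast hKL
  have hLB : (L : ℝ) ≤ κ * B := by
    have h1 : 1 / κ * L ≤ B := (mul_le_mul_of_nonneg_right hK hL0.le).trans hKLr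
    rw [div_mul_eq_mul_div, div_le_iff₀ hκ, one_mul] at h1
    linarith
  have hB0 : (0 : ℝ) < B := by
    by_contra h
    push Not at h
    have : κ * B ≤ 0 := mul_nonpos_of_nonneg_of_nonpos hκ.le h
    linarith
  have hB1 : 1 ≤ B := by exact_mod_cast (Nat.cast_pos.1 hB0)
  have hLB' : (L : ℝ) ≤ B := by
    have : κ * B ≤ 1 * B := mul_le_mul_of_nonneg_right (by linarith) hB0.le
    linarith
  have hq2 : 2 ≤ q := hP2.trans hq
  have hq0 : (0 : ℝ) < q := by exact_mod_cast (by omega : 0 < q)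
  have h1 := hP q hq ((B : ℝ) + L - 1) L hL (by
      refine hLB.trans (mul_le_mul_of_nonneg_left (by linarith) hκ.le)) (by
      have h2 : (B : ℝ) + L - 1 ≤ 2 * C * (b : ℝ) ^ q := by linarith
      refine h2.trans ?_
      rw [Real.exp_add, Real.exp_nat_mul, Real.exp_log hb0]
      have h3 : 2 * C ≤ Real.exp |Real.log (2 * C)| := by
        calc 2 * C = Real.exp (Real.log (2 * C)) := (Real.exp_log (by positivity)).symm
          _ ≤ _ := Real.exp_le_exp.2 (le_abs_self _)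
      calc 2 * C * (b : ℝ) ^ q ≤ Real.exp |Real.log (2 * C)| * (b : ℝ) ^ q :=
            mul_le_mul_of_nonneg_right h3 (by positivity)
        _ = _ := by ring)
  rw [block_KC j q hB1]
  set N : ℝ := (KC (j + 1) q ((B : ℝ) + L - 1) L : ℝ) with hN
  have hqa : 0 < q * Real.log b := by positivity
  have hfs : (((j + 1).factorial : ℕ) : ℝ) = (j + 1) * j.factorial := by
    rw [Nat.factorial_succ]; push_cast; ring
  have hfj : (0 : ℝ) < j.factorial := by exact_mod_cast Nat.factorial_pos _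
  have e1 : N - ck b j * wk j q * L =
      (N * (q * Real.log b) - Real.exp Real.eulerMascheroniConstant / j.factorial * Real.log q ^ (j + 1) * L) /
        (q * Real.log b) := by
    unfold ck wk
    rw [hfs]
    field_simp
  rw [e1, abs_div, abs_of_pos hqa, div_le_iff₀ hqa]
  refine h1.trans (le_of_eq ?_)
  unfold wk
  field_simp

/-- a power bound for the error function -/
lemma gr_pow {s : ℝ} (hs : 0 < s) : ∃ C : ℝ, 0 < C ∧ ∀ v : ℝ, 0 ≤ v → gr v ≤ C * (1 + v) ^ (1 / 2 + s) := by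
  refine ⟨(1 + 2 / s) ^ 2, by positivity, fun v hv => ?_⟩
  unfold gr
  set w := 1 + v with hw
  have hw1 : 1 ≤ w := by linarith
  have hw0 : 0 < w := by linarith
  have h1 : Real.log w ≤ w ^ (s / 2) / (s / 2) := Real.log_le_rpow_div hw0.le (by positivity)
  have h2 : 1 ≤ w ^ (s / 2) := Real.one_le_rpow hw1 (by positivity)
  have h3 : 1 + Real.log w ≤ (1 + 2 / s) * w ^ (s / 2) := by
    have e : w ^ (s / 2) / (s / 2) = 2 / s * w ^ (s / 2) := by field_simp
    rw [e] at h1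
    linarith
  have h4 : 0 ≤ Real.log w := Real.log_nonneg hw1
  have h5 : (1 + Real.log w) ^ 2 ≤ (1 + 2 / s) ^ 2 * w ^ s := by
    calc (1 + Real.log w) ^ 2 ≤ ((1 + 2 / s) * w ^ (s / 2)) ^ 2 := pow_le_pow_left₀ (by linarith) h3 2
      _ = (1 + 2 / s) ^ 2 * (w ^ (s / 2) * w ^ (s / 2)) := by ring
      _ = _ := by
          rw [← Real.rpow_add hw0]
          congr 2
          ring
  calc Real.sqrt w * (1 + Real.log w) ^ 2 ≤ w ^ ((1 : ℝ) / 2) * ((1 + 2 / s) ^ 2 * w ^ s) := by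
        rw [Real.sqrt_eq_rpow]
        gcongr
    _ = (1 + 2 / s) ^ 2 * (w ^ ((1 : ℝ) / 2) * w ^ s) := by ring
    _ = _ := by rw [← Real.rpow_add hw0]

variable {Ω : Type*} [MeasurableSpace Ω]

variable {μ : Measure Ω} [IsFiniteMeasure μ] {f m : ℕ → Ω → ℝ} {I : Set ℕ} {w lam : ℕ → ℝ} {P : ℕ}

open Classical in
/-- **The order law with sharp constants and a general row bound.** -/
theorem row_sharpL (h : Row μ f m I w lam P) {c0 K e : ℝ} (hc0 : 0 < c0) (hK : 0 < K) (he : 0 < e)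
    (hlo : ∀ᵐ x ∂μ, ∀ q ≥ P, q ∈ I → c0 * w q ≤ m q x)
    (hup : ∀ᵐ x ∂μ, ∀ q ≥ P, q ∈ I → m q x ≤ K * w q)
    (S : Set ℕ) (hdiv : Tendsto (VI I w S) atTop atTop)
    (hsm : ∀ B : ℝ, 0 ≤ B → ∀ e' : ℝ, 0 < e' → ∀ᶠ n : ℕ in atTop,
      B * gr (∑ q ∈ range (n + 1), if q ∈ S ∧ q ∈ I ∧ P ≤ q then w q * lam q else 0) ≤ e' * VI I w S n) :
    ∀ᵐ x ∂μ, ∀ᶠ n : ℕ in atTop, (c0 - e) * VI I w S n ≤ FI I f S n x ∧
      FI I f S n x ≤ (K + e) * VI I w S n := by
  have key := h.law S hdiv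
  filter_upwards [key, hlo, hup] with x hx hl hu
  obtain ⟨B, hB, hBn⟩ := hx
  have h1 := hsm B hB (e / 2) (by positivity)
  have h3 := hdiv.eventually (eventually_ge_atTop (2 * (P : ℝ) * (c0 + 1) / e))
  filter_upwards [h1, h3] with n g1 g3
  set V := VI I w S n with hV
  have hV0 : 0 ≤ V := VI_nonneg h.w0 S n
  obtain ⟨a1, a2⟩ := VI_tail (I := I) h.w0 h.w1 S P n
  obtain ⟨b1, b2⟩ := FI_tail (I := I) h.f0 h.f1 S P n x
  have key2 := hBn (n + 1)
  set V' := ∑ q ∈ range (n + 1), (if q ∈ S ∧ q ∈ I ∧ P ≤ q then w q else 0) with hV'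
  set F' := ∑ q ∈ range (n + 1), (if q ∈ S ∧ q ∈ I ∧ P ≤ q then f q x else 0) with hF'
  have e1 : ∑ q ∈ range (n + 1), (if q ∈ S ∧ q ∈ I ∧ P ≤ q then f q x - m q x else 0) =
      F' - ∑ q ∈ range (n + 1), (if q ∈ S ∧ q ∈ I ∧ P ≤ q then m q x else 0) := by
    rw [hF', ← Finset.sum_sub_distrib]
    refine Finset.sum_congr rfl fun q _ => ?_
    split_ifs
    · rfl
    · norm_num
  rw [e1] at key2
  set M' := ∑ q ∈ range (n + 1), (if q ∈ S ∧ q ∈ I ∧ P ≤ q then m q x else 0) with hM'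
  have hM1 : c0 * V' ≤ M' := by
    rw [hV', hM', Finset.mul_sum]
    refine Finset.sum_le_sum fun q _ => ?_
    split_ifs with hq
    · exact hl q hq.2.2 hq.2.1
    · rw [mul_zero]
  have hM2 : M' ≤ K * V' := by
    rw [hV', hM', Finset.mul_sum]
    refine Finset.sum_le_sum fun q _ => ?_
    split_ifs with hq
    · exact hu q hq.2.2 hq.2.1
    · rw [mul_zero]
  obtain ⟨k1, k2⟩ := abs_le.1 key2
  have hP0 : (0 : ℝ) ≤ P := Nat.cast_nonneg P
  have hPe : (P : ℝ) * (c0 + 1) ≤ e / 2 * V := by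
    rw [div_le_iff₀ he] at g3
    linarith
  have hPc : 0 ≤ (P : ℝ) * c0 := by positivity
  constructor
  · have : c0 * (V - P) ≤ c0 * V' := mul_le_mul_of_nonneg_left (by linarith) hc0.le
    linarith
  · have h7 : K * V' ≤ K * V := mul_le_mul_of_nonneg_left a2 hK.le
    linarith

end Pool.Agent.H538
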