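import Pool.Agent.H538.G3
import Pool.Agent.H538.K10

set_option autoImplicit false

/-!
# The law of large numbers from a variance bound
-/

namespace Pool.Agent.H538

open Finset Filter Topology MeasureTheory
open Pool.Agent.Y895.OL (VI FI VI_mono VI_nonneg VI_tail)

section

variable {Ω : Type*} [MeasurableSpace Ω] {μ : Measure Ω} [IsProbabilityMeasure μ] {f m : ℕ → Ω → ℝ}
  {I S : Set ℕ} {w : ℕ → ℝ} {P : ℕ}

open Classical in
/-- the centred sum -/
noncomputable def DD' (f m : ℕ → Ω → ℝ) (I S : Set ℕ) (P n : ℕ) (x : Ω) : ℝ :=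
  ∑ q ∈ range (n + 1), if q ∈ S ∧ q ∈ I ∧ P ≤ q then f q x - m q x else 0

lemma pow_between {V : ℝ} (hV : 0 ≤ V) {M : ℕ} (hM : 1 ≤ M) : ∃ j : ℕ, (j : ℝ) ^ M ≤ V ∧ V < ((j : ℝ) + 1) ^ M := by
  have hM0 : (M : ℝ) ≠ 0 := by positivity
  refine ⟨⌊V ^ ((1 : ℝ) / M)⌋₊, ?_, ?_⟩
  · have h1 : (⌊V ^ ((1 : ℝ) / M)⌋₊ : ℝ) ≤ V ^ ((1 : ℝ) / M) := Nat.floor_le (by positivity)
    calc (⌊V ^ ((1 : ℝ) / M)⌋₊ : ℝ) ^ M ≤ (V ^ ((1 : ℝ) / M)) ^ M := pow_le_pow_left₀ (by positivity) h1 M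
      _ = V := by
          rw [← Real.rpow_natCast, ← Real.rpow_mul hV, one_div, inv_mul_cancel₀ hM0, Real.rpow_one]
  · have h1 : V ^ ((1 : ℝ) / M) < ⌊V ^ ((1 : ℝ) / M)⌋₊ + 1 := Nat.lt_floor_add_one _
    calc V = (V ^ ((1 : ℝ) / M)) ^ M := by
          rw [← Real.rpow_natCast, ← Real.rpow_mul hV, one_div, inv_mul_cancel₀ hM0, Real.rpow_one]
      _ < _ := pow_lt_pow_left₀ h1 (by positivity) (by omega)

lemma VI_succ_le (hw1 : ∀ q, w q ≤ 1) (n : ℕ) : VI I w S (n + 1) ≤ VI I w S n + 1 := by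
  classical
  unfold VI
  rw [Finset.sum_range_succ _ (n + 1)]
  gcongr
  split_ifs
  · exact hw1 _
  · norm_num

/-- **The law from a variance bound.** -/
theorem law_var (hfm : ∀ q, Measurable (f q)) (hmm : ∀ q, Measurable (m q)) (hf0 : ∀ q x, 0 ≤ f q x)
    (hf1 : ∀ q x, f q x ≤ 1) (hm0 : ∀ q x, 0 ≤ m q x) (hm1 : ∀ q x, m q x ≤ 1) (hw0 : ∀ q, 0 ≤ w q)
    (hw1 : ∀ q, w q ≤ 1)
    (hdiv : Tendsto (VI I w S) atTop atTop) {C s : ℝ} (hC : 0 ≤ C) (hs : 0 < s) (hs2 : s ≤ 2)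
    (hvar : ∀ n, ∫ x, (DD' f m I S P n x) ^ 2 ∂μ ≤ C * (1 + VI I w S n) ^ (2 - s))
    {c0 K e : ℝ} (hc0 : 0 < c0) (hK : 0 < K) (he : 0 < e)
    (hlo : ∀ᵐ x ∂μ, ∀ q ≥ P, q ∈ I → c0 * w q ≤ m q x)
    (hup : ∀ᵐ x ∂μ, ∀ q ≥ P, q ∈ I → m q x ≤ K * w q) :
    ∀ᵐ x ∂μ, ∀ᶠ n : ℕ in atTop, (c0 - e) * VI I w S n ≤ FI I f S n x ∧
      FI I f S n x ≤ (K + e) * VI I w S n := by
  classical
  set V := VI I w S with hV
  have hVm : Monotone V := VI_mono hw0 S
  have hV0 : ∀ n, 0 ≤ V n := VI_nonneg hw0 S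
  set M := ⌈2 / s⌉₊ with hM
  have hM1 : 1 ≤ M := by
    rw [hM]
    exact Nat.one_le_ceil_iff.2 (by positivity)
  have hMs : 2 ≤ (M : ℝ) * s := by
    have := Nat.le_ceil (2 / s)
    rw [div_le_iff₀ hs] at this
    exact this
  have hN : ∀ j : ℕ, ∃ n, (j : ℝ) ^ M ≤ V n := fun j => (hdiv.eventually_ge_atTop _).exists
  set N : ℕ → ℕ := fun j => Nat.find (hN j) with hNdef
  have hN1 : ∀ j : ℕ, (j : ℝ) ^ M ≤ V (N j) := fun j => Nat.find_spec (hN j)
  have hN2 : ∀ j : ℕ, V (N j) ≤ (j : ℝ) ^ M + 1 := by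
    intro j
    rcases Nat.eq_zero_or_pos (N j) with h0 | h0
    · rw [h0]
      have : V 0 ≤ 1 := by
        rw [hV]
        unfold VI
        rw [Finset.sum_range_one]
        split_ifs
        · exact hw1 _
        · norm_num
      have : (0 : ℝ) ≤ (j : ℝ) ^ M := by positivity
      linarith
    · obtain ⟨n', hn'⟩ : ∃ n', N j = n' + 1 := ⟨N j - 1, by omega⟩
      have h1 : ¬ (j : ℝ) ^ M ≤ V n' := Nat.find_min (hN j) (by
        have : n' < N j := by omega
        exact this)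
      push Not at h1
      rw [hn']
      have := VI_succ_le (I := I) (S := S) hw1 n'
      linarith
  set e1 := e / 3 with he1
  have he1p : 0 < e1 := by positivity
  -- the bad sets
  set bad : ℕ → Set Ω := fun j => {x | e1 ^ 2 * (V (N (j + 1))) ^ 2 ≤ (DD' f m I S P (N (j + 1)) x) ^ 2} with hbad
  have hDm : ∀ n, Measurable (DD' f m I S P n) := by
    intro n
    unfold DD'
    refine Finset.measurable_sum _ fun q _ => ?_
    by_cases h : q ∈ S ∧ q ∈ I ∧ P ≤ q
    · simp only [h, and_self, if_true]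
      exact (hfm q).sub (hmm q)
    · simp only [h, if_false]
      exact measurable_const
  have hDb : ∀ n x, |DD' f m I S P n x| ≤ n + 1 := by
    intro n x
    unfold DD'
    refine (Finset.abs_sum_le_sum_abs _ _).trans ?_
    calc ∑ q ∈ range (n + 1), |if q ∈ S ∧ q ∈ I ∧ P ≤ q then f q x - m q x else 0| ≤
          ∑ q ∈ range (n + 1), (1 : ℝ) := by
            refine Finset.sum_le_sum fun q _ => ?_
            split_ifs
            · rw [abs_le]
              constructor <;> linarith [hf0 q x, hf1 q x, hm0 q x, hm1 q x]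
            · simp
      _ = n + 1 := by simp
  have hDi : ∀ n, Integrable (fun x => (DD' f m I S P n x) ^ 2) μ := by
    intro n
    refine Integrable.of_bound ((hDm n).pow_const 2).aestronglyMeasurable (((n : ℝ) + 1) ^ 2)
      (Eventually.of_forall fun x => ?_)
    rw [Real.norm_eq_abs, abs_pow]
    exact pow_le_pow_left₀ (abs_nonneg _) (hDb n x) 2
  have hmeas : ∀ j, μ (bad j) ≤ ENNReal.ofReal (4 * C / e1 ^ 2 * (1 / ((j : ℝ) + 1) ^ 2)) := by
    intro j
    have hj1 : (1 : ℝ) ≤ ((j + 1 : ℕ) : ℝ) ^ M := one_le_pow₀ (by push_cast; linarith [Nat.cast_nonneg (α := ℝ) j])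
    have hV1 : 1 ≤ V (N (j + 1)) := hj1.trans (hN1 (j + 1))
    set v := V (N (j + 1)) with hv
    have h1 := mul_meas_ge_le_integral_of_nonneg (μ := μ)
      (f := fun x => (DD' f m I S P (N (j + 1)) x) ^ 2) (Eventually.of_forall fun x => sq_nonneg _)
      (hDi _) (e1 ^ 2 * v ^ 2)
    have h2 := h1.trans (hvar (N (j + 1)))
    have h3 : C * (1 + v) ^ (2 - s) ≤ 4 * C * (v ^ 2 * v ^ (-s)) := by
      have h4 : (1 + v) ^ (2 - s) ≤ (2 * v) ^ (2 - s) :=
        Real.rpow_le_rpow (by linarith) (by linarith) (by linarith)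
      have h5 : (2 * v) ^ (2 - s) ≤ 4 * (v ^ 2 * v ^ (-s)) := by
        rw [Real.mul_rpow (by norm_num) (by linarith)]
        have h6 : (2 : ℝ) ^ (2 - s) ≤ 4 := by
          calc (2 : ℝ) ^ (2 - s) ≤ 2 ^ (2 : ℝ) := Real.rpow_le_rpow_of_exponent_le (by norm_num) (by linarith)
            _ = 4 := by norm_num
        have h7 : v ^ (2 - s) = v ^ 2 * v ^ (-s) := by
          rw [show (2 : ℝ) - s = 2 + -s by ring, Real.rpow_add (by linarith)]
          norm_num
        rw [h7]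
        exact mul_le_mul_of_nonneg_right h6 (by positivity)
      calc C * (1 + v) ^ (2 - s) ≤ C * (4 * (v ^ 2 * v ^ (-s))) :=
            mul_le_mul_of_nonneg_left (h4.trans h5) hC
        _ = _ := by ring
    have hv2 : 0 < e1 ^ 2 * v ^ 2 := by positivity
    have h8 : μ.real {x | e1 ^ 2 * v ^ 2 ≤ (DD' f m I S P (N (j + 1)) x) ^ 2} ≤ 4 * C / e1 ^ 2 * v ^ (-s) := by
      rw [← mul_le_mul_iff_right₀ hv2]
      refine (h2.trans h3).trans (le_of_eq ?_)
      field_simp
    have h9 : v ^ (-s) ≤ 1 / ((j : ℝ) + 1) ^ 2 := by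
      have hj0 : (0 : ℝ) < ((j + 1 : ℕ) : ℝ) := by positivity
      calc v ^ (-s) ≤ (((j + 1 : ℕ) : ℝ) ^ M) ^ (-s) :=
            Real.rpow_le_rpow_of_nonpos (by positivity) (hN1 (j + 1)) (by linarith)
        _ = ((j + 1 : ℕ) : ℝ) ^ (-(M * s)) := by
            rw [← Real.rpow_natCast, ← Real.rpow_mul hj0.le]
            congr 1
            ring
        _ ≤ ((j + 1 : ℕ) : ℝ) ^ (-(2 : ℝ)) :=
            Real.rpow_le_rpow_of_exponent_le (by push_cast; linarith [Nat.cast_nonneg (α := ℝ) j]) (by linarith)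
        _ = 1 / ((j : ℝ) + 1) ^ 2 := by
            rw [Real.rpow_neg hj0.le]
            push_cast
            norm_num
    have h10 : μ (bad j) = ENNReal.ofReal (μ.real (bad j)) := (ENNReal.ofReal_toReal (measure_ne_top μ _)).symm
    rw [h10]
    refine ENNReal.ofReal_le_ofReal (h8.trans ?_)
    exact mul_le_mul_of_nonneg_left h9 (by positivity)
  have hsum : Summable fun j : ℕ => 4 * C / e1 ^ 2 * (1 / ((j : ℝ) + 1) ^ 2) := by
    refine Summable.mul_left _ ?_
    have h1 := (summable_nat_add_iff 1).2 (Real.summable_one_div_nat_pow.2 (show 1 < 2 by norm_num))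
    refine h1.congr fun j => ?_
    push_cast
    rfl
  have hBC : ∑' j, μ (bad j) ≠ ⊤ := by
    refine ne_top_of_le_ne_top ?_ (ENNReal.tsum_le_tsum hmeas)
    exact hsum.tsum_ofReal_ne_top
  have hae := ae_eventually_notMem hBC
  filter_upwards [hae, hlo, hup] with x hx hxl hxu
  obtain ⟨J, hJ⟩ := eventually_atTop.1 hx
  have hD : ∀ j ≥ J + 1, |DD' f m I S P (N j) x| ≤ e1 * V (N j) := by
    intro j hj
    obtain ⟨i, rfl⟩ : ∃ i, j = i + 1 := ⟨j - 1, by omega⟩
    have h1 : x ∉ bad i := hJ i (by omega)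
    simp only [hbad, Set.mem_ofPred_eq, not_le] at h1
    rw [← mul_pow] at h1
    exact (abs_lt_of_sq_lt_sq h1 (mul_nonneg he1p.le (hV0 _))).le
  -- comparison of the sums
  have hF1 : ∀ n, DD' f m I S P n x + c0 * (V n - P) ≤ FI I f S n x := by
    intro n
    have h1 : DD' f m I S P n x + ∑ q ∈ range (n + 1), (if q ∈ S ∧ q ∈ I ∧ P ≤ q then c0 * w q else 0) ≤
        FI I f S n x := by
      unfold DD' FI
      rw [← Finset.sum_add_distrib]
      refine Finset.sum_le_sum fun q _ => ?_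
      by_cases h : q ∈ S ∧ q ∈ I ∧ P ≤ q
      · rw [if_pos h, if_pos h, if_pos ⟨h.1, h.2.1⟩]
        have := hxl q h.2.2 h.2.1
        linarith
      · rw [if_neg h, if_neg h, add_zero]
        split_ifs
        · exact hf0 q x
        · exact le_rfl
    have h2 := (VI_tail (I := I) hw0 hw1 S P n).1
    have h3 : ∑ q ∈ range (n + 1), (if q ∈ S ∧ q ∈ I ∧ P ≤ q then c0 * w q else 0) =
        c0 * ∑ q ∈ range (n + 1), (if q ∈ S ∧ q ∈ I ∧ P ≤ q then w q else 0) := by
      rw [Finset.mul_sum]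
      refine Finset.sum_congr rfl fun q _ => ?_
      split_ifs <;> simp
    rw [h3] at h1
    have h4 := mul_le_mul_of_nonneg_left h2 hc0.le
    linarith
  have hF2 : ∀ n, FI I f S n x ≤ DD' f m I S P n x + K * V n + P := by
    intro n
    have h1 : FI I f S n x ≤ DD' f m I S P n x +
        ∑ q ∈ range (n + 1), (if q ∈ S ∧ q ∈ I ∧ P ≤ q then K * w q else 0) +
        ∑ q ∈ range (n + 1), (if q < P then (1 : ℝ) else 0) := by
      unfold DD' FI
      rw [← Finset.sum_add_distrib, ← Finset.sum_add_distrib]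
      refine Finset.sum_le_sum fun q _ => ?_
      by_cases h : q ∈ S ∧ q ∈ I ∧ P ≤ q
      · rw [if_pos h, if_pos h, if_pos ⟨h.1, h.2.1⟩, if_neg (by omega)]
        have := hxu q h.2.2 h.2.1
        linarith
      · rw [if_neg h, if_neg h]
        by_cases h' : q ∈ S ∧ q ∈ I
        · rw [if_pos h', if_pos (by
            by_contra hc
            exact h ⟨h'.1, h'.2, by omega⟩)]
          linarith [hf1 q x]
        · rw [if_neg h']
          split_ifs <;> norm_num
    have h2 := (VI_tail (I := I) hw0 hw1 S P n).2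
    have h3 : ∑ q ∈ range (n + 1), (if q ∈ S ∧ q ∈ I ∧ P ≤ q then K * w q else 0) =
        K * ∑ q ∈ range (n + 1), (if q ∈ S ∧ q ∈ I ∧ P ≤ q then w q else 0) := by
      rw [Finset.mul_sum]
      refine Finset.sum_congr rfl fun q _ => ?_
      split_ifs <;> simp
    have h4 : ∑ q ∈ range (n + 1), (if q < P then (1 : ℝ) else 0) ≤ P := by
      rw [Finset.sum_ite, Finset.sum_const_zero, add_zero, Finset.sum_const, nsmul_eq_mul, mul_one]
      have : ((range (n + 1)).filter (fun q => q < P)).card ≤ P := by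
        calc _ ≤ (range P).card := Finset.card_le_card fun q hq => by
                rw [mem_filter] at hq
                exact mem_range.2 hq.2
          _ = P := Finset.card_range P
      exact_mod_cast this
    rw [h3] at h1
    have h5 := mul_le_mul_of_nonneg_left h2 hK.le
    linarith
  have hFm : Monotone (fun n => FI I f S n x) := by
    intro a b hab
    simp only
    unfold FI
    refine Finset.sum_le_sum_of_subset_of_nonneg (Finset.range_mono (by omega)) fun q _ _ => ?_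
    split_ifs
    · exact hf0 q x
    · exact le_rfl
  -- growth in `j`
  set δ := e1 / (c0 + K + e1 + 1) with hδ
  have hδ0 : 0 < δ := by positivity
  have hg1 : ∀ᶠ j : ℕ in atTop, ((j : ℝ) + 1) ^ M ≤ (1 + δ) * (j : ℝ) ^ M := by
    have t1 : Tendsto (fun j : ℕ => (1 + 1 / (j : ℝ)) ^ M) atTop (𝓝 ((1 + 0) ^ M)) :=
      (tendsto_const_nhds.add tendsto_one_div_atTop_nhds_zero_nat).pow M
    rw [add_zero, one_pow] at t1
    filter_upwards [t1.eventually (gt_mem_nhds (show (1 : ℝ) < 1 + δ by linarith)), eventually_ge_atTop 1]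
      with j hj hj1
    have hj0 : (0 : ℝ) < j := by exact_mod_cast hj1
    have h1 : ((j : ℝ) + 1) ^ M = (1 + 1 / (j : ℝ)) ^ M * (j : ℝ) ^ M := by
      rw [← mul_pow]
      congr 1
      field_simp
    rw [h1]
    exact mul_le_mul_of_nonneg_right hj.le (by positivity)
  have hg2 : ∀ᶠ j : ℕ in atTop, ((P : ℝ) * (c0 + 1) + 2 * (K + e1 + 1)) / δ ≤ (j : ℝ) ^ M :=
    (((tendsto_pow_atTop (by omega)).comp tendsto_natCast_atTop_atTop).eventually_ge_atTop _)
  obtain ⟨J2, hJ2⟩ := (hg1.and hg2).exists_forall_of_atTop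
  have hev : ∀ᶠ n in atTop, (((J + J2 + 2 : ℕ) : ℝ)) ^ M ≤ V n := hdiv.eventually_ge_atTop _
  filter_upwards [hev] with n hn
  obtain ⟨j, hj1, hj2⟩ := pow_between (hV0 n) hM1
  have hjJ : J + J2 + 2 ≤ j := by
    by_contra hc
    push Not at hc
    have h1 : ((j : ℝ) + 1) ^ M ≤ ((J + J2 + 2 : ℕ) : ℝ) ^ M := by
      apply pow_le_pow_left₀ (by positivity)
      exact_mod_cast hc
    linarith
  obtain ⟨q1, q2⟩ := hJ2 j (by omega)
  rw [div_le_iff₀ hδ0] at q2
  have hNj : N j ≤ n := Nat.find_min' (hN j) hj1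
  have hNj1 : n ≤ N (j + 1) := by
    by_contra hc
    push Not at hc
    have h1 := hVm hc.le
    have h2 := hN1 (j + 1)
    push_cast at h2
    linarith
  have a1 := hFm hNj
  have a2 := hFm hNj1
  simp only at a1 a2
  have b1 := hD j (by omega)
  have b2 := hD (j + 1) (by omega)
  have c1 := hF1 (N j)
  have c2 := hF2 (N (j + 1))
  have d1 := hN1 j
  have d2 := hN2 (j + 1)
  push_cast at d2
  obtain ⟨b1l, b1u⟩ := abs_le.1 b1
  obtain ⟨b2l, b2u⟩ := abs_le.1 b2
  have hVj0 := hV0 (N j)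
  have hjM : (0 : ℝ) ≤ (j : ℝ) ^ M := by positivity
  have hδc : δ * (c0 + K + e1 + 1) = e1 := by rw [hδ]; field_simp
  have hP0 : (0 : ℝ) ≤ P := Nat.cast_nonneg P
  have hFn0 : 0 ≤ FI I f S n x := by
    unfold FI
    refine Finset.sum_nonneg fun q _ => ?_
    split_ifs
    · exact hf0 q x
    · exact le_rfl
  have hVn0 := hV0 n
  constructor
  · -- lower bound
    rcases le_total c0 e with h | h
    · have : (c0 - e) * V n ≤ 0 := mul_nonpos_of_nonpos_of_nonneg (by linarith) hVn0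
      linarith
    · have h1 : (c0 - e1) * (j : ℝ) ^ M - c0 * P ≤ FI I f S n x := by
        have h2 : (c0 - e1) * (j : ℝ) ^ M ≤ (c0 - e1) * V (N j) :=
          mul_le_mul_of_nonneg_left d1 (by linarith)
        linarith
      have h3 : (c0 - e) * V n ≤ (c0 - e) * ((1 + δ) * (j : ℝ) ^ M) :=
        mul_le_mul_of_nonneg_left (hj2.le.trans q1) (by linarith)
      have h4 : c0 * P ≤ e1 * (j : ℝ) ^ M := by
        have : δ * (j : ℝ) ^ M ≤ e1 * (j : ℝ) ^ M := by
          apply mul_le_mul_of_nonneg_right _ hjM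
          nlinarith
        nlinarith
      have h5 : (c0 - e) * δ ≤ e1 := by nlinarith
      have h6 : (c0 - e) * δ * (j : ℝ) ^ M ≤ e1 * (j : ℝ) ^ M := mul_le_mul_of_nonneg_right h5 hjM
      have h7 : e = 3 * e1 := by rw [he1]; ring
      rw [h7] at h3 h6 ⊢
      nlinarith
  · -- upper bound
    have h1 : FI I f S n x ≤ (K + e1) * (((j : ℝ) + 1) ^ M + 1) + P := by
      have h2 : (K + e1) * V (N (j + 1)) ≤ (K + e1) * (((j : ℝ) + 1) ^ M + 1) :=
        mul_le_mul_of_nonneg_left d2 (by linarith)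
      linarith
    have h3 : (K + e1) * ((j : ℝ) + 1) ^ M ≤ (K + e1) * ((1 + δ) * (j : ℝ) ^ M) :=
      mul_le_mul_of_nonneg_left q1 (by linarith)
    have h4 : (K + e1) * δ ≤ e1 := by nlinarith
    have h5 : (K + e1) * δ * (j : ℝ) ^ M ≤ e1 * (j : ℝ) ^ M := mul_le_mul_of_nonneg_right h4 hjM
    have h6 : (K + e1) + P ≤ e1 * (j : ℝ) ^ M := by
      have : δ * (j : ℝ) ^ M ≤ e1 * (j : ℝ) ^ M := by
        apply mul_le_mul_of_nonneg_right _ hjM
        nlinarith
      nlinarith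
    have h7 : e = 3 * e1 := by rw [he1]; ring
    have h8 : (K + e) * (j : ℝ) ^ M ≤ (K + e) * V n := mul_le_mul_of_nonneg_left hj1 (by linarith)
    rw [h7] at h8 ⊢
    nlinarith

end

end Pool.Agent.H538
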