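import Pool.Agent.H538.G4

set_option autoImplicit false

/-!
# The law for events attached to random digits, with unbounded rows
-/

namespace Pool.Agent.H538

open Finset Filter Topology MeasureTheory
open Pool.Agent.Y895.OL (gF gM cg VI FI VI_mono VI_nonneg VI_tail gF_meas gM_meas gF_nonneg gF_le_one
  gM_nonneg gM_le_one far_zero near_le diag_le)
open Pool.Agent.Y895.PM (U01 U01_univ)

instance instU01 : IsProbabilityMeasure U01 := ⟨(ENNReal.toReal_eq_one_iff _).1 U01_univ⟩

/-- **The law for events attached to random digits.** -/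
theorem law_gen {g : ℕ → ℕ → ℝ} {b : ℕ} (hg : ∀ q n, g q n = 0 ∨ g q n = 1) (hb : 2 ≤ b) {A m l : ℕ → ℕ}
    {I S : Set ℕ} {w lam : ℕ → ℝ} {P : ℕ} (hlm : ∀ q ≥ P, l q ≤ m q) (w0 : ∀ q, 0 ≤ w q) (w1 : ∀ q, w q ≤ 1)
    (lam1 : ∀ q, 1 ≤ lam q) {K C : ℝ} (hK : 0 < K) (hC : 0 < C)
    (hup : ∀ᵐ t ∂U01, ∀ q ≥ P, q ∈ I → gM g b A m l q t ≤ K * w q)
    (hone : ∀ q ≥ P, q ∈ I → ∫ t, gF g b A m q t ∂U01 ≤ K * w q)
    (hpair : ∀ q ≥ P, q ∈ I → ∀ T : Finset ℕ, (∀ p ∈ T, p ∈ I ∧ P ≤ p ∧ p < q ∧ l q < m p) →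
      ∑ p ∈ T, ∫ t, gF g b A m p t * gF g b A m q t ∂U01 ≤ C * (w q * lam q))
    (hnear : ∀ q ≥ P, q ∈ I → ∀ T : Finset ℕ, (∀ p ∈ T, p ∈ I ∧ P ≤ p ∧ p < q ∧ l q < m p) →
      ∑ p ∈ T, w p ≤ C * lam q) {c0 : ℝ} (hc0 : 0 < c0)
    (hlo : ∀ᵐ t ∂U01, ∀ q ≥ P, q ∈ I → c0 * w q ≤ gM g b A m l q t)
    (hdiv : Tendsto (VI I w S) atTop atTop) {C' s : ℝ} (hC' : 0 < C') (hs : 0 < s) (hs1 : s ≤ 1)
    (hlam : ∀ q ≥ P, q ∈ I → q ∈ S → lam q ≤ C' * (1 + VI I w S q) ^ (1 - s)) {e : ℝ} (he : 0 < e) :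
    ∀ᵐ t ∂U01, ∀ᶠ n : ℕ in atTop, (c0 - e) * VI I w S n ≤ FI I (gF g b A m) S n t ∧
      FI I (gF g b A m) S n t ≤ (K + e) * VI I w S n := by
  classical
  set f := gF g b A m with hf
  set mm := gM g b A m l with hmm
  set CC := 2 * K + C + 3 * K ^ 2 * C with hCC
  have hCC0 : 0 < CC := by positivity
  have hfm := gF_meas g b A m
  have hmmm := gM_meas g b A m l
  have hb1 : ∀ q t, |f q t - mm q t| ≤ 1 := by
    intro q t
    have h1 := gF_nonneg hg b A m q t
    have h2 := gF_le_one hg b A m q t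
    have h3 := gM_nonneg hg b A m l q t
    have h4 := gM_le_one hg hb A m l q t
    rw [abs_le]
    constructor <;> simp only [hf, hmm] <;> linarith
  -- the diagonal
  have hdiag : ∀ q ≥ P, q ∈ I → ∫ t, (f q t - mm q t) ^ 2 ∂U01 ≤ CC * (w q * lam q) := by
    intro q hq hqI
    have h1 := diag_le hg hb A m l (hup.mono fun t ht => ht q hq hqI) (hone q hq hqI)
    have h2 := w0 q
    have h3 := lam1 q
    have h4 : w q ≤ w q * lam q := by nlinarith
    have h5 : 0 ≤ w q * lam q := by nlinarith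
    calc _ ≤ 2 * (K * w q) := h1
      _ ≤ 2 * K * (w q * lam q) := by nlinarith
      _ ≤ CC * (w q * lam q) := by
          apply mul_le_mul_of_nonneg_right _ h5
          have : 0 ≤ 3 * K ^ 2 * C := by positivity
          linarith
  -- the rows
  have hrow : ∀ q ≥ P, q ∈ I → ∀ T : Finset ℕ, (∀ p ∈ T, p ∈ I ∧ P ≤ p ∧ p < q) →
      ∑ p ∈ T, |∫ t, (f p t - mm p t) * (f q t - mm q t) ∂U01| ≤ CC * (w q * lam q) := by
    intro q hq hqI T hT
    set N := T.filter (fun p => l q < m p) with hN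
    have hzero : ∀ p ∈ T, p ∉ N →
        |∫ t, (f p t - mm p t) * (f q t - mm q t) ∂U01| = 0 := by
      intro p hp hpN
      have h1 : ¬ l q < m p := fun h => hpN (mem_filter.2 ⟨hp, h⟩)
      rw [far_zero hg hb A m l (hlm p (hT p hp).2.1) (hlm q hq) (by omega), abs_zero]
    rw [← Finset.sum_subset (filter_subset _ _) hzero]
    have hNm : ∀ p ∈ N, p ∈ I ∧ P ≤ p ∧ p < q ∧ l q < m p := by
      intro p hp
      rw [hN, mem_filter] at hp
      obtain ⟨h1, h2, h3⟩ := hT p hp.1
      exact ⟨h1, h2, h3, hp.2⟩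
    have h1 : ∀ p ∈ N,
        |∫ t, (f p t - mm p t) * (f q t - mm q t) ∂U01| ≤
        (∫ t, f p t * f q t ∂U01) + 3 * ((K * w p) * (K * w q)) := by
      intro p hp
      obtain ⟨h1, h2, h3, h4⟩ := hNm p hp
      exact near_le hg hb A m l (mul_nonneg hK.le (w0 p)) (mul_nonneg hK.le (w0 q))
        (hup.mono fun t ht => ht p h2 h1) (hup.mono fun t ht => ht q hq hqI)
        (hone p h2 h1) (hone q hq hqI)
    refine (Finset.sum_le_sum h1).trans ?_
    rw [Finset.sum_add_distrib]
    have h2 := hpair q hq hqI N hNm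
    have h3 := hnear q hq hqI N hNm
    have h4 : ∑ p ∈ N, 3 * ((K * w p) * (K * w q)) = 3 * K ^ 2 * w q * ∑ p ∈ N, w p := by
      rw [Finset.mul_sum]
      refine Finset.sum_congr rfl fun p _ => ?_
      ring
    rw [h4]
    have h5 := w0 q
    have h6 : 3 * K ^ 2 * w q * ∑ p ∈ N, w p ≤ 3 * K ^ 2 * w q * (C * lam q) :=
      mul_le_mul_of_nonneg_left h3 (by positivity)
    have h7 : 0 ≤ w q * lam q := mul_nonneg h5 (by linarith [lam1 q])
    have h8 : 0 ≤ 2 * K * (w q * lam q) := by positivity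
    calc _ ≤ C * (w q * lam q) + 3 * K ^ 2 * w q * (C * lam q) := add_le_add h2 h6
      _ = (C + 3 * K ^ 2 * C) * (w q * lam q) := by ring
      _ ≤ _ := by nlinarith
  -- the variance
  have hI2 : ∀ p q, Integrable (fun t => (f p t - mm p t) * (f q t - mm q t)) U01 := by
    intro p q
    refine Integrable.of_bound (((hfm p).sub (hmmm p)).mul ((hfm q).sub (hmmm q))).aestronglyMeasurable 1
      (Eventually.of_forall fun t => ?_)
    rw [Real.norm_eq_abs, abs_mul]
    exact mul_le_one₀ (hb1 p t) (abs_nonneg _) (hb1 q t)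
  have hDb : ∀ n t, |DD' f mm I S P n t| ≤ n + 1 := by
    intro n x
    unfold DD'
    refine (Finset.abs_sum_le_sum_abs _ _).trans ?_
    calc ∑ q ∈ range (n + 1), |if q ∈ S ∧ q ∈ I ∧ P ≤ q then f q x - mm q x else 0| ≤
          ∑ q ∈ range (n + 1), (1 : ℝ) := by
            refine Finset.sum_le_sum fun q _ => ?_
            split_ifs
            · exact hb1 q x
            · simp
      _ = n + 1 := by simp
  have hDm : ∀ n, Measurable (DD' f mm I S P n) := by
    intro n
    unfold DD'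
    refine Finset.measurable_sum _ fun q _ => ?_
    by_cases h : q ∈ S ∧ q ∈ I ∧ P ≤ q
    · simp only [h, and_self, if_true]
      exact (hfm q).sub (hmmm q)
    · simp only [h, if_false]
      exact measurable_const
  have hvar : ∀ n, ∫ t, (DD' f mm I S P n t) ^ 2 ∂U01 ≤
      3 * CC * ∑ q ∈ range (n + 1), (if q ∈ S ∧ q ∈ I ∧ P ≤ q then w q * lam q else 0) := by
    have hstep : ∀ (q : ℕ) (D : ℝ → ℝ), q ∈ S ∧ q ∈ I ∧ P ≤ q →
        (D = fun t => ∑ p ∈ range q, if p ∈ S ∧ p ∈ I ∧ P ≤ p then f p t - mm p t else 0) →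
        ∫ t, (D t + (f q t - mm q t)) ^ 2 ∂U01 ≤ ∫ t, (D t) ^ 2 ∂U01 + 3 * CC * (w q * lam q) := by
      intro q D hq hD
      have e1 : D = fun t => ∑ p ∈ (range q).filter (fun p => p ∈ S ∧ p ∈ I ∧ P ≤ p), (f p t - mm p t) := by
        rw [hD]
        funext t
        rw [Finset.sum_filter]
      have hDmeas : Measurable D := by
        rw [e1]
        exact Finset.measurable_sum _ fun p _ => (hfm p).sub (hmmm p)
      have hDbd : ∀ t, |D t| ≤ q := by
        intro t
        rw [e1]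
        refine (Finset.abs_sum_le_sum_abs _ _).trans ?_
        refine (Finset.sum_le_sum fun p _ => hb1 p t).trans ?_
        rw [Finset.sum_const, nsmul_eq_mul, mul_one]
        have : ((range q).filter (fun p => p ∈ S ∧ p ∈ I ∧ P ≤ p)).card ≤ q :=
          (Finset.card_filter_le _ _).trans (by rw [card_range])
        exact_mod_cast this
      have i1 : Integrable (fun t => (D t) ^ 2) U01 := by
        refine Integrable.of_bound (hDmeas.pow_const 2).aestronglyMeasurable ((q : ℝ) ^ 2)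
          (Eventually.of_forall fun t => ?_)
        rw [Real.norm_eq_abs, abs_pow]
        exact pow_le_pow_left₀ (abs_nonneg _) (hDbd t) 2
      have i2 : Integrable (fun t => D t * (f q t - mm q t)) U01 := by
        refine Integrable.of_bound (hDmeas.mul ((hfm q).sub (hmmm q))).aestronglyMeasurable (q * 1)
          (Eventually.of_forall fun t => ?_)
        rw [Real.norm_eq_abs, abs_mul]
        exact mul_le_mul (hDbd t) (hb1 q t) (abs_nonneg _) (Nat.cast_nonneg q)
      have i3 : Integrable (fun t => (f q t - mm q t) ^ 2) U01 := by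
        refine (hI2 q q).congr (Eventually.of_forall fun t => ?_)
        simp only
        ring
      have e2 : ∫ t, (D t + (f q t - mm q t)) ^ 2 ∂U01 =
          ∫ t, (D t) ^ 2 ∂U01 + 2 * ∫ t, D t * (f q t - mm q t) ∂U01 + ∫ t, (f q t - mm q t) ^ 2 ∂U01 := by
        have e3 : (fun t => (D t + (f q t - mm q t)) ^ 2) =
            fun t => ((D t) ^ 2 + 2 * (D t * (f q t - mm q t))) + (f q t - mm q t) ^ 2 := by
          funext t; ring
        have i12 : Integrable (fun t => (D t) ^ 2 + 2 * (D t * (f q t - mm q t))) U01 := i1.add (i2.const_mul 2)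
        rw [e3, integral_add i12 i3, integral_add i1 (i2.const_mul 2), integral_const_mul]
      have e4 : ∫ t, D t * (f q t - mm q t) ∂U01 =
          ∑ p ∈ (range q).filter (fun p => p ∈ S ∧ p ∈ I ∧ P ≤ p), ∫ t, (f p t - mm p t) * (f q t - mm q t) ∂U01 := by
        rw [← integral_finsetSum _ fun p _ => hI2 p q]
        refine integral_congr_ae (Eventually.of_forall fun t => ?_)
        simp only [e1, Finset.sum_mul]
      have h1 := hrow q hq.2.2 hq.2.1 ((range q).filter (fun p => p ∈ S ∧ p ∈ I ∧ P ≤ p)) (by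
        intro p hp
        rw [mem_filter, mem_range] at hp
        exact ⟨hp.2.2.1, hp.2.2.2, hp.1⟩)
      have h2 := hdiag q hq.2.2 hq.2.1
      have h3 : ∑ p ∈ (range q).filter (fun p => p ∈ S ∧ p ∈ I ∧ P ≤ p),
          ∫ t, (f p t - mm p t) * (f q t - mm q t) ∂U01 ≤ CC * (w q * lam q) :=
        (Finset.sum_le_sum fun p _ => le_abs_self _).trans h1
      rw [e2, e4]
      linarith
    intro n
    induction n with
    | zero =>
      simp only [zero_add, Finset.sum_range_one]
      unfold DD'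
      simp only [zero_add, Finset.sum_range_one]
      by_cases h : 0 ∈ S ∧ 0 ∈ I ∧ P ≤ 0
      · simp only [h, and_self, if_true]
        have h2 := hdiag 0 h.2.2 h.2.1
        have h3 : 0 ≤ w 0 * lam 0 := mul_nonneg (w0 0) (by linarith [lam1 0])
        nlinarith
      · simp only [h, if_false]
        simp
    | succ n ih =>
      have e1 : DD' f mm I S P (n + 1) = fun t => DD' f mm I S P n t +
          (if n + 1 ∈ S ∧ n + 1 ∈ I ∧ P ≤ n + 1 then f (n + 1) t - mm (n + 1) t else 0) := by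
        funext t
        unfold DD'
        rw [Finset.sum_range_succ]
      rw [Finset.sum_range_succ, e1]
      by_cases h : n + 1 ∈ S ∧ n + 1 ∈ I ∧ P ≤ n + 1
      · simp only [if_pos h]
        have h1 := hstep (n + 1) (DD' f mm I S P n) h rfl
        refine h1.trans ?_
        rw [mul_add]
        linarith
      · simp only [if_neg h, add_zero]
        exact ih
  -- conclusion
  have hVn0 : ∀ n, 0 ≤ VI I w S n := VI_nonneg w0 S
  have hvar2 : ∀ n, ∫ t, (DD' f mm I S P n t) ^ 2 ∂U01 ≤ (3 * CC * C') * (1 + VI I w S n) ^ (2 - s) := by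
    intro n
    refine (hvar n).trans ?_
    rw [mul_assoc (3 * CC)]
    refine mul_le_mul_of_nonneg_left ?_ (by positivity)
    set v := VI I w S n with hv
    have hv0 := hVn0 n
    have h1 : ∑ q ∈ range (n + 1), (if q ∈ S ∧ q ∈ I ∧ P ≤ q then w q * lam q else 0) ≤
        C' * (1 + v) ^ (1 - s) * ∑ q ∈ range (n + 1), (if q ∈ S ∧ q ∈ I ∧ P ≤ q then w q else 0) := by
      rw [Finset.mul_sum]
      refine Finset.sum_le_sum fun q hq => ?_
      rw [mem_range] at hq
      by_cases h : q ∈ S ∧ q ∈ I ∧ P ≤ q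
      · rw [if_pos h, if_pos h]
        have h2 := hlam q h.2.2 h.2.1 h.1
        have h3 : VI I w S q ≤ v := VI_mono w0 S (by omega)
        have h4 : (1 + VI I w S q) ^ (1 - s) ≤ (1 + v) ^ (1 - s) :=
          Real.rpow_le_rpow (by linarith [hVn0 q]) (by linarith) (by linarith)
        calc w q * lam q ≤ w q * (C' * (1 + v) ^ (1 - s)) :=
              mul_le_mul_of_nonneg_left (h2.trans (mul_le_mul_of_nonneg_left h4 hC'.le)) (w0 q)
          _ = _ := by ring
      · rw [if_neg h, if_neg h, mul_zero]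
    have h5 := (VI_tail (I := I) w0 w1 S P n).2
    have h6 : (1 + v) ^ (2 - s) = (1 + v) ^ (1 - s) * (1 + v) := by
      rw [show (2 : ℝ) - s = (1 - s) + 1 by ring, Real.rpow_add (by linarith), Real.rpow_one]
    rw [h6]
    have h7 : 0 ≤ C' * (1 + v) ^ (1 - s) := by positivity
    calc _ ≤ C' * (1 + v) ^ (1 - s) * ∑ q ∈ range (n + 1), (if q ∈ S ∧ q ∈ I ∧ P ≤ q then w q else 0) := h1
      _ ≤ C' * (1 + v) ^ (1 - s) * (1 + v) := mul_le_mul_of_nonneg_left (by linarith) h7
      _ = _ := by ring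
  exact law_var hfm hmmm (gF_nonneg hg b A m) (gF_le_one hg b A m) (gM_nonneg hg b A m l)
    (fun q t => gM_le_one hg hb A m l q t) w0 w1 hdiv (by positivity) hs (by linarith) hvar2 hc0 hK he hlo hup

end Pool.Agent.H538
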