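import Pool.Agent.H538.G3

set_option autoImplicit false

/-!
# Levels, weights and the local density
-/

namespace Pool.Agent.H538

open Finset Filter Topology

/-- levels `z 0 < z 1 < … < z r` -/
structure Levels (r : ℕ) (z : ℕ → ℕ → ℝ) : Prop where
  start : ∀ᶠ p : ℕ in atTop, (p : ℝ) ≤ z 0 p
  step : ∃ x : ℝ, 1 < x ∧ ∀ᶠ p : ℕ in atTop, ∀ i < r, z i p ^ x ≤ z (i + 1) p
  top : ∃ s : ℝ, 0 < s ∧ ∀ᶠ p : ℕ in atTop, Real.log (z r p) ≤ (p : ℝ) ^ (1 - s)
  reg : ∃ C : ℝ, ∀ᶠ p : ℕ in atTop, ∀ q : ℕ, p ≤ q → q ≤ 2 * p →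
    Real.log (z 0 p) ≤ C * Real.log (z 0 q) ∧ Real.log (z 0 q) ≤ C * Real.log (z 0 p) ∧
    Real.log (z r p) ≤ C * Real.log (z r q) ∧ Real.log (z r q) ≤ C * Real.log (z r p)

/-- the facts for all `q ≥ Q0` -/
structure LF (r : ℕ) (z : ℕ → ℕ → ℝ) (x s C : ℝ) (Q0 : ℕ) : Prop where
  hx : 1 < x
  hs : 0 < s
  hs1 : s ≤ 1
  hC : 1 ≤ C
  hQ : 3 ≤ Q0
  f1 : ∀ q ≥ Q0, (q : ℝ) ≤ z 0 q
  f2 : ∀ q ≥ Q0, ∀ i < r, z i q ^ x ≤ z (i + 1) q
  f3 : ∀ q ≥ Q0, Real.log (z r q) ≤ (q : ℝ) ^ (1 - s)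
  f4 : ∀ p ≥ Q0, ∀ q : ℕ, p ≤ q → q ≤ 2 * p →
    Real.log (z 0 p) ≤ C * Real.log (z 0 q) ∧ Real.log (z 0 q) ≤ C * Real.log (z 0 p) ∧
    Real.log (z r p) ≤ C * Real.log (z r q) ∧ Real.log (z r q) ≤ C * Real.log (z r p)

section

variable {r : ℕ} {z : ℕ → ℕ → ℝ}

lemma zmono_aux {x : ℝ} (hx : 1 < x) {q : ℕ} (h1 : (3 : ℝ) ≤ z 0 q) (h2 : ∀ i < r, z i q ^ x ≤ z (i + 1) q) :
    ∀ i ≤ r, (3 : ℝ) ≤ z i q := by
  intro i
  induction i with
  | zero => intro _; exact h1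
  | succ i ih =>
    intro hi
    have h3 := ih (by omega)
    calc (3 : ℝ) ≤ z i q := h3
      _ = z i q ^ (1 : ℝ) := (Real.rpow_one _).symm
      _ ≤ z i q ^ x := Real.rpow_le_rpow_of_exponent_le (by linarith) hx.le
      _ ≤ _ := h2 i (by omega)

theorem exists_LF (h : Levels r z) : ∃ (x s C : ℝ) (Q0 : ℕ), LF r z x s C Q0 := by
  obtain ⟨x, hx, h2⟩ := h.step
  obtain ⟨s, hs, h3⟩ := h.top
  obtain ⟨C, h4⟩ := h.reg
  obtain ⟨Q, hQ⟩ := (((h.start.and h2).and h3).and h4).exists_forall_of_atTop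
  refine ⟨x, min s 1, max C 1, max Q 3, hx, by positivity, min_le_right _ _, le_max_right _ _,
    le_max_right _ _, fun q hq => (hQ q ((le_max_left _ _).trans hq)).1.1.1,
    fun q hq => (hQ q ((le_max_left _ _).trans hq)).1.1.2, fun q hq => ?_, fun p hp q hpq hq2 => ?_⟩
  · have hq1 : (1 : ℝ) ≤ q := by
      have := (le_max_right Q 3).trans hq
      exact_mod_cast (by omega : 1 ≤ q)
    refine (hQ q ((le_max_left _ _).trans hq)).1.2.trans ?_
    apply Real.rpow_le_rpow_of_exponent_le hq1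
    linarith [min_le_left s 1]
  · have hp1 := (hQ p ((le_max_left _ _).trans hp))
    have hq1 := (hQ q ((le_max_left _ _).trans (hp.trans hpq)))
    obtain ⟨a1, a2, a3, a4⟩ := hp1.2 q hpq hq2
    have hp3 : (3 : ℝ) ≤ p := by
      have := (le_max_right Q 3).trans hp
      exact_mod_cast this
    have hq3 : (3 : ℝ) ≤ q := hp3.trans (by exact_mod_cast hpq)
    have b1 : 0 ≤ Real.log (z 0 q) := Real.log_nonneg (by linarith [hq1.1.1.1])
    have b2 : 0 ≤ Real.log (z 0 p) := Real.log_nonneg (by linarith [hp1.1.1.1])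
    have b3 : 0 ≤ Real.log (z r q) := Real.log_nonneg (by
      linarith [zmono_aux hx (hq3.trans hq1.1.1.1) hq1.1.1.2 r le_rfl])
    have b4 : 0 ≤ Real.log (z r p) := Real.log_nonneg (by
      linarith [zmono_aux hx (hp3.trans hp1.1.1.1) hp1.1.1.2 r le_rfl])
    have c := le_max_left C 1
    exact ⟨a1.trans (mul_le_mul_of_nonneg_right c b1), a2.trans (mul_le_mul_of_nonneg_right c b2),
      a3.trans (mul_le_mul_of_nonneg_right c b3), a4.trans (mul_le_mul_of_nonneg_right c b4)⟩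

variable {x s C : ℝ} {Q0 : ℕ}

lemma LF.three (h : LF r z x s C Q0) {q : ℕ} (hq : Q0 ≤ q) : ∀ i ≤ r, (3 : ℝ) ≤ z i q :=
  zmono_aux h.hx ((by exact_mod_cast h.hQ.trans hq : (3 : ℝ) ≤ q).trans (h.f1 q hq)) (h.f2 q hq)

lemma LF.lpos (h : LF r z x s C Q0) {q : ℕ} (hq : Q0 ≤ q) {i : ℕ} (hi : i ≤ r) : 1 < Real.log (z i q) := by
  have h1 := h.three hq i hi
  rw [Real.lt_log_iff_exp_lt (by linarith)]
  have := Real.exp_one_lt_d9
  linarith

lemma LF.ustep (h : LF r z x s C Q0) {q : ℕ} (hq : Q0 ≤ q) {i : ℕ} (hi : i < r) :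
    x ≤ Real.log (z (i + 1) q) / Real.log (z i q) := by
  have h1 := h.three hq i hi.le
  have h2 := h.lpos hq hi.le
  rw [le_div_iff₀ (by linarith), ← Real.log_rpow (by linarith)]
  exact Real.log_le_log (by positivity) (h.f2 q hq i hi)

lemma LF.zmono (h : LF r z x s C Q0) {q : ℕ} (hq : Q0 ≤ q) {i j : ℕ} (hij : i ≤ j) (hj : j ≤ r) :
    z i q ≤ z j q := by
  induction j, hij using Nat.le_induction with
  | base => exact le_rfl
  | succ j hij ih =>
    refine (ih (by omega)).trans ?_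
    have h3 := h.three hq j (by omega)
    calc z j q = z j q ^ (1 : ℝ) := (Real.rpow_one _).symm
      _ ≤ z j q ^ x := Real.rpow_le_rpow_of_exponent_le (by linarith) h.hx.le
      _ ≤ _ := h.f2 q hq j (by omega)

lemma LF.lmono (h : LF r z x s C Q0) {q : ℕ} (hq : Q0 ≤ q) {i j : ℕ} (hij : i ≤ j) (hj : j ≤ r) :
    Real.log (z i q) ≤ Real.log (z j q) :=
  Real.log_le_log (by linarith [h.three hq i (hij.trans hj)]) (h.zmono hq hij hj)

/-- the ratio of the logarithms -/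
noncomputable def rho (r : ℕ) (z : ℕ → ℕ → ℝ) (q : ℕ) : ℝ := Real.log (z 0 q) / Real.log (z r q)

/-- the weight -/
noncomputable def WW' (r : ℕ) (z : ℕ → ℕ → ℝ) (k : Fin r → ℕ) (q : ℕ) : ℝ :=
  ∏ i : Fin r, wgt (k i) (Real.log (z (i + 1) q) / Real.log (z i q))

lemma LF.rho_pos (h : LF r z x s C Q0) {q : ℕ} (hq : Q0 ≤ q) : 0 < rho r z q := by
  have h1 := h.lpos hq (Nat.zero_le r)
  have h2 := h.lpos hq le_rfl
  unfold rho
  apply div_pos <;> linarith

lemma LF.rho_le (h : LF r z x s C Q0) {q : ℕ} (hq : Q0 ≤ q) : rho r z q ≤ 1 := by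
  have h2 := h.lpos hq le_rfl
  unfold rho
  rw [div_le_one (by linarith)]
  exact h.lmono hq (Nat.zero_le r) le_rfl

lemma LF.prod_inv (h : LF r z x s C Q0) {q : ℕ} (hq : Q0 ≤ q) :
    ∏ i : Fin r, (Real.log (z (i + 1) q) / Real.log (z i q))⁻¹ = rho r z q := by
  rw [Fin.prod_univ_eq_prod_range (fun i => (Real.log (z (i + 1) q) / Real.log (z i q))⁻¹) r]
  have key : ∀ j ≤ r, ∏ i ∈ range j, (Real.log (z (i + 1) q) / Real.log (z i q))⁻¹ =
      Real.log (z 0 q) / Real.log (z j q) := by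
    intro j
    induction j with
    | zero =>
      intro _
      have := h.lpos hq (Nat.zero_le r)
      rw [Finset.prod_range_zero, div_self (by linarith)]
    | succ j ih =>
      intro hj
      have h1 := h.lpos hq (show j ≤ r by omega)
      have h2 := h.lpos hq hj
      rw [Finset.prod_range_succ, ih (by omega), inv_div]
      field_simp
  exact key r le_rfl

lemma LF.W_eq (h : LF r z x s C Q0) (k : Fin r → ℕ) {q : ℕ} (hq : Q0 ≤ q) :
    WW' r z k q = rho r z q *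
      ∏ i : Fin r, (Real.log (Real.log (z (i + 1) q) / Real.log (z i q))) ^ k i / (k i).factorial := by
  unfold WW' wgt
  rw [← h.prod_inv hq, ← Finset.prod_mul_distrib]
  refine Finset.prod_congr rfl fun i _ => ?_
  rw [mul_div_assoc]

/-- the constant of the lower bound -/
noncomputable def cW (r : ℕ) (x : ℝ) (k : Fin r → ℕ) : ℝ := ∏ i : Fin r, (Real.log x) ^ k i / (k i).factorial

lemma cW_pos {x : ℝ} (hx : 1 < x) (k : Fin r → ℕ) : 0 < cW r x k := by
  unfold cW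
  have := Real.log_pos hx
  exact Finset.prod_pos fun i _ => by positivity

lemma LF.W_lower (h : LF r z x s C Q0) (k : Fin r → ℕ) {q : ℕ} (hq : Q0 ≤ q) :
    cW r x k * rho r z q ≤ WW' r z k q := by
  rw [h.W_eq k hq, mul_comm]
  refine mul_le_mul_of_nonneg_left ?_ (h.rho_pos hq).le
  unfold cW
  have hlx := Real.log_pos h.hx
  refine Finset.prod_le_prod (fun i _ => by positivity) fun i _ => ?_
  have h1 := h.ustep hq i.2
  have h2 : Real.log x ≤ Real.log (Real.log (z (i + 1) q) / Real.log (z i q)) :=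
    Real.log_le_log (by linarith [h.hx]) h1
  gcongr

lemma LF.W_pos (h : LF r z x s C Q0) (k : Fin r → ℕ) {q : ℕ} (hq : Q0 ≤ q) : 0 < WW' r z k q :=
  lt_of_lt_of_le (mul_pos (cW_pos h.hx k) (h.rho_pos hq)) (h.W_lower k hq)

lemma LF.W_le_one (h : LF r z x s C Q0) (k : Fin r → ℕ) {q : ℕ} (hq : Q0 ≤ q) : WW' r z k q ≤ 1 := by
  unfold WW'
  refine Finset.prod_le_one (fun i _ => wgt_nonneg ?_) fun i _ => wgt_le_one ?_
  · linarith [h.ustep hq i.2, h.hx]
  · linarith [h.ustep hq i.2, h.hx]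

lemma LF.log_u_le (h : LF r z x s C Q0) {q : ℕ} (hq : Q0 ≤ q) {i : ℕ} (hi : i < r) :
    Real.log (Real.log (z (i + 1) q) / Real.log (z i q)) ≤ Real.log q := by
  have hq3 : (3 : ℝ) ≤ q := by exact_mod_cast h.hQ.trans hq
  have h1 := h.lpos hq hi.le
  have h2 := h.lpos hq (show i + 1 ≤ r by omega)
  have h3 := h.lmono hq (show i + 1 ≤ r by omega) le_rfl
  have h4 := h.f3 q hq
  apply Real.log_le_log (by apply div_pos <;> linarith)
  calc Real.log (z (i + 1) q) / Real.log (z i q) ≤ Real.log (z (i + 1) q) := div_le_self (by linarith) h1.le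
    _ ≤ (q : ℝ) ^ (1 - s) := h3.trans h4
    _ ≤ (q : ℝ) ^ (1 : ℝ) := Real.rpow_le_rpow_of_exponent_le (by linarith) (by linarith [h.hs])
    _ = q := Real.rpow_one _

lemma LF.W_upper (h : LF r z x s C Q0) (k : Fin r → ℕ) {q : ℕ} (hq : Q0 ≤ q) :
    WW' r z k q ≤ (Real.log q) ^ (∑ i, k i) * rho r z q := by
  rw [h.W_eq k hq, mul_comm]
  refine mul_le_mul_of_nonneg_right ?_ (h.rho_pos hq).le
  rw [← Finset.prod_pow_eq_pow_sum]
  refine Finset.prod_le_prod (fun i _ => ?_) fun i _ => ?_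
  · have h1 := h.ustep hq i.2
    have h2 : 0 ≤ Real.log (Real.log (z (i + 1) q) / Real.log (z i q)) := Real.log_nonneg (by linarith [h.hx])
    positivity
  · have h1 := h.ustep hq i.2
    have h2 : 0 ≤ Real.log (Real.log (z (i + 1) q) / Real.log (z i q)) := Real.log_nonneg (by linarith [h.hx])
    have h3 : (1 : ℝ) ≤ (k i).factorial := by exact_mod_cast Nat.factorial_pos _
    calc _ ≤ (Real.log (Real.log (z (i + 1) q) / Real.log (z i q))) ^ k i := div_le_self (by positivity) h3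
      _ ≤ _ := pow_le_pow_left₀ h2 (h.log_u_le hq i.2) _

/-- the event -/
def EV (r : ℕ) (z : ℕ → ℕ → ℝ) (k : Fin r → ℕ) (q n : ℕ) : Prop :=
  ∀ i : Fin r, (DV (PJ (z i q) (z (i + 1) q)) n).card = k i

lemma prod_near {r : ℕ} {ε : ℝ} (hε : 0 < ε) : ∃ ε1 : ℝ, 0 < ε1 ∧ ε1 ≤ 1 ∧ ∀ a w : Fin r → ℝ,
    (∀ i, 0 ≤ w i) → (∀ i, |a i - w i| ≤ ε1 * w i) → |∏ i, a i - ∏ i, w i| ≤ ε * ∏ i, w i := by
  have c1 : Continuous fun t : ℝ => (1 + t) ^ r := by fun_prop
  have c2 : Continuous fun t : ℝ => (1 - t) ^ r := by fun_prop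
  have t1 := c1.tendsto 0
  have t2 := c2.tendsto 0
  simp only [add_zero, sub_zero, one_pow] at t1 t2
  have e1 := t1.eventually (gt_mem_nhds (show (1 : ℝ) < 1 + ε by linarith))
  have e2 := t2.eventually (lt_mem_nhds (show (1 : ℝ) - ε < 1 by linarith))
  obtain ⟨δ, hδ, h⟩ := Metric.eventually_nhds_iff.1 (e1.and e2)
  have hm : 0 < min (δ / 2) 1 := by positivity
  refine ⟨min (δ / 2) 1, hm, min_le_right _ _, fun a w hw ha => ?_⟩
  set t := min (δ / 2) 1 with ht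
  have ht1 : t ≤ 1 := min_le_right _ _
  obtain ⟨h1, h2⟩ := h (y := t) (by
    rw [Real.dist_eq, sub_zero, abs_of_pos hm]
    have := min_le_left (δ / 2) 1
    linarith)
  have hp : 0 ≤ ∏ i, w i := Finset.prod_nonneg fun i _ => hw i
  have u1 : ∏ i, a i ≤ (1 + t) ^ r * ∏ i, w i := by
    have e : (1 + t) ^ r * ∏ i, w i = ∏ i : Fin r, ((1 + t) * w i) := by
      rw [Finset.prod_mul_distrib, Finset.prod_const, card_univ, Fintype.card_fin]
    rw [e]
    refine Finset.prod_le_prod (fun i _ => ?_) fun i _ => ?_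
    · have := (abs_le.1 (ha i)).1
      have := hw i
      nlinarith
    · have := (abs_le.1 (ha i)).2
      linarith
  have u2 : (1 - t) ^ r * ∏ i, w i ≤ ∏ i, a i := by
    have e : (1 - t) ^ r * ∏ i, w i = ∏ i : Fin r, ((1 - t) * w i) := by
      rw [Finset.prod_mul_distrib, Finset.prod_const, card_univ, Fintype.card_fin]
    rw [e]
    refine Finset.prod_le_prod (fun i _ => mul_nonneg (by linarith) (hw i)) fun i _ => ?_
    have := (abs_le.1 (ha i)).1
    linarith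
  rw [abs_le]
  constructor
  · nlinarith
  · nlinarith

open Classical in
/-- **The local density.** -/
theorem LF.dens (h : LF r z x s C Q0) (k : Fin r → ℕ) {ε : ℝ} (hε : 0 < ε) :
    ∃ NN Q1 : ℕ, ∀ q ≥ Q1, ∀ m y : ℕ, (z r q) ^ NN ≤ y →
      |(((Ioc m (m + y)).filter (fun n => EV r z k q n)).card : ℝ) - WW' r z k q * y| ≤ ε * WW' r z k q * y := by
  classical
  obtain ⟨ε1, hε1, hε11, hprod⟩ := prod_near (r := r) (show (0 : ℝ) < min (ε / 4) 1 by positivity)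
  have hX : ∃ X0 : ℝ, ∀ i : Fin r, ∀ a b : ℝ, X0 ≤ a → a ^ x ≤ b →
      |mu (PJ a b) (k i) - wgt (k i) (Real.log b / Real.log a)| ≤ ε1 * wgt (k i) (Real.log b / Real.log a) := by
    choose X0 hX03 hX0 using fun i : Fin r => mu_asymp (k i) h.hx hε1
    refine ⟨∑ i, X0 i, fun i a b ha hab => hX0 i a b (le_trans ?_ ha) hab⟩
    exact Finset.single_le_sum (f := X0) (fun j _ => by linarith [hX03 j]) (mem_univ i)
  obtain ⟨X0, hX0⟩ := hX
  -- the sieve parameter
  obtain ⟨R, hR, hRε⟩ : ∃ R : ℕ, 13 ≤ R ∧ eR R ≤ ε / 8 := by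
    have h1 : Tendsto (fun R : ℕ => eR R) atTop (𝓝 0) := by
      unfold eR
      have h2 : Tendsto (fun R : ℕ => (1 / 4 : ℝ) ^ R) atTop (𝓝 0) :=
        tendsto_pow_atTop_nhds_zero_of_lt_one (by norm_num) (by norm_num)
      have h3 := (h2.const_mul (2 ^ 24 : ℝ)).const_mul (2 : ℝ)
      rw [mul_zero, mul_zero] at h3
      refine h3.congr fun R => ?_
      rw [pow_mul]
      norm_num
    obtain ⟨R, hR1, hR2⟩ := ((h1.eventually (gt_mem_nhds (show (0 : ℝ) < ε / 8 by positivity))).and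
      (eventually_ge_atTop 13)).exists
    exact ⟨R, hR2, hR1.le⟩
  set K := ∑ i, k i with hK
  have hcW := cW_pos h.hx k
  have hlim : Tendsto (fun q : ℕ => (q : ℝ) - 1) atTop atTop :=
    tendsto_atTop_add_const_right _ _ tendsto_natCast_atTop_atTop
  obtain ⟨Q1, hQ1⟩ := ((tendsto_natCast_atTop_atTop.eventually_ge_atTop X0).and
    (hlim.eventually_ge_atTop (max 2 (12 / (ε * cW r x k))))).exists_forall_of_atTop
  refine ⟨K + (8 * R + 16) + 2, max Q0 Q1, fun q hq m y hy => ?_⟩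
  have hqQ0 : Q0 ≤ q := (le_max_left _ _).trans hq
  obtain ⟨g1, g2⟩ := hQ1 q ((le_max_right _ _).trans hq)
  have g2a : 2 ≤ (q : ℝ) - 1 := (le_max_left _ _).trans g2
  have g2b : 12 / (ε * cW r x k) ≤ (q : ℝ) - 1 := (le_max_right _ _).trans g2
  have hzr3 := h.three hqQ0 r le_rfl
  have hqz0 := h.f1 q hqQ0
  have hqzr : (q : ℝ) ≤ z r q := hqz0.trans (h.zmono hqQ0 (Nat.zero_le r) le_rfl)
  set B := ⌊z r q⌋₊ with hB
  have hBle : (B : ℝ) ≤ z r q := Nat.floor_le (by linarith)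
  have hBgt : z r q < B + 1 := Nat.lt_floor_add_one _
  have hBq : (q : ℝ) - 1 ≤ B := by linarith
  have hB2 : 2 ≤ B := by
    have : (2 : ℝ) ≤ B := by linarith
    exact_mod_cast this
  obtain ⟨I, hI, hI1, hI2⟩ := Pool.Agent.H154R3.Fund.exists_I B hB2
  have hPp : ∀ i : Fin r, ∀ l ∈ PJ (z i q) (z (i + 1) q), l.Prime := fun i l hl =>
    ((mem_PJ (by linarith [h.three hqQ0 i i.2.le]) (by linarith [h.three hqQ0 (i + 1) i.2])).1 hl).1
  have hdis : ∀ i j : Fin r, i ≠ j → Disjoint (PJ (z i q) (z (i + 1) q)) (PJ (z j q) (z (j + 1) q)) := by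
    have key : ∀ i j : Fin r, i < j → Disjoint (PJ (z i q) (z (i + 1) q)) (PJ (z j q) (z (j + 1) q)) := by
      intro i j hij
      rw [Finset.disjoint_left]
      intro l h1 h2
      have h3 := ((mem_PJ (by linarith [h.three hqQ0 i i.2.le]) (by linarith [h.three hqQ0 (i + 1) i.2])).1 h1).2.2
      have h4 := ((mem_PJ (by linarith [h.three hqQ0 j j.2.le]) (by linarith [h.three hqQ0 (j + 1) j.2])).1 h2).2.1
      have h5 := h.zmono hqQ0 (show (i : ℕ) + 1 ≤ j from hij) j.2.le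
      linarith
    intro i j hij
    rcases lt_or_gt_of_ne hij with h' | h'
    · exact key i j h'
    · exact (key j i h').symm
  have hPB : ∀ i : Fin r, ∀ l ∈ PJ (z i q) (z (i + 1) q), l ≤ B := by
    intro i l hl
    have h3 := ((mem_PJ (by linarith [h.three hqQ0 i i.2.le]) (by linarith [h.three hqQ0 (i + 1) i.2])).1 hl).2.2
    exact Nat.le_floor (h3.trans (h.zmono hqQ0 i.2 le_rfl))
  have hmain := multi_count (fun i : Fin r => PJ (z i q) (z (i + 1) q)) k hPp hdis hR hI hPB hI1 m y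
  set Mu := ∏ i : Fin r, mu (PJ (z i q) (z (i + 1) q)) (k i) with hMu
  have hMuW : |Mu - WW' r z k q| ≤ min (ε / 4) 1 * WW' r z k q := by
    refine hprod (fun i => mu (PJ (z i q) (z (i + 1) q)) (k i))
      (fun i => wgt (k i) (Real.log (z (i + 1) q) / Real.log (z i q))) (fun i => wgt_nonneg ?_) fun i => ?_
    · linarith [h.ustep hqQ0 i.2, h.hx]
    · exact hX0 i _ _ (g1.trans (hqz0.trans (h.zmono hqQ0 (Nat.zero_le _) i.2.le))) (h.f2 q hqQ0 i i.2)
  set W := WW' r z k q with hW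
  have hWpos : 0 < W := h.W_pos k hqQ0
  have hmin1 : min (ε / 4) 1 * W ≤ ε / 4 * W := mul_le_mul_of_nonneg_right (min_le_left _ _) hWpos.le
  have hmin2 : min (ε / 4) 1 * W ≤ 1 * W := mul_le_mul_of_nonneg_right (min_le_right _ _) hWpos.le
  -- the error
  have hB0 : (0 : ℝ) < B := by exact_mod_cast (by omega : 0 < B)
  have hB2r : (2 : ℝ) ≤ B := by exact_mod_cast hB2
  have hE : (B : ℝ) ^ K * ((2 : ℝ) ^ ((4 * R + 8) * 2 ^ I) + 2) ≤ 3 * (B : ℝ) ^ (K + (8 * R + 16)) := by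
    have h1 : (2 : ℝ) ^ ((4 * R + 8) * 2 ^ I) ≤ (B : ℝ) ^ (8 * R + 16) := by
      have : 2 ^ ((4 * R + 8) * 2 ^ I) ≤ B ^ (8 * R + 16) := by
        calc 2 ^ ((4 * R + 8) * 2 ^ I) = (2 ^ 2 ^ I) ^ (4 * R + 8) := by rw [← pow_mul, mul_comm]
          _ ≤ (B ^ 2) ^ (4 * R + 8) := Nat.pow_le_pow_left hI2 _
          _ = B ^ (8 * R + 16) := by rw [← pow_mul]; congr 1; ring
      exact_mod_cast this
    have h2 : (1 : ℝ) ≤ (B : ℝ) ^ (8 * R + 16) := one_le_pow₀ (by linarith)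
    calc (B : ℝ) ^ K * ((2 : ℝ) ^ ((4 * R + 8) * 2 ^ I) + 2) ≤ (B : ℝ) ^ K * (3 * (B : ℝ) ^ (8 * R + 16)) := by
          apply mul_le_mul_of_nonneg_left _ (by positivity)
          linarith
      _ = _ := by rw [pow_add]; ring
  have hyB : (B : ℝ) ^ (K + (8 * R + 16)) * B ^ 2 ≤ y := by
    rw [← pow_add]
    exact (pow_le_pow_left₀ hB0.le hBle _).trans hy
  have hWB : cW r x k / (2 * B) ≤ W := by
    refine le_trans ?_ (h.W_lower k hqQ0)
    have h1 := h.lpos hqQ0 (Nat.zero_le r)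
    have h2 := h.lpos hqQ0 (le_refl r)
    have h3 : Real.log (z r q) ≤ 2 * B := by
      have := Real.log_le_sub_one_of_pos (show 0 < z r q by linarith)
      linarith
    have h4 : 1 / (2 * (B : ℝ)) ≤ rho r z q := by
      unfold rho
      rw [div_le_div_iff₀ (by positivity) (by linarith)]
      nlinarith
    calc cW r x k / (2 * B) = cW r x k * (1 / (2 * B)) := by ring
      _ ≤ _ := mul_le_mul_of_nonneg_left h4 hcW.le
  have hEy : 3 * (B : ℝ) ^ (K + (8 * R + 16)) ≤ ε / 2 * W * y := by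
    have h1 : 12 ≤ ε * cW r x k * B := by
      rw [div_le_iff₀ (by positivity)] at g2b
      have : ε * cW r x k * ((q : ℝ) - 1) ≤ ε * cW r x k * B := mul_le_mul_of_nonneg_left hBq (by positivity)
      linarith
    have h2 : 3 ≤ ε / 2 * (cW r x k / (2 * B)) * B ^ 2 := by
      have e : ε / 2 * (cW r x k / (2 * B)) * (B : ℝ) ^ 2 = ε * cW r x k * B / 4 := by
        field_simp
        ring
      rw [e]
      linarith
    have h3 : (0 : ℝ) ≤ (B : ℝ) ^ (K + (8 * R + 16)) := by positivity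
    calc 3 * (B : ℝ) ^ (K + (8 * R + 16)) ≤
          (ε / 2 * (cW r x k / (2 * B)) * B ^ 2) * (B : ℝ) ^ (K + (8 * R + 16)) := mul_le_mul_of_nonneg_right h2 h3
      _ = ε / 2 * (cW r x k / (2 * B)) * ((B : ℝ) ^ (K + (8 * R + 16)) * B ^ 2) := by ring
      _ ≤ ε / 2 * W * y := by
          apply mul_le_mul _ hyB (by positivity) (by positivity)
          exact mul_le_mul_of_nonneg_left hWB (by positivity)
  have hy0 : (0 : ℝ) ≤ y := Nat.cast_nonneg y
  have hfin : |(((Ioc m (m + y)).filter (fun n => EV r z k q n)).card : ℝ) - Mu * y| ≤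
      eR R * Mu * y + 3 * (B : ℝ) ^ (K + (8 * R + 16)) := by
    refine le_trans (le_of_eq ?_) (hmain.trans (by linarith))
    congr 4
    ext n
    simp only [mem_filter]
    rfl
  have e0 := eR_nonneg R
  obtain ⟨m1, m2⟩ := abs_le.1 hMuW
  have hMu2 : Mu ≤ 2 * W := by linarith
  have hMu0 : 0 ≤ Mu := Finset.prod_nonneg fun i _ => mu_nonneg (hPp i) _
  have hRM : eR R * Mu * y ≤ ε / 4 * W * y := by
    apply mul_le_mul_of_nonneg_right _ hy0
    calc eR R * Mu ≤ ε / 8 * (2 * W) := mul_le_mul hRε hMu2 hMu0 (by positivity)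
      _ = ε / 4 * W := by ring
  have hWy : (Mu - W) * y ≤ ε / 4 * W * y := mul_le_mul_of_nonneg_right (by linarith) hy0
  have hWy2 : -(ε / 4 * W * y) ≤ (Mu - W) * y := by
    rw [← neg_mul]
    exact mul_le_mul_of_nonneg_right (by linarith) hy0
  obtain ⟨n1, n2⟩ := abs_le.1 hfin
  rw [abs_le]
  constructor <;> linarith

end

end Pool.Agent.H538
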