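import Pool.Agent.H538.G6
import Pool.Agent.H538.G5
import Pool.Agent.H538.G1

set_option autoImplicit false

/-!
# Near pairs for the levels
-/

namespace Pool.Agent.H538

open Finset Filter Topology MeasureTheory

variable {r : ℕ} {z : ℕ → ℕ → ℝ} {x s C : ℝ} {Q0 : ℕ}

lemma level_find {q l : ℕ} (h0 : z 0 q < l) : ∀ j ≤ r, (l : ℝ) ≤ z j q →
    ∃ i : Fin r, z i q < l ∧ (l : ℝ) ≤ z (i + 1) q := by
  intro j
  induction j with
  | zero => intro _ h; exact absurd h (by linarith)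
  | succ j ih =>
    intro hj h
    by_cases h1 : (l : ℝ) ≤ z j q
    · exact ih (by omega) h1
    · exact ⟨⟨j, by omega⟩, by simpa using h1, h⟩

lemma LF.TN_card (h : LF r z x s C Q0) (k : Fin r → ℕ) {q n Q : ℕ} {y : ℝ} (hq : Q0 ≤ q)
    (hev : EV r z k q n) (hQ : ⌊z 0 q⌋₊ ≤ Q) (hy : y ≤ z r q) (hy0 : 0 ≤ y) : (TN Q y n).card ≤ ∑ i, k i := by
  classical
  have hsub : TN Q y n ⊆ univ.biUnion (fun i : Fin r => DV (PJ (z i q) (z (i + 1) q)) n) := by
    intro l hl
    unfold TN at hl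
    rw [mem_filter, mem_PZ hy0] at hl
    obtain ⟨⟨h1, h2, h3⟩, h4⟩ := hl
    have h5 : z 0 q < l := Nat.lt_of_floor_lt (lt_of_le_of_lt hQ h2)
    obtain ⟨i, h6, h7⟩ := level_find h5 r le_rfl (h3.trans hy)
    rw [mem_biUnion]
    refine ⟨i, mem_univ _, ?_⟩
    rw [mem_DV, mem_PJ (by linarith [h.three hq i i.2.le]) (by linarith [h.three hq (i + 1) i.2])]
    exact ⟨⟨h1, h6, h7⟩, h4⟩
  refine (card_le_card hsub).trans (card_biUnion_le.trans (le_of_eq ?_))
  exact Finset.sum_congr rfl fun i _ => hev i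

/-- near pairs -/
theorem LF.near_pair (h : LF r z x s C Q0) {b : ℕ} (hb : 2 ≤ b) (k : Fin r → ℕ) : ∃ K2 : ℝ, 0 < K2 ∧
    ∃ P : ℕ, Q0 ≤ P ∧ ∀ p ≥ P, ∀ q : ℕ, p ≤ q → q ≤ 2 * p → ∀ X N : ℕ,
    (z r p) ^ (2 * (∑ i, k i) + 1) ≤ N → N ≤ X →
    ∑ i ∈ range N, ∑ t ∈ range (b ^ (q - p)), ind (EV r z k) p (X + i) *
      ind (EV r z k) q (b ^ (q - p) * (X + i) + t) ≤
      K2 * ((Real.log q) ^ (2 * ∑ i, k i) * (rho r z q) ^ 2) * (N * (b : ℝ) ^ (q - p)) +
        ∑ i ∈ range N, ind (EV r z k) p (X + i) := by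
  classical
  set K := ∑ i, k i with hK
  obtain ⟨Kg, hKg, Pg, hPg2, hPg⟩ := gnear_few hb K
  obtain ⟨Cs, hCs, hS1⟩ := S1_real
  have hlog : Tendsto (fun q : ℕ => Real.log q) atTop atTop :=
    Real.tendsto_log_atTop.comp tendsto_natCast_atTop_atTop
  obtain ⟨P1, hP1⟩ := (hlog.eventually_ge_atTop (max Cs 1)).exists_forall_of_atTop
  refine ⟨Kg * (3 ^ (2 * K) * C ^ 4), by have := h.hC; positivity, max (max Q0 Pg) (max P1 4),
    (le_max_left _ _).trans (le_max_left _ _), fun p hp q hpq hq X N hN hNX => ?_⟩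
  have hpQ0 : Q0 ≤ p := (le_max_left _ _).trans ((le_max_left _ _).trans hp)
  have hpPg : Pg ≤ p := (le_max_right _ _).trans ((le_max_left _ _).trans hp)
  have hpP1 : P1 ≤ p := (le_max_left _ _).trans ((le_max_right _ _).trans hp)
  have hp4 : 4 ≤ p := (le_max_right _ _).trans ((le_max_right _ _).trans hp)
  have hqQ0 : Q0 ≤ q := hpQ0.trans hpq
  have hC1 := h.hC
  obtain ⟨f1, f2, f3, f4⟩ := h.f4 p hpQ0 q hpq hq
  set Q := max ⌊z 0 p⌋₊ ⌊z 0 q⌋₊ with hQ
  set y := min (z r p) (z r q) with hy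
  have hz0p := h.f1 p hpQ0
  have hz0q := h.f1 q hqQ0
  have hzrp := h.three hpQ0 r le_rfl
  have hzrq := h.three hqQ0 r le_rfl
  have hlp := h.lpos hpQ0 (Nat.zero_le r)
  have hlq := h.lpos hqQ0 (Nat.zero_le r)
  have hlrp := h.lpos hpQ0 (le_refl r)
  have hlrq := h.lpos hqQ0 (le_refl r)
  have hy3 : 3 ≤ y := le_min hzrp hzrq
  have hqQ : q ≤ Q := (Nat.le_floor hz0q).trans (le_max_right _ _)
  have hpQ : p ≤ Q := hpq.trans hqQ
  have hQ4 : 4 ≤ Q := hp4.trans hpQ
  have hQ0r : (0 : ℝ) < Q := by exact_mod_cast (by omega : 0 < Q)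
  have hQ3r : (3 : ℝ) ≤ Q := by exact_mod_cast (by omega : 3 ≤ Q)
  have hlogq : max Cs 1 ≤ Real.log q := hP1 q (hpP1.trans hpq)
  have hlogq1 : 1 ≤ Real.log q := (le_max_right _ _).trans hlogq
  have hlogqC : Cs ≤ Real.log q := (le_max_left _ _).trans hlogq
  -- the bound for the logarithm of `Q`
  have hlQ : Real.log Q ≤ C * Real.log (z 0 q) := by
    rcases max_choice ⌊z 0 p⌋₊ ⌊z 0 q⌋₊ with h1 | h1
    · have h2 : (Q : ℝ) ≤ z 0 p := by rw [hQ, h1]; exact Nat.floor_le (by linarith [h.three hpQ0 0 (Nat.zero_le r)])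
      exact (Real.log_le_log hQ0r h2).trans f1
    · have h2 : (Q : ℝ) ≤ z 0 q := by rw [hQ, h1]; exact Nat.floor_le (by linarith [h.three hqQ0 0 (Nat.zero_le r)])
      have h3 := Real.log_le_log hQ0r h2
      nlinarith
  have hlQ0 : 1 ≤ Real.log Q := by
    rw [Real.le_log_iff_exp_le hQ0r]
    have := Real.exp_one_lt_d9
    linarith
  have hly : Real.log (z r q) ≤ C * Real.log y := by
    rcases min_choice (z r p) (z r q) with h1 | h1
    · rw [hy, h1]; exact f4
    · rw [hy, h1]; nlinarith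
  have hly0 : 0 < Real.log y := Real.log_pos (by linarith)
  have hratio : Real.log Q / Real.log y ≤ C ^ 2 * rho r z q := by
    unfold rho
    rw [mul_div_assoc', div_le_div_iff₀ hly0 (by linarith)]
    calc Real.log Q * Real.log (z r q) ≤ (C * Real.log (z 0 q)) * (C * Real.log y) :=
          mul_le_mul hlQ hly (by linarith) (by nlinarith)
      _ = _ := by ring
  have hratio0 : 0 ≤ Real.log Q / Real.log y := div_nonneg (by linarith) hly0.le
  -- the sum of the reciprocals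
  have hS : 1 + S1 Q y ≤ 3 * Real.log q := by
    by_cases hQy : (Q : ℝ) ≤ y
    · have h1 := hS1 Q y hQ3r hQy
      rw [Nat.floor_natCast] at h1
      have h2 := (abs_le.1 h1).2
      have h3 : Cs / Real.log Q ≤ Cs := div_le_self hCs.le hlQ0
      have h4 : Real.log (Real.log y / Real.log Q) ≤ Real.log q := by
        have h5 : Real.log y ≤ q := by
          calc Real.log y ≤ Real.log (z r q) := Real.log_le_log (by linarith) (min_le_right _ _)
            _ ≤ (q : ℝ) ^ (1 - s) := h.f3 q hqQ0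
            _ ≤ (q : ℝ) ^ (1 : ℝ) := Real.rpow_le_rpow_of_exponent_le
                (by exact_mod_cast (by omega : 1 ≤ q)) (by linarith [h.hs])
            _ = q := Real.rpow_one _
        apply Real.log_le_log (div_pos hly0 (by linarith))
        exact (div_le_self hly0.le hlQ0).trans h5
      have h6 : S1 Q y ≤ 2 * Real.log q := by linarith
      linarith
    · have h1 : PZ Q y = ∅ := by
        unfold PZ
        rw [Finset.filter_eq_empty_iff]
        intro l hl
        rw [mem_Ioc] at hl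
        push Not at hQy
        have : ⌊y⌋₊ < Q := (Nat.floor_lt (by linarith)).2 hQy
        omega
      have h2 : S1 Q y = 0 := by unfold S1; rw [h1]; simp
      rw [h2]; linarith
  have hS0 : 0 ≤ S1 Q y := S1_nonneg Q y
  have hbd : Kg * ((1 + S1 Q y) ^ (2 * K) * (Real.log Q / Real.log y) ^ 2) ≤
      Kg * (3 ^ (2 * K) * C ^ 4) * ((Real.log q) ^ (2 * K) * (rho r z q) ^ 2) := by
    calc Kg * ((1 + S1 Q y) ^ (2 * K) * (Real.log Q / Real.log y) ^ 2) ≤
          Kg * ((3 * Real.log q) ^ (2 * K) * (C ^ 2 * rho r z q) ^ 2) := by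
          apply mul_le_mul_of_nonneg_left _ hKg.le
          apply mul_le_mul (pow_le_pow_left₀ (by linarith) hS _) (pow_le_pow_left₀ hratio0 hratio _)
            (by positivity) (by positivity)
      _ = _ := by rw [mul_pow, mul_pow]; ring
  set t := q - p with ht
  have hqh : p + t = q := by omega
  have hbh : 0 < b ^ t := by positivity
  obtain ⟨M, hM⟩ : ∃ M, b ^ t = M + 1 := ⟨b ^ t - 1, by omega⟩
  rw [Finset.sum_comm, show range (b ^ t) = range (M + 1) by rw [hM], Finset.sum_range_succ']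
  have h0 : ∑ i ∈ range N, ind (EV r z k) p (X + i) * ind (EV r z k) q (b ^ t * (X + i) + 0) ≤
      ∑ i ∈ range N, ind (EV r z k) p (X + i) := by
    refine Finset.sum_le_sum fun i _ => ?_
    exact mul_le_of_le_one_right (ind_nonneg _ _ _) (ind_le_one _ _ _)
  have h1 : ∑ e ∈ range M, ∑ i ∈ range N,
      ind (EV r z k) p (X + i) * ind (EV r z k) q (b ^ t * (X + i) + (e + 1)) ≤
      ∑ e ∈ range M, Kg * (3 ^ (2 * K) * C ^ 4) * ((Real.log q) ^ (2 * K) * (rho r z q) ^ 2) * N := by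
    refine Finset.sum_le_sum fun e he => ?_
    rw [mem_range] at he
    have hr' : e + 1 < b ^ t := by omega
    have hNy : y ^ (2 * K + 1) ≤ N :=
      (pow_le_pow_left₀ (by linarith) (min_le_left _ _) _).trans hN
    have h2 := hPg Q (hpPg.trans hpQ) y hy3 t (e + 1) (by omega) (by omega) hr' X N hNy hNX
    refine le_trans ?_ (h2.trans (mul_le_mul_of_nonneg_right hbd (Nat.cast_nonneg N)))
    rw [Finset.card_filter, Nat.cast_sum]
    refine Finset.sum_le_sum fun i _ => ?_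
    unfold ind
    by_cases g1 : EV r z k p (X + i)
    · by_cases g2 : EV r z k q (b ^ t * (X + i) + (e + 1))
      · rw [if_pos g1, if_pos g2, if_pos]
        · simp
        · exact ⟨h.TN_card k hpQ0 g1 (le_max_left _ _) (min_le_left _ _) (by linarith),
            h.TN_card k hqQ0 g2 (le_max_right _ _) (min_le_right _ _) (by linarith)⟩
      · rw [if_neg g2, mul_zero]
        exact Nat.cast_nonneg _
    · rw [if_neg g1, zero_mul]
      exact Nat.cast_nonneg _
  refine (add_le_add h1 h0).trans ?_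
  rw [Finset.sum_const, card_range, nsmul_eq_mul]
  have h3 : (M : ℝ) ≤ (b : ℝ) ^ t := by
    have : M ≤ b ^ t := by omega
    exact_mod_cast this
  have h6 : 0 ≤ Kg * (3 ^ (2 * K) * C ^ 4) * ((Real.log q) ^ (2 * K) * (rho r z q) ^ 2) * N := by positivity
  have h7 := mul_le_mul_of_nonneg_right h3 h6
  linarith

/-- the lower bound for the total weight: dyadic blocks -/
lemma LF.rho_cmp (h : LF r z x s C Q0) {p q : ℕ} (hp : Q0 ≤ p) (hpq : p ≤ q) (hq : q ≤ 2 * p) :
    rho r z q ≤ C ^ 2 * rho r z p ∧ rho r z p ≤ C ^ 2 * rho r z q := by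
  obtain ⟨f1, f2, f3, f4⟩ := h.f4 p hp q hpq hq
  have hC1 := h.hC
  have hlp := h.lpos hp (Nat.zero_le r)
  have hlq := h.lpos (hp.trans hpq) (Nat.zero_le r)
  have hlrp := h.lpos hp (le_refl r)
  have hlrq := h.lpos (hp.trans hpq) (le_refl r)
  unfold rho
  constructor
  · rw [mul_div_assoc', div_le_div_iff₀ (by linarith) (by linarith)]
    calc Real.log (z 0 q) * Real.log (z r p) ≤ (C * Real.log (z 0 p)) * (C * Real.log (z r q)) :=
          mul_le_mul f2 f3 (by linarith) (by nlinarith)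
      _ = _ := by ring
  · rw [mul_div_assoc', div_le_div_iff₀ (by linarith) (by linarith)]
    calc Real.log (z 0 p) * Real.log (z r q) ≤ (C * Real.log (z 0 q)) * (C * Real.log (z r p)) :=
          mul_le_mul f1 f4 (by linarith) (by nlinarith)
      _ = _ := by ring

end Pool.Agent.H538
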