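import Pool.Agent.H538.K11

set_option autoImplicit false

/-!
# The law for the integers with `k` prime factors, for almost every amplitude
-/

namespace Pool.Agent.H538

open Finset Filter Topology MeasureTheory
open Pool.Agent.Y895.PM (U01)
open Pool.Agent.Y895.OL (gF VI FI)
open Pool.Agent.Y895.PT (lim_of_close2)

/-- from the blocks to almost every amplitude -/
theorem transferW {b : ℕ} (hb : 2 ≤ b) {A : ℕ → ℕ → Prop} {w : ℕ → ℝ} {c : ℝ} (S : Set ℕ)
    (hdiv : Tendsto (VI {p | p.Prime} w S) atTop atTop)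
    (hblock : ∀ a j : ℕ, 1 ≤ a → ∀ᵐ t ∂U01, Tendsto (fun n : ℕ =>
      FI {p | p.Prime} (gF (ind A) b (fun q => a * b ^ (q - j)) (fun q => q - j)) S n t /
        VI {p | p.Prime} w S n) atTop (𝓝 c)) :
    ∀ᵐ β : ℝ, 0 < β → Tendsto (fun n : ℕ => (cA A b S β n : ℝ) / VI {p | p.Prime} w S n) atTop (𝓝 c) := by
  classical
  have hbr : (2 : ℝ) ≤ b := by exact_mod_cast hb
  have hb0 : (0 : ℝ) < b := by linarith
  have hb1 : ∀ a j : ℕ, ∀ᵐ β : ℝ, 1 ≤ a → 0 ≤ β * (b : ℝ) ^ j + (-(a : ℝ)) → β * (b : ℝ) ^ j + (-(a : ℝ)) < 1 →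
      Tendsto (fun n : ℕ => (cA A b S β n : ℝ) / VI {p | p.Prime} w S n) atTop (𝓝 c) := by
    intro a j
    by_cases ha : 1 ≤ a
    swap
    · exact Eventually.of_forall fun β h => absurd h ha
    have h1 := hblock a j ha
    unfold U01 at h1
    rw [ae_restrict_iff' measurableSet_Ico] at h1
    have h2 : ∀ᵐ t : ℝ, ∀ M k : ℕ, t ≠ k / (b : ℝ) ^ M := by
      rw [ae_all_iff]
      intro M
      rw [ae_all_iff]
      intro k
      exact Measure.ae_ne volume _
    have h3 := ae_affine (h1.and h2) (c := (b : ℝ) ^ j) (by positivity) (-(a : ℝ))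
    filter_upwards [h3] with β hβ _ g0 g1
    obtain ⟨hβ1, hβ2⟩ := hβ
    set t := β * (b : ℝ) ^ j + (-(a : ℝ)) with ht
    have hlim := hβ1 ⟨g0, g1⟩
    -- comparison of the counting functions
    have hval : ∀ p ≥ j, ⌈β * (b : ℝ) ^ p⌉₊ - 1 = a * b ^ (p - j) + ⌊(b : ℝ) ^ (p - j) * t⌋₊ := by
      intro p hp
      have e1 : β * (b : ℝ) ^ p = ((a * b ^ (p - j) : ℕ) : ℝ) + (b : ℝ) ^ (p - j) * t := by
        have : (b : ℝ) ^ p = (b : ℝ) ^ j * (b : ℝ) ^ (p - j) := by
          rw [← pow_add, Nat.add_sub_cancel' hp]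
        rw [this, ht]
        push_cast
        ring
      rw [e1, ceil_eq (by positivity)]
      intro k hk
      have h0 : (0 : ℝ) < (b : ℝ) ^ (p - j) := by positivity
      refine hβ2 (p - j) k ?_
      rw [eq_div_iff h0.ne']
      linarith
    have hcmp : ∀ n : ℕ, |(cA A b S β n : ℝ) -
        FI {p | p.Prime} (gF (ind A) b (fun q => a * b ^ (q - j)) (fun q => q - j)) S n t| ≤ j := by
      intro n
      have e1 : (cA A b S β n : ℝ) = ∑ p ∈ range (n + 1), if p ∈ S ∧ p ∈ {p : ℕ | p.Prime} then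
          ind A p (⌈β * (b : ℝ) ^ p⌉₊ - 1) else 0 := by
        unfold cA
        rw [Finset.card_filter, Nat.cast_sum]
        refine Finset.sum_congr rfl fun p _ => ?_
        unfold ind
        by_cases g1 : p.Prime <;> by_cases g2 : p ∈ S <;> by_cases g3 : A p (⌈β * (b : ℝ) ^ p⌉₊ - 1) <;>
          simp [g1, g2, g3]
      rw [e1]
      unfold FI
      rw [← Finset.sum_sub_distrib]
      have e2 : ∀ p ∈ range (n + 1), |((if p ∈ S ∧ p ∈ {p : ℕ | p.Prime} then
          ind A p (⌈β * (b : ℝ) ^ p⌉₊ - 1) else 0) - (if p ∈ S ∧ p ∈ {p : ℕ | p.Prime} then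
          gF (ind A) b (fun q => a * b ^ (q - j)) (fun q => q - j) p t else 0))| ≤
          if p < j then 1 else 0 := by
        intro p _
        by_cases hp : p < j
        · rw [if_pos hp]
          split_ifs
          · unfold gF
            have k1 := ind_nonneg A p (⌈β * (b : ℝ) ^ p⌉₊ - 1)
            have k2 := ind_le_one A p (⌈β * (b : ℝ) ^ p⌉₊ - 1)
            have k3 := ind_nonneg A p (a * b ^ (p - j) + ⌊(b : ℝ) ^ (p - j) * t⌋₊)
            have k4 := ind_le_one A p (a * b ^ (p - j) + ⌊(b : ℝ) ^ (p - j) * t⌋₊)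
            rw [abs_le]
            constructor <;> linarith
          · simp
        · rw [if_neg hp]
          push Not at hp
          have e3 : gF (ind A) b (fun q => a * b ^ (q - j)) (fun q => q - j) p t =
              ind A p (⌈β * (b : ℝ) ^ p⌉₊ - 1) := by
            unfold gF
            rw [hval p hp]
          rw [e3, sub_self, abs_zero]
      refine (Finset.abs_sum_le_sum_abs _ _).trans ((Finset.sum_le_sum
        (g := fun p => if p < j then (1 : ℝ) else 0) fun p hp => ?_).trans ?_)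
      · refine le_trans (le_of_eq ?_) (e2 p hp)
        congr!
      rw [← Finset.sum_filter, Finset.sum_const, nsmul_eq_mul, mul_one]
      have e4 : ((range (n + 1)).filter (fun p => p < j)).card ≤ j := by
        calc ((range (n + 1)).filter (fun p => p < j)).card ≤ (range j).card :=
              Finset.card_le_card fun p hp => by
                rw [Finset.mem_filter] at hp
                exact Finset.mem_range.2 hp.2
          _ = j := card_range j
      exact_mod_cast e4
    have hdiff : Tendsto (fun n : ℕ => ((cA A b S β n : ℝ) -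
        FI {p | p.Prime} (gF (ind A) b (fun q => a * b ^ (q - j)) (fun q => q - j)) S n t) /
        VI {p | p.Prime} w S n) atTop (𝓝 0) := by
      have h4 : Tendsto (fun n : ℕ => (j : ℝ) / VI {p | p.Prime} w S n) atTop (𝓝 0) :=
        hdiv.const_div_atTop _
      refine squeeze_zero_norm' ?_ h4
      filter_upwards [hdiv.eventually_gt_atTop 0] with n hn
      rw [Real.norm_eq_abs, abs_div, abs_of_pos hn]
      exact div_le_div_of_nonneg_right (hcmp n) hn.le
    have hadd := hdiff.add hlim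
    rw [zero_add] at hadd
    refine hadd.congr fun n => ?_
    ring
  have hall : ∀ᵐ β : ℝ, ∀ a j : ℕ, 1 ≤ a → 0 ≤ β * (b : ℝ) ^ j + (-(a : ℝ)) → β * (b : ℝ) ^ j + (-(a : ℝ)) < 1 →
      Tendsto (fun n : ℕ => (cA A b S β n : ℝ) / VI {p | p.Prime} w S n) atTop (𝓝 c) := by
    rw [ae_all_iff]
    intro a
    rw [ae_all_iff]
    exact hb1 a
  filter_upwards [hall] with β hβ hβ0
  obtain ⟨j, hj⟩ := pow_unbounded_of_one_lt (1 / β) (show (1 : ℝ) < b by linarith)
  have h1 : 1 < β * (b : ℝ) ^ j := by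
    rw [div_lt_iff₀ hβ0] at hj
    linarith
  have h2 := Nat.floor_le (show 0 ≤ β * (b : ℝ) ^ j by linarith)
  have h3 := Nat.lt_floor_add_one (β * (b : ℝ) ^ j)
  exact hβ ⌊β * (b : ℝ) ^ j⌋₊ j (Nat.le_floor (by push_cast; linarith)) (by linarith) (by linarith)

lemma ck_pos {b : ℕ} (hb : 2 ≤ b) (j : ℕ) : 0 < ck b j := by
  have hlb : 0 < Real.log b := Real.log_pos (by exact_mod_cast (by omega : 1 < b))
  unfold ck
  positivity

/-- **The law for sets of primes which are not too sparse.** -/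
theorem law_K {b : ℕ} (hb : 2 ≤ b) (j : ℕ) (S : Set ℕ) {s c' : ℝ} (hs : 0 < s) (hc' : 0 < c')
    (hfat : ∀ᶠ n : ℕ in atTop, c' * (Real.log n) ^ ((j : ℝ) + 1 / 2 + s) ≤ VI {p | p.Prime} (wk j) S n) :
    ∀ᵐ β : ℝ, 0 < β → Tendsto (fun n : ℕ => (cA (AK j) b S β n : ℝ) / VI {p | p.Prime} (wk j) S n) atTop
      (𝓝 (ck b j)) := by
  have hc := ck_pos hb j
  have hdiv := div_of_fat hs hc' hfat
  refine transferW hb S hdiv fun a d ha => ?_
  have h1 : ∀ k : ℕ, ∀ᵐ t ∂U01, ∀ᶠ n : ℕ in atTop,
      (1 - 1 / ((k : ℝ) + 2)) * ck b j * VI {p | p.Prime} (wk j) S n ≤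
        FI {p | p.Prime} (gF (ind (AK j)) b (fun q => a * b ^ (q - d)) (fun q => q - d)) S n t ∧
      FI {p | p.Prime} (gF (ind (AK j)) b (fun q => a * b ^ (q - d)) (fun q => q - d)) S n t ≤
        (1 + 1 / ((k : ℝ) + 2)) * ck b j * VI {p | p.Prime} (wk j) S n := by
    intro k
    have hk : (0 : ℝ) < (k : ℝ) + 2 := by positivity
    have h2 := block_sharpK hb j a d ha (ε := ck b j / (2 * ((k : ℝ) + 2))) (by positivity) (by
      rw [mul_div_assoc']
      rw [div_le_iff₀ (by positivity)]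
      have : (0 : ℝ) ≤ k := Nat.cast_nonneg k
      nlinarith) S hs hc' hfat
    filter_upwards [h2] with t ht
    filter_upwards [ht] with n hn
    have e1 : (1 - 1 / ((k : ℝ) + 2)) * ck b j = ck b j - 2 * (ck b j / (2 * ((k : ℝ) + 2))) := by field_simp
    have e2 : (1 + 1 / ((k : ℝ) + 2)) * ck b j = ck b j + 2 * (ck b j / (2 * ((k : ℝ) + 2))) := by field_simp
    rw [e1, e2]
    exact hn
  filter_upwards [ae_all_iff.2 h1] with t ht
  exact lim_of_close2 hc hdiv ht

/-! ### the sums of the powers -/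

lemma pow_diff_lo {a b : ℝ} (ha : 0 ≤ a) (hab : a ≤ b) (j : ℕ) :
    (j + 1) * ((b - a) * a ^ j) ≤ b ^ (j + 1) - a ^ (j + 1) := by
  induction j with
  | zero => simp
  | succ j ih =>
    have h1 : b ^ (j + 1 + 1) - a ^ (j + 1 + 1) = b * (b ^ (j + 1) - a ^ (j + 1)) + (b - a) * a ^ (j + 1) := by ring
    rw [h1]
    have h2 : a * ((j + 1) * ((b - a) * a ^ j)) ≤ b * (b ^ (j + 1) - a ^ (j + 1)) := by
      have h3 : 0 ≤ (j + 1 : ℝ) * ((b - a) * a ^ j) := by
        have : 0 ≤ b - a := by linarith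
        positivity
      calc a * ((j + 1) * ((b - a) * a ^ j)) ≤ b * ((j + 1) * ((b - a) * a ^ j)) :=
            mul_le_mul_of_nonneg_right hab h3
        _ ≤ _ := mul_le_mul_of_nonneg_left ih (ha.trans hab)
    have h4 : a * ((j + 1) * ((b - a) * a ^ j)) = (j + 1) * ((b - a) * a ^ (j + 1)) := by ring
    push_cast
    linarith

lemma pow_diff_up {a b : ℝ} (ha : 0 ≤ a) (hab : a ≤ b) (j : ℕ) :
    b ^ (j + 1) - a ^ (j + 1) ≤ (j + 1) * ((b - a) * b ^ j) := by
  induction j with
  | zero => simp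
  | succ j ih =>
    have h1 : b ^ (j + 1 + 1) - a ^ (j + 1 + 1) = (b - a) * b ^ (j + 1) + a * (b ^ (j + 1) - a ^ (j + 1)) := by ring
    rw [h1]
    have h2 : a * (b ^ (j + 1) - a ^ (j + 1)) ≤ b * ((j + 1) * ((b - a) * b ^ j)) := by
      have h3 : 0 ≤ (j + 1 : ℝ) * ((b - a) * b ^ j) := by
        have : 0 ≤ b - a := by linarith
        have : 0 ≤ b := ha.trans hab
        positivity
      calc a * (b ^ (j + 1) - a ^ (j + 1)) ≤ a * ((j + 1) * ((b - a) * b ^ j)) := mul_le_mul_of_nonneg_left ih ha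
        _ ≤ _ := mul_le_mul_of_nonneg_right hab h3
    have h4 : b * ((j + 1) * ((b - a) * b ^ j)) = (j + 1) * ((b - a) * b ^ (j + 1)) := by ring
    push_cast
    linarith

/-- the sum of `(log p) ^ (j + 1) / p` over the primes `p ≤ n` -/
noncomputable def UU (j n : ℕ) : ℝ := ∑ p ∈ (Finset.Icc 1 n).filter Nat.Prime, (Real.log p) ^ (j + 1) / p

lemma UU_bound (j : ℕ) : ∃ C : ℝ, 0 ≤ C ∧ ∀ n : ℕ, 1 ≤ n →
    |UU j n - (Real.log n) ^ (j + 1) / (j + 1)| ≤ C * (Real.log n) ^ j := by
  obtain ⟨C, hC⟩ := Pool.Agent.Helper601.Mertens.mertens_log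
  have hC0 : 0 ≤ C := (abs_nonneg _).trans (hC 1 le_rfl)
  set W : ℕ → ℝ := fun n => ∑ p ∈ (Finset.Icc 1 n).filter Nat.Prime, Real.log p / p with hW
  set E : ℕ → ℝ := fun n => W n - Real.log n with hE
  have hEC : ∀ n, 1 ≤ n → |E n| ≤ C := fun n hn => hC n hn
  have hj0 : (0 : ℝ) < (j : ℝ) + 1 := by positivity
  have key : ∀ n : ℕ, 1 ≤ n → |UU j n - (Real.log n) ^ (j + 1) / (j + 1) - E n * (Real.log n) ^ j| ≤
      (1 + C) * (Real.log n) ^ j := by
    intro n hn
    induction n, hn using Nat.le_induction with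
    | base =>
      have e1 : UU j 1 = 0 := by
        unfold UU
        refine Finset.sum_eq_zero fun p hp => ?_
        rw [mem_filter, Finset.mem_Icc] at hp
        exact absurd hp.2 (by
          have : p = 1 := by omega
          rw [this]; exact Nat.not_prime_one)
      have e2 : E 1 = 0 := by
        simp only [hE, hW]
        rw [Finset.sum_eq_zero fun p hp => ?_]
        · simp
        · rw [mem_filter, Finset.mem_Icc] at hp
          exact absurd hp.2 (by
            have : p = 1 := by omega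
            rw [this]; exact Nat.not_prime_one)
      rw [e1, e2]
      simp only [Nat.cast_one, Real.log_one]
      rw [zero_pow (by omega)]
      simp only [zero_div, sub_zero, zero_mul, abs_zero]
      positivity
    | succ n hn ih =>
      have hn0 : (0 : ℝ) < n := by exact_mod_cast hn
      have hn1 : (1 : ℝ) ≤ n := by exact_mod_cast hn
      set a := Real.log n with ha
      set b := Real.log (n + 1 : ℕ) with hb
      have ha0 : 0 ≤ a := Real.log_nonneg hn1
      have hab : a ≤ b := Real.log_le_log hn0 (by push_cast; linarith)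
      have hba : b - a ≤ 1 := by
        rw [hb, ha, ← Real.log_div (by positivity) hn0.ne']
        have h1 : ((n + 1 : ℕ) : ℝ) / n ≤ 2 := by
          rw [div_le_iff₀ hn0]; push_cast; linarith
        have h2 := Real.log_le_sub_one_of_pos (show (0 : ℝ) < ((n + 1 : ℕ) : ℝ) / n by positivity)
        linarith
      have hIcc : (Finset.Icc 1 (n + 1)).filter Nat.Prime =
          if (n + 1).Prime then insert (n + 1) ((Finset.Icc 1 n).filter Nat.Prime)
          else (Finset.Icc 1 n).filter Nat.Prime := by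
        ext p
        split_ifs with hp
        · rw [mem_insert, mem_filter, mem_filter, Finset.mem_Icc, Finset.mem_Icc]
          constructor
          · rintro ⟨h1, h2⟩
            by_cases h3 : p = n + 1
            · exact Or.inl h3
            · exact Or.inr ⟨⟨h1.1, by omega⟩, h2⟩
          · rintro (h1 | h1)
            · rw [h1]; exact ⟨⟨by omega, le_rfl⟩, hp⟩
            · exact ⟨⟨h1.1.1, by omega⟩, h1.2⟩
        · rw [mem_filter, mem_filter, Finset.mem_Icc, Finset.mem_Icc]
          constructor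
          · rintro ⟨h1, h2⟩
            refine ⟨⟨h1.1, ?_⟩, h2⟩
            by_contra h3
            have : p = n + 1 := by omega
            rw [this] at h2
            exact hp h2
          · rintro ⟨h1, h2⟩
            exact ⟨⟨h1.1, by omega⟩, h2⟩
      have hni : n + 1 ∉ (Finset.Icc 1 n).filter Nat.Prime := by
        rw [mem_filter, Finset.mem_Icc]; omega
      have hU : UU j (n + 1) - UU j n = (W (n + 1) - W n) * b ^ j := by
        simp only [UU, hW]
        rw [hIcc]
        split_ifs with hp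
        · rw [Finset.sum_insert hni, Finset.sum_insert hni, pow_succ]
          ring
        · ring
      have hWE : W (n + 1) - W n = (b - a) + (E (n + 1) - E n) := by
        simp only [hE]
        ring
      have e : UU j (n + 1) - b ^ (j + 1) / (j + 1) - E (n + 1) * b ^ j =
          (UU j n - a ^ (j + 1) / (j + 1) - E n * a ^ j) +
          ((b - a) * b ^ j - (b ^ (j + 1) - a ^ (j + 1)) / (j + 1)) - E n * (b ^ j - a ^ j) := by
        have : UU j (n + 1) = UU j n + ((b - a) + (E (n + 1) - E n)) * b ^ j := by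
          rw [← hWE, ← hU]; ring
        rw [this]
        ring
      rw [e]
      have hbj : a ^ j ≤ b ^ j := pow_le_pow_left₀ ha0 hab _
      have h1 : |(b - a) * b ^ j - (b ^ (j + 1) - a ^ (j + 1)) / (j + 1)| ≤ b ^ j - a ^ j := by
        have g1 := pow_diff_lo ha0 hab j
        have g2 := pow_diff_up ha0 hab j
        have g3 : (b ^ (j + 1) - a ^ (j + 1)) / (j + 1) ≤ (b - a) * b ^ j := by
          rw [div_le_iff₀ hj0]; linarith
        have g4 : (b - a) * a ^ j ≤ (b ^ (j + 1) - a ^ (j + 1)) / (j + 1) := by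
          rw [le_div_iff₀ hj0]; linarith
        rw [abs_of_nonneg (by linarith)]
        have g5 : (b - a) * (b ^ j - a ^ j) ≤ 1 * (b ^ j - a ^ j) :=
          mul_le_mul_of_nonneg_right hba (by linarith)
        linarith
      have h2 : |E n * (b ^ j - a ^ j)| ≤ C * (b ^ j - a ^ j) := by
        rw [abs_mul, abs_of_nonneg (show 0 ≤ b ^ j - a ^ j by linarith)]
        exact mul_le_mul_of_nonneg_right (hEC n hn) (by linarith)
      obtain ⟨i1, i2⟩ := abs_le.1 ih
      obtain ⟨j1, j2⟩ := abs_le.1 h1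
      obtain ⟨k1, k2⟩ := abs_le.1 h2
      rw [abs_le]
      constructor <;> linarith
  refine ⟨1 + 2 * C, by positivity, fun n hn => ?_⟩
  have h1 := key n hn
  have hl : 0 ≤ Real.log n := Real.log_natCast_nonneg n
  have h2 : |E n * (Real.log n) ^ j| ≤ C * (Real.log n) ^ j := by
    rw [abs_mul, abs_of_nonneg (show 0 ≤ (Real.log n) ^ j by positivity)]
    exact mul_le_mul_of_nonneg_right (hEC n hn) (by positivity)
  obtain ⟨i1, i2⟩ := abs_le.1 h1
  obtain ⟨j1, j2⟩ := abs_le.1 h2
  rw [abs_le]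
  constructor <;> linarith

lemma UU_tendsto (j : ℕ) : Tendsto (fun n : ℕ => UU j n / (Real.log n) ^ (j + 1)) atTop (𝓝 (1 / ((j : ℝ) + 1))) := by
  obtain ⟨C, hC0, hC⟩ := UU_bound j
  have hlog : Tendsto (fun q : ℕ => Real.log q) atTop atTop :=
    Real.tendsto_log_atTop.comp tendsto_natCast_atTop_atTop
  have h1 : Tendsto (fun n : ℕ => C / Real.log n) atTop (𝓝 0) := hlog.const_div_atTop C
  have h2 : Tendsto (fun n : ℕ => UU j n / (Real.log n) ^ (j + 1) - 1 / ((j : ℝ) + 1)) atTop (𝓝 0) := by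
    refine squeeze_zero_norm' ?_ h1
    filter_upwards [hlog.eventually_gt_atTop 0, eventually_ge_atTop 1] with n hn hn1
    have h3 := hC n hn1
    have hj0 : (0 : ℝ) < (j : ℝ) + 1 := by positivity
    have e : UU j n / (Real.log n) ^ (j + 1) - 1 / ((j : ℝ) + 1) =
        (UU j n - (Real.log n) ^ (j + 1) / (j + 1)) / (Real.log n) ^ (j + 1) := by
      field_simp
    rw [e, Real.norm_eq_abs, abs_div, abs_of_pos (show 0 < (Real.log n) ^ (j + 1) by positivity),
      div_le_div_iff₀ (by positivity) hn]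
    calc |UU j n - (Real.log n) ^ (j + 1) / (j + 1)| * Real.log n ≤ (C * (Real.log n) ^ j) * Real.log n :=
          mul_le_mul_of_nonneg_right h3 hn.le
      _ = C * (Real.log n) ^ (j + 1) := by rw [pow_succ]; ring
  have h3 := h2.add_const (1 / ((j : ℝ) + 1))
  simpa using h3

open Classical in
/-- the weighted count of the primes of `S` -/
noncomputable def vK (k : ℕ) (S : Set ℕ) (n : ℕ) : ℝ :=
  ∑ p ∈ (Finset.range (n + 1)).filter (fun p => p.Prime ∧ p ∈ S), (Real.log p) ^ k / p

lemma vK_eq (j : ℕ) (S : Set ℕ) (n : ℕ) :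
    VI {p | p.Prime} (wk j) S n = vK (j + 1) S n / (j + 1).factorial := by
  classical
  unfold vK VI
  rw [Finset.sum_filter, Finset.sum_div]
  refine Finset.sum_congr rfl fun p _ => ?_
  by_cases h : p.Prime ∧ p ∈ S
  · rw [if_pos h, if_pos ⟨h.2, h.1⟩]
    unfold wk
    rw [div_div, mul_comm]
  · rw [if_neg h, if_neg fun h1 => h ⟨h1.2, h1.1⟩, zero_div]

lemma vK_univ (j n : ℕ) : vK (j + 1) Set.univ n = UU j n := by
  classical
  unfold vK UU
  refine Finset.sum_congr ?_ fun _ _ => rfl
  ext p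
  simp only [Finset.mem_filter, Finset.mem_Icc, Finset.mem_range, Set.mem_univ, and_true]
  constructor
  · rintro ⟨h1, h2⟩
    exact ⟨⟨h2.one_lt.le, by omega⟩, h2⟩
  · rintro ⟨⟨h1, h2⟩, h3⟩
    exact ⟨by omega, h3⟩

/-- **The law for `k = j + 1` prime factors, for sets of primes.** -/
theorem law_set {b : ℕ} (hb : 2 ≤ b) (j : ℕ) (S : Set ℕ) {s c' : ℝ} (hs : 0 < s) (hc' : 0 < c')
    (hfat : ∀ᶠ n : ℕ in atTop, c' * (Real.log n) ^ ((j : ℝ) + 1 / 2 + s) ≤ vK (j + 1) S n) :
    ∀ᵐ β : ℝ, 0 < β → Tendsto (fun n : ℕ => (cA (AK j) b S β n : ℝ) / vK (j + 1) S n) atTop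
      (𝓝 (Real.exp Real.eulerMascheroniConstant / Real.log b / j.factorial)) := by
  have hf : (0 : ℝ) < (j + 1).factorial := by exact_mod_cast Nat.factorial_pos _
  have hfj : (0 : ℝ) < j.factorial := by exact_mod_cast Nat.factorial_pos _
  have hlb : 0 < Real.log b := Real.log_pos (by exact_mod_cast (by omega : 1 < b))
  have h1 : ∀ᶠ n : ℕ in atTop, c' / (j + 1).factorial * (Real.log n) ^ ((j : ℝ) + 1 / 2 + s) ≤
      VI {p | p.Prime} (wk j) S n := by
    filter_upwards [hfat] with n hn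
    rw [vK_eq, div_mul_eq_mul_div]
    exact div_le_div_of_nonneg_right hn hf.le
  filter_upwards [law_K hb j S hs (div_pos hc' hf) h1] with β hβ h0
  have h2 := (hβ h0).div_const ((j + 1).factorial : ℝ)
  have e : ck b j / ((j + 1).factorial : ℝ) = Real.exp Real.eulerMascheroniConstant / Real.log b / j.factorial := by
    unfold ck
    rw [Nat.factorial_succ]
    push_cast
    field_simp
  rw [e] at h2
  refine h2.congr fun n => ?_
  rw [vK_eq]
  field_simp

/-- **The law for `k = j + 1` prime factors.** -/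
theorem law_all {b : ℕ} (hb : 2 ≤ b) (j : ℕ) :
    ∀ᵐ β : ℝ, 0 < β → Tendsto (fun n : ℕ => (cA (AK j) b Set.univ β n : ℝ) / (Real.log n) ^ (j + 1)) atTop
      (𝓝 (Real.exp Real.eulerMascheroniConstant / Real.log b / (j + 1).factorial)) := by
  have hlog : Tendsto (fun q : ℕ => Real.log q) atTop atTop :=
    Real.tendsto_log_atTop.comp tendsto_natCast_atTop_atTop
  have hj0 : (0 : ℝ) < (j : ℝ) + 1 := by positivity
  have hU := UU_tendsto j
  have h1 : ∀ᶠ n : ℕ in atTop, 1 / (2 * ((j : ℝ) + 1)) * (Real.log n) ^ ((j : ℝ) + 1 / 2 + 1 / 2) ≤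
      vK (j + 1) Set.univ n := by
    have h2 : (1 : ℝ) / (2 * ((j : ℝ) + 1)) < 1 / ((j : ℝ) + 1) :=
      one_div_lt_one_div_of_lt hj0 (by linarith)
    filter_upwards [hU.eventually_const_lt h2, hlog.eventually_gt_atTop 0] with n hn hn0
    rw [vK_univ]
    rw [lt_div_iff₀ (by positivity)] at hn
    rw [show (j : ℝ) + 1 / 2 + 1 / 2 = ((j + 1 : ℕ) : ℝ) by push_cast; ring, Real.rpow_natCast]
    exact hn.le
  filter_upwards [law_set hb j Set.univ (show (0 : ℝ) < 1 / 2 by norm_num) (by positivity) h1] with β hβ h0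
  have h3 := (hβ h0).mul hU
  have e : Real.exp Real.eulerMascheroniConstant / Real.log b / j.factorial * (1 / ((j : ℝ) + 1)) =
      Real.exp Real.eulerMascheroniConstant / Real.log b / (j + 1).factorial := by
    rw [Nat.factorial_succ]
    push_cast
    field_simp
  rw [e] at h3
  refine h3.congr' ?_
  filter_upwards [hU.eventually_const_lt (show (0 : ℝ) < 1 / ((j : ℝ) + 1) by positivity),
    hlog.eventually_gt_atTop 0] with n hn hn0
  have hUp : 0 < UU j n := by
    rw [lt_div_iff₀ (by positivity), zero_mul] at hn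
    exact hn
  rw [vK_univ]
  field_simp

end Pool.Agent.H538
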