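import Pool.Agent.H538.G7
import Pool.Agent.H538.K12

set_option autoImplicit false

/-!
# The law in a block, for the levels
-/

namespace Pool.Agent.H538

open Finset Filter Topology MeasureTheory
open Pool.Agent.Y895.PM (U01 avg corr floor_meas sum_blocks)
open Pool.Agent.Y895.OL (gF gM cg ae_U01 floor_lt_pow VI FI VI_nonneg)

variable {r : ℕ} {z : ℕ → ℕ → ℝ} {x s C : ℝ} {Q0 : ℕ}

open Classical in
/-- `S` contains a positive proportion of the primes of `(n / 2, n]`, for all large `n` -/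
def Thick (S : Set ℕ) : Prop := ∃ c : ℝ, 0 < c ∧ ∀ᶠ n : ℕ in atTop,
  c * (n / Real.log n) ≤ ((Ioc (n / 2) n).filter (fun p => p.Prime ∧ p ∈ S)).card

/-- the weight, cut off -/
noncomputable def wL (r : ℕ) (z : ℕ → ℕ → ℝ) (k : Fin r → ℕ) (Q0 q : ℕ) : ℝ :=
  if Q0 ≤ q then WW' r z k q else 0

/-- the loss in the rows -/
noncomputable def lamL (K : ℕ) (z : ℕ → ℕ → ℝ) (q : ℕ) : ℝ := max 1 ((Real.log q) ^ (2 * K) * Real.log (z 0 q))

lemma LF.wL_nonneg (h : LF r z x s C Q0) (k : Fin r → ℕ) (q : ℕ) : 0 ≤ wL r z k Q0 q := by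
  unfold wL
  split_ifs with hq
  · exact (h.W_pos k hq).le
  · exact le_rfl

lemma LF.wL_le_one (h : LF r z x s C Q0) (k : Fin r → ℕ) (q : ℕ) : wL r z k Q0 q ≤ 1 := by
  unfold wL
  split_ifs with hq
  · exact h.W_le_one k hq
  · exact zero_le_one

open Classical in
lemma VI_filter (w : ℕ → ℝ) (S : Set ℕ) (n : ℕ) :
    VI {p | p.Prime} w S n = ∑ p ∈ (range (n + 1)).filter (fun p => p.Prime ∧ p ∈ S), w p := by
  unfold VI
  rw [Finset.sum_filter]
  refine Finset.sum_congr rfl fun p _ => ?_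
  by_cases h : p.Prime ∧ p ∈ S
  · rw [if_pos h, if_pos ⟨h.2, h.1⟩]
  · rw [if_neg h, if_neg fun h1 => h ⟨h1.2, h1.1⟩]

/-- the lower bound for the total weight -/
theorem LF.V_lower (h : LF r z x s C Q0) (k : Fin r → ℕ) {S : Set ℕ} (hS : Thick S) : ∃ c1 : ℝ, 0 < c1 ∧
    ∀ᶠ n : ℕ in atTop, c1 * ((n : ℝ) ^ s * Real.log (z 0 n) / Real.log n) ≤ VI {p | p.Prime} (wL r z k Q0) S n := by
  classical
  obtain ⟨c, hc, hev⟩ := hS
  have hcW := cW_pos h.hx k
  have hC1 := h.hC
  refine ⟨c * (cW r x k / C ^ 2), by positivity, ?_⟩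
  filter_upwards [hev, eventually_ge_atTop (2 * Q0)] with n hn hn2
  have hQ0 := h.hQ
  have hnQ : Q0 ≤ n := by omega
  have hn0 : (0 : ℝ) < n := by exact_mod_cast (by omega : 0 < n)
  have hl0 : 0 < Real.log n := Real.log_pos (by exact_mod_cast (by omega : 1 < n))
  have hrp := h.rho_pos hnQ
  have h1 : ((((Ioc (n / 2) n).filter (fun p => p.Prime ∧ p ∈ S)).card : ℝ)) * (cW r x k / C ^ 2 * rho r z n) ≤
      VI {p | p.Prime} (wL r z k Q0) S n := by
    rw [VI_filter, ← nsmul_eq_mul, ← Finset.sum_const]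
    refine (Finset.sum_le_sum (g := fun p => wL r z k Q0 p) fun p hp => ?_).trans
      (Finset.sum_le_sum_of_subset_of_nonneg ?_ fun p _ _ => h.wL_nonneg k p)
    · rw [mem_filter, mem_Ioc] at hp
      have hpQ : Q0 ≤ p := by omega
      unfold wL
      rw [if_pos hpQ]
      refine le_trans ?_ (h.W_lower k hpQ)
      have h2 := (h.rho_cmp hpQ hp.1.2 (by omega)).1
      have h3 : rho r z n / C ^ 2 ≤ rho r z p := by
        rw [div_le_iff₀ (by positivity)]; linarith
      calc cW r x k / C ^ 2 * rho r z n = cW r x k * (rho r z n / C ^ 2) := by ring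
        _ ≤ _ := mul_le_mul_of_nonneg_left h3 hcW.le
    · intro p hp
      rw [mem_filter, mem_Ioc] at hp
      rw [mem_filter, mem_range]
      exact ⟨by omega, hp.2⟩
  refine le_trans ?_ h1
  have h2 : (n : ℝ) ^ s * Real.log (z 0 n) / Real.log n ≤ (n / Real.log n) * rho r z n := by
    have hlr := h.lpos hnQ (le_refl r)
    have hl00 := h.lpos hnQ (Nat.zero_le r)
    have h3 := h.f3 n hnQ
    unfold rho
    rw [div_mul_div_comm, div_le_div_iff₀ hl0 (by positivity)]
    have h4 : (n : ℝ) ^ s * Real.log (z r n) ≤ n := by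
      calc (n : ℝ) ^ s * Real.log (z r n) ≤ (n : ℝ) ^ s * (n : ℝ) ^ (1 - s) :=
            mul_le_mul_of_nonneg_left h3 (by positivity)
        _ = n := by rw [← Real.rpow_add hn0, add_sub_cancel, Real.rpow_one]
    have h5 : 0 ≤ Real.log (z 0 n) * Real.log n := by positivity
    calc (n : ℝ) ^ s * Real.log (z 0 n) * (Real.log n * Real.log (z r n)) =
          ((n : ℝ) ^ s * Real.log (z r n)) * (Real.log (z 0 n) * Real.log n) := by ring
      _ ≤ n * (Real.log (z 0 n) * Real.log n) := mul_le_mul_of_nonneg_right h4 h5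
      _ = _ := by ring
  have h6 : 0 ≤ cW r x k / C ^ 2 := by positivity
  calc c * (cW r x k / C ^ 2) * ((n : ℝ) ^ s * Real.log (z 0 n) / Real.log n) ≤
        c * (cW r x k / C ^ 2) * ((n / Real.log n) * rho r z n) := mul_le_mul_of_nonneg_left h2 (by positivity)
    _ = (c * (n / Real.log n)) * (cW r x k / C ^ 2 * rho r z n) := by ring
    _ ≤ _ := mul_le_mul_of_nonneg_right hn (by positivity)

lemma LF.V_div (h : LF r z x s C Q0) (k : Fin r → ℕ) {S : Set ℕ} (hS : Thick S) :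
    Tendsto (VI {p | p.Prime} (wL r z k Q0) S) atTop atTop := by
  obtain ⟨c1, hc1, hev⟩ := h.V_lower k hS
  have h1 : Tendsto (fun n : ℕ => c1 * (n : ℝ) ^ s) atTop atTop :=
    ((tendsto_rpow_atTop h.hs).comp tendsto_natCast_atTop_atTop).const_mul_atTop hc1
  refine tendsto_atTop_mono' _ ?_ h1
  filter_upwards [hev, eventually_ge_atTop Q0] with n hn hnQ
  refine le_trans ?_ hn
  have hQ0 := h.hQ
  have hn0 : (0 : ℝ) < n := by exact_mod_cast (by omega : 0 < n)
  have hl0 : 0 < Real.log n := Real.log_pos (by exact_mod_cast (by omega : 1 < n))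
  have h2 : Real.log n ≤ Real.log (z 0 n) := Real.log_le_log hn0 (h.f1 n hnQ)
  apply mul_le_mul_of_nonneg_left _ hc1.le
  rw [le_div_iff₀ hl0]
  exact mul_le_mul_of_nonneg_left h2 (by positivity)

/-- the loss is small -/
theorem LF.lam_small (h : LF r z x s C Q0) (k : Fin r → ℕ) (K : ℕ) {S : Set ℕ} (hS : Thick S) :
    ∃ C' : ℝ, 0 < C' ∧ ∀ᶠ q : ℕ in atTop, lamL K z q ≤ C' * (1 + VI {p | p.Prime} (wL r z k Q0) S q) ^ (1 - s / 2) := by
  obtain ⟨c1, hc1, hev⟩ := h.V_lower k hS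
  have hs := h.hs
  have hs1 := h.hs1
  have hlit := (isLittleO_log_rpow_rpow_atTop ((2 * K + 1 : ℕ) : ℝ) (show 0 < s / 2 by positivity)).bound
    (show (0 : ℝ) < 1 by norm_num)
  have hlit2 := tendsto_natCast_atTop_atTop.eventually hlit
  have hlog : Tendsto (fun q : ℕ => Real.log q) atTop atTop :=
    Real.tendsto_log_atTop.comp tendsto_natCast_atTop_atTop
  refine ⟨c1⁻¹ ^ (1 - s / 2), by positivity, ?_⟩
  filter_upwards [hev, hlit2, eventually_ge_atTop Q0, hlog.eventually_ge_atTop 1] with q hq hl hqQ hl1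
  have hQ0 := h.hQ
  have hq0 : (0 : ℝ) < q := by exact_mod_cast (by omega : 0 < q)
  have hq1 : (1 : ℝ) ≤ q := by exact_mod_cast (by omega : 1 ≤ q)
  set L := Real.log (z 0 q) with hL
  set u := Real.log q with hu
  set V := VI {p | p.Prime} (wL r z k Q0) S q with hV
  have hV0 : 0 ≤ V := VI_nonneg (h.wL_nonneg k) S q
  have hL1 : 1 < L := h.lpos hqQ (Nat.zero_le r)
  have hLle : L ≤ (q : ℝ) ^ (1 - s) := (h.lmono hqQ (Nat.zero_le r) le_rfl).trans (h.f3 q hqQ)
  rw [one_mul, Real.norm_of_nonneg (by positivity), Real.norm_of_nonneg (by positivity), Real.rpow_natCast] at hl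
  have hlam : lamL K z q = u ^ (2 * K) * L := by
    unfold lamL
    apply max_eq_right
    have : 1 ≤ u ^ (2 * K) := one_le_pow₀ hl1
    nlinarith
  rw [hlam]
  set v := (q : ℝ) ^ s * L / u with hv
  have hv0 : 0 < v := by positivity
  have hvq : v ≤ q := by
    have h1 : (q : ℝ) ^ s * L ≤ q := by
      calc (q : ℝ) ^ s * L ≤ (q : ℝ) ^ s * (q : ℝ) ^ (1 - s) := mul_le_mul_of_nonneg_left hLle (by positivity)
        _ = q := by rw [← Real.rpow_add hq0, add_sub_cancel, Real.rpow_one]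
    exact (div_le_self (by positivity) hl1).trans h1
  have h1 : u ^ (2 * K) * L ≤ v ^ (1 - s / 2) := by
    rw [Real.rpow_sub hv0, Real.rpow_one, le_div_iff₀ (by positivity), hv, le_div_iff₀ (by linarith)]
    have h2 : v ^ (s / 2) ≤ (q : ℝ) ^ (s / 2) := Real.rpow_le_rpow hv0.le hvq (by positivity)
    have h3 : (q : ℝ) ^ s = (q : ℝ) ^ (s / 2) * (q : ℝ) ^ (s / 2) := by
      rw [← Real.rpow_add hq0]; congr 1; ring
    calc u ^ (2 * K) * L * v ^ (s / 2) * u = (u ^ (2 * K + 1) * v ^ (s / 2)) * L := by ring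
      _ ≤ ((q : ℝ) ^ (s / 2) * (q : ℝ) ^ (s / 2)) * L := by
          apply mul_le_mul_of_nonneg_right _ (by linarith)
          exact mul_le_mul hl h2 (by positivity) (by positivity)
      _ = _ := by rw [h3]
  have h4 : v ≤ c1⁻¹ * (1 + V) := by
    rw [inv_mul_eq_div, le_div_iff₀ hc1]
    linarith
  calc u ^ (2 * K) * L ≤ v ^ (1 - s / 2) := h1
    _ ≤ (c1⁻¹ * (1 + V)) ^ (1 - s / 2) := Real.rpow_le_rpow hv0.le h4 (by linarith)
    _ = _ := Real.mul_rpow (by positivity) (by linarith)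

lemma ind_sum (A : ℕ → ℕ → Prop) (q : ℕ) {X : ℕ} (hX : 1 ≤ X) (L : ℕ) [DecidablePred (A q)] :
    ∑ D ∈ range L, ind A q (X + D) = (((Ioc (X - 1) (X - 1 + L)).filter (fun n => A q n)).card : ℝ) := by
  rw [Finset.card_filter, Nat.cast_sum]
  have e : Ioc (X - 1) (X - 1 + L) = Finset.Ico X (X + L) := by
    ext n
    rw [mem_Ioc, Finset.mem_Ico]
    omega
  rw [e, Finset.sum_Ico_eq_sum_range, Nat.add_sub_cancel_left]
  refine Finset.sum_congr rfl fun D _ => ?_
  unfold ind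
  by_cases g : A q (X + D) <;> simp [g]

end Pool.Agent.H538
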