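import Pool.Agent.H538.G8

set_option autoImplicit false

/-!
# The law in a block, for the levels
-/

namespace Pool.Agent.H538

open Finset Filter Topology MeasureTheory
open Pool.Agent.Y895.PM (U01 avg corr floor_meas sum_blocks)
open Pool.Agent.Y895.OL (gF gM cg ae_U01 floor_lt_pow VI FI VI_nonneg)

variable {r : ℕ} {z : ℕ → ℕ → ℝ} {x s C : ℝ} {Q0 : ℕ}

/-- the number of the lower digits -/
noncomputable def hh (r : ℕ) (z : ℕ → ℕ → ℝ) (NN b q : ℕ) : ℕ := ⌈NN * Real.log (z r q) / Real.log b⌉₊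

lemma LF.hh_le (h : LF r z x s C Q0) {b : ℕ} (hb : 2 ≤ b) (NN : ℕ) {q : ℕ} (hq : Q0 ≤ q) :
    (hh r z NN b q : ℝ) ≤ (NN / Real.log b + 1) * Real.log (z r q) := by
  have hlb : 0 < Real.log b := Real.log_pos (by exact_mod_cast (by omega : 1 < b))
  have h1 := h.lpos hq (le_refl r)
  have h2 := (Nat.ceil_lt_add_one (show 0 ≤ NN * Real.log (z r q) / Real.log b by positivity)).le
  unfold hh
  refine h2.trans ?_
  rw [add_mul, one_mul, div_mul_eq_mul_div]
  linarith

lemma LF.le_pow_hh (h : LF r z x s C Q0) {b : ℕ} (hb : 2 ≤ b) (NN : ℕ) {q : ℕ} (hq : Q0 ≤ q) :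
    (z r q) ^ NN ≤ (b : ℝ) ^ (hh r z NN b q) := by
  have hlb : 0 < Real.log b := Real.log_pos (by exact_mod_cast (by omega : 1 < b))
  have hb0 : (0 : ℝ) < b := by exact_mod_cast (by omega : 0 < b)
  have hz3 := h.three hq r le_rfl
  have h1 : NN * Real.log (z r q) / Real.log b ≤ hh r z NN b q := Nat.le_ceil _
  rw [div_le_iff₀ hlb] at h1
  rw [← Real.log_le_log_iff (by positivity) (by positivity), Real.log_pow, Real.log_pow]
  exact h1

/-- **The law in a block.** -/
theorem LF.block (h : LF r z x s C Q0) {b : ℕ} (hb : 2 ≤ b) (k : Fin r → ℕ) (a d : ℕ) (ha : 1 ≤ a) {ε : ℝ}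
    (hε : 0 < ε) (hε2 : 2 * ε ≤ 1) (S : Set ℕ) (hS : Thick S) :
    ∀ᵐ t ∂U01, ∀ᶠ n : ℕ in atTop, (1 - 2 * ε) * VI {p | p.Prime} (wL r z k Q0) S n ≤
        FI {p | p.Prime} (gF (ind (EV r z k)) b (fun q => a * b ^ (q - d)) (fun q => q - d)) S n t ∧
      FI {p | p.Prime} (gF (ind (EV r z k)) b (fun q => a * b ^ (q - d)) (fun q => q - d)) S n t ≤
        (1 + 2 * ε) * VI {p | p.Prime} (wL r z k Q0) S n := by
  classical
  have hbr : (2 : ℝ) ≤ b := by exact_mod_cast hb
  have hb0 : (0 : ℝ) < b := by linarith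
  have hlb : 0 < Real.log b := Real.log_pos (by linarith)
  have hCC1 := h.hC
  have hs := h.hs
  have hs1 := h.hs1
  have hcW := cW_pos h.hx k
  obtain ⟨NN, Q1, hdens⟩ := h.dens k hε
  obtain ⟨K2, hK2, P2, hP2Q, hP2⟩ := h.near_pair hb k
  set K := ∑ i, k i with hK
  obtain ⟨C', hC', hlam⟩ := h.lam_small k K hS
  set C3 := NN / Real.log b + 1 with hC3
  have hC30 : 0 < C3 := by positivity
  set w := wL r z k Q0 with hw
  set A0 : ℕ → ℕ := fun q => a * b ^ (q - d) with hA0
  set m : ℕ → ℕ := fun q => q - d with hm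
  set l : ℕ → ℕ := fun q => m q - hh r z NN b q with hl
  -- large q
  have hpw : Tendsto (fun q : ℕ => (q : ℝ) ^ s) atTop atTop := (tendsto_rpow_atTop hs).comp tendsto_natCast_atTop_atTop
  have hlog : Tendsto (fun q : ℕ => Real.log q) atTop atTop :=
    Real.tendsto_log_atTop.comp tendsto_natCast_atTop_atTop
  obtain ⟨P3, hP3⟩ := ((hpw.eventually_ge_atTop (max (4 * C3) (2 * (2 * K + 1) / Real.log b))).and
    ((hlog.eventually_ge_atTop 1).and hlam)).exists_forall_of_atTop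
  set Q := max (max Q1 P2) (max P3 (4 * d + 4)) with hQ
  have hQ1 : ∀ q ≥ Q, Q1 ≤ q := fun q hq => (le_max_left _ _).trans ((le_max_left _ _).trans hq)
  have hQ2 : ∀ q ≥ Q, P2 ≤ q := fun q hq => (le_max_right _ _).trans ((le_max_left _ _).trans hq)
  have hQ3 : ∀ q ≥ Q, P3 ≤ q := fun q hq => (le_max_left _ _).trans ((le_max_right _ _).trans hq)
  have hQ4 : ∀ q ≥ Q, 4 * d + 4 ≤ q := fun q hq => (le_max_right _ _).trans ((le_max_right _ _).trans hq)
  have hQQ : ∀ q ≥ Q, Q0 ≤ q := fun q hq => hP2Q.trans (hQ2 q hq)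
  have hpos : ∀ q ≥ Q, (0 : ℝ) < q := by
    intro q hq
    have := hQ4 q hq
    exact_mod_cast (by omega : 0 < q)
  have hlq1 : ∀ q ≥ Q, 1 ≤ Real.log q := fun q hq => (hP3 q (hQ3 q hq)).2.1
  have hwq : ∀ q ≥ Q, w q = WW' r z k q := fun q hq => if_pos (hQQ q hq)
  have hwpos : ∀ q ≥ Q, 0 < w q := fun q hq => by rw [hwq q hq]; exact h.W_pos k (hQQ q hq)
  have hlr1 : ∀ q ≥ Q, 1 < Real.log (z r q) := fun q hq => h.lpos (hQQ q hq) le_rfl
  have hl01 : ∀ q ≥ Q, 1 < Real.log (z 0 q) := fun q hq => h.lpos (hQQ q hq) (Nat.zero_le r)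
  have hhq4 : ∀ q ≥ Q, 4 * hh r z NN b q ≤ q := by
    intro q hq
    have h1 := h.hh_le hb NN (hQQ q hq)
    have h2 := h.f3 q (hQQ q hq)
    have h3 : 4 * C3 ≤ (q : ℝ) ^ s := (le_max_left _ _).trans (hP3 q (hQ3 q hq)).1
    have hq0 := hpos q hq
    have h4 : (4 * hh r z NN b q : ℝ) ≤ q := by
      calc (4 * hh r z NN b q : ℝ) ≤ 4 * (C3 * Real.log (z r q)) := by linarith
        _ ≤ 4 * (C3 * (q : ℝ) ^ (1 - s)) := by gcongr
        _ = (4 * C3) * (q : ℝ) ^ (1 - s) := by ring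
        _ ≤ (q : ℝ) ^ s * (q : ℝ) ^ (1 - s) := mul_le_mul_of_nonneg_right h3 (by positivity)
        _ = q := by rw [← Real.rpow_add hq0, add_sub_cancel, Real.rpow_one]
    exact_mod_cast h4
  have hmd : ∀ q ≥ Q, m q + d = q := fun q hq => by
    have := hQ4 q hq
    simp only [hm]; omega
  have hlmq : ∀ q ≥ Q, m q - l q = hh r z NN b q := by
    intro q hq
    have h1 := hhq4 q hq
    have h2 := hQ4 q hq
    have h3 := hmd q hq
    simp only [hl]; omega
  have hlm : ∀ q ≥ Q, l q ≤ m q := fun q _ => Nat.sub_le _ _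
  have hA1 : ∀ q, 1 ≤ A0 q := fun q => Nat.mul_pos ha (by positivity)
  -- the local means
  have hdens' : ∀ q ≥ Q, ∀ i < b ^ l q,
      |∑ D ∈ range (b ^ (m q - l q)), ind (EV r z k) q (A0 q + b ^ (m q - l q) * i + D) -
        w q * (b : ℝ) ^ (m q - l q)| ≤ ε * w q * (b : ℝ) ^ (m q - l q) := by
    intro q hq i _
    have hX : 1 ≤ A0 q + b ^ (m q - l q) * i := (hA1 q).trans (Nat.le_add_right _ _)
    rw [ind_sum (EV r z k) q hX, hwq q hq]
    have h1 := hdens q (hQ1 q hq) (A0 q + b ^ (m q - l q) * i - 1) (b ^ (m q - l q)) (by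
      rw [hlmq q hq]
      push_cast
      exact h.le_pow_hh hb NN (hQQ q hq))
    push_cast at h1
    exact h1
  have hmean : ∀ q ≥ Q, ∀ t : ℝ, 0 ≤ t → t < 1 →
      (1 - ε) * w q ≤ gM (ind (EV r z k)) b A0 m l q t ∧ gM (ind (EV r z k)) b A0 m l q t ≤ (1 + ε) * w q := by
    intro q hq t ht0 ht1
    have h0 : (0 : ℝ) < (b : ℝ) ^ (m q - l q) := by positivity
    have h1 := abs_le.1 (hdens' q hq _ (floor_lt_pow hb (l q) ht1))
    unfold gM cg
    rw [inv_mul_eq_div, le_div_iff₀ h0, div_le_iff₀ h0]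
    constructor <;> linarith [h1.1, h1.2]
  -- the full block
  have hfull : ∀ q ≥ Q, ∑ i ∈ range (b ^ m q), ind (EV r z k) q (A0 q + i) ≤ (1 + ε) * w q * (b : ℝ) ^ m q := by
    intro q hq
    have e1 : b ^ m q = b ^ (m q - l q) * b ^ l q := by
      rw [← pow_add, Nat.sub_add_cancel (hlm q hq)]
    rw [e1, ← sum_blocks (fun D => ind (EV r z k) q (A0 q + D)) (b ^ l q) (b ^ (m q - l q))]
    have h2 : ∀ i ∈ range (b ^ l q), ∑ e ∈ range (b ^ (m q - l q)),
        ind (EV r z k) q (A0 q + (b ^ (m q - l q) * i + e)) ≤ (1 + ε) * w q * (b : ℝ) ^ (m q - l q) := by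
      intro i hi
      rw [mem_range] at hi
      have h3 := (abs_le.1 (hdens' q hq i hi)).2
      have h4 : ∑ e ∈ range (b ^ (m q - l q)), ind (EV r z k) q (A0 q + (b ^ (m q - l q) * i + e)) =
          ∑ D ∈ range (b ^ (m q - l q)), ind (EV r z k) q (A0 q + b ^ (m q - l q) * i + D) :=
        Finset.sum_congr rfl fun e _ => by rw [add_assoc]
      rw [h4]
      linarith
    refine (Finset.sum_le_sum h2).trans (le_of_eq ?_)
    rw [Finset.sum_const, card_range, nsmul_eq_mul]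
    push_cast
    rw [show (b : ℝ) ^ m q = (b : ℝ) ^ (m q - l q) * (b : ℝ) ^ l q by exact_mod_cast congrArg (Nat.cast (R := ℝ)) e1]
    ring
  have hinteg : ∀ q ≥ Q, ∫ t, gF (ind (EV r z k)) b A0 m q t ∂U01 ≤ (1 + ε) * w q := by
    intro q hq
    have h1 : ∫ t, gF (ind (EV r z k)) b A0 m q t ∂U01 =
        ((b : ℝ) ^ m q)⁻¹ * ∑ D ∈ range (b ^ m q), ind (EV r z k) q (A0 q + D) :=
      avg hb (G := fun D => ind (EV r z k) q (A0 q + D)) (fun n => by
        rw [abs_of_nonneg (ind_nonneg _ _ _)]; exact ind_le_one _ _ _) (m q)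
    rw [h1, inv_mul_eq_div, div_le_iff₀ (by positivity)]
    exact hfull q hq
  -- near pairs
  have hnr : ∀ q ≥ Q, ∀ p ≥ Q, l q < m p → q < p + hh r z NN b q ∧ q ≤ 2 * p := by
    intro q hq p hp hlp
    have h1 := hhq4 q hq
    have h2 := hQ4 q hq
    have h3 := hmd q hq
    have h4 := hmd p hp
    have h5 := hlmq q hq
    constructor <;> omega
  have hcardT : ∀ q ≥ Q, ∀ T : Finset ℕ, (∀ p ∈ T, p ∈ {p : ℕ | p.Prime} ∧ Q ≤ p ∧ p < q ∧ l q < m p) →
      (T.card : ℝ) ≤ C3 * Real.log (z r q) := by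
    intro q hq T hT
    have h1 : T ⊆ Ico (q - hh r z NN b q) q := by
      intro p hp
      obtain ⟨_, g2, g3, g4⟩ := hT p hp
      have := (hnr q hq p g2 g4).1
      rw [Finset.mem_Ico]
      omega
    have h2 := card_le_card h1
    rw [Nat.card_Ico] at h2
    have h3 : T.card ≤ hh r z NN b q := by omega
    have h4 : (T.card : ℝ) ≤ hh r z NN b q := by exact_mod_cast h3
    exact h4.trans (h.hh_le hb NN (hQQ q hq))
  have hwp : ∀ q ≥ Q, ∀ p ≥ Q, p < q → q ≤ 2 * p → w p ≤ C ^ 2 * (Real.log q) ^ K * rho r z q := by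
    intro q hq p hp hpq hq2
    rw [hwq p hp]
    refine (h.W_upper k (hQQ p hp)).trans ?_
    have h1 := (h.rho_cmp (hQQ p hp) hpq.le hq2).2
    have h2 : Real.log p ≤ Real.log q := Real.log_le_log (hpos p hp) (by exact_mod_cast hpq.le)
    have h3 := hlq1 p hp
    have h4 := h.rho_pos (hQQ p hp)
    calc (Real.log p) ^ (∑ i, k i) * rho r z p ≤ (Real.log q) ^ K * (C ^ 2 * rho r z q) :=
          mul_le_mul (pow_le_pow_left₀ (by linarith) h2 _) h1 h4.le (by have := hlq1 q hq; positivity)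
      _ = _ := by ring
  have hlamlow : ∀ q ≥ Q, (Real.log q) ^ (2 * K) * Real.log (z 0 q) ≤ lamL K z q := fun q _ => le_max_right _ _
  have hpowK : ∀ q ≥ Q, (Real.log q) ^ K ≤ (Real.log q) ^ (2 * K) := fun q hq =>
    pow_le_pow_right₀ (hlq1 q hq) (by omega)
  have hrho0 : ∀ q ≥ Q, 0 < rho r z q := fun q hq => h.rho_pos (hQQ q hq)
  have hrw : ∀ q ≥ Q, rho r z q ≤ w q / cW r x k := by
    intro q hq
    rw [le_div_iff₀ hcW, hwq q hq, mul_comm]
    exact h.W_lower k (hQQ q hq)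
  have hpairint : ∀ p ≥ Q, ∀ q ≥ Q, p < q → l q < m p →
      ∫ t, gF (ind (EV r z k)) b A0 m p t * gF (ind (EV r z k)) b A0 m q t ∂U01 ≤
        K2 * ((Real.log q) ^ (2 * K) * (rho r z q) ^ 2) + (1 + ε) * w p * ((b : ℝ) ^ (q - p))⁻¹ := by
    intro p hp q hq hpq hlp
    have hmm : m p ≤ m q := by simp only [hm]; omega
    have hqp : m q - m p = q - p := by
      have := hmd p hp
      have := hmd q hq
      omega
    have hAq : A0 q = b ^ (q - p) * A0 p := by
      simp only [hA0]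
      have : q - d = (q - p) + (p - d) := by
        have := hQ4 p hp
        omega
      rw [this, pow_add]; ring
    have h1 : ∫ t, gF (ind (EV r z k)) b A0 m p t * gF (ind (EV r z k)) b A0 m q t ∂U01 =
        ((b : ℝ) ^ m q)⁻¹ * ∑ i ∈ range (b ^ m p), ∑ e ∈ range (b ^ (q - p)),
          ind (EV r z k) p (A0 p + i) * ind (EV r z k) q (b ^ (q - p) * (A0 p + i) + e) := by
      have h2 := corr hb (F := fun n => ind (EV r z k) p (A0 p + n)) (G := fun n => ind (EV r z k) q (A0 q + n))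
        (fun n => by rw [abs_of_nonneg (ind_nonneg _ _ _)]; exact ind_le_one _ _ _)
        (fun n => by rw [abs_of_nonneg (ind_nonneg _ _ _)]; exact ind_le_one _ _ _) (m p) (m q - m p)
      rw [Nat.sub_add_cancel hmm, hqp] at h2
      refine Eq.trans ?_ (h2.trans ?_)
      · rfl
      · congr 1
        refine Finset.sum_congr rfl fun i _ => Finset.sum_congr rfl fun e _ => ?_
        rw [hAq]
        congr 2
        ring
    rw [h1, inv_mul_eq_div, div_le_iff₀ (by positivity)]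
    have hX : b ^ m p ≤ A0 p := Nat.le_mul_of_pos_left _ ha
    have hN : (z r p) ^ (2 * K + 1) ≤ ((b ^ m p : ℕ) : ℝ) := by
      push_cast
      have hz3 := h.three (hQQ p hp) r le_rfl
      rw [← Real.log_le_log_iff (by positivity) (by positivity), Real.log_pow, Real.log_pow]
      have g1 := h.f3 p (hQQ p hp)
      have g2 : 2 * (2 * K + 1) / Real.log b ≤ (p : ℝ) ^ s := (le_max_right _ _).trans (hP3 p (hQ3 p hp)).1
      rw [div_le_iff₀ hlb] at g2
      have hp0 := hpos p hp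
      have g3 : (p : ℝ) ≤ 2 * m p := by
        have := hmd p hp
        have := hQ4 p hp
        exact_mod_cast (by omega : p ≤ 2 * m p)
      have g4 : ((2 * K + 1 : ℕ) : ℝ) * Real.log (z r p) ≤ ((2 * K + 1 : ℕ) : ℝ) * (p : ℝ) ^ (1 - s) :=
        mul_le_mul_of_nonneg_left g1 (by positivity)
      have g5 : 2 * (((2 * K + 1 : ℕ) : ℝ) * (p : ℝ) ^ (1 - s)) ≤ p * Real.log b := by
        push_cast
        calc 2 * ((2 * (K : ℝ) + 1) * (p : ℝ) ^ (1 - s)) = (2 * (2 * K + 1)) * (p : ℝ) ^ (1 - s) := by ring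
          _ ≤ ((p : ℝ) ^ s * Real.log b) * (p : ℝ) ^ (1 - s) := mul_le_mul_of_nonneg_right g2 (by positivity)
          _ = ((p : ℝ) ^ s * (p : ℝ) ^ (1 - s)) * Real.log b := by ring
          _ = p * Real.log b := by rw [← Real.rpow_add hp0, add_sub_cancel, Real.rpow_one]
      have g6 : (p : ℝ) * Real.log b ≤ 2 * m p * Real.log b := mul_le_mul_of_nonneg_right g3 hlb.le
      linarith
    have h3 := hP2 p (hQ2 p hp) q hpq.le (hnr q hq p hp hlp).2 (A0 p) (b ^ m p) hN hX
    have h4 := hfull p hp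
    have hpw : (b : ℝ) ^ m q = (b : ℝ) ^ m p * (b : ℝ) ^ (q - p) := by
      rw [← pow_add]; congr 1; omega
    have hbq : (0 : ℝ) < (b : ℝ) ^ (q - p) := by positivity
    have h5 : (1 + ε) * w p * ((b : ℝ) ^ (q - p))⁻¹ * (b : ℝ) ^ m q = (1 + ε) * w p * (b : ℝ) ^ m p := by
      rw [hpw]; field_simp
    have h6 : K2 * ((Real.log q) ^ (2 * K) * (rho r z q) ^ 2) * (((b ^ m p : ℕ) : ℝ) * (b : ℝ) ^ (q - p)) =
        K2 * ((Real.log q) ^ (2 * K) * (rho r z q) ^ 2) * (b : ℝ) ^ m q := by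
      rw [hpw]; push_cast; rfl
    rw [h6] at h3
    rw [add_mul, h5]
    linarith
  set CT := K2 * C3 / cW r x k + (1 + ε) * C ^ 2 / cW r x k * 2 + C ^ 2 * C3 with hCT
  have hCT0 : 0 < CT := by positivity
  have hlam1 : ∀ q, 1 ≤ lamL K z q := fun q => le_max_left _ _
  have hfin := law_gen (g := ind (EV r z k)) (ind01 (EV r z k)) hb (A := A0) (m := m) (l := l)
    (I := {p | p.Prime}) (S := S) (w := w) (lam := lamL K z) (P := Q) hlm (h.wL_nonneg k) (h.wL_le_one k)
    hlam1 (K := 1 + ε) (C := CT) (by linarith) hCT0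
    (ae_U01 fun t h0 h1 q hq _ => (hmean q hq t h0 h1).2) (fun q hq _ => hinteg q hq) ?_ ?_
    (c0 := 1 - ε) (by linarith) (ae_U01 fun t h0 h1 q hq _ => (hmean q hq t h0 h1).1)
    (h.V_div k hS) hC' (s := s / 2) (by positivity) (by linarith)
    (fun q hq _ _ => (hP3 q (hQ3 q hq)).2.2) hε
  · filter_upwards [hfin] with t ht
    filter_upwards [ht] with n hn
    constructor
    · refine le_trans (le_of_eq ?_) hn.1
      ring
    · refine hn.2.trans (le_of_eq ?_)
      ring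
  · intro q hq _ T hT
    have hq0 := hpos q hq
    have hlq := hlq1 q hq
    have hr0 := hrho0 q hq
    have hw0 := hwpos q hq
    have h1 : ∑ p ∈ T, ∫ t, gF (ind (EV r z k)) b A0 m p t * gF (ind (EV r z k)) b A0 m q t ∂U01 ≤
        ∑ p ∈ T, (K2 * ((Real.log q) ^ (2 * K) * (rho r z q) ^ 2) +
          (1 + ε) * (C ^ 2 * (Real.log q) ^ K * rho r z q) * ((b : ℝ) ^ (q - p))⁻¹) := by
      refine Finset.sum_le_sum fun p hp => ?_
      obtain ⟨g1, g2, g3, g4⟩ := hT p hp
      refine (hpairint p g2 q hq g3 g4).trans ?_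
      have h2 := hwp q hq p g2 g3 (hnr q hq p g2 g4).2
      gcongr
    refine h1.trans ?_
    rw [Finset.sum_add_distrib, Finset.sum_const, nsmul_eq_mul,
      ← Finset.mul_sum T (fun p => ((b : ℝ) ^ (q - p))⁻¹) ((1 + ε) * (C ^ 2 * (Real.log q) ^ K * rho r z q))]
    have h6 := sum_pow_le hb T (q := q) fun p hp => (hT p hp).2.2.1
    have hrl : Real.log (z r q) * rho r z q = Real.log (z 0 q) := by
      have := hlr1 q hq
      unfold rho
      field_simp
    have hlow := hlamlow q hq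
    have hwl : rho r z q * ((Real.log q) ^ (2 * K) * Real.log (z 0 q)) ≤ w q / cW r x k * lamL K z q := by
      have h7 := hl01 q hq
      exact mul_le_mul (hrw q hq) hlow (by positivity) (by positivity)
    have h8 : (T.card : ℝ) * (K2 * ((Real.log q) ^ (2 * K) * (rho r z q) ^ 2)) ≤
        K2 * C3 / cW r x k * (w q * lamL K z q) := by
      calc (T.card : ℝ) * (K2 * ((Real.log q) ^ (2 * K) * (rho r z q) ^ 2)) ≤
            (C3 * Real.log (z r q)) * (K2 * ((Real.log q) ^ (2 * K) * (rho r z q) ^ 2)) :=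
            mul_le_mul_of_nonneg_right (hcardT q hq T hT) (by positivity)
        _ = K2 * C3 * (rho r z q * ((Real.log q) ^ (2 * K) * (Real.log (z r q) * rho r z q))) := by ring
        _ = K2 * C3 * (rho r z q * ((Real.log q) ^ (2 * K) * Real.log (z 0 q))) := by rw [hrl]
        _ ≤ K2 * C3 * (w q / cW r x k * lamL K z q) := mul_le_mul_of_nonneg_left hwl (by positivity)
        _ = _ := by ring
    have h10 : (1 + ε) * (C ^ 2 * (Real.log q) ^ K * rho r z q) * ∑ p ∈ T, ((b : ℝ) ^ (q - p))⁻¹ ≤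
        (1 + ε) * C ^ 2 / cW r x k * 2 * (w q * lamL K z q) := by
      have h11 : rho r z q * (Real.log q) ^ K ≤ w q / cW r x k * lamL K z q := by
        refine le_trans ?_ hwl
        apply mul_le_mul_of_nonneg_left _ hr0.le
        have h7 := hl01 q hq
        have h12 := hpowK q hq
        have h13 : 0 ≤ (Real.log q) ^ (2 * K) := by positivity
        nlinarith
      calc (1 + ε) * (C ^ 2 * (Real.log q) ^ K * rho r z q) * ∑ p ∈ T, ((b : ℝ) ^ (q - p))⁻¹ ≤
            (1 + ε) * (C ^ 2 * (Real.log q) ^ K * rho r z q) * 2 := mul_le_mul_of_nonneg_left h6 (by positivity)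
        _ = (1 + ε) * C ^ 2 * 2 * (rho r z q * (Real.log q) ^ K) := by ring
        _ ≤ (1 + ε) * C ^ 2 * 2 * (w q / cW r x k * lamL K z q) := mul_le_mul_of_nonneg_left h11 (by positivity)
        _ = _ := by ring
    have h11 : 0 ≤ C ^ 2 * C3 * (w q * lamL K z q) := by
      have := hlam1 q
      positivity
    rw [hCT]
    linarith
  · intro q hq _ T hT
    have hlq := hlq1 q hq
    have hr0 := hrho0 q hq
    have hrl : Real.log (z r q) * rho r z q = Real.log (z 0 q) := by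
      have := hlr1 q hq
      unfold rho
      field_simp
    calc ∑ p ∈ T, w p ≤ ∑ p ∈ T, C ^ 2 * (Real.log q) ^ K * rho r z q := Finset.sum_le_sum fun p hp => by
          obtain ⟨g1, g2, g3, g4⟩ := hT p hp
          exact hwp q hq p g2 g3 (hnr q hq p g2 g4).2
      _ = T.card * (C ^ 2 * (Real.log q) ^ K * rho r z q) := by rw [Finset.sum_const, nsmul_eq_mul]
      _ ≤ (C3 * Real.log (z r q)) * (C ^ 2 * (Real.log q) ^ K * rho r z q) := by
          apply mul_le_mul_of_nonneg_right (hcardT q hq T hT)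
          positivity
      _ = C ^ 2 * C3 * ((Real.log q) ^ K * (Real.log (z r q) * rho r z q)) := by ring
      _ = C ^ 2 * C3 * ((Real.log q) ^ K * Real.log (z 0 q)) := by rw [hrl]
      _ ≤ C ^ 2 * C3 * lamL K z q := by
          apply mul_le_mul_of_nonneg_left _ (by positivity)
          refine le_trans ?_ (hlamlow q hq)
          exact mul_le_mul_of_nonneg_right (hpowK q hq) (by linarith [hl01 q hq])
      _ ≤ CT * lamL K z q := by
          apply mul_le_mul_of_nonneg_right _ (by linarith [hlam1 q])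
          rw [hCT]
          have : 0 ≤ K2 * C3 / cW r x k + (1 + ε) * C ^ 2 / cW r x k * 2 := by positivity
          linarith

end Pool.Agent.H538
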