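import Pool.Agent.H538.S9
import Pool.Graph.R_seed8.Helper923.HMertens

set_option autoImplicit false

/-!
# Elementary symmetric sums over finite sets of primes
-/

namespace Pool.Agent.H538

open Finset Filter Topology

/-- the elementary symmetric sum of the reciprocals -/
noncomputable def esum (P : Finset ℕ) (i : ℕ) : ℝ := ∑ T ∈ P.powersetCard i, ∏ l ∈ T, ((l : ℝ))⁻¹

lemma esum_zero (P : Finset ℕ) : esum P 0 = 1 := by
  unfold esum
  rw [Finset.powersetCard_zero, Finset.sum_singleton, Finset.prod_empty]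

lemma esum_nonneg (P : Finset ℕ) (i : ℕ) : 0 ≤ esum P i :=
  Finset.sum_nonneg fun _ _ => Finset.prod_nonneg fun _ _ => by positivity

/-- the double counting -/
lemma esum_succ (P : Finset ℕ) (i : ℕ) :
    ∑ l ∈ P, ((l : ℝ))⁻¹ * esum (P.erase l) i = (i + 1) * esum P (i + 1) := by
  classical
  unfold esum
  have h1 : ((i : ℝ) + 1) * ∑ T ∈ P.powersetCard (i + 1), ∏ l ∈ T, ((l : ℝ))⁻¹ =
      ∑ T ∈ P.powersetCard (i + 1), ∑ l ∈ T, ((l : ℝ))⁻¹ * ∏ m ∈ T.erase l, ((m : ℝ))⁻¹ := by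
    rw [Finset.mul_sum]
    refine Finset.sum_congr rfl fun T hT => ?_
    rw [Finset.mem_powersetCard] at hT
    have h2 : ∀ l ∈ T, ((l : ℝ))⁻¹ * ∏ m ∈ T.erase l, ((m : ℝ))⁻¹ = ∏ m ∈ T, ((m : ℝ))⁻¹ := fun l hl =>
      Finset.mul_prod_erase T (fun m => ((m : ℝ))⁻¹) hl
    rw [Finset.sum_congr rfl h2, Finset.sum_const, hT.2, nsmul_eq_mul]
    push_cast
    ring
  rw [h1]
  simp only [Finset.mul_sum]
  rw [Finset.sum_sigma', Finset.sum_sigma']
  refine Finset.sum_bij' (fun x _ => ⟨insert x.1 x.2, x.1⟩) (fun x _ => ⟨x.2, x.1.erase x.2⟩) ?_ ?_ ?_ ?_ ?_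
  · rintro ⟨l, T⟩ h
    simp only [Finset.mem_sigma, Finset.mem_powersetCard] at h ⊢
    obtain ⟨h1, h2, h3⟩ := h
    have hl : l ∉ T := fun h => by simpa using h2 h
    refine ⟨⟨?_, ?_⟩, Finset.mem_insert_self _ _⟩
    · intro x hx
      rcases Finset.mem_insert.1 hx with h | h
      · rw [h]; exact h1
      · exact Finset.mem_of_mem_erase (h2 h)
    · rw [Finset.card_insert_of_notMem hl, h3]
  · rintro ⟨T, l⟩ h
    simp only [Finset.mem_sigma, Finset.mem_powersetCard] at h ⊢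
    obtain ⟨⟨h1, h2⟩, h3⟩ := h
    refine ⟨h1 h3, Finset.erase_subset_erase _ h1, ?_⟩
    rw [Finset.card_erase_of_mem h3, h2]
    rfl
  · rintro ⟨l, T⟩ h
    simp only [Finset.mem_sigma, Finset.mem_powersetCard] at h
    obtain ⟨h1, h2, h3⟩ := h
    have hl : l ∉ T := fun h => by simpa using h2 h
    simp [Finset.erase_insert hl]
  · rintro ⟨T, l⟩ h
    simp only [Finset.mem_sigma, Finset.mem_powersetCard] at h
    obtain ⟨⟨h1, h2⟩, h3⟩ := h
    simp [Finset.insert_erase h3]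
  · rintro ⟨l, T⟩ h
    simp only [Finset.mem_sigma, Finset.mem_powersetCard] at h
    obtain ⟨h1, h2, h3⟩ := h
    have hl : l ∉ T := fun h => by simpa using h2 h
    simp [Finset.erase_insert hl]

/-- upper bound -/
lemma esum_le (i : ℕ) : ∀ P : Finset ℕ, (i.factorial : ℝ) * esum P i ≤ (∑ l ∈ P, ((l : ℝ))⁻¹) ^ i := by
  induction i with
  | zero => intro P; simp [esum_zero]
  | succ i ih =>
    intro P
    have h1 := esum_succ P i
    have h2 : (((i + 1).factorial : ℕ) : ℝ) * esum P (i + 1) =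
        ∑ l ∈ P, ((l : ℝ))⁻¹ * ((i.factorial : ℝ) * esum (P.erase l) i) := by
      rw [Nat.factorial_succ]
      push_cast
      rw [show ((i : ℝ) + 1) * (i.factorial : ℝ) * esum P (i + 1) =
        (i.factorial : ℝ) * (((i : ℝ) + 1) * esum P (i + 1)) by ring, ← h1, Finset.mul_sum]
      refine Finset.sum_congr rfl fun l _ => ?_
      ring
    rw [h2, pow_succ', Finset.sum_mul]
    refine Finset.sum_le_sum fun l _ => ?_
    refine mul_le_mul_of_nonneg_left ((ih (P.erase l)).trans ?_) (by positivity)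
    refine pow_le_pow_left₀ (Finset.sum_nonneg fun _ _ => by positivity) ?_ _
    exact Finset.sum_le_sum_of_subset_of_nonneg (Finset.erase_subset _ _) fun _ _ _ => by positivity

/-- lower bound -/
lemma le_esum (i : ℕ) {d : ℝ} (hd : 0 ≤ d) : ∀ P : Finset ℕ, (∀ l ∈ P, ((l : ℝ))⁻¹ ≤ d) →
    i * d ≤ ∑ l ∈ P, ((l : ℝ))⁻¹ → (∑ l ∈ P, ((l : ℝ))⁻¹ - i * d) ^ i ≤ (i.factorial : ℝ) * esum P i := by
  induction i with
  | zero => intro P _ _; simp [esum_zero]
  | succ i ih =>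
    intro P hP hs
    have h1 := esum_succ P i
    have h2 : (((i + 1).factorial : ℕ) : ℝ) * esum P (i + 1) =
        ∑ l ∈ P, ((l : ℝ))⁻¹ * ((i.factorial : ℝ) * esum (P.erase l) i) := by
      rw [Nat.factorial_succ]
      push_cast
      rw [show ((i : ℝ) + 1) * (i.factorial : ℝ) * esum P (i + 1) =
        (i.factorial : ℝ) * (((i : ℝ) + 1) * esum P (i + 1)) by ring, ← h1, Finset.mul_sum]
      refine Finset.sum_congr rfl fun l _ => ?_
      ring
    set s := ∑ l ∈ P, ((l : ℝ))⁻¹ with hsdef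
    push_cast at hs ⊢
    have h3 : ∀ l ∈ P, ((l : ℝ))⁻¹ * (s - (i + 1) * d) ^ i ≤
        ((l : ℝ))⁻¹ * ((i.factorial : ℝ) * esum (P.erase l) i) := by
      intro l hl
      have h4 : ∑ m ∈ P.erase l, ((m : ℝ))⁻¹ = s - ((l : ℝ))⁻¹ := by
        rw [hsdef, ← Finset.add_sum_erase P (fun m => ((m : ℝ))⁻¹) hl]
        ring
      have h5 := hP l hl
      refine mul_le_mul_of_nonneg_left ?_ (by positivity)
      refine le_trans ?_ (ih (P.erase l) (fun m hm => hP m (Finset.mem_of_mem_erase hm)) (by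
        rw [h4]; linarith))
      rw [h4]
      exact pow_le_pow_left₀ (by linarith) (by linarith) _
    have h4 : 0 ≤ s - (i + 1) * d := by linarith
    rw [h2]
    refine le_trans ?_ (Finset.sum_le_sum h3)
    rw [← Finset.sum_mul, ← hsdef, pow_succ']
    refine mul_le_mul_of_nonneg_right ?_ (pow_nonneg h4 _)
    have : 0 ≤ ((i : ℝ) + 1) * d := by positivity
    linarith

/-- the primes in `(q, z]` -/
noncomputable def PZ (q : ℕ) (z : ℝ) : Finset ℕ := (Ioc q ⌊z⌋₊).filter Nat.Prime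

lemma mem_PZ {q : ℕ} {z : ℝ} (hz : 0 ≤ z) {l : ℕ} : l ∈ PZ q z ↔ l.Prime ∧ q < l ∧ (l : ℝ) ≤ z := by
  unfold PZ
  rw [mem_filter, mem_Ioc, Nat.le_floor_iff hz]
  tauto

/-- the sum of the reciprocals -/
noncomputable def S1 (q : ℕ) (z : ℝ) : ℝ := ∑ l ∈ PZ q z, ((l : ℝ))⁻¹

lemma S1_nonneg (q : ℕ) (z : ℝ) : 0 ≤ S1 q z := Finset.sum_nonneg fun _ _ => by positivity

/-- the sum of the reciprocals of the primes in `(q, exp (c q)]` is asymptotic to `log q` -/
lemma S1_asymp {c ρ : ℝ} (hc : 0 < c) (hρ : 0 < ρ) : ∀ᶠ q : ℕ in atTop,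
    (1 - ρ) * Real.log q ≤ S1 q (Real.exp (c * q)) ∧ S1 q (Real.exp (c * q)) ≤ (1 + ρ) * Real.log q := by
  obtain ⟨C, hC0, hC⟩ := Pool.Agent.Helper923.HMertens.mertens_ratio
  have hlog : Tendsto (fun q : ℕ => Real.log q) atTop atTop :=
    Real.tendsto_log_atTop.comp tendsto_natCast_atTop_atTop
  have hcq : Tendsto (fun q : ℕ => c * (q : ℝ)) atTop atTop :=
    tendsto_natCast_atTop_atTop.const_mul_atTop hc
  -- `q ≤ exp (c q)`
  have h1 : ∀ᶠ q : ℕ in atTop, (q : ℝ) + 1 ≤ Real.exp (c * q) := by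
    have g1 : Tendsto (fun x : ℝ => x ^ 1 * Real.exp (-x)) atTop (𝓝 0) :=
      Real.tendsto_pow_mul_exp_neg_atTop_nhds_zero 1
    have g3 := (g1.comp hcq).eventually (ge_mem_nhds (show (0 : ℝ) < c / 2 by positivity))
    filter_upwards [g3, eventually_ge_atTop 1] with q hq hq1
    have hq1' : (1 : ℝ) ≤ q := by exact_mod_cast hq1
    simp only [Function.comp, pow_one] at hq
    rw [Real.exp_neg, ← div_eq_mul_inv, div_le_iff₀ (Real.exp_pos _)] at hq
    have h2 : c * (q : ℝ) ≤ c * (Real.exp (c * q) / 2) := by linarith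
    have h3 := le_of_mul_le_mul_left h2 hc
    linarith
  have hll : Tendsto (fun q : ℕ => Real.log (Real.log q)) atTop atTop := Real.tendsto_log_atTop.comp hlog
  have h2 : ∀ᶠ q : ℕ in atTop, Real.log (Real.log q) ≤ ρ / 4 * Real.log q := by
    have g1 : Tendsto (fun x : ℝ => Real.log x / x) atTop (𝓝 0) := by
      simpa using Real.isLittleO_log_id_atTop.tendsto_div_nhds_zero
    have g2 := (g1.comp hlog).eventually (ge_mem_nhds (show (0 : ℝ) < ρ / 4 by positivity))
    filter_upwards [g2, hlog.eventually_gt_atTop 0] with q hq hq0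
    simp only [Function.comp] at hq
    rwa [div_le_iff₀ hq0] at hq
  filter_upwards [h1, h2, hlog.eventually_ge_atTop 1, hll.eventually_ge_atTop 0,
    hlog.eventually_ge_atTop (4 * (C + |Real.log c| + 1) / ρ), hcq.eventually_ge_atTop 2,
    eventually_ge_atTop 2] with q g1 g2 g3 g4 g5 g6 g7
  set E := Real.exp (c * q) with hE
  have hq0 : (0 : ℝ) < q := by exact_mod_cast (by omega : 0 < q)
  have hfl : q ≤ ⌊E⌋₊ := Nat.le_floor (by linarith)
  have h3 := hC q ⌊E⌋₊ g7 hfl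
  have e1 : ∑ p ∈ (Finset.Ioc q ⌊E⌋₊).filter Nat.Prime, (1 : ℝ) / p = S1 q E := by
    unfold S1 PZ
    refine Finset.sum_congr rfl fun p _ => ?_
    rw [one_div]
  rw [e1] at h3
  have h4 : C / Real.log q ≤ C := div_le_self hC0 g3
  have hE1 : 1 ≤ E := by have := Real.one_le_exp (show 0 ≤ c * q by positivity); exact this
  have hEf1 : (⌊E⌋₊ : ℝ) ≤ E := Nat.floor_le (by linarith)
  have hEf2 : E < ⌊E⌋₊ + 1 := Nat.lt_floor_add_one E
  have hlE : Real.log E = c * q := by rw [hE, Real.log_exp]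
  have hfpos : (0 : ℝ) < ⌊E⌋₊ := by
    have : (1 : ℝ) ≤ ⌊E⌋₊ := by exact_mod_cast Nat.le_floor (by simpa using hE1)
    linarith
  have hf1 : Real.log ⌊E⌋₊ ≤ c * q := by
    rw [← hlE]; exact Real.log_le_log hfpos hEf1
  have hf2 : c * q / 2 ≤ Real.log ⌊E⌋₊ := by
    have h5 : E / 2 ≤ ⌊E⌋₊ := by
      have : (1 : ℝ) ≤ ⌊E⌋₊ := by exact_mod_cast Nat.le_floor (by simpa using hE1)
      linarith
    have h6 := Real.log_le_log (by positivity) h5
    rw [Real.log_div (by positivity) two_ne_zero, hlE] at h6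
    have := Real.log_two_lt_d9
    linarith
  have hlf0 : 0 < Real.log ⌊E⌋₊ := by
    have : 0 < c * (q : ℝ) / 2 := by positivity
    linarith
  have hlq0 : 0 < Real.log q := by linarith
  have h5 : Real.log (Real.log ⌊E⌋₊ / Real.log q) = Real.log (Real.log ⌊E⌋₊) - Real.log (Real.log q) :=
    Real.log_div hlf0.ne' hlq0.ne'
  have h6 : Real.log (Real.log ⌊E⌋₊) ≤ Real.log c + Real.log q := by
    rw [← Real.log_mul hc.ne' hq0.ne']
    exact Real.log_le_log hlf0 hf1
  have h7 : Real.log c + Real.log q - Real.log 2 ≤ Real.log (Real.log ⌊E⌋₊) := by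
    rw [← Real.log_mul hc.ne' hq0.ne', ← Real.log_div (by positivity) two_ne_zero]
    exact Real.log_le_log (by positivity) hf2
  rw [h5, abs_le] at h3
  have h8 := Real.log_two_lt_d9
  have h9 := neg_abs_le (Real.log c)
  have h10 := le_abs_self (Real.log c)
  rw [div_le_iff₀ hρ] at g5
  constructor
  · nlinarith [h3.1]
  · nlinarith [h3.2]

end Pool.Agent.H538
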