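import Pool.Agent.H538.K10

set_option autoImplicit false

/-!
# The law for the integers with `k` prime factors, in a block
-/

namespace Pool.Agent.H538

open Finset Filter Topology MeasureTheory
open Pool.Agent.W66S (count_primes)
open Pool.Agent.TH888.R (gr gr_mono one_le_gr)
open Pool.Agent.Y895.PM (U01 avg corr floor_meas sum_blocks)
open Pool.Agent.Y895.OL (gF gM cg Row row_of ae_U01 floor_lt_pow VI FI VI_nonneg)

/-- the loss in the row sums -/
noncomputable def lk (j q : ℕ) : ℝ := 1 + (Real.log q) ^ j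

lemma one_le_lk (j q : ℕ) : 1 ≤ lk j q := by
  have := Real.log_natCast_nonneg q
  unfold lk
  have : 0 ≤ (Real.log q) ^ j := by positivity
  linarith

lemma wk_lk_le (j q : ℕ) : wk j q * lk j q ≤ 1 + (2 * j + 1).factorial := by
  rcases Nat.eq_zero_or_pos q with h | h
  · subst h
    have : wk j 0 = 0 := by unfold wk; simp
    rw [this, zero_mul]
    positivity
  · have hq0 : (0 : ℝ) < q := by exact_mod_cast h
    have hl := Real.log_natCast_nonneg q
    unfold lk
    rw [mul_add, mul_one]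
    apply add_le_add (wk_le_one j q)
    unfold wk
    have h1 := Real.pow_div_factorial_le_exp (Real.log q) hl (2 * j + 1)
    rw [Real.exp_log hq0] at h1
    have hf : (0 : ℝ) < (2 * j + 1).factorial := by exact_mod_cast Nat.factorial_pos _
    have hf1 : (1 : ℝ) ≤ (j + 1).factorial := by exact_mod_cast Nat.factorial_pos _
    rw [div_le_iff₀ hf] at h1
    rw [div_mul_eq_mul_div, ← pow_add, show j + 1 + j = 2 * j + 1 by ring, div_le_iff₀ (by positivity)]
    calc Real.log q ^ (2 * j + 1) ≤ q * (2 * j + 1).factorial := h1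
      _ = (2 * j + 1).factorial * (1 * q) := by ring
      _ ≤ (2 * j + 1).factorial * ((j + 1).factorial * q) := by gcongr

open Classical in
lemma small_of_fat {I : Set ℕ} (hI : ∀ q ∈ I, q.Prime) {j : ℕ} {S : Set ℕ} {s c : ℝ} (hs : 0 < s) (hc : 0 < c)
    (hfat : ∀ᶠ n : ℕ in atTop, c * (Real.log n) ^ ((j : ℝ) + 1 / 2 + s) ≤ VI I (wk j) S n) (P : ℕ) :
    ∀ B : ℝ, 0 ≤ B → ∀ e' : ℝ, 0 < e' → ∀ᶠ n : ℕ in atTop,
      B * gr (∑ q ∈ range (n + 1), if q ∈ S ∧ q ∈ I ∧ P ≤ q then wk j q * lk j q else 0) ≤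
        e' * VI I (wk j) S n := by
  intro B hB e' he'
  have hlog : Tendsto (fun q : ℕ => Real.log q) atTop atTop :=
    Real.tendsto_log_atTop.comp tendsto_natCast_atTop_atTop
  set s' := s / (2 * (2 * j + 1)) with hs'
  have hj0 : (0 : ℝ) < 2 * (j : ℝ) + 1 := by positivity
  have hs'0 : 0 < s' := by positivity
  have hss : (2 * (j : ℝ) + 1) * s' = s / 2 := by rw [hs']; field_simp
  obtain ⟨C, hC, hgr⟩ := gr_pow hs'0
  have hmert := Pool.Agent.H305R2.mertens_ratio.eventually_lt_const (show (1 : ℝ) < 2 by norm_num)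
  have hpow : Tendsto (fun n : ℕ => (Real.log n) ^ (s / 2)) atTop atTop :=
    (tendsto_rpow_atTop (by positivity)).comp hlog
  filter_upwards [hfat, hmert, hlog.eventually_ge_atTop 1,
    hpow.eventually_ge_atTop (B * C * 5 ^ (1 / 2 + s') / (e' * c))] with n h1 h2 h3 h4
  set l := Real.log n with hl
  have hl0 : 0 < l := by linarith
  rw [div_lt_iff₀ hl0] at h2
  -- the sum of the row bounds
  have hsum : ∑ q ∈ range (n + 1), (if q ∈ S ∧ q ∈ I ∧ P ≤ q then wk j q * lk j q else 0) ≤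
      4 * l ^ (2 * j + 1) := by
    have e1 : ∑ q ∈ range (n + 1), (if q ∈ S ∧ q ∈ I ∧ P ≤ q then wk j q * lk j q else 0) ≤
        ∑ q ∈ (Finset.Icc 1 n).filter Nat.Prime, 2 * l ^ (2 * j) * (Real.log q / q) := by
      rw [← Finset.sum_filter]
      refine (Finset.sum_le_sum (g := fun q : ℕ => 2 * l ^ (2 * j) * (Real.log q / q)) fun q hq => ?_).trans
        (Finset.sum_le_sum_of_subset_of_nonneg ?_ fun q _ _ => ?_)
      · obtain ⟨g1, _, g2, _⟩ := mem_filter.1 hq
        rw [mem_range] at g1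
        have hqp : q.Prime := hI q g2
        have hq0 : (0 : ℝ) < q := by exact_mod_cast hqp.pos
        have hlq0 : 0 ≤ Real.log q := Real.log_natCast_nonneg q
        have hlq : Real.log q ≤ l := Real.log_le_log hq0 (by exact_mod_cast (by omega : q ≤ n))
        have a1 : wk j q ≤ l ^ j * (Real.log q / q) := by
          unfold wk
          have hf1 : (1 : ℝ) ≤ (j + 1).factorial := by exact_mod_cast Nat.factorial_pos _
          calc Real.log q ^ (j + 1) / ((j + 1).factorial * q) ≤ Real.log q ^ (j + 1) / (1 * q) := by gcongr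
            _ = Real.log q ^ j * (Real.log q / q) := by rw [pow_succ, one_mul]; ring
            _ ≤ l ^ j * (Real.log q / q) := by gcongr
        have a2 : lk j q ≤ 2 * l ^ j := by
          unfold lk
          have b1 : Real.log q ^ j ≤ l ^ j := pow_le_pow_left₀ hlq0 hlq _
          have b2 : 1 ≤ l ^ j := one_le_pow₀ h3
          linarith
        calc wk j q * lk j q ≤ (l ^ j * (Real.log q / q)) * (2 * l ^ j) :=
              mul_le_mul a1 a2 (by linarith [one_le_lk j q]) (by positivity)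
          _ = 2 * l ^ (2 * j) * (Real.log q / q) := by
              rw [show 2 * j = j + j by ring, pow_add]
              ring
      · intro q hq
        obtain ⟨g1, _, g2, _⟩ := mem_filter.1 hq
        have hqp : q.Prime := hI q g2
        rw [mem_range] at g1
        rw [mem_filter, Finset.mem_Icc]
        exact ⟨⟨hqp.one_lt.le, by omega⟩, hqp⟩
      · have := Real.log_natCast_nonneg q
        positivity
    rw [← Finset.mul_sum] at e1
    refine e1.trans ?_
    calc 2 * l ^ (2 * j) * ∑ q ∈ (Finset.Icc 1 n).filter Nat.Prime, Real.log q / q ≤ 2 * l ^ (2 * j) * (2 * l) :=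
          mul_le_mul_of_nonneg_left h2.le (by positivity)
      _ = 4 * l ^ (2 * j + 1) := by rw [pow_succ]; ring
  have hsum0 : 0 ≤ ∑ q ∈ range (n + 1),
      (if q ∈ S ∧ q ∈ I ∧ P ≤ q then wk j q * lk j q else 0) :=
    Finset.sum_nonneg fun q _ => by
      split_ifs
      · exact mul_nonneg (wk_nonneg j q) (by linarith [one_le_lk j q])
      · exact le_rfl
  have h5 := (gr_mono hsum0 hsum).trans (hgr (4 * l ^ (2 * j + 1)) (by positivity))
  have hl1 : (1 : ℝ) ≤ l ^ (2 * j + 1) := one_le_pow₀ h3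
  have h6 : (1 + 4 * l ^ (2 * j + 1)) ^ (1 / 2 + s') ≤ 5 ^ (1 / 2 + s') * l ^ ((j : ℝ) + 1 / 2 + s / 2) := by
    calc (1 + 4 * l ^ (2 * j + 1)) ^ (1 / 2 + s') ≤ (5 * l ^ (2 * j + 1)) ^ (1 / 2 + s') :=
          Real.rpow_le_rpow (by positivity) (by linarith) (by positivity)
      _ = 5 ^ (1 / 2 + s') * (l ^ (2 * j + 1)) ^ (1 / 2 + s') := Real.mul_rpow (by norm_num) (by positivity)
      _ = _ := by
          rw [← Real.rpow_natCast l (2 * j + 1), ← Real.rpow_mul hl0.le]
          congr 2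
          push_cast
          rw [mul_add, hss]
          ring
  have h7 : l ^ ((j : ℝ) + 1 / 2 + s) = l ^ ((j : ℝ) + 1 / 2 + s / 2) * l ^ (s / 2) := by
    rw [← Real.rpow_add hl0]
    congr 1
    ring
  rw [div_le_iff₀ (by positivity)] at h4
  have h8 : 0 ≤ l ^ ((j : ℝ) + 1 / 2 + s / 2) := by positivity
  calc B * gr _ ≤ B * (C * (1 + 4 * l ^ (2 * j + 1)) ^ (1 / 2 + s')) := mul_le_mul_of_nonneg_left h5 hB
    _ ≤ B * (C * (5 ^ (1 / 2 + s') * l ^ ((j : ℝ) + 1 / 2 + s / 2))) := by gcongr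
    _ = l ^ ((j : ℝ) + 1 / 2 + s / 2) * (B * C * 5 ^ (1 / 2 + s')) := by ring
    _ ≤ l ^ ((j : ℝ) + 1 / 2 + s / 2) * (l ^ (s / 2) * (e' * c)) := mul_le_mul_of_nonneg_left h4 h8
    _ = e' * (c * l ^ ((j : ℝ) + 1 / 2 + s)) := by rw [h7]; ring
    _ ≤ _ := mul_le_mul_of_nonneg_left h1 he'.le

lemma div_of_fat {j : ℕ} {S : Set ℕ} {s c : ℝ} (hs : 0 < s) (hc : 0 < c)
    (hfat : ∀ᶠ n : ℕ in atTop, c * (Real.log n) ^ ((j : ℝ) + 1 / 2 + s) ≤ VI {p | p.Prime} (wk j) S n) :
    Tendsto (VI {p | p.Prime} (wk j) S) atTop atTop := by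
  have hlog : Tendsto (fun q : ℕ => Real.log q) atTop atTop :=
    Real.tendsto_log_atTop.comp tendsto_natCast_atTop_atTop
  have h1 : Tendsto (fun n : ℕ => c * (Real.log n) ^ ((j : ℝ) + 1 / 2 + s)) atTop atTop :=
    ((tendsto_rpow_atTop (by positivity)).comp hlog).const_mul_atTop hc
  exact tendsto_atTop_mono' _ hfat h1

/-- **The law in a block.** -/
theorem block_sharpK {b : ℕ} (hb : 2 ≤ b) (j a d : ℕ) (ha : 1 ≤ a) {ε : ℝ} (hε : 0 < ε) (hεc : 2 * ε ≤ ck b j)
    (S : Set ℕ) {s c' : ℝ} (hs : 0 < s) (hc' : 0 < c')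
    (hfat : ∀ᶠ n : ℕ in atTop, c' * (Real.log n) ^ ((j : ℝ) + 1 / 2 + s) ≤ VI {p | p.Prime} (wk j) S n) :
    ∀ᵐ t ∂U01, ∀ᶠ n : ℕ in atTop, (ck b j - 2 * ε) * VI {p | p.Prime} (wk j) S n ≤
        FI {p | p.Prime} (gF (ind (AK j)) b (fun q => a * b ^ (q - d)) (fun q => q - d)) S n t ∧
      FI {p | p.Prime} (gF (ind (AK j)) b (fun q => a * b ^ (q - d)) (fun q => q - d)) S n t ≤
        (ck b j + 2 * ε) * VI {p | p.Prime} (wk j) S n := by
  classical
  have hbr : (2 : ℝ) ≤ b := by exact_mod_cast hb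
  have hb0 : (0 : ℝ) < b := by linarith
  have hlb : 0 < Real.log b := Real.log_pos (by linarith)
  set c := ck b j with hcdef
  obtain ⟨δ, K0, hδ, hδ8, hdens⟩ := AK_dens hb j ε hε
  obtain ⟨P1, hP1⟩ := hdens (a + 1) (by positivity)
  have hΛ : 1 ≤ 2 / δ := by rw [le_div_iff₀ hδ]; linarith
  obtain ⟨K2, hK2, P2, hP22, hP2⟩ := near_pairK hb hΛ j
  obtain ⟨C2, hC2, hcp⟩ := count_primes
  have hfac : (1 : ℝ) ≤ (j + 1).factorial := by exact_mod_cast Nat.factorial_pos _
  set l : ℕ → ℕ := fun q => ⌊δ / 2 * q⌋₊ with hl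
  set m : ℕ → ℕ := fun q => q - d with hm
  set A0 : ℕ → ℕ := fun q => a * b ^ (q - d) with hA0
  -- large q
  have hev1 : ∀ᶠ q : ℕ in atTop, (d : ℝ) / (δ / 4) ≤ q := tendsto_natCast_atTop_atTop.eventually_ge_atTop _
  have hev2 : ∀ᶠ q : ℕ in atTop, ((K0 : ℝ) + 1) / (δ / 2) ≤ q := tendsto_natCast_atTop_atTop.eventually_ge_atTop _
  have hev3 : ∀ᶠ q : ℕ in atTop, 1 ≤ Real.log q :=
    (Real.tendsto_log_atTop.comp tendsto_natCast_atTop_atTop).eventually_ge_atTop 1
  obtain ⟨P3, hP3⟩ := ((hev1.and hev2).and hev3).exists_forall_of_atTop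
  set Q := max (max P1 P2) (max P3 (4 * d + 2)) with hQ
  have hQ1 : ∀ q ≥ Q, P1 ≤ q := fun q hq => (le_max_left _ _).trans ((le_max_left _ _).trans hq)
  have hQ2 : ∀ q ≥ Q, P2 ≤ q := fun q hq => (le_max_right _ _).trans ((le_max_left _ _).trans hq)
  have hQ3 : ∀ q ≥ Q, P3 ≤ q := fun q hq => (le_max_left _ _).trans ((le_max_right _ _).trans hq)
  have hQ4 : ∀ q ≥ Q, 4 * d + 2 ≤ q := fun q hq => (le_max_right _ _).trans ((le_max_right _ _).trans hq)
  have hjq : ∀ q ≥ Q, (d : ℝ) ≤ δ / 4 * q := by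
    intro q hq
    have := (hP3 q (hQ3 q hq)).1.1
    rw [div_le_iff₀ (by positivity)] at this
    linarith
  have hlq1 : ∀ q ≥ Q, 1 ≤ Real.log q := fun q hq => (hP3 q (hQ3 q hq)).2
  have hlK : ∀ q ≥ Q, K0 ≤ l q := by
    intro q hq
    have := (hP3 q (hQ3 q hq)).1.2
    rw [div_le_iff₀ (by positivity)] at this
    exact Nat.le_floor (by linarith)
  have hlle : ∀ q, (l q : ℝ) ≤ δ / 2 * q := fun q => Nat.floor_le (by positivity)
  have hjq' : ∀ q ≥ Q, d ≤ q := fun q hq => by have := hQ4 q hq; omega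
  have hmq : ∀ q ≥ Q, (m q : ℝ) = q - d := by
    intro q hq
    simp only [hm]
    rw [Nat.cast_sub (hjq' q hq)]
  have hlm : ∀ q ≥ Q, l q ≤ m q := by
    intro q hq
    have h1 : (l q : ℝ) ≤ m q := by
      rw [hmq q hq]
      have := hlle q
      have := hjq q hq
      have : (0 : ℝ) ≤ q := Nat.cast_nonneg q
      nlinarith
    exact_mod_cast h1
  -- the local means
  have hdens' : ∀ q ≥ Q, ∀ k < b ^ l q,
      |∑ D ∈ range (b ^ (m q - l q)), ind (AK j) q (A0 q + b ^ (m q - l q) * k + D) -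
        c * wk j q * (b : ℝ) ^ (m q - l q)| ≤ ε * wk j q * (b : ℝ) ^ (m q - l q) := by
    intro q hq k hk
    have h1 := hP1 q (hQ1 q hq) (A0 q + b ^ (m q - l q) * k) (b ^ (m q - l q)) (by
        have e1 : b ^ m q = b ^ l q * b ^ (m q - l q) := by
          rw [← pow_add, Nat.add_sub_cancel' (hlm q hq)]
        have e2 : K0 ≤ b ^ l q := (hlK q hq).trans (Nat.lt_pow_self (by omega)).le
        calc K0 * b ^ (m q - l q) ≤ b ^ l q * b ^ (m q - l q) := Nat.mul_le_mul_right _ e2
          _ = b ^ m q := e1.symm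
          _ ≤ a * b ^ m q := Nat.le_mul_of_pos_left _ ha
          _ ≤ _ := Nat.le_add_right _ _) (by
        have e1 : b ^ m q = b ^ (m q - l q) * b ^ l q := by
          rw [← pow_add, Nat.sub_add_cancel (hlm q hq)]
        have e2 : A0 q + b ^ (m q - l q) * k ≤ (a + 1) * b ^ q := by
          calc A0 q + b ^ (m q - l q) * k ≤ a * b ^ m q + b ^ (m q - l q) * b ^ l q :=
                Nat.add_le_add_left (Nat.mul_le_mul_left _ hk.le) _
            _ = (a + 1) * b ^ m q := by rw [← e1]; ring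
            _ ≤ (a + 1) * b ^ q := Nat.mul_le_mul_left _ (Nat.pow_le_pow_right (by omega) (Nat.sub_le _ _))
        exact_mod_cast e2) (by
        push_cast
        rw [show (b : ℝ) ^ (m q - l q) = Real.exp ((m q - l q : ℕ) * Real.log b) by
          rw [Real.exp_nat_mul, Real.exp_log hb0], Real.exp_le_exp, ← mul_assoc]
        apply mul_le_mul_of_nonneg_right _ hlb.le
        rw [Nat.cast_sub (hlm q hq), hmq q hq]
        have := hlle q
        have := hjq q hq
        have : (0 : ℝ) ≤ q := Nat.cast_nonneg q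
        nlinarith)
    push_cast at h1
    exact h1
  have hmean : ∀ q ≥ Q, ∀ t : ℝ, 0 ≤ t → t < 1 →
      (c - ε) * wk j q ≤ gM (ind (AK j)) b A0 m l q t ∧ gM (ind (AK j)) b A0 m l q t ≤ (c + ε) * wk j q := by
    intro q hq t ht0 ht1
    have h0 : (0 : ℝ) < (b : ℝ) ^ (m q - l q) := by positivity
    have h1 := abs_le.1 (hdens' q hq _ (floor_lt_pow hb (l q) ht1))
    unfold gM cg
    rw [inv_mul_eq_div, le_div_iff₀ h0, div_le_iff₀ h0]
    constructor <;> linarith [h1.1, h1.2]
  -- the full block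
  have hfull : ∀ q ≥ Q, ∑ k ∈ range (b ^ m q), ind (AK j) q (A0 q + k) ≤ (c + ε) * wk j q * (b : ℝ) ^ m q := by
    intro q hq
    have e1 : b ^ m q = b ^ (m q - l q) * b ^ l q := by
      rw [← pow_add, Nat.sub_add_cancel (hlm q hq)]
    rw [e1, ← sum_blocks (fun D => ind (AK j) q (A0 q + D)) (b ^ l q) (b ^ (m q - l q))]
    have h2 : ∀ k ∈ range (b ^ l q), ∑ r ∈ range (b ^ (m q - l q)), ind (AK j) q (A0 q + (b ^ (m q - l q) * k + r)) ≤
        (c + ε) * wk j q * (b : ℝ) ^ (m q - l q) := by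
      intro k hk
      rw [mem_range] at hk
      have h3 := (abs_le.1 (hdens' q hq k hk)).2
      have h4 : ∑ r ∈ range (b ^ (m q - l q)), ind (AK j) q (A0 q + (b ^ (m q - l q) * k + r)) =
          ∑ D ∈ range (b ^ (m q - l q)), ind (AK j) q (A0 q + b ^ (m q - l q) * k + D) :=
        Finset.sum_congr rfl fun r _ => by rw [add_assoc]
      rw [h4]
      linarith
    refine (Finset.sum_le_sum h2).trans (le_of_eq ?_)
    rw [Finset.sum_const, card_range, nsmul_eq_mul]
    push_cast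
    rw [show (b : ℝ) ^ m q = (b : ℝ) ^ (m q - l q) * (b : ℝ) ^ l q by exact_mod_cast congrArg (Nat.cast (R := ℝ)) e1]
    ring
  have hinteg : ∀ q ≥ Q, ∫ t, gF (ind (AK j)) b A0 m q t ∂U01 ≤ (c + ε) * wk j q := by
    intro q hq
    have h1 : ∫ t, gF (ind (AK j)) b A0 m q t ∂U01 =
        ((b : ℝ) ^ m q)⁻¹ * ∑ D ∈ range (b ^ m q), ind (AK j) q (A0 q + D) :=
      avg hb (G := fun D => ind (AK j) q (A0 q + D)) (fun n => by
        rw [abs_of_nonneg (ind_nonneg _ _ _)]; exact ind_le_one _ _ _) (m q)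
    rw [h1, inv_mul_eq_div, div_le_iff₀ (by positivity)]
    exact hfull q hq
  -- near pairs
  have hcomp : ∀ q ≥ Q, ∀ p ≥ Q, l q < m p → δ / 2 * q ≤ p := by
    intro q hq p hp h
    have h1 : δ / 2 * (q : ℝ) < l q + 1 := Nat.lt_floor_add_one _
    have h2 : (l q : ℝ) + 1 ≤ m p := by exact_mod_cast h
    have h3 := hmq p hp
    have h4 : (0 : ℝ) ≤ d := Nat.cast_nonneg d
    linarith
  have hpos : ∀ q ≥ Q, (0 : ℝ) < q := by
    intro q hq
    have := hQ4 q hq
    exact_mod_cast (by omega : 0 < q)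
  have hwt : ∀ q ≥ Q, ∀ p ≥ Q, p < q → l q < m p → wk j p ≤ 2 / δ * wk j q := by
    intro q hq p hp hpq h
    have h2 := hcomp q hq p hp h
    have hp0 := hpos p hp
    have hq0 := hpos q hq
    have h3 : Real.log p ≤ Real.log q := Real.log_le_log hp0 (by exact_mod_cast hpq.le)
    have h4 : wk j p ≤ Real.log q ^ (j + 1) / ((j + 1).factorial * (δ / 2 * q)) := by
      have := hlq1 q hq
      have := hlq1 p hp
      unfold wk
      gcongr
    refine h4.trans (le_of_eq ?_)
    unfold wk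
    field_simp
  have hpairint : ∀ p ≥ Q, ∀ q ≥ Q, p < q → l q < m p →
      ∫ t, gF (ind (AK j)) b A0 m p t * gF (ind (AK j)) b A0 m q t ∂U01 ≤
        K2 * (Real.log p ^ (2 * j) * (Real.log p / p) ^ 2) + (c + ε) * wk j p * ((b : ℝ) ^ (q - p))⁻¹ := by
    intro p hp q hq hpq hlp
    have hmm : m p ≤ m q := by simp only [hm]; omega
    have hqp : m q - m p = q - p := by
      have := hjq' p hp
      simp only [hm]; omega
    have hAq : A0 q = b ^ (q - p) * A0 p := by
      simp only [hA0]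
      have : q - d = (q - p) + (p - d) := by
        have := hjq' p hp
        omega
      rw [this, pow_add]; ring
    have h1 : ∫ t, gF (ind (AK j)) b A0 m p t * gF (ind (AK j)) b A0 m q t ∂U01 =
        ((b : ℝ) ^ m q)⁻¹ * ∑ k ∈ range (b ^ m p), ∑ r ∈ range (b ^ (q - p)),
          ind (AK j) p (A0 p + k) * ind (AK j) q (b ^ (q - p) * (A0 p + k) + r) := by
      have h2 := corr hb (F := fun n => ind (AK j) p (A0 p + n)) (G := fun n => ind (AK j) q (A0 q + n))
        (fun n => by rw [abs_of_nonneg (ind_nonneg _ _ _)]; exact ind_le_one _ _ _)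
        (fun n => by rw [abs_of_nonneg (ind_nonneg _ _ _)]; exact ind_le_one _ _ _) (m p) (m q - m p)
      rw [Nat.sub_add_cancel hmm, hqp] at h2
      refine Eq.trans ?_ (h2.trans ?_)
      · rfl
      · congr 1
        refine Finset.sum_congr rfl fun k _ => Finset.sum_congr rfl fun r _ => ?_
        rw [hAq]
        congr 2
        ring
    rw [h1, inv_mul_eq_div, div_le_iff₀ (by positivity)]
    have hX : b ^ m p ≤ A0 p := Nat.le_mul_of_pos_left _ ha
    have hN : Real.exp (3 / 4 * (p * Real.log b)) ≤ ((b ^ m p : ℕ) : ℝ) := by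
      push_cast
      rw [show (b : ℝ) ^ m p = Real.exp ((m p : ℕ) * Real.log b) by
          rw [Real.exp_nat_mul, Real.exp_log hb0], Real.exp_le_exp, hmq p hp, ← mul_assoc]
      have h3 : (d : ℝ) ≤ p / 4 := by
        have := hQ4 p hp
        have h4 : ((4 * d : ℕ) : ℝ) ≤ p := by exact_mod_cast (by omega : 4 * d ≤ p)
        push_cast at h4
        linarith
      exact mul_le_mul_of_nonneg_right (by linarith) hlb.le
    have hqΛ : (q : ℝ) ≤ 2 / δ * p := by
      have := hcomp q hq p hp hlp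
      rw [div_mul_eq_mul_div, le_div_iff₀ hδ]
      linarith
    have h3 := hP2 p (hQ2 p hp) q hpq.le hqΛ (A0 p) (b ^ m p) hX hN
    have h4 := hfull p hp
    have hpw : (b : ℝ) ^ m q = (b : ℝ) ^ m p * (b : ℝ) ^ (q - p) := by
      rw [← pow_add]; congr 1; omega
    have hbq : (0 : ℝ) < (b : ℝ) ^ (q - p) := by positivity
    have h5 : (c + ε) * wk j p * ((b : ℝ) ^ (q - p))⁻¹ * (b : ℝ) ^ m q = (c + ε) * wk j p * (b : ℝ) ^ m p := by
      rw [hpw]; field_simp
    have h6 : K2 * (Real.log p ^ (2 * j) * (Real.log p / p) ^ 2) * (((b ^ m p : ℕ) : ℝ) * (b : ℝ) ^ (q - p)) =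
        K2 * (Real.log p ^ (2 * j) * (Real.log p / p) ^ 2) * (b : ℝ) ^ m q := by
      rw [hpw]; push_cast; rfl
    rw [h6] at h3
    rw [add_mul, h5]
    linarith
  have hcard : ∀ q ≥ Q, ∀ T : Finset ℕ, (∀ p ∈ T, p ∈ {p : ℕ | p.Prime} ∧ Q ≤ p ∧ p < q ∧ l q < m p) →
      (T.card : ℝ) ≤ C2 * q / Real.log q := by
    intro q hq T hT
    exact hcp q (by have := hQ4 q hq; omega) T fun p hp => ⟨(hT p hp).1, (hT p hp).2.2.1⟩
  have hnear : ∀ q ≥ Q, ∀ T : Finset ℕ, (∀ p ∈ T, p ∈ {p : ℕ | p.Prime} ∧ Q ≤ p ∧ p < q ∧ l q < m p) →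
      ∑ p ∈ T, wk j p ≤ 2 * C2 / δ * lk j q := by
    intro q hq T hT
    have hlq := hlq1 q hq
    have hq0 := hpos q hq
    calc ∑ p ∈ T, wk j p ≤ ∑ p ∈ T, 2 / δ * wk j q := Finset.sum_le_sum fun p hp => by
          obtain ⟨g1, g2, g3, g4⟩ := hT p hp
          exact hwt q hq p g2 g3 g4
      _ = T.card * (2 / δ * wk j q) := by rw [Finset.sum_const, nsmul_eq_mul]
      _ ≤ (C2 * q / Real.log q) * (2 / δ * wk j q) := by
          apply mul_le_mul_of_nonneg_right (hcard q hq T hT)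
          have := wk_nonneg j q
          positivity
      _ = 2 * C2 / δ * (Real.log q ^ j / (j + 1).factorial) := by
          unfold wk
          field_simp
          ring
      _ ≤ 2 * C2 / δ * lk j q := by
          apply mul_le_mul_of_nonneg_left _ (by positivity)
          unfold lk
          have h1 : 0 ≤ Real.log q ^ j := by positivity
          have h2 : Real.log q ^ j / (j + 1).factorial ≤ Real.log q ^ j := div_le_self h1 hfac
          linarith
  have hcε : 0 < c + ε := by linarith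
  set CC := K2 * (4 / δ ^ 2) * C2 * (j + 1).factorial + (c + ε) * (2 / δ) * 2 + 2 * C2 / δ with hCC
  have hCCp : 0 < CC := by positivity
  have hrow : Row U01 (gF (ind (AK j)) b A0 m) (gM (ind (AK j)) b A0 m l) {p | p.Prime} (wk j) (lk j) Q := by
    refine row_of (ind01 (AK j)) hb (K := c + ε) (C := CC) hlm (wk_nonneg j) (wk_le_one j) (one_le_lk j)
      ⟨1 + (2 * j + 1).factorial, by positivity, fun q _ => wk_lk_le j q⟩ hcε hCCp
      (ae_U01 fun t h0 h1 q hq _ => (hmean q hq t h0 h1).2) (fun q hq _ => hinteg q hq) ?_ ?_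
    · intro q hq _ T hT
      have hq0 := hpos q hq
      have hlq := hlq1 q hq
      have h1 : ∑ p ∈ T, ∫ t, gF (ind (AK j)) b A0 m p t * gF (ind (AK j)) b A0 m q t ∂U01 ≤
          ∑ p ∈ T, (K2 * (4 / δ ^ 2) * (Real.log q ^ (2 * j + 2) / q ^ 2) +
            (c + ε) * (2 / δ) * wk j q * ((b : ℝ) ^ (q - p))⁻¹) := by
        refine Finset.sum_le_sum fun p hp => ?_
        obtain ⟨g1, g2, g3, g4⟩ := hT p hp
        refine (hpairint p g2 q hq g3 g4).trans ?_
        have h2 := hwt q hq p g2 g3 g4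
        have h4 : (0 : ℝ) < ((b : ℝ) ^ (q - p))⁻¹ := by positivity
        have hp0 := hpos p g2
        have h5 := hcomp q hq p g2 g4
        have h6 : Real.log p ≤ Real.log q := Real.log_le_log hp0 (by exact_mod_cast g3.le)
        have h7 := hlq1 p g2
        apply add_le_add
        · have h8 : Real.log p ^ (2 * j) * (Real.log p / p) ^ 2 ≤ 4 / δ ^ 2 * (Real.log q ^ (2 * j + 2) / q ^ 2) := by
            calc Real.log p ^ (2 * j) * (Real.log p / p) ^ 2 ≤
                  Real.log q ^ (2 * j) * (Real.log q / (δ / 2 * q)) ^ 2 := by gcongr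
              _ = _ := by
                  rw [pow_add]
                  field_simp
                  ring
          calc K2 * (Real.log p ^ (2 * j) * (Real.log p / p) ^ 2) ≤
                K2 * (4 / δ ^ 2 * (Real.log q ^ (2 * j + 2) / q ^ 2)) := mul_le_mul_of_nonneg_left h8 hK2.le
            _ = _ := by ring
        · calc (c + ε) * wk j p * ((b : ℝ) ^ (q - p))⁻¹ ≤ (c + ε) * (2 / δ * wk j q) * ((b : ℝ) ^ (q - p))⁻¹ := by
                gcongr
            _ = _ := by ring
      refine h1.trans ?_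
      rw [Finset.sum_add_distrib, Finset.sum_const, nsmul_eq_mul,
        ← Finset.mul_sum T (fun p => ((b : ℝ) ^ (q - p))⁻¹) ((c + ε) * (2 / δ) * wk j q)]
      have h6 := sum_pow_le hb T (q := q) fun p hp => (hT p hp).2.2.1
      have h7 := wk_nonneg j q
      have h8 : (T.card : ℝ) * (K2 * (4 / δ ^ 2) * (Real.log q ^ (2 * j + 2) / q ^ 2)) ≤
          K2 * (4 / δ ^ 2) * C2 * (j + 1).factorial * (wk j q * lk j q) := by
        calc (T.card : ℝ) * (K2 * (4 / δ ^ 2) * (Real.log q ^ (2 * j + 2) / q ^ 2)) ≤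
              (C2 * q / Real.log q) * (K2 * (4 / δ ^ 2) * (Real.log q ^ (2 * j + 2) / q ^ 2)) :=
              mul_le_mul_of_nonneg_right (hcard q hq T hT) (by positivity)
          _ = K2 * (4 / δ ^ 2) * C2 * (j + 1).factorial * (wk j q * (Real.log q ^ j)) := by
              unfold wk
              rw [show 2 * j + 2 = (j + 1) + j + 1 by ring, pow_succ, pow_add]
              field_simp
              ring
          _ ≤ _ := by
              apply mul_le_mul_of_nonneg_left _ (by positivity)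
              apply mul_le_mul_of_nonneg_left _ h7
              unfold lk
              linarith
      have h9 : wk j q ≤ wk j q * lk j q := le_mul_of_one_le_right h7 (one_le_lk j q)
      have h10 : (c + ε) * (2 / δ) * wk j q * ∑ p ∈ T, ((b : ℝ) ^ (q - p))⁻¹ ≤
          (c + ε) * (2 / δ) * 2 * (wk j q * lk j q) := by
        calc (c + ε) * (2 / δ) * wk j q * ∑ p ∈ T, ((b : ℝ) ^ (q - p))⁻¹ ≤ (c + ε) * (2 / δ) * wk j q * 2 :=
              mul_le_mul_of_nonneg_left h6 (by positivity)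
          _ = (c + ε) * (2 / δ) * 2 * wk j q := by ring
          _ ≤ _ := mul_le_mul_of_nonneg_left h9 (by positivity)
      have h11 : 0 ≤ 2 * C2 / δ * (wk j q * lk j q) := by
        have := one_le_lk j q
        positivity
      rw [hCC]
      linarith
    · intro q hq _ T hT
      refine (hnear q hq T hT).trans ?_
      have h1 : 0 ≤ (K2 * (4 / δ ^ 2) * C2 * (j + 1).factorial + (c + ε) * (2 / δ) * 2) * lk j q := by
        have := one_le_lk j q
        positivity
      rw [hCC]; linarith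
  have hfin := row_sharpL hrow (c0 := c - ε) (K := c + ε) (e := ε) (by linarith) hcε hε
    (ae_U01 fun t h0 h1 q hq _ => (hmean q hq t h0 h1).1)
    (ae_U01 fun t h0 h1 q hq _ => (hmean q hq t h0 h1).2) S (div_of_fat hs hc' hfat)
    (small_of_fat (I := {p | p.Prime}) (fun _ h => h) hs hc' hfat Q)
  filter_upwards [hfin] with t ht
  filter_upwards [ht] with n hn
  constructor
  · refine le_trans (le_of_eq ?_) hn.1
    ring
  · refine hn.2.trans (le_of_eq ?_)
    ring

end Pool.Agent.H538
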