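import Pool.Agent.H538.S5
import Pool.Graph.R_seed8.H95R2.Leh.ApSieve

set_option autoImplicit false

/-!
# Upper bounds for rough integers in intervals
-/

namespace Pool.Agent.H538

open Finset Filter Topology
open Pool.Agent.H305R2 (roughPart SM SM_pos)

/-- covering an interval by blocks -/
lemma block_cover (Q : ℕ → Prop) [DecidablePred Q] {N1 : ℕ} (hN1 : 1 ≤ N1) {K : ℝ}
    (hK : ∀ a : ℕ, (((range N1).filter (fun i => Q (a + i))).card : ℝ) ≤ K) (a N : ℕ) :
    (((range N).filter (fun i => Q (a + i))).card : ℝ) ≤ (N / N1 + 1 : ℕ) * K := by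
  have hsub : (range N).filter (fun i => Q (a + i)) ⊆
      (range (N / N1 + 1)).biUnion (fun j => ((range N1).filter (fun i => Q (a + j * N1 + i))).image
        (fun i => j * N1 + i)) := by
    intro k hk
    rw [mem_filter, mem_range] at hk
    have hdiv := Nat.div_add_mod k N1
    rw [mem_biUnion]
    refine ⟨k / N1, ?_, ?_⟩
    · rw [mem_range]
      have := Nat.div_le_div_right (c := N1) hk.1.le
      omega
    · rw [mem_image]
      refine ⟨k % N1, ?_, ?_⟩
      · rw [mem_filter, mem_range]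
        refine ⟨Nat.mod_lt _ (by omega), ?_⟩
        have e : a + k / N1 * N1 + k % N1 = a + k := by
          have : k / N1 * N1 = N1 * (k / N1) := mul_comm _ _
          omega
        rw [e]
        exact hk.2
      · have : k / N1 * N1 = N1 * (k / N1) := mul_comm _ _
        omega
  have h1 := (card_le_card hsub).trans card_biUnion_le
  have h3 : (((range N).filter (fun i => Q (a + i))).card : ℝ) ≤
      ∑ j ∈ range (N / N1 + 1), ((((range N1).filter (fun i => Q (a + j * N1 + i))).image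
        (fun i => j * N1 + i)).card : ℝ) := by exact_mod_cast h1
  refine h3.trans ?_
  calc ∑ j ∈ range (N / N1 + 1), ((((range N1).filter (fun i => Q (a + j * N1 + i))).image
        (fun i => j * N1 + i)).card : ℝ) ≤ ∑ j ∈ range (N / N1 + 1), K := by
        refine Finset.sum_le_sum fun j _ => ?_
        refine le_trans ?_ (hK (a + j * N1))
        exact_mod_cast card_image_le
    _ = (N / N1 + 1 : ℕ) * K := by rw [Finset.sum_const, card_range, nsmul_eq_mul]

/-- an interval as a range -/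
lemma Ioc_range (Q : ℕ → Prop) [DecidablePred Q] {A B : ℕ} (hAB : A ≤ B) :
    ((Ioc A B).filter Q).card = ((range (B - A)).filter (fun i => Q (A + 1 + i))).card := by
  refine (Finset.card_bij (fun i _ => A + 1 + i) ?_ ?_ ?_).symm
  · intro i hi
    rw [mem_filter, mem_range] at hi
    rw [mem_filter, mem_Ioc]
    exact ⟨⟨by omega, by omega⟩, hi.2⟩
  · intro i _ j _ h
    omega
  · intro n hn
    rw [mem_filter, mem_Ioc] at hn
    refine ⟨n - A - 1, ?_, by omega⟩
    rw [mem_filter, mem_range]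
    have : A + 1 + (n - A - 1) = n := by omega
    rw [this]
    exact ⟨by omega, hn.2⟩

/-- upper bound for the integers without prime factors up to `z` in an interval -/
lemma rough_up : ∃ C : ℝ, 1 ≤ C ∧ ∀ z : ℝ, 2 ≤ z → ∀ X y : ℝ, 0 ≤ X - y → z ^ 8 ≤ y →
    ((DR X y z).card : ℝ) ≤ C * y / Real.log z := by
  classical
  obtain ⟨C, hC1, hC⟩ := Pool.Agent.H95R2.Leh.ap_sieve
  refine ⟨3 * C, by linarith, fun z hz X y hy hyz => ?_⟩
  have hz0 : (0 : ℝ) < z := by linarith
  have hlz : 0 < Real.log z := Real.log_pos (by linarith)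
  have hz8 : (256 : ℝ) ≤ z ^ 8 := by
    calc (256 : ℝ) = 2 ^ 8 := by norm_num
      _ ≤ z ^ 8 := pow_le_pow_left₀ (by norm_num) hz 8
  set N1 := ⌊z ^ 8⌋₊ with hN1
  have hN1le : (N1 : ℝ) ≤ z ^ 8 := Nat.floor_le (by positivity)
  have hN1gt : z ^ 8 < N1 + 1 := Nat.lt_floor_add_one _
  have hN12 : 2 ≤ N1 := Nat.le_floor (by push_cast; linarith)
  have hN1z : z ≤ N1 := by
    have h1 : z ^ 2 ≤ z ^ 8 := pow_le_pow_right₀ (by linarith) (by norm_num)
    nlinarith
  have hN10 : (0 : ℝ) < N1 := by linarith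
  have hlN : Real.log z ≤ Real.log N1 := Real.log_le_log hz0 hN1z
  have hblock : ∀ a : ℕ, (((range N1).filter (fun i => ∀ p : ℕ, p.Prime → p ∣ a + i → z < p)).card : ℝ) ≤
      C * N1 / Real.log z := by
    intro a
    have h1 := hC a 1 N1 le_rfl hN12
    rw [Nat.totient_one] at h1
    have h2 : (((range N1).filter (fun i => ∀ p : ℕ, p.Prime → p ∣ a + i → z < p)).card : ℝ) ≤
        (((Finset.range N1).filter (fun i => ∀ p : ℕ, p.Prime → (p : ℝ) ^ 8 ≤ N1 → ¬ p ∣ a + i * 1)).card : ℝ) := by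
      have h3 : (range N1).filter (fun i => ∀ p : ℕ, p.Prime → p ∣ a + i → z < p) ⊆
          (Finset.range N1).filter (fun i => ∀ p : ℕ, p.Prime → (p : ℝ) ^ 8 ≤ N1 → ¬ p ∣ a + i * 1) := by
        intro i hi
        rw [mem_filter] at hi ⊢
        refine ⟨hi.1, fun p hp hpN hd => ?_⟩
        rw [mul_one] at hd
        have h4 := hi.2 p hp hd
        have h5 : z ^ 8 < (p : ℝ) ^ 8 := pow_lt_pow_left₀ h4 hz0.le (by norm_num)
        linarith
      exact_mod_cast card_le_card h3
    refine h2.trans (h1.trans ?_)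
    push_cast
    rw [div_one, mul_one]
    exact div_le_div_of_nonneg_left (by positivity) hlz hlN
  have hAB : ⌊X - y⌋₊ ≤ ⌊X⌋₊ := Nat.floor_mono (by
    have : 0 ≤ y := by linarith
    linarith)
  unfold DR
  rw [Ioc_range _ hAB]
  refine (block_cover (fun m => ∀ p : ℕ, p.Prime → p ∣ m → z < p) (by omega) hblock _ _).trans ?_
  have hlen : ((⌊X⌋₊ - ⌊X - y⌋₊ : ℕ) : ℝ) ≤ y + 1 := by
    rw [Nat.cast_sub hAB]
    have h1 := Nat.floor_le (show 0 ≤ X by linarith)
    have h2 := Nat.lt_floor_add_one (X - y)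
    linarith
  have h5 : (((⌊X⌋₊ - ⌊X - y⌋₊) / N1 + 1 : ℕ) : ℝ) * N1 ≤ 3 * y := by
    push_cast
    have h6 : (((⌊X⌋₊ - ⌊X - y⌋₊) / N1 : ℕ) : ℝ) * N1 ≤ ((⌊X⌋₊ - ⌊X - y⌋₊ : ℕ) : ℝ) := by
      exact_mod_cast Nat.div_mul_le_self _ _
    nlinarith
  calc (((⌊X⌋₊ - ⌊X - y⌋₊) / N1 + 1 : ℕ) : ℝ) * (C * N1 / Real.log z) =
        (((⌊X⌋₊ - ⌊X - y⌋₊) / N1 + 1 : ℕ) : ℝ) * N1 * (C / Real.log z) := by ring
    _ ≤ 3 * y * (C / Real.log z) := mul_le_mul_of_nonneg_right h5 (by positivity)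
    _ = 3 * C * y / Real.log z := by ring

end Pool.Agent.H538
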