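import Pool.Agent.H538.K2

set_option autoImplicit false

/-!
# Densities in short intervals from the terms of the smooth parts
-/

namespace Pool.Agent.H538

open Finset Filter Topology
open Pool.Agent.H305R2 (roughPart SM SMz mem_SMz SM_pos ZZ ZZ_nonneg tail_le VV VV_le sum_le_VV
  VV_tendsto ZZ_le_exp VV_nonneg)

/-- `q ≤ exp (c q a)` eventually -/
lemma le_exp_ev {c a : ℝ} (hc : 0 < c) (ha : 0 < a) : ∀ᶠ q : ℕ in atTop, (q : ℝ) + 1 ≤ Real.exp (c * (q * a)) := by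
  have hcq : Tendsto (fun q : ℕ => c * ((q : ℝ) * a)) atTop atTop :=
    (tendsto_natCast_atTop_atTop.atTop_mul_const ha).const_mul_atTop hc
  have g1 : Tendsto (fun x : ℝ => x ^ 1 * Real.exp (-x)) atTop (𝓝 0) :=
    Real.tendsto_pow_mul_exp_neg_atTop_nhds_zero 1
  have g3 := (g1.comp hcq).eventually (ge_mem_nhds (show (0 : ℝ) < c * a / 2 by positivity))
  filter_upwards [g3, eventually_ge_atTop 1] with q hq hq1
  have hq1' : (1 : ℝ) ≤ q := by exact_mod_cast hq1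
  simp only [Function.comp, pow_one] at hq
  rw [Real.exp_neg, ← div_eq_mul_inv, div_le_iff₀ (Real.exp_pos _)] at hq
  have h2 : (c * a) * (q : ℝ) ≤ (c * a) * (Real.exp (c * (q * a)) / 2) := by
    calc (c * a) * (q : ℝ) = c * (q * a) := by ring
      _ ≤ c * a / 2 * Real.exp (c * (q * a)) := hq
      _ = _ := by ring
  have h3 := le_of_mul_le_mul_left h2 (by positivity)
  linarith

/-- the cut for the smooth parts -/
noncomputable def cutS (θ L : ℝ) : ℕ := ⌊Real.exp (θ / 2 * L)⌋₊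

/-- **The density in a short interval from the terms.** -/
theorem dens_core {v ε : ℝ} (hv : 1 ≤ v) (hε : 0 < ε) : ∃ ε1 : ℝ, 0 < ε1 ∧ ε1 ≤ 1 / 8 ∧ ∀ θ a : ℝ, 0 < θ → θ ≤ 1 / 4 →
    0 < a → ∃ P0 : ℕ, 2 ≤ P0 ∧ ∀ q ≥ P0, ∀ X y : ℝ, Real.exp ((1 - θ / 2) * (q * a)) ≤ y → y ≤ 1 / 4 * X →
    ∀ (P : ℕ → ℕ → Prop) (g : ℕ → ℝ), (∀ s, 0 ≤ g s ∧ g s ≤ v) →
    (∀ s ∈ SMz q (cutS θ (q * a) : ℝ), |(MP q s X y P : ℝ) * (q * a) - y * g s * (s : ℝ)⁻¹| ≤
      3 * ε1 * y * (s : ℝ)⁻¹) →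
    |(NP q X y P : ℝ) * (q * a) - y * ∑ s ∈ SMz q (cutS θ (q * a) : ℝ), g s * (s : ℝ)⁻¹| ≤ ε * Real.log q * y := by
  set G := Real.exp Real.eulerMascheroniConstant with hG
  have hG1 : 1 ≤ G := by
    rw [hG]
    have h1 := Real.one_half_lt_eulerMascheroniConstant
    have := Real.add_one_le_exp Real.eulerMascheroniConstant
    linarith
  set ε1 : ℝ := min (1 / 8) (ε / (3 * (G + 1) + 1)) with hε1
  have hε10 : 0 < ε1 := by positivity
  have hε18 : ε1 ≤ 1 / 8 := min_le_left _ _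
  have hee : ε1 * (3 * (G + 1) + 1) ≤ ε := by
    have : ε1 ≤ ε / (3 * (G + 1) + 1) := min_le_right _ _
    rwa [le_div_iff₀ (by positivity)] at this
  refine ⟨ε1, hε10, hε18, fun θ a hθ hθ4 ha => ?_⟩
  have ht : Tendsto (fun q : ℕ => (q : ℝ) * a) atTop atTop :=
    tendsto_natCast_atTop_atTop.atTop_mul_const ha
  obtain ⟨P, hP⟩ := ((growth ha hθ hε10).and ((ht.eventually_ge_atTop 1).and
    (eventually_ge_atTop 2))).exists_forall_of_atTop
  refine ⟨max P 2, le_max_right _ _, fun q hq X y hy1 hy2 P g hg hterms => ?_⟩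
  obtain ⟨⟨k1, k2, k3, k4, k5, k6⟩, k7, k9⟩ := hP q ((le_max_left _ _).trans hq)
  obtain ⟨L, hLdef⟩ : ∃ L : ℝ, L = q * a := ⟨_, rfl⟩
  rw [← hLdef] at k2 k3 k4 k7 hy1 hterms ⊢
  have hL1 : 1 ≤ L := k7
  have hy0 : 0 < y := lt_of_lt_of_le (Real.exp_pos _) hy1
  have hX0 : 0 < X := by linarith
  have hyX : 0 ≤ X - y := by linarith
  set S : ℕ := cutS θ L with hS
  have hSle : (S : ℝ) ≤ Real.exp (θ / 2 * L) := Nat.floor_le (Real.exp_pos _).le
  have hexp1 : 1 ≤ Real.exp (θ / 2 * L) := Real.one_le_exp (by positivity)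
  have hS1 : 1 ≤ S := Nat.le_floor (by exact_mod_cast hexp1)
  have hS1r : (1 : ℝ) ≤ S := by exact_mod_cast hS1
  have hSge : Real.exp (θ / 2 * L) / 2 ≤ S := by
    have : Real.exp (θ / 2 * L) < S + 1 := Nat.lt_floor_add_one (Real.exp (θ / 2 * L))
    linarith
  set H := ∑ s ∈ SMz q (S : ℝ), (s : ℝ)⁻¹ with hH
  set Hg := ∑ s ∈ SMz q (S : ℝ), g s * (s : ℝ)⁻¹ with hHg
  set Sm := (∑ s ∈ SMz q (S : ℝ), (MP q s X y P : ℝ)) * L with hSm
  have hsum : |Sm - y * Hg| ≤ 3 * ε1 * y * H := by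
    rw [hSm, hH, hHg, Finset.sum_mul, Finset.mul_sum, Finset.mul_sum, ← Finset.sum_sub_distrib]
    refine (Finset.abs_sum_le_sum_abs _ _).trans (Finset.sum_le_sum fun s hs => ?_)
    have := hterms s hs
    rw [show y * (g s * (s : ℝ)⁻¹) = y * g s * (s : ℝ)⁻¹ by ring]
    exact this
  have hHV : H ≤ VV q := by
    apply sum_le_VV
    intro s hs
    exact ((mem_SMz (by positivity)).1 hs).1
  set E1 := (S : ℝ) ^ (-(1 / 2) : ℝ) * ZZ q with hE1
  have hE1le : E1 ≤ 2 * Real.exp (-(θ / 8 * L)) := by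
    have h1 : (S : ℝ) ^ (-(1 / 2) : ℝ) ≤ (Real.exp (θ / 2 * L) / 2) ^ (-(1 / 2) : ℝ) :=
      Real.rpow_le_rpow_of_nonpos (by positivity) hSge (by norm_num)
    have h2 : (Real.exp (θ / 2 * L) / 2) ^ (-(1 / 2) : ℝ) ≤ 2 * Real.exp (-(θ / 4 * L)) := by
      rw [Real.div_rpow (Real.exp_pos _).le (by norm_num), ← Real.exp_mul]
      have h3 : (1 : ℝ) / 2 ≤ (2 : ℝ) ^ (-(1 / 2) : ℝ) := by
        have : (2 : ℝ) ^ (-1 : ℝ) ≤ (2 : ℝ) ^ (-(1 / 2) : ℝ) :=
          Real.rpow_le_rpow_of_exponent_le (by norm_num) (by norm_num)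
        rw [Real.rpow_neg_one] at this
        linarith
      rw [div_le_iff₀ (by positivity)]
      have h4 : θ / 2 * L * -(1 / 2) = -(θ / 4 * L) := by ring
      rw [h4]
      have h5 := Real.exp_pos (-(θ / 4 * L))
      nlinarith
    calc E1 ≤ (2 * Real.exp (-(θ / 4 * L))) * Real.exp (θ / 8 * L) :=
          mul_le_mul (h1.trans h2) k2 (ZZ_nonneg q) (by positivity)
      _ = 2 * Real.exp (-(θ / 8 * L)) := by rw [mul_assoc, ← Real.exp_add]; congr 2; ring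
  have hE1L : E1 * L ≤ ε1 / 2 := by
    calc E1 * L ≤ 2 * Real.exp (-(θ / 8 * L)) * L := mul_le_mul_of_nonneg_right hE1le (by linarith)
      _ = 2 * L * Real.exp (-(θ / 8 * L)) := by ring
      _ ≤ _ := k3
  have hup := NP_upper hyX hy0.le (q := q) (S := S) (by omega) hS1 P
  have hlo := NP_lower hyX hX0.le q S P
  rw [← hE1] at hup
  have hL0 : 0 < L := by linarith
  have hSqL : (S : ℝ) * q * L ≤ ε1 / 2 * y := by
    have h1 : (S : ℝ) * q * L ≤ Real.exp (θ / 2 * L) * q * L := by gcongr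
    have h2 : Real.exp (θ / 2 * L) ≤ Real.exp (-(1 / 2 * L)) * y := by
      calc Real.exp (θ / 2 * L) ≤ Real.exp (-(1 / 2 * L) + (1 - θ / 2) * L) := by
            rw [Real.exp_le_exp]; nlinarith
        _ = Real.exp (-(1 / 2 * L)) * Real.exp ((1 - θ / 2) * L) := Real.exp_add _ _
        _ ≤ _ := mul_le_mul_of_nonneg_left hy1 (Real.exp_pos _).le
    calc (S : ℝ) * q * L ≤ Real.exp (θ / 2 * L) * q * L := h1
      _ = Real.exp (θ / 2 * L) * (q * L) := by ring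
      _ ≤ (Real.exp (-(1 / 2 * L)) * y) * (q * L) := by gcongr
      _ = (q * L * Real.exp (-(1 / 2 * L))) * y := by ring
      _ ≤ ε1 / 2 * y := mul_le_mul_of_nonneg_right k4 hy0.le
  have hup' := mul_le_mul_of_nonneg_right hup hL0.le
  have hlo' := mul_le_mul_of_nonneg_right hlo hL0.le
  rw [add_mul, ← hSm] at hup'
  rw [← hSm] at hlo'
  have h1 : y * E1 * L ≤ ε1 / 2 * y := by
    have := mul_le_mul_of_nonneg_left hE1L hy0.le
    linarith
  have h2 : ε1 * y ≤ ε1 * Real.log q * y := by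
    have := mul_le_mul_of_nonneg_left k1 hε10.le
    have := mul_le_mul_of_nonneg_right this hy0.le
    linarith
  have hES : (y * E1 + S * q) * L ≤ ε1 * Real.log q * y := by
    calc (y * E1 + S * q) * L = y * E1 * L + S * q * L := by ring
      _ ≤ ε1 / 2 * y + ε1 / 2 * y := add_le_add h1 hSqL
      _ = ε1 * y := by ring
      _ ≤ _ := h2
  have hH3 : 3 * ε1 * y * H ≤ 3 * ε1 * (G + 1) * (Real.log q * y) := by
    have h3 : H ≤ (G + 1) * Real.log q := by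
      refine (hHV.trans k6).trans ?_
      apply mul_le_mul_of_nonneg_right _ (by linarith)
      linarith
    calc 3 * ε1 * y * H ≤ 3 * ε1 * y * ((G + 1) * Real.log q) :=
          mul_le_mul_of_nonneg_left h3 (by positivity)
      _ = _ := by ring
  have hfin : 3 * ε1 * (G + 1) * (Real.log q * y) + ε1 * Real.log q * y ≤ ε * Real.log q * y := by
    have h3 : 0 ≤ Real.log q * y := mul_nonneg (by linarith) hy0.le
    have := mul_le_mul_of_nonneg_right hee h3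
    linarith
  obtain ⟨s1, s2⟩ := abs_le.1 hsum
  rw [abs_le]
  constructor
  · linarith
  · linarith

/-- the sum of the reciprocals of the smooth numbers below the cut -/
lemma cut_sum {ρ θ a : ℝ} (hρ : 0 < ρ) (hθ : 0 < θ) (ha : 0 < a) : ∀ᶠ q : ℕ in atTop,
    |∑ s ∈ SMz q (cutS θ (q * a) : ℝ), (s : ℝ)⁻¹ - Real.exp Real.eulerMascheroniConstant * Real.log q| ≤
      ρ * Real.log q := by
  set G := Real.exp Real.eulerMascheroniConstant with hG
  have hρ2 : 0 < ρ / 2 := by positivity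
  have ht : Tendsto (fun q : ℕ => (q : ℝ) * a) atTop atTop :=
    tendsto_natCast_atTop_atTop.atTop_mul_const ha
  filter_upwards [growth ha hθ hρ2, ht.eventually_ge_atTop 1] with q hq hL1
  obtain ⟨k1, k2, k3, k4, k5, k6⟩ := hq
  obtain ⟨L, hLdef⟩ : ∃ L : ℝ, L = q * a := ⟨_, rfl⟩
  rw [← hLdef] at k2 k3 k4 hL1 ⊢
  set S : ℕ := cutS θ L with hS
  have hexp1 : 1 ≤ Real.exp (θ / 2 * L) := Real.one_le_exp (by positivity)
  have hS1 : 1 ≤ S := Nat.le_floor (by exact_mod_cast hexp1)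
  have hS1r : (1 : ℝ) ≤ S := by exact_mod_cast hS1
  have hSge : Real.exp (θ / 2 * L) / 2 ≤ S := by
    have : Real.exp (θ / 2 * L) < S + 1 := Nat.lt_floor_add_one (Real.exp (θ / 2 * L))
    linarith
  have hHV : ∑ s ∈ SMz q (S : ℝ), (s : ℝ)⁻¹ ≤ VV q := by
    apply sum_le_VV
    intro s hs
    exact ((mem_SMz (by positivity)).1 hs).1
  have hHV2 := VV_le q (show (0 : ℝ) < S by linarith)
  set E1 := (S : ℝ) ^ (-(1 / 2) : ℝ) * ZZ q with hE1
  have hE1le : E1 ≤ 2 * Real.exp (-(θ / 8 * L)) := by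
    have h1 : (S : ℝ) ^ (-(1 / 2) : ℝ) ≤ (Real.exp (θ / 2 * L) / 2) ^ (-(1 / 2) : ℝ) :=
      Real.rpow_le_rpow_of_nonpos (by positivity) hSge (by norm_num)
    have h2 : (Real.exp (θ / 2 * L) / 2) ^ (-(1 / 2) : ℝ) ≤ 2 * Real.exp (-(θ / 4 * L)) := by
      rw [Real.div_rpow (Real.exp_pos _).le (by norm_num), ← Real.exp_mul]
      have h3 : (1 : ℝ) / 2 ≤ (2 : ℝ) ^ (-(1 / 2) : ℝ) := by
        have : (2 : ℝ) ^ (-1 : ℝ) ≤ (2 : ℝ) ^ (-(1 / 2) : ℝ) :=
          Real.rpow_le_rpow_of_exponent_le (by norm_num) (by norm_num)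
        rw [Real.rpow_neg_one] at this
        linarith
      rw [div_le_iff₀ (by positivity)]
      have h4 : θ / 2 * L * -(1 / 2) = -(θ / 4 * L) := by ring
      rw [h4]
      have h5 := Real.exp_pos (-(θ / 4 * L))
      nlinarith
    calc E1 ≤ (2 * Real.exp (-(θ / 4 * L))) * Real.exp (θ / 8 * L) :=
          mul_le_mul (h1.trans h2) k2 (ZZ_nonneg q) (by positivity)
      _ = 2 * Real.exp (-(θ / 8 * L)) := by rw [mul_assoc, ← Real.exp_add]; congr 2; ring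
  have hE1L : E1 * L ≤ ρ / 2 / 2 := by
    calc E1 * L ≤ 2 * Real.exp (-(θ / 8 * L)) * L := mul_le_mul_of_nonneg_right hE1le (by linarith)
      _ = 2 * L * Real.exp (-(θ / 8 * L)) := by ring
      _ ≤ _ := k3
  have hE10 : 0 ≤ E1 := mul_nonneg (by positivity) (ZZ_nonneg q)
  have h1 : E1 * 1 ≤ E1 * L := mul_le_mul_of_nonneg_left hL1 hE10
  have h2 : ρ / 2 * 1 ≤ ρ / 2 * Real.log q := mul_le_mul_of_nonneg_left k1 hρ2.le
  rw [abs_le]
  constructor
  · linarith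
  · linarith

end Pool.Agent.H538
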