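import Pool.Agent.H538.K3

set_option autoImplicit false

/-!
# The density of the integers with prime rough part, and an upper bound for sifted integers
-/

namespace Pool.Agent.H538

open Finset Filter Topology
open Pool.Agent.R529.BU (om WW om_ge om_le WW_cont om_one_two)
open Pool.Agent.H305R2 (roughPart SM SMz mem_SMz SM_pos ZZ ZZ_nonneg tail_le VV VV_le sum_le_VV
  VV_tendsto ZZ_le_exp VV_nonneg)

lemma one_prime {ε1 : ℝ} (hε1 : 0 < ε1) : ∃ θ κ : ℝ, 0 < θ ∧ θ ≤ 1 / 4 ∧ 0 < κ ∧ κ ≤ 1 / 4 ∧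
    ∀ D : ℝ, 0 ≤ D → ∃ L0 : ℝ, 1 ≤ L0 ∧ ∀ L : ℝ, L0 ≤ L → ∀ X y : ℝ, Real.exp ((1 - θ) * L) ≤ y →
      y ≤ κ * X → X ≤ Real.exp (L + D) → |((PR X y).card : ℝ) * L - y| ≤ 3 * ε1 * y := by
  obtain ⟨θ, κ, hθ, hθ4, hκ, hκ4, h⟩ := one_term (v := 3 / 2) (by norm_num) hε1
  refine ⟨θ, κ, hθ, hθ4, hκ, hκ4, fun D hD => ?_⟩
  obtain ⟨L0, hL0, h1⟩ := h D hD
  refine ⟨max L0 (3 * D), hL0.trans (le_max_left _ _), fun L hL X y hy1 hy2 hX => ?_⟩
  have h2 := h1 L ((le_max_left _ _).trans hL) X y hy1 hy2 hX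
  have hL1 : 1 ≤ L := hL0.trans ((le_max_left _ _).trans hL)
  have hL3 : 3 * D ≤ L := (le_max_right _ _).trans hL
  have hy0 : 0 < y := lt_of_lt_of_le (Real.exp_pos _) hy1
  have hX0 : 0 < X := by
    by_contra h
    push Not at h
    have : κ * X ≤ 0 := mul_nonpos_of_nonneg_of_nonpos hκ.le h
    linarith
  have hyX : y ≤ 1 / 4 * X := hy2.trans (mul_le_mul_of_nonneg_right hκ4 hX0.le)
  have e : DR X y (Real.exp (L / (3 / 2))) = PR X y := by
    refine DR_prime ?_ ?_ hy0.le ?_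
    · have h3 : Real.exp (L / (3 / 2)) ≤ y := by
        refine le_trans ?_ hy1
        rw [Real.exp_le_exp]
        nlinarith
      linarith
    · exact Real.one_le_exp (by positivity)
    · refine hX.trans ?_
      rw [← Real.exp_nat_mul, Real.exp_le_exp]
      push_cast
      linarith
  rw [e] at h2
  have hW : WW (3 / 2) = 1 := om_one_two (3 / 2) (by norm_num) (by norm_num)
  rw [hW, mul_one] at h2
  exact h2

/-- the rough part is a prime exceeding `z` -/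
def P1 (z : ℝ) (_s m : ℕ) : Prop := m.Prime ∧ z < m

lemma MP_prime {q s : ℕ} {X y z : ℝ} (hX : 0 ≤ X / s) (hq : (q : ℝ) ≤ X / s - y / s) (hz : z ≤ X / s - y / s) :
    MP q s X y (P1 z) = (PR (X / s) (y / s)).card := by
  classical
  unfold MP PR
  congr 1
  refine Finset.filter_congr fun m hm => ?_
  rw [mem_Ioc] at hm
  have h1 : X / s - y / s < m := Nat.lt_of_floor_lt hm.1
  constructor
  · rintro ⟨_, h⟩
    exact h.1
  · intro h
    refine ⟨fun l hl hd => ?_, h, lt_of_le_of_lt hz h1⟩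
    rw [(Nat.prime_dvd_prime_iff_eq hl h).1 hd]
    exact_mod_cast lt_of_le_of_lt hq h1

theorem dens_prime {ε : ℝ} (hε : 0 < ε) : ∃ θ κ : ℝ, 0 < θ ∧ θ ≤ 1 / 4 ∧ 0 < κ ∧ κ ≤ 1 / 4 ∧
    ∀ a : ℝ, 0 < a → ∀ D : ℝ, 0 ≤ D → ∃ P : ℕ, 2 ≤ P ∧ ∀ q ≥ P, ∀ X y z : ℝ,
      Real.exp ((1 - θ / 2) * (q * a)) ≤ y → y ≤ κ * X → X ≤ Real.exp (q * a + D) →
      z ≤ Real.exp (1 / 2 * (q * a)) →
      |(NP q X y (P1 z) : ℝ) * (q * a) - y * (Real.exp Real.eulerMascheroniConstant * Real.log q)| ≤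
        ε * Real.log q * y := by
  obtain ⟨ε1, hε1, hε18, hcore⟩ := dens_core (v := 1) le_rfl (half_pos hε)
  obtain ⟨θ, κ, hθ, hθ4, hκ, hκ4, hone⟩ := one_prime hε1
  refine ⟨θ, κ, hθ, hθ4, hκ, hκ4, fun a ha D hD => ?_⟩
  obtain ⟨P0, hP02, hP0⟩ := hcore θ a hθ hθ4 ha
  obtain ⟨L0, hL01, hL0⟩ := hone D hD
  have ht : Tendsto (fun q : ℕ => (q : ℝ) * a) atTop atTop :=
    tendsto_natCast_atTop_atTop.atTop_mul_const ha
  obtain ⟨P1', hP1'⟩ := ((cut_sum (half_pos hε) hθ ha).and ((le_exp_ev (c := 1 / 2) (by norm_num) ha).and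
    (ht.eventually_ge_atTop L0))).exists_forall_of_atTop
  refine ⟨max P0 P1', hP02.trans (le_max_left _ _), fun q hq X y z hy1 hy2 hX hz => ?_⟩
  obtain ⟨g1, g2, g3⟩ := hP1' q ((le_max_right _ _).trans hq)
  have hqP0 : P0 ≤ q := (le_max_left _ _).trans hq
  have hq2 : 2 ≤ q := hP02.trans hqP0
  have hy0 : 0 < y := lt_of_lt_of_le (Real.exp_pos _) hy1
  have hX0 : 0 < X := by
    by_contra h
    push Not at h
    have : κ * X ≤ 0 := mul_nonpos_of_nonneg_of_nonpos hκ.le h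
    linarith
  have hyX : y ≤ 1 / 4 * X := hy2.trans (mul_le_mul_of_nonneg_right hκ4 hX0.le)
  have hL1 : 1 ≤ (q : ℝ) * a := hL01.trans g3
  have h1 := hP0 q hqP0 X y hy1 hyX (P1 z) (fun _ => 1) (fun _ => ⟨zero_le_one, le_rfl⟩) (by
    intro s hs
    obtain ⟨k1, k2⟩ := (mem_SMz (by positivity)).1 hs
    have hs0 : 0 < s := SM_pos k1
    have hs1 : (1 : ℝ) ≤ s := by exact_mod_cast hs0
    have hs0' : (0 : ℝ) < s := by linarith
    have hcut : (cutS θ (q * a) : ℝ) ≤ Real.exp (θ / 2 * (q * a)) := Nat.floor_le (Real.exp_pos _).le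
    have hys : Real.exp ((1 - θ) * (q * a)) ≤ y / s := by
      rw [le_div_iff₀ hs0']
      refine le_trans ?_ hy1
      calc Real.exp ((1 - θ) * (q * a)) * s ≤ Real.exp ((1 - θ) * (q * a)) * Real.exp (θ / 2 * (q * a)) :=
            mul_le_mul_of_nonneg_left (k2.trans hcut) (Real.exp_pos _).le
        _ = Real.exp ((1 - θ / 2) * (q * a)) := by rw [← Real.exp_add]; congr 1; ring
    have hyXs : y / s ≤ κ * (X / s) := by
      rw [← mul_div_assoc]
      exact div_le_div_of_nonneg_right hy2 hs0'.le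
    have hyXs' : y / s ≤ 1 / 4 * (X / s) := by
      rw [← mul_div_assoc]
      exact div_le_div_of_nonneg_right hyX hs0'.le
    have hhalf : Real.exp (1 / 2 * (q * a)) ≤ y / s := by
      refine le_trans ?_ hys
      rw [Real.exp_le_exp]
      nlinarith
    have h3 := hL0 (q * a) g3 (X / s) (y / s) hys hyXs ((div_le_self hX0.le hs1).trans hX)
    rw [MP_prime (by positivity) (by linarith) (by linarith)]
    have e1 : y * (1 : ℝ) * (s : ℝ)⁻¹ = y / s := by rw [mul_one]; rfl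
    have e2 : 3 * ε1 * y * (s : ℝ)⁻¹ = 3 * ε1 * (y / s) := by rw [mul_assoc]; rfl
    rw [e1, e2]
    exact h3)
  simp only [one_mul] at h1
  obtain ⟨a1, a2⟩ := abs_le.1 h1
  obtain ⟨b1, b2⟩ := abs_le.1 g1
  have c1 := mul_le_mul_of_nonneg_left b1 hy0.le
  have c2 := mul_le_mul_of_nonneg_left b2 hy0.le
  rw [abs_le]
  constructor
  · linarith
  · linarith

/-- upper bound for the integers of a short interval without prime factors in `(q, exp (η q a)]` -/
theorem mid_up {θ η : ℝ} (hθ : 0 < θ) (hθ4 : θ ≤ 1 / 4) (hη : 0 < η) (hη1 : η ≤ 1 / 16) : ∃ C : ℝ, 1 ≤ C ∧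
    ∀ a : ℝ, 0 < a → ∃ P : ℕ, 2 ≤ P ∧ ∀ q ≥ P, ∀ X y : ℝ,
      Real.exp ((1 - θ / 2) * (q * a)) ≤ y → y ≤ 1 / 4 * X →
      (NP q X y (Big (Real.exp (η * (q * a)))) : ℝ) * (q * a) ≤ C * Real.log q * y := by
  obtain ⟨C0, hC0, hrough⟩ := rough_up
  set B := C0 / η with hB
  have hB0 : 0 < B := by positivity
  have hB1 : 1 ≤ B := by
    rw [hB, le_div_iff₀ hη]
    linarith
  obtain ⟨ε1, hε1, hε18, hcore⟩ := dens_core (v := B) hB1 one_pos
  set G := Real.exp Real.eulerMascheroniConstant with hG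
  have hG0 : 0 < G := Real.exp_pos _
  refine ⟨B * (G + 1) + 1, by
    have : 0 ≤ B * (G + 1) := by positivity
    linarith, fun a ha => ?_⟩
  obtain ⟨P0, hP02, hP0⟩ := hcore θ a hθ hθ4 ha
  have ht : Tendsto (fun q : ℕ => (q : ℝ) * a) atTop atTop :=
    tendsto_natCast_atTop_atTop.atTop_mul_const ha
  obtain ⟨P1', hP1'⟩ := ((cut_sum one_pos hθ ha).and ((le_exp_ev hη ha).and
    (ht.eventually_ge_atTop (1 / η)))).exists_forall_of_atTop
  refine ⟨max P0 P1', hP02.trans (le_max_left _ _), fun q hq X y hy1 hy2 => ?_⟩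
  obtain ⟨g1, g2, g3⟩ := hP1' q ((le_max_right _ _).trans hq)
  have hqP0 : P0 ≤ q := (le_max_left _ _).trans hq
  have hq2 : 2 ≤ q := hP02.trans hqP0
  have hy0 : 0 < y := lt_of_lt_of_le (Real.exp_pos _) hy1
  have hX0 : 0 < X := by linarith
  have hL0 : 0 < (q : ℝ) * a := by
    have : (0 : ℝ) < q := by exact_mod_cast (by omega : 0 < q)
    positivity
  set z := Real.exp (η * (q * a)) with hz
  have hL1 : 1 ≤ η * (q * a) := by
    rw [div_le_iff₀ hη] at g3
    linarith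
  have hz2 : 2 ≤ z := by
    have := Real.add_one_le_exp (η * (q * a))
    rw [← hz] at this
    linarith
  have hqz : (q : ℝ) ≤ z := by linarith
  -- the terms
  have hterm : ∀ s ∈ SMz q (cutS θ (q * a) : ℝ), (MP q s X y (Big z) : ℝ) * (q * a) ≤ B * (y * (s : ℝ)⁻¹) := by
    intro s hs
    obtain ⟨k1, k2⟩ := (mem_SMz (by positivity)).1 hs
    have hs0 : 0 < s := SM_pos k1
    have hs1 : (1 : ℝ) ≤ s := by exact_mod_cast hs0
    have hs0' : (0 : ℝ) < s := by linarith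
    have hcut : (cutS θ (q * a) : ℝ) ≤ Real.exp (θ / 2 * (q * a)) := Nat.floor_le (Real.exp_pos _).le
    have hys : Real.exp ((1 - θ) * (q * a)) ≤ y / s := by
      rw [le_div_iff₀ hs0']
      refine le_trans ?_ hy1
      calc Real.exp ((1 - θ) * (q * a)) * s ≤ Real.exp ((1 - θ) * (q * a)) * Real.exp (θ / 2 * (q * a)) :=
            mul_le_mul_of_nonneg_left (k2.trans hcut) (Real.exp_pos _).le
        _ = Real.exp ((1 - θ / 2) * (q * a)) := by rw [← Real.exp_add]; congr 1; ring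
    rw [MP_big hqz]
    have h3 := hrough z hz2 (X / s) (y / s) (by
        rw [← sub_div]
        exact div_nonneg (by linarith) hs0'.le) (by
        refine le_trans ?_ hys
        rw [hz, ← Real.exp_nat_mul, Real.exp_le_exp]
        push_cast
        nlinarith)
    have hlz : Real.log z = η * (q * a) := by rw [hz, Real.log_exp]
    rw [hlz] at h3
    calc ((DR (X / s) (y / s) z).card : ℝ) * (q * a) ≤ C0 * (y / s) / (η * (q * a)) * (q * a) :=
          mul_le_mul_of_nonneg_right h3 hL0.le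
      _ = B * (y * (s : ℝ)⁻¹) := by rw [hB]; field_simp
  set g : ℕ → ℝ := fun s => if s ∈ SMz q (cutS θ (q * a) : ℝ) then
    (MP q s X y (Big z) : ℝ) * (q * a) * s / y else 0 with hg
  have hgs : ∀ s, 0 ≤ g s ∧ g s ≤ B := by
    intro s
    simp only [hg]
    by_cases hs : s ∈ SMz q (cutS θ (q * a) : ℝ)
    · rw [if_pos hs]
      have hs0 : (0 : ℝ) < s := by exact_mod_cast SM_pos ((mem_SMz (by positivity)).1 hs).1
      refine ⟨by positivity, ?_⟩
      rw [div_le_iff₀ hy0]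
      have h3 := mul_le_mul_of_nonneg_right (hterm s hs) hs0.le
      calc _ ≤ B * (y * (s : ℝ)⁻¹) * s := h3
        _ = B * y := by field_simp
    · rw [if_neg hs]
      exact ⟨le_rfl, hB0.le⟩
  have h1 := hP0 q hqP0 X y hy1 hy2 (Big z) g hgs (by
    intro s hs
    have hs0 : (0 : ℝ) < s := by exact_mod_cast SM_pos ((mem_SMz (by positivity)).1 hs).1
    have e : (MP q s X y (Big z) : ℝ) * (q * a) - y * g s * (s : ℝ)⁻¹ = 0 := by
      simp only [hg]
      rw [if_pos hs]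
      field_simp
      ring
    rw [e, abs_zero]
    positivity)
  have h2 : ∑ s ∈ SMz q (cutS θ (q * a) : ℝ), g s * (s : ℝ)⁻¹ ≤ B * ((G + 1) * Real.log q) := by
    calc ∑ s ∈ SMz q (cutS θ (q * a) : ℝ), g s * (s : ℝ)⁻¹ ≤
          ∑ s ∈ SMz q (cutS θ (q * a) : ℝ), B * (s : ℝ)⁻¹ :=
          Finset.sum_le_sum fun s _ => mul_le_mul_of_nonneg_right (hgs s).2 (by positivity)
      _ = B * ∑ s ∈ SMz q (cutS θ (q * a) : ℝ), (s : ℝ)⁻¹ := by rw [Finset.mul_sum]
      _ ≤ B * ((G + 1) * Real.log q) := by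
          apply mul_le_mul_of_nonneg_left _ hB0.le
          have := (abs_le.1 g1).2
          linarith
  have h3 := (abs_le.1 h1).2
  have h4 := mul_le_mul_of_nonneg_left h2 hy0.le
  linarith

end Pool.Agent.H538
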