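import Pool.Agent.H538.K1
import Pool.Agent.H538.K4

set_option autoImplicit false

/-!
# Integers with `k` prime factors above `q`: combinatorial decomposition
-/

namespace Pool.Agent.H538

open Finset Filter Topology
open Pool.Agent.H305R2 (roughPart SM SMz mem_SMz SM_pos ZZ ZZ_nonneg tail_le VV VV_le sum_le_VV
  VV_tendsto ZZ_le_exp VV_nonneg)

/-- the number of prime factors exceeding `q`, with multiplicity -/
def Om (q N : ℕ) : ℕ := (N.primeFactorsList.filter (fun r => q < r)).length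

lemma Om_mul {q a b : ℕ} (ha : a ≠ 0) (hb : b ≠ 0) : Om q (a * b) = Om q a + Om q b := by
  unfold Om
  have h1 := (Nat.perm_primeFactorsList_mul ha hb).filter (fun r => decide (q < r))
  rw [h1.length_eq, List.filter_append, List.length_append]

lemma Om_prime {q l : ℕ} (hl : l.Prime) (hq : q < l) : Om q l = 1 := by
  unfold Om
  rw [Nat.primeFactorsList_prime hl]
  simp [hq]

lemma Om_one (q : ℕ) : Om q 1 = 0 := by
  unfold Om; simp

lemma Om_prod {q : ℕ} : ∀ T : Finset ℕ, (∀ l ∈ T, l.Prime ∧ q < l) → Om q (∏ l ∈ T, l) = T.card := by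
  classical
  intro T
  induction T using Finset.induction_on with
  | empty => intro _; simp [Om_one]
  | insert a T ha ih =>
    intro h
    have h1 := h a (Finset.mem_insert_self _ _)
    have h2 : ∀ l ∈ T, l.Prime ∧ q < l := fun l hl => h l (Finset.mem_insert_of_mem hl)
    rw [Finset.prod_insert ha, Finset.card_insert_of_notMem ha, Om_mul h1.1.ne_zero
      (Finset.prod_ne_zero_iff.2 fun l hl => (h2 l hl).1.ne_zero), Om_prime h1.1 h1.2, ih h2]
    ring

lemma rough_list (q N : ℕ) :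
    (N.primeFactorsList.filter (fun r => q < r)).Perm (roughPart q N).primeFactorsList := by
  refine Nat.primeFactorsList_unique rfl fun p hp => ?_
  exact Nat.prime_of_mem_primeFactorsList (List.mem_of_mem_filter hp)

lemma Om_eq (q N : ℕ) : Om q N = (roughPart q N).primeFactorsList.length := by
  unfold Om
  exact (rough_list q N).length_eq

lemma Om_zero {q N : ℕ} (h : Om q N = 0) : roughPart q N = 1 := by
  rw [Om_eq, List.length_eq_zero_iff, Nat.primeFactorsList_eq_nil] at h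
  rcases h with h | h
  · exact absurd h (roughPart_ne q N)
  · exact h

lemma Om_one_iff {q N : ℕ} : Om q N = 1 ↔ (roughPart q N).Prime := by
  rw [Om_eq]
  constructor
  · intro h
    obtain ⟨l, hl⟩ := List.length_eq_one_iff.1 h
    have h1 : l ∈ (roughPart q N).primeFactorsList := by rw [hl]; simp
    have h2 := Nat.prod_primeFactorsList (roughPart_ne q N)
    rw [hl, List.prod_singleton] at h2
    rw [← h2]
    exact Nat.prime_of_mem_primeFactorsList h1
  · intro h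
    rw [Nat.primeFactorsList_prime h]
    rfl

/-- a prime factor `l > q` contributes -/
lemma Om_pos {q N l : ℕ} (hN : N ≠ 0) (hl : l.Prime) (hq : q < l) (hd : l ∣ N) : 1 ≤ Om q N := by
  obtain ⟨m, rfl⟩ := hd
  rw [Om_mul hl.ne_zero (by rintro rfl; simp at hN), Om_prime hl hq]
  omega

lemma dvd_rough {q N l : ℕ} (hN : N ≠ 0) (hl : l.Prime) (hq : q < l) (hd : l ∣ N) : l ∣ roughPart q N := by
  have h1 : l ∈ N.primeFactorsList.filter (fun r => q < r) := by
    rw [List.mem_filter]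
    exact ⟨(Nat.mem_primeFactorsList hN).2 ⟨hl, hd⟩, by simpa using hq⟩
  unfold roughPart
  exact List.dvd_prod h1

/-- counting the multiples of `t` with a condition on the quotient -/
lemma count_mult {X y : ℝ} (hy : 0 ≤ X - y) (hX : 0 ≤ X) {t : ℕ} (ht : 0 < t) (Q : ℕ → Prop) [DecidablePred Q] :
    ((Ioc ⌊X - y⌋₊ ⌊X⌋₊).filter (fun N => t ∣ N ∧ Q (N / t))).card =
      ((Ioc ⌊X / t - y / t⌋₊ ⌊X / t⌋₊).filter Q).card := by
  have ht0 : (0 : ℝ) < t := by exact_mod_cast ht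
  have hmem : ∀ M : ℕ, t * M ∈ Ioc ⌊X - y⌋₊ ⌊X⌋₊ ↔ M ∈ Ioc ⌊X / t - y / t⌋₊ ⌊X / t⌋₊ := by
    intro M
    rw [mem_Ioc, mem_Ioc, Nat.floor_lt hy, Nat.le_floor_iff hX, ← sub_div,
      Nat.floor_lt (div_nonneg hy ht0.le), Nat.le_floor_iff (div_nonneg hX ht0.le), div_lt_iff₀ ht0,
      le_div_iff₀ ht0]
    push_cast
    rw [mul_comm (M : ℝ)]
  refine (Finset.card_bij (fun M _ => t * M) ?_ ?_ ?_).symm
  · intro M hM
    rw [mem_filter] at hM ⊢
    refine ⟨(hmem M).2 hM.1, dvd_mul_right _ _, ?_⟩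
    rw [Nat.mul_div_cancel_left _ ht]
    exact hM.2
  · intro M _ M' _ h
    exact Nat.eq_of_mul_eq_mul_left ht h
  · intro N hN
    rw [mem_filter] at hN
    obtain ⟨h1, ⟨M, rfl⟩, h3⟩ := hN
    rw [Nat.mul_div_cancel_left _ ht] at h3
    exact ⟨M, mem_filter.2 ⟨(hmem M).1 h1, h3⟩, rfl⟩

open Classical in
/-- the integers of the interval with exactly `k` prime factors exceeding `q` -/
noncomputable def KC (k q : ℕ) (X y : ℝ) : ℕ := ((Ioc ⌊X - y⌋₊ ⌊X⌋₊).filter (fun N => Om q N = k)).card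

/-- the product of a set -/
def tp (T : Finset ℕ) : ℕ := ∏ l ∈ T, l

lemma tp_pos {q : ℕ} {z : ℝ} (hz : 0 ≤ z) {T : Finset ℕ} (hT : T ⊆ PZ q z) : 0 < tp T :=
  Finset.prod_pos fun l hl => ((mem_PZ hz).1 (hT hl)).1.pos

lemma tp_le {q : ℕ} {z : ℝ} (hz : 1 ≤ z) {T : Finset ℕ} (hT : T ⊆ PZ q z) {i : ℕ} (hi : T.card ≤ i) :
    (tp T : ℝ) ≤ z ^ i := by
  unfold tp
  push_cast
  calc ∏ l ∈ T, (l : ℝ) ≤ ∏ l ∈ T, z :=
        Finset.prod_le_prod (fun _ _ => Nat.cast_nonneg _) fun l hl =>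
          ((mem_PZ (by linarith)).1 (hT hl)).2.2
    _ = z ^ T.card := by rw [Finset.prod_const]
    _ ≤ z ^ i := pow_le_pow_right₀ hz hi

/-- the prime divisors in `(q, z]` -/
noncomputable def TN (q : ℕ) (z : ℝ) (N : ℕ) : Finset ℕ := (PZ q z).filter (fun l => l ∣ N)

lemma TN_sub (q : ℕ) (z : ℝ) (N : ℕ) : TN q z N ⊆ PZ q z := filter_subset _ _

lemma tp_TN_dvd {q : ℕ} {z : ℝ} (hz : 0 ≤ z) (N : ℕ) : tp (TN q z N) ∣ N := by
  unfold tp TN
  refine Finset.prod_primes_dvd N (fun l hl => ?_) fun l hl => ?_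
  · exact ((mem_PZ hz).1 (mem_filter.1 hl).1).1.prime
  · exact (mem_filter.1 hl).2

/-- without square divisors the quotient has no prime factor in `(q, z]` -/
lemma quot_NoMid {q : ℕ} {z : ℝ} (hz : 0 ≤ z) {N : ℕ} (hN : N ≠ 0)
    (hsq : ∀ l ∈ PZ q z, ¬ l ^ 2 ∣ N) : NoMid q z (N / tp (TN q z N)) := by
  intro l hl hq hlz hd
  obtain ⟨M, hM⟩ := tp_TN_dvd (q := q) hz N
  have ht0 : 0 < tp (TN q z N) := tp_pos hz (TN_sub q z N)
  have hdiv : N / tp (TN q z N) = M := Nat.div_eq_of_eq_mul_right ht0 hM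
  rw [hdiv] at hd
  have hlN : l ∣ N := by rw [hM]; exact dvd_mul_of_dvd_right hd _
  have hlP : l ∈ PZ q z := (mem_PZ hz).2 ⟨hl, hq, hlz⟩
  have hlT : l ∈ TN q z N := mem_filter.2 ⟨hlP, hlN⟩
  have h1 : l ∣ tp (TN q z N) := Finset.dvd_prod_of_mem (fun l => l) hlT
  apply hsq l hlP
  rw [hM, pow_two]
  exact mul_dvd_mul h1 hd

lemma Om_split {q : ℕ} {z : ℝ} (hz : 0 ≤ z) {N : ℕ} (hN : N ≠ 0) :
    Om q N = (TN q z N).card + Om q (N / tp (TN q z N)) := by
  obtain ⟨M, hM⟩ := tp_TN_dvd (q := q) hz N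
  have ht0 : 0 < tp (TN q z N) := tp_pos hz (TN_sub q z N)
  have hdiv : N / tp (TN q z N) = M := Nat.div_eq_of_eq_mul_right ht0 hM
  have hM0 : M ≠ 0 := by
    rintro rfl
    rw [mul_zero] at hM
    exact hN hM
  rw [hdiv]
  conv_lhs => rw [hM]
  rw [Om_mul ht0.ne' hM0]
  congr 1
  exact Om_prod _ fun l hl => by
    have := (mem_PZ hz).1 (TN_sub q z N hl)
    exact ⟨this.1, this.2.1⟩

/-- the condition on the smooth and rough parts -/
def QQ (P : ℕ → ℕ → Prop) (q M : ℕ) : Prop := P (M / roughPart q M) (roughPart q M)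

open Classical in
lemma count_NP {X y : ℝ} (hy : 0 ≤ X - y) (hX : 0 ≤ X) {t : ℕ} (ht : 0 < t) (P : ℕ → ℕ → Prop) (q : ℕ) :
    ((Ioc ⌊X - y⌋₊ ⌊X⌋₊).filter (fun N => t ∣ N ∧ QQ P q (N / t))).card = NP q (X / t) (y / t) P := by
  rw [count_mult hy hX ht (QQ P q)]
  rfl

/-- the condition on the quotient by `i` primes -/
def FQ (k q i : ℕ) (z : ℝ) (M : ℕ) : Prop := (i + 1 = k → QQ (P1 z) q M) ∧ (i + 1 ≠ k → QQ (Big z) q M)

open Classical in
/-- the condition on the quotient -/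
noncomputable def FF (k q i : ℕ) (X y z : ℝ) : ℕ :=
  if i + 1 = k then NP q X y (P1 z) else NP q X y (Big z)

/-- the upper bound -/
lemma KC_up {k q : ℕ} {X y z : ℝ} (hy : 0 ≤ X - y) (hy0 : 0 ≤ y) (hz : 1 ≤ z) (hq : 1 ≤ q) {S : ℕ} (hS : 1 ≤ S)
    (hSz : (S + 1) * z ^ k ≤ X - y) (hk : 1 ≤ k) :
    (KC k q X y : ℝ) ≤ ∑ i ∈ range k, ∑ T ∈ (PZ q z).powersetCard i, (FF k q i (X / tp T) (y / tp T) z : ℝ) +
      (∑ l ∈ PZ q z, (y / (l : ℝ) ^ 2 + 1)) + (y * ((S : ℝ) ^ (-(1 / 2) : ℝ) * ZZ q) + S * q) := by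
  classical
  have hz0 : 0 ≤ z := by linarith
  have hX : 0 ≤ X := by linarith
  have hsub : (Ioc ⌊X - y⌋₊ ⌊X⌋₊).filter (fun N => Om q N = k) ⊆
      ((range k).biUnion (fun i => ((PZ q z).powersetCard i).biUnion (fun T =>
        (Ioc ⌊X - y⌋₊ ⌊X⌋₊).filter (fun N => tp T ∣ N ∧ FQ k q i z (N / tp T))))) ∪
      ((PZ q z).biUnion (fun l => (Ioc ⌊X - y⌋₊ ⌊X⌋₊).filter (fun N => l ^ 2 ∣ N)) ∪
      (Ioc ⌊X - y⌋₊ ⌊X⌋₊).filter (fun n => S < n / roughPart q n)) := by
    intro N hN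
    obtain ⟨h1, h2⟩ := mem_filter.1 hN
    have hN0 : N ≠ 0 := by
      rintro rfl
      simp at h1
    by_cases hsq : ∃ l ∈ PZ q z, l ^ 2 ∣ N
    · obtain ⟨l, hl1, hl2⟩ := hsq
      exact mem_union_right _ (mem_union_left _ (mem_biUnion.2 ⟨l, hl1, mem_filter.2 ⟨h1, hl2⟩⟩))
    · push Not at hsq
      have hmid := quot_NoMid hz0 hN0 hsq
      have hsplit := Om_split (q := q) hz0 hN0
      rw [h2] at hsplit
      have ht0 : 0 < tp (TN q z N) := tp_pos hz0 (TN_sub q z N)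
      have hM0 : N / tp (TN q z N) ≠ 0 := by
        have := Nat.div_mul_cancel (tp_TN_dvd (q := q) hz0 N)
        intro h
        rw [h] at this
        omega
      rcases Nat.lt_or_ge (TN q z N).card k with hlt | hge
      · refine mem_union_left _ (mem_biUnion.2 ⟨(TN q z N).card, mem_range.2 hlt, mem_biUnion.2 ⟨TN q z N,
          mem_powersetCard.2 ⟨TN_sub q z N, rfl⟩, mem_filter.2 ⟨h1, tp_TN_dvd hz0 N, ?_⟩⟩⟩)
        refine ⟨fun hi => ?_, fun hi => ?_⟩
        · have h3 : Om q (N / tp (TN q z N)) = 1 := by omega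
          have h4 := Om_one_iff.1 h3
          refine ⟨h4, ?_⟩
          obtain ⟨h5, h6⟩ := roughPart_dvd_prime h4 (dvd_refl _)
          by_contra hc
          push Not at hc
          exact hmid _ h4 h5 hc h6
        · exact (noMid_iff hM0 z).1 hmid
      · refine mem_union_right _ (mem_union_right _ (mem_filter.2 ⟨h1, ?_⟩))
        have h3 : (TN q z N).card = k := by omega
        have h4 : Om q (N / tp (TN q z N)) = 0 := by omega
        -- the smooth part is `N / t`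
        set M := N / tp (TN q z N) with hM
        have hNM : N = M * tp (TN q z N) := (Nat.div_mul_cancel (tp_TN_dvd (q := q) hz0 N)).symm
        have hMs : M ∈ SM q := by
          obtain ⟨s, hs, he⟩ := split_smooth q hM0
          rw [Om_zero h4, mul_one] at he
          rw [he]; exact hs
        have hrt : Rgh q (tp (TN q z N)) := by
          intro l hl hd
          unfold tp at hd
          obtain ⟨m, hm1, hm2⟩ := (Prime.dvd_finsetProd_iff hl.prime _).1 hd
          have h5 := (mem_PZ hz0).1 (TN_sub q z N hm1)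
          rw [(Nat.prime_dvd_prime_iff_eq hl h5.1).1 hm2]
          exact h5.2.1
        have h5 : roughPart q N = tp (TN q z N) := by
          conv_lhs => rw [hNM]
          exact roughPart_mul' hMs ht0.ne' hrt
        rw [h5]
        have h6 : (tp (TN q z N) : ℝ) ≤ z ^ k := tp_le hz (TN_sub q z N) h3.le
        have h7 : X - y < N := Nat.lt_of_floor_lt (mem_Ioc.1 h1).1
        have h8 : ((S : ℝ) + 1) * tp (TN q z N) < M * tp (TN q z N) := by
          have h9 : ((S : ℝ) + 1) * tp (TN q z N) ≤ (S + 1) * z ^ k :=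
            mul_le_mul_of_nonneg_left h6 (by positivity)
          have h10 : (N : ℝ) = M * tp (TN q z N) := by exact_mod_cast hNM
          linarith
        have h9 : ((S : ℝ) + 1) < M := lt_of_mul_lt_mul_right h8 (Nat.cast_nonneg _)
        have h10 : S + 1 < M := by exact_mod_cast h9
        omega
  have h1 := (card_le_card hsub).trans (card_union_le _ _)
  have h2 : (((PZ q z).biUnion (fun l => (Ioc ⌊X - y⌋₊ ⌊X⌋₊).filter (fun N => l ^ 2 ∣ N))).card : ℝ) ≤
      ∑ l ∈ PZ q z, (y / (l : ℝ) ^ 2 + 1) := by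
    have h3 : (((PZ q z).biUnion (fun l => (Ioc ⌊X - y⌋₊ ⌊X⌋₊).filter (fun N => l ^ 2 ∣ N))).card : ℝ) ≤
        ∑ l ∈ PZ q z, (((Ioc ⌊X - y⌋₊ ⌊X⌋₊).filter (fun N => l ^ 2 ∣ N)).card : ℝ) := by
      exact_mod_cast card_biUnion_le
    refine h3.trans (Finset.sum_le_sum fun l hl => ?_)
    have hl0 : 0 < l ^ 2 := by
      have := ((mem_PZ hz0).1 hl).1.pos
      positivity
    have := card_mult hy hy0 (l ^ 2) hl0
    push_cast at this
    exact this
  have h3 := large_smooth hy hy0 hq hS (q := q) (S := S)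
  have h4 : (((range k).biUnion (fun i => ((PZ q z).powersetCard i).biUnion (fun T =>
        (Ioc ⌊X - y⌋₊ ⌊X⌋₊).filter (fun N => tp T ∣ N ∧ FQ k q i z (N / tp T))))).card : ℝ) ≤
      ∑ i ∈ range k, ∑ T ∈ (PZ q z).powersetCard i, (FF k q i (X / tp T) (y / tp T) z : ℝ) := by
    have h5 := card_biUnion_le (s := range k) (t := fun i => ((PZ q z).powersetCard i).biUnion (fun T =>
        (Ioc ⌊X - y⌋₊ ⌊X⌋₊).filter (fun N => tp T ∣ N ∧ FQ k q i z (N / tp T))))
    refine le_trans (Nat.cast_le.2 h5) ?_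
    rw [Nat.cast_sum]
    refine Finset.sum_le_sum fun i _ => ?_
    have h6 := card_biUnion_le (s := (PZ q z).powersetCard i) (t := fun T =>
        (Ioc ⌊X - y⌋₊ ⌊X⌋₊).filter (fun N => tp T ∣ N ∧ FQ k q i z (N / tp T)))
    refine le_trans (Nat.cast_le.2 h6) ?_
    rw [Nat.cast_sum]
    refine Finset.sum_le_sum fun T hT => ?_
    have hT0 : 0 < tp T := tp_pos hz0 (mem_powersetCard.1 hT).1
    unfold FF
    by_cases hi : i + 1 = k
    · rw [if_pos hi, ← count_NP hy hX hT0]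
      refine Nat.cast_le.2 (card_le_card fun N hN => ?_)
      rw [mem_filter] at hN ⊢
      exact ⟨hN.1, hN.2.1, hN.2.2.1 hi⟩
    · rw [if_neg hi, ← count_NP hy hX hT0]
      refine Nat.cast_le.2 (card_le_card fun N hN => ?_)
      rw [mem_filter] at hN ⊢
      exact ⟨hN.1, hN.2.1, hN.2.2.2 hi⟩
  have h5 : (((Ioc ⌊X - y⌋₊ ⌊X⌋₊).filter (fun N => Om q N = k)).card : ℝ) = (KC k q X y : ℝ) := rfl
  have h6 := card_union_le ((PZ q z).biUnion (fun l => (Ioc ⌊X - y⌋₊ ⌊X⌋₊).filter (fun N => l ^ 2 ∣ N)))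
    ((Ioc ⌊X - y⌋₊ ⌊X⌋₊).filter (fun n => S < n / roughPart q n))
  have h7 : (KC k q X y : ℝ) ≤ (((range k).biUnion (fun i => ((PZ q z).powersetCard i).biUnion (fun T =>
        (Ioc ⌊X - y⌋₊ ⌊X⌋₊).filter (fun N => tp T ∣ N ∧ FQ k q i z (N / tp T))))).card : ℝ) +
      ((((PZ q z).biUnion (fun l => (Ioc ⌊X - y⌋₊ ⌊X⌋₊).filter (fun N => l ^ 2 ∣ N))).card : ℝ) +
      (((Ioc ⌊X - y⌋₊ ⌊X⌋₊).filter (fun n => S < n / roughPart q n)).card : ℝ)) := by
    rw [← h5]
    have h8 := h1.trans (Nat.add_le_add_left h6 _)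
    exact_mod_cast h8
  linarith

/-- the lower bound -/
lemma KC_lo {k q : ℕ} {X y z : ℝ} (hy : 0 ≤ X - y) (hX : 0 ≤ X) (hz : 0 ≤ z) (hk : 1 ≤ k) :
    ∑ T ∈ (PZ q z).powersetCard (k - 1), (NP q (X / tp T) (y / tp T) (P1 z) : ℝ) ≤ KC k q X y := by
  classical
  set A := (Ioc ⌊X - y⌋₊ ⌊X⌋₊).filter (fun N => Om q N = k) with hA
  have h1 : ∑ T ∈ (PZ q z).powersetCard (k - 1), (A.filter (fun N => TN q z N = T)).card ≤ A.card := by
    have h2 := Finset.card_eq_sum_card_fiberwise (f := TN q z)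
      (s := A.filter (fun N => TN q z N ∈ (PZ q z).powersetCard (k - 1)))
      (t := (PZ q z).powersetCard (k - 1)) (fun N hN => by
        have h := (mem_filter.1 (Finset.mem_coe.1 hN)).2
        exact Finset.mem_coe.2 h)
    calc ∑ T ∈ (PZ q z).powersetCard (k - 1), (A.filter (fun N => TN q z N = T)).card =
          ∑ T ∈ (PZ q z).powersetCard (k - 1),
            ((A.filter (fun N => TN q z N ∈ (PZ q z).powersetCard (k - 1))).filter (fun N => TN q z N = T)).card := by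
          refine Finset.sum_congr rfl fun T hT => ?_
          congr 1
          ext N
          simp only [mem_filter]
          constructor
          · rintro ⟨g1, g2⟩
            exact ⟨⟨g1, by rw [g2]; exact hT⟩, g2⟩
          · rintro ⟨⟨g1, _⟩, g2⟩
            exact ⟨g1, g2⟩
      _ = (A.filter (fun N => TN q z N ∈ (PZ q z).powersetCard (k - 1))).card := h2.symm
      _ ≤ A.card := card_filter_le _ _
  have h3 : (KC k q X y : ℝ) = A.card := rfl
  rw [h3]
  refine le_trans ?_ (Nat.cast_le.2 h1)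
  push_cast
  refine Finset.sum_le_sum fun T hT => ?_
  obtain ⟨hT1, hT2⟩ := mem_powersetCard.1 hT
  have hT0 : 0 < tp T := tp_pos hz hT1
  rw [← count_NP hy hX hT0]
  have h4 : (Ioc ⌊X - y⌋₊ ⌊X⌋₊).filter (fun N => tp T ∣ N ∧ QQ (P1 z) q (N / tp T)) ⊆
      A.filter (fun N => TN q z N = T) := by
    intro N hN
    obtain ⟨g1, g2, g3⟩ := mem_filter.1 hN
    have hN0 : N ≠ 0 := by
      rintro rfl
      simp at g1
    obtain ⟨M, rfl⟩ := g2
    rw [Nat.mul_div_cancel_left _ hT0] at g3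
    obtain ⟨g4, g5⟩ : (roughPart q M).Prime ∧ z < roughPart q M := g3
    have hM0 : M ≠ 0 := by
      rintro rfl
      simp at hN0
    rw [mem_filter, hA, mem_filter]
    refine ⟨⟨g1, ?_⟩, ?_⟩
    · rw [Om_mul hT0.ne' hM0, Om_one_iff.2 g4]
      unfold tp
      rw [Om_prod T fun l hl => by
        have := (mem_PZ hz).1 (hT1 hl)
        exact ⟨this.1, this.2.1⟩, hT2]
      omega
    · ext l
      unfold TN
      rw [mem_filter]
      constructor
      · rintro ⟨k1, k2⟩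
        obtain ⟨k3, k4, k5⟩ := (mem_PZ hz).1 k1
        rcases (Nat.Prime.dvd_mul k3).1 k2 with h | h
        · unfold tp at h
          obtain ⟨m, hm1, hm2⟩ := (Prime.dvd_finsetProd_iff k3.prime _).1 h
          have h5 := (mem_PZ hz).1 (hT1 hm1)
          rw [(Nat.prime_dvd_prime_iff_eq k3 h5.1).1 hm2]
          exact hm1
        · have h5 := dvd_rough hM0 k3 k4 h
          rw [← (Nat.prime_dvd_prime_iff_eq k3 g4).1 h5] at g5
          linarith
      · intro hl
        exact ⟨hT1 hl, (Finset.dvd_prod_of_mem (fun l => l) hl).trans (dvd_mul_right _ _)⟩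
  exact Nat.cast_le.2 (card_le_card h4)

end Pool.Agent.H538
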