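import Pool.Agent.H538.K5

set_option autoImplicit false

/-!
# The density of the integers with `k` prime factors above `q` in short intervals
-/

namespace Pool.Agent.H538

open Finset Filter Topology
open Pool.Agent.H305R2 (roughPart SM SMz mem_SMz SM_pos ZZ ZZ_nonneg tail_le VV VV_le sum_le_VV
  VV_tendsto ZZ_le_exp VV_nonneg)

/-- the contribution of the large smooth parts -/
lemma tail_small {θ a ρ : ℝ} (hθ : 0 < θ) (hθ2 : θ ≤ 1 / 2) (ha : 0 < a) (hρ : 0 < ρ) : ∀ᶠ q : ℕ in atTop,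
    ∀ y : ℝ, Real.exp ((1 - θ / 2) * (q * a)) ≤ y →
    (y * ((cutS θ (q * a) : ℝ) ^ (-(1 / 2) : ℝ) * ZZ q) + cutS θ (q * a) * q) * (q * a) ≤ ρ * y := by
  have ht : Tendsto (fun q : ℕ => (q : ℝ) * a) atTop atTop :=
    tendsto_natCast_atTop_atTop.atTop_mul_const ha
  filter_upwards [growth ha hθ hρ, ht.eventually_ge_atTop 1] with q hq hL1 y hy1
  obtain ⟨k1, k2, k3, k4, k5, k6⟩ := hq
  obtain ⟨L, hLdef⟩ : ∃ L : ℝ, L = q * a := ⟨_, rfl⟩
  rw [← hLdef] at k2 k3 k4 hL1 hy1 ⊢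
  have hy0 : 0 < y := lt_of_lt_of_le (Real.exp_pos _) hy1
  set S : ℕ := cutS θ L with hS
  have hSle : (S : ℝ) ≤ Real.exp (θ / 2 * L) := Nat.floor_le (Real.exp_pos _).le
  have hexp1 : 1 ≤ Real.exp (θ / 2 * L) := Real.one_le_exp (by positivity)
  have hS1 : 1 ≤ S := Nat.le_floor (by exact_mod_cast hexp1)
  have hS1r : (1 : ℝ) ≤ S := by exact_mod_cast hS1
  have hSge : Real.exp (θ / 2 * L) / 2 ≤ S := by
    have : Real.exp (θ / 2 * L) < S + 1 := Nat.lt_floor_add_one (Real.exp (θ / 2 * L))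
    linarith
  set E1 := (S : ℝ) ^ (-(1 / 2) : ℝ) * ZZ q with hE1
  have hE1le : E1 ≤ 2 * Real.exp (-(θ / 8 * L)) := by
    have h1 : (S : ℝ) ^ (-(1 / 2) : ℝ) ≤ (Real.exp (θ / 2 * L) / 2) ^ (-(1 / 2) : ℝ) :=
      Real.rpow_le_rpow_of_nonpos (by positivity) hSge (by norm_num)
    have h2 : (Real.exp (θ / 2 * L) / 2) ^ (-(1 / 2) : ℝ) ≤ 2 * Real.exp (-(θ / 4 * L)) := by
      rw [Real.div_rpow (Real.exp_pos _).le (by norm_num), ← Real.exp_mul]
      have h3 : (1 : ℝ) / 2 ≤ (2 : ℝ) ^ (-(1 / 2) : ℝ) := by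
        have : (2 : ℝ) ^ (-1 : ℝ) ≤ (2 : ℝ) ^ (-(1 / 2) : ℝ) :=
          Real.rpow_le_rpow_of_exponent_le (by norm_num) (by norm_num)
        rw [Real.rpow_neg_one] at this
        linarith
      rw [div_le_iff₀ (by positivity)]
      have h4 : θ / 2 * L * -(1 / 2) = -(θ / 4 * L) := by ring
      rw [h4]
      have h5 := Real.exp_pos (-(θ / 4 * L))
      nlinarith
    calc E1 ≤ (2 * Real.exp (-(θ / 4 * L))) * Real.exp (θ / 8 * L) :=
          mul_le_mul (h1.trans h2) k2 (ZZ_nonneg q) (by positivity)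
      _ = 2 * Real.exp (-(θ / 8 * L)) := by rw [mul_assoc, ← Real.exp_add]; congr 2; ring
  have hE1L : E1 * L ≤ ρ / 2 := by
    calc E1 * L ≤ 2 * Real.exp (-(θ / 8 * L)) * L := mul_le_mul_of_nonneg_right hE1le (by linarith)
      _ = 2 * L * Real.exp (-(θ / 8 * L)) := by ring
      _ ≤ _ := k3
  have hSqL : (S : ℝ) * q * L ≤ ρ / 2 * y := by
    have h1 : (S : ℝ) * q * L ≤ Real.exp (θ / 2 * L) * q * L := by gcongr
    have h2 : Real.exp (θ / 2 * L) ≤ Real.exp (-(1 / 2 * L)) * y := by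
      calc Real.exp (θ / 2 * L) ≤ Real.exp (-(1 / 2 * L) + (1 - θ / 2) * L) := by
            rw [Real.exp_le_exp]; nlinarith
        _ = Real.exp (-(1 / 2 * L)) * Real.exp ((1 - θ / 2) * L) := Real.exp_add _ _
        _ ≤ _ := mul_le_mul_of_nonneg_left hy1 (Real.exp_pos _).le
    calc (S : ℝ) * q * L ≤ Real.exp (θ / 2 * L) * q * L := h1
      _ = Real.exp (θ / 2 * L) * (q * L) := by ring
      _ ≤ (Real.exp (-(1 / 2 * L)) * y) * (q * L) := by gcongr
      _ = (q * L * Real.exp (-(1 / 2 * L))) * y := by ring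
      _ ≤ ρ / 2 * y := mul_le_mul_of_nonneg_right k4 hy0.le
  have h1 : y * E1 * L ≤ ρ / 2 * y := by
    have := mul_le_mul_of_nonneg_left hE1L hy0.le
    linarith
  calc (y * E1 + S * q) * L = y * E1 * L + S * q * L := by ring
    _ ≤ ρ / 2 * y + ρ / 2 * y := add_le_add h1 hSqL
    _ = ρ * y := by ring

/-- the contribution of the squares -/
lemma sq_sum {q : ℕ} {z y : ℝ} (hq : 1 ≤ q) (hz : 0 ≤ z) (hy0 : 0 ≤ y) :
    ∑ l ∈ PZ q z, (y / (l : ℝ) ^ 2 + 1) ≤ y / q + z := by
  rw [Finset.sum_add_distrib]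
  have h1 : ∑ l ∈ PZ q z, y / (l : ℝ) ^ 2 ≤ y / q := by
    have h2 : ∑ l ∈ PZ q z, y / (l : ℝ) ^ 2 = y * ∑ l ∈ PZ q z, ((l : ℝ) ^ 2)⁻¹ := by
      rw [Finset.mul_sum]
      rfl
    have h3 : ∑ l ∈ PZ q z, ((l : ℝ) ^ 2)⁻¹ ≤ (q : ℝ)⁻¹ := by
      rcases Nat.lt_or_ge ⌊z⌋₊ q with h | h
      · have : PZ q z = ∅ := by
          unfold PZ
          rw [Finset.Ioc_eq_empty (by omega)]
          simp
        rw [this, Finset.sum_empty]
        positivity
      · calc ∑ l ∈ PZ q z, ((l : ℝ) ^ 2)⁻¹ ≤ ∑ l ∈ Ioc q ⌊z⌋₊, ((l : ℝ) ^ 2)⁻¹ :=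
              Finset.sum_le_sum_of_subset_of_nonneg (filter_subset _ _) fun _ _ _ => by positivity
          _ ≤ (q : ℝ)⁻¹ - (⌊z⌋₊ : ℝ)⁻¹ := sum_Ioc_inv_sq_le_sub (by omega) h
          _ ≤ (q : ℝ)⁻¹ := by
              have : (0 : ℝ) ≤ (⌊z⌋₊ : ℝ)⁻¹ := by positivity
              linarith
    rw [h2, div_eq_mul_inv]
    exact mul_le_mul_of_nonneg_left h3 hy0
  have h4 : ∑ l ∈ PZ q z, (1 : ℝ) ≤ z := by
    rw [Finset.sum_const, nsmul_eq_mul, mul_one]
    have h5 : (PZ q z).card ≤ ⌊z⌋₊ := by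
      refine (card_filter_le _ _).trans ?_
      rw [Nat.card_Ioc]
      omega
    calc ((PZ q z).card : ℝ) ≤ (⌊z⌋₊ : ℝ) := by exact_mod_cast h5
      _ ≤ z := Nat.floor_le hz
  exact add_le_add h1 h4

lemma esum_le' (P : Finset ℕ) (i : ℕ) : esum P i ≤ (∑ l ∈ P, ((l : ℝ))⁻¹) ^ i := by
  have h1 := esum_le i P
  have h2 : (1 : ℝ) ≤ i.factorial := by exact_mod_cast Nat.factorial_pos i
  have h3 := esum_nonneg P i
  nlinarith

/-- choice of the parameter -/
lemma choose_rho (j : ℕ) (G : ℝ) {ε : ℝ} (hε : 0 < ε) : ∃ ρ : ℝ, 0 < ρ ∧ ρ < 1 / 4 ∧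
    (G + ρ) * (1 + ρ) ^ j / j.factorial + 4 * ρ ≤ G / j.factorial + ε ∧
    G / j.factorial - ε ≤ (G - ρ) * (1 - 2 * ρ) ^ j / j.factorial := by
  have h1 : Tendsto (fun ρ : ℝ => (G + ρ) * (1 + ρ) ^ j / j.factorial + 4 * ρ) (𝓝 0)
      (𝓝 ((G + 0) * (1 + 0) ^ j / j.factorial + 4 * 0)) := by
    apply Continuous.tendsto
    fun_prop
  have h2 : Tendsto (fun ρ : ℝ => (G - ρ) * (1 - 2 * ρ) ^ j / j.factorial) (𝓝 0)
      (𝓝 ((G - 0) * (1 - 2 * 0) ^ j / j.factorial)) := by
    apply Continuous.tendsto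
    fun_prop
  have e1 : (G + 0) * (1 + 0) ^ j / (j.factorial : ℝ) + 4 * 0 = G / j.factorial := by simp
  have e2 : (G - 0) * (1 - 2 * 0) ^ j / (j.factorial : ℝ) = G / j.factorial := by simp
  rw [e1] at h1
  rw [e2] at h2
  have h3 : ∀ᶠ ρ : ℝ in 𝓝[>] 0, 0 < ρ ∧ ρ < 1 / 4 ∧
      (G + ρ) * (1 + ρ) ^ j / j.factorial + 4 * ρ ≤ G / j.factorial + ε ∧
      G / j.factorial - ε ≤ (G - ρ) * (1 - 2 * ρ) ^ j / j.factorial := by
    have g1 : ∀ᶠ ρ : ℝ in 𝓝[>] 0, (G + ρ) * (1 + ρ) ^ j / j.factorial + 4 * ρ ≤ G / j.factorial + ε :=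
      (h1.mono_left nhdsWithin_le_nhds).eventually (ge_mem_nhds (lt_add_of_pos_right (G / j.factorial) hε))
    have g2 : ∀ᶠ ρ : ℝ in 𝓝[>] 0, G / j.factorial - ε ≤ (G - ρ) * (1 - 2 * ρ) ^ j / j.factorial :=
      (h2.mono_left nhdsWithin_le_nhds).eventually (le_mem_nhds (sub_lt_self (G / j.factorial) hε))
    have g3 : ∀ᶠ ρ : ℝ in 𝓝[>] 0, ρ < 1 / 4 :=
      (eventually_lt_nhds (show (0 : ℝ) < 1 / 4 by norm_num)).filter_mono nhdsWithin_le_nhds
    filter_upwards [g1, g2, g3, self_mem_nhdsWithin] with ρ a1 a2 a3 a4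
    exact ⟨a4, a3, a1, a2⟩
  exact h3.exists

/-- **The density of the integers with exactly `j + 1` prime factors above `q`.** -/
theorem densK (j : ℕ) {ε : ℝ} (hε : 0 < ε) : ∃ δ κ : ℝ, 0 < δ ∧ δ ≤ 1 / 8 ∧ 0 < κ ∧ κ ≤ 1 / 4 ∧
    ∀ a : ℝ, 0 < a → ∀ D : ℝ, 0 ≤ D → ∃ P : ℕ, 2 ≤ P ∧ ∀ q ≥ P, ∀ X y : ℝ,
      Real.exp ((1 - δ) * (q * a)) ≤ y → y ≤ κ * X → X ≤ Real.exp (q * a + D) →
      |(KC (j + 1) q X y : ℝ) * (q * a) -
        Real.exp Real.eulerMascheroniConstant / j.factorial * (Real.log q) ^ (j + 1) * y| ≤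
        ε * (Real.log q) ^ (j + 1) * y := by
  set G := Real.exp Real.eulerMascheroniConstant with hG
  have hG0 : 0 < G := Real.exp_pos _
  have hG1 : 1 ≤ G := by
    rw [hG]
    have h1 := Real.one_half_lt_eulerMascheroniConstant
    have := Real.add_one_le_exp Real.eulerMascheroniConstant
    linarith
  obtain ⟨ρ, hρ, hρ4, hup, hlo⟩ := choose_rho j G hε
  obtain ⟨θ, κ, hθ, hθ4, hκ, hκ4, hprime⟩ := dens_prime hρ
  set η := θ / (8 * (j + 1)) with hη
  have hj0 : (0 : ℝ) < (j : ℝ) + 1 := by positivity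
  have hη0 : 0 < η := by positivity
  have hηj : (j + 1) * η = θ / 8 := by rw [hη]; field_simp
  have hη1 : η ≤ 1 / 16 := by
    have h1 : η ≤ (j + 1) * η := by
      have : (0 : ℝ) ≤ j := Nat.cast_nonneg j
      nlinarith
    rw [hηj] at h1
    linarith
  obtain ⟨C, hC1, hmid⟩ := mid_up hθ hθ4 hη0 hη1
  refine ⟨θ / 4, κ, by positivity, by linarith, hκ, hκ4, fun a ha D hD => ?_⟩
  obtain ⟨Pa, hPa2, hPa⟩ := hprime a ha D hD
  obtain ⟨Pb, hPb2, hPb⟩ := hmid a ha
  have hlog : Tendsto (fun q : ℕ => Real.log q) atTop atTop :=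
    Real.tendsto_log_atTop.comp tendsto_natCast_atTop_atTop
  have ht : Tendsto (fun q : ℕ => (q : ℝ) * a) atTop atTop :=
    tendsto_natCast_atTop_atTop.atTop_mul_const ha
  have hexpL : ∀ᶠ q : ℕ in atTop, ((q : ℝ) * a) * Real.exp (-(1 / 4 * (q * a))) ≤ ρ / 2 := by
    have g1 : Tendsto (fun x : ℝ => x ^ 1 * Real.exp (-x)) atTop (𝓝 0) :=
      Real.tendsto_pow_mul_exp_neg_atTop_nhds_zero 1
    have g2 : Tendsto (fun q : ℕ => 1 / 4 * ((q : ℝ) * a)) atTop atTop := ht.const_mul_atTop (by norm_num)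
    have g3 := (g1.comp g2).eventually (ge_mem_nhds (show (0 : ℝ) < ρ / 8 by positivity))
    filter_upwards [g3] with q hq
    simp only [Function.comp, pow_one] at hq
    linarith
  obtain ⟨Pc, hPc⟩ := ((S1_asymp (c := η * a) (by positivity) hρ).and
    ((hlog.eventually_ge_atTop 1).and ((hlog.eventually_ge_atTop (j * (C * 2 ^ j) / ρ)).and
    ((hlog.eventually_ge_atTop ((j + 1) / ρ)).and ((hlog.eventually_ge_atTop (2 * a / ρ)).and
    (hexpL.and ((tail_small (θ := 1 / 2) (by norm_num) le_rfl ha hρ).and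
      (ht.eventually_ge_atTop 1)))))))).exists_forall_of_atTop
  refine ⟨max (max Pa Pb) Pc, hPa2.trans ((le_max_left _ _).trans (le_max_left _ _)),
    fun q hq X y hy1 hy2 hX => ?_⟩
  have hqa : Pa ≤ q := (le_max_left _ _).trans ((le_max_left _ _).trans hq)
  have hqb : Pb ≤ q := (le_max_right _ _).trans ((le_max_left _ _).trans hq)
  obtain ⟨c1, c2, c3, c4, c5, c6, c7, c8⟩ := hPc q ((le_max_right _ _).trans hq)
  have hq2 : 2 ≤ q := hPa2.trans hqa
  have hq0 : (0 : ℝ) < q := by exact_mod_cast (by omega : 0 < q)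
  have hL0 : 0 < (q : ℝ) * a := by positivity
  have hy0 : 0 < y := lt_of_lt_of_le (Real.exp_pos _) hy1
  have hX0 : 0 < X := by
    by_contra h
    push Not at h
    have : κ * X ≤ 0 := mul_nonpos_of_nonneg_of_nonpos hκ.le h
    linarith
  have hyX4 : y ≤ 1 / 4 * X := hy2.trans (mul_le_mul_of_nonneg_right hκ4 hX0.le)
  have hyX : 0 ≤ X - y := by linarith
  set z := Real.exp (η * (q * a)) with hz
  have hz1 : 1 ≤ z := Real.one_le_exp (by positivity)
  have hz0 : 0 ≤ z := by linarith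
  have hzj : z ^ (j + 1) = Real.exp (θ / 8 * (q * a)) := by
    rw [hz, ← Real.exp_nat_mul]
    push_cast
    rw [← mul_assoc, hηj]
  have ec : Real.exp (η * a * q) = z := by rw [hz]; congr 1; ring
  rw [ec] at c1
  obtain ⟨c1a, c1b⟩ := c1
  have hl0 : 0 < Real.log q := by linarith
  set s := S1 q z with hs
  have hs0 : 0 ≤ s := S1_nonneg q z
  -- scaled intervals
  have hscale : ∀ T ⊆ PZ q z, T.card ≤ j + 1 → (0 : ℝ) < tp T ∧
      Real.exp ((1 - θ / 2) * (q * a)) ≤ y / tp T ∧ y / tp T ≤ κ * (X / tp T) ∧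
      y / tp T ≤ 1 / 4 * (X / tp T) ∧ X / tp T ≤ Real.exp (q * a + D) := by
    intro T hT hTc
    have h1 : 0 < tp T := tp_pos hz0 hT
    have h2 : (0 : ℝ) < tp T := by exact_mod_cast h1
    have h3 : (tp T : ℝ) ≤ Real.exp (θ / 8 * (q * a)) := by rw [← hzj]; exact tp_le hz1 hT hTc
    refine ⟨h2, ?_, ?_, ?_, ?_⟩
    · rw [le_div_iff₀ h2]
      refine le_trans ?_ hy1
      calc Real.exp ((1 - θ / 2) * (q * a)) * tp T ≤
            Real.exp ((1 - θ / 2) * (q * a)) * Real.exp (θ / 8 * (q * a)) :=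
            mul_le_mul_of_nonneg_left h3 (Real.exp_pos _).le
        _ = Real.exp ((1 - θ / 2) * (q * a) + θ / 8 * (q * a)) := by rw [← Real.exp_add]
        _ ≤ _ := by
            rw [Real.exp_le_exp, ← add_mul]
            exact mul_le_mul_of_nonneg_right (by linarith) hL0.le
    · rw [← mul_div_assoc]
      exact div_le_div_of_nonneg_right hy2 h2.le
    · rw [← mul_div_assoc]
      exact div_le_div_of_nonneg_right hyX4 h2.le
    · refine le_trans (div_le_self hX0.le ?_) hX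
      exact_mod_cast h1
  have hzhalf : z ≤ Real.exp (1 / 2 * (q * a)) := by
    rw [hz, Real.exp_le_exp]
    exact mul_le_mul_of_nonneg_right (by linarith) hL0.le
  have hesum : ∀ (i : ℕ) (B : ℝ), ∑ T ∈ (PZ q z).powersetCard i, B * (y / tp T) = B * y * esum (PZ q z) i := by
    intro i B
    unfold esum
    rw [Finset.mul_sum]
    refine Finset.sum_congr rfl fun T _ => ?_
    unfold tp
    push_cast
    rw [Finset.prod_inv_distrib]
    ring
  have hlk : Real.log q ≤ (Real.log q) ^ (j + 1) := le_self_pow₀ c2 (by omega)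
  have hlk0 : 0 < (Real.log q) ^ (j + 1) := by positivity
  have hj1 : ((j.factorial : ℕ) : ℝ) ≠ 0 := by exact_mod_cast (Nat.factorial_pos j).ne'
  have hjf : (0 : ℝ) < (j.factorial : ℝ) := by exact_mod_cast Nat.factorial_pos j
  rw [abs_le]
  constructor
  · -- lower bound
    have h1 := KC_lo (k := j + 1) hyX hX0.le hz0 (by omega) (q := q)
    rw [Nat.add_sub_cancel] at h1
    have h2 := mul_le_mul_of_nonneg_right h1 hL0.le
    rw [Finset.sum_mul] at h2
    have h3 : ∑ T ∈ (PZ q z).powersetCard j, ((G - ρ) * Real.log q) * (y / tp T) ≤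
        ∑ T ∈ (PZ q z).powersetCard j, (NP q (X / tp T) (y / tp T) (P1 z) : ℝ) * (q * a) := by
      refine Finset.sum_le_sum fun T hT => ?_
      obtain ⟨t1, t2⟩ := mem_powersetCard.1 hT
      obtain ⟨g1, g2, g3, g4, g5⟩ := hscale T t1 (by omega)
      have h4 := (abs_le.1 (hPa q hqa (X / tp T) (y / tp T) z g2 g3 g5 hzhalf)).1
      linarith
    rw [hesum] at h3
    have h5 := le_esum j (d := (q : ℝ)⁻¹) (by positivity) (PZ q z) (fun l hl => by
      have := ((mem_PZ hz0).1 hl).2.1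
      exact inv_anti₀ hq0 (by exact_mod_cast this.le)) (by
        have e1 : ∑ l ∈ PZ q z, ((l : ℝ))⁻¹ = s := rfl
        rw [e1]
        have h6 : (j : ℝ) * (q : ℝ)⁻¹ ≤ (j + 1) * 1 := by
          apply mul_le_mul (by linarith) _ (by positivity) hj0.le
          exact inv_le_one_of_one_le₀ (by exact_mod_cast (by omega : 1 ≤ q))
        have h7 : (j + 1 : ℝ) ≤ ρ * Real.log q := by
          rw [div_le_iff₀ hρ] at c4
          linarith
        have h8 : ρ * Real.log q ≤ (1 - ρ) * Real.log q := mul_le_mul_of_nonneg_right (by linarith) hl0.le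
        linarith)
    have e1 : ∑ l ∈ PZ q z, ((l : ℝ))⁻¹ = s := rfl
    rw [e1] at h5
    have h6 : (1 - 2 * ρ) * Real.log q ≤ s - j * (q : ℝ)⁻¹ := by
      have h6 : (j : ℝ) * (q : ℝ)⁻¹ ≤ (j + 1) * 1 := by
        apply mul_le_mul (by linarith) _ (by positivity) hj0.le
        exact inv_le_one_of_one_le₀ (by exact_mod_cast (by omega : 1 ≤ q))
      have h7 : (j + 1 : ℝ) ≤ ρ * Real.log q := by
        rw [div_le_iff₀ hρ] at c4
        linarith
      linarith
    have h7 : ((1 - 2 * ρ) * Real.log q) ^ j ≤ (j.factorial : ℝ) * esum (PZ q z) j :=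
      (pow_le_pow_left₀ (mul_nonneg (by linarith) hl0.le) h6 _).trans h5
    have h8 : ((1 - 2 * ρ) * Real.log q) ^ j / j.factorial ≤ esum (PZ q z) j := by
      rw [div_le_iff₀ hjf]
      linarith
    have h9 : (G - ρ) * Real.log q * y * (((1 - 2 * ρ) * Real.log q) ^ j / j.factorial) ≤
        (G - ρ) * Real.log q * y * esum (PZ q z) j := by
      apply mul_le_mul_of_nonneg_left h8
      have : 0 ≤ G - ρ := by linarith
      positivity
    have h10 : (G - ρ) * Real.log q * y * (((1 - 2 * ρ) * Real.log q) ^ j / j.factorial) =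
        (G - ρ) * (1 - 2 * ρ) ^ j / j.factorial * ((Real.log q) ^ (j + 1) * y) := by
      rw [mul_pow, pow_succ]
      ring
    have h11 : (G / j.factorial - ε) * ((Real.log q) ^ (j + 1) * y) ≤
        (G - ρ) * (1 - 2 * ρ) ^ j / j.factorial * ((Real.log q) ^ (j + 1) * y) :=
      mul_le_mul_of_nonneg_right hlo (by positivity)
    rw [h10] at h9
    linarith
  · -- upper bound
    have hSz : ((cutS (1 / 2) (q * a) : ℝ) + 1) * z ^ (j + 1) ≤ X - y := by
      have h1 : (cutS (1 / 2) (q * a) : ℝ) ≤ Real.exp (1 / 2 / 2 * (q * a)) := Nat.floor_le (Real.exp_pos _).le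
      have h2 : 1 ≤ Real.exp (1 / 2 / 2 * ((q : ℝ) * a)) := Real.one_le_exp (by positivity)
      rw [hzj]
      calc ((cutS (1 / 2) (q * a) : ℝ) + 1) * Real.exp (θ / 8 * (q * a)) ≤
            (2 * Real.exp (1 / 2 / 2 * (q * a))) * Real.exp (θ / 8 * (q * a)) := by
            apply mul_le_mul_of_nonneg_right (by linarith) (Real.exp_pos _).le
        _ = 2 * Real.exp (1 / 2 / 2 * (q * a) + θ / 8 * (q * a)) := by rw [Real.exp_add]; ring
        _ ≤ 2 * Real.exp ((1 - θ / 4) * (q * a)) := by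
            apply mul_le_mul_of_nonneg_left _ (by norm_num)
            rw [Real.exp_le_exp, ← add_mul]
            exact mul_le_mul_of_nonneg_right (by linarith) hL0.le
        _ ≤ 2 * y := mul_le_mul_of_nonneg_left hy1 (by norm_num)
        _ ≤ X - y := by linarith
    have hS1 : 1 ≤ cutS (1 / 2) (q * a) := Nat.le_floor (by
      have : 1 ≤ Real.exp (1 / 2 / 2 * ((q : ℝ) * a)) := Real.one_le_exp (by positivity)
      exact_mod_cast this)
    have h1 := KC_up (k := j + 1) (q := q) hyX hy0.le hz1 (by omega) hS1 hSz (by omega)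
    rw [Finset.sum_range_succ] at h1
    have h2 := mul_le_mul_of_nonneg_right h1 hL0.le
    rw [add_mul, add_mul, add_mul] at h2
    -- the main term
    have hmain : (∑ T ∈ (PZ q z).powersetCard j, (FF (j + 1) q j (X / tp T) (y / tp T) z : ℝ)) * (q * a) ≤
        (G + ρ) * (1 + ρ) ^ j / j.factorial * ((Real.log q) ^ (j + 1) * y) := by
      rw [Finset.sum_mul]
      have h3 : ∑ T ∈ (PZ q z).powersetCard j, (FF (j + 1) q j (X / tp T) (y / tp T) z : ℝ) * (q * a) ≤
          ∑ T ∈ (PZ q z).powersetCard j, ((G + ρ) * Real.log q) * (y / tp T) := by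
        refine Finset.sum_le_sum fun T hT => ?_
        obtain ⟨t1, t2⟩ := mem_powersetCard.1 hT
        obtain ⟨g1, g2, g3, g4, g5⟩ := hscale T t1 (by omega)
        have h4 := (abs_le.1 (hPa q hqa (X / tp T) (y / tp T) z g2 g3 g5 hzhalf)).2
        unfold FF
        rw [if_pos rfl]
        linarith
      rw [hesum] at h3
      refine h3.trans ?_
      have h5 := esum_le j (PZ q z)
      have e1 : ∑ l ∈ PZ q z, ((l : ℝ))⁻¹ = s := rfl
      rw [e1] at h5
      have h6 : s ^ j ≤ ((1 + ρ) * Real.log q) ^ j := pow_le_pow_left₀ hs0 c1b _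
      have h7 : esum (PZ q z) j ≤ ((1 + ρ) * Real.log q) ^ j / j.factorial := by
        rw [le_div_iff₀ hjf]
        linarith
      calc (G + ρ) * Real.log q * y * esum (PZ q z) j ≤
            (G + ρ) * Real.log q * y * (((1 + ρ) * Real.log q) ^ j / j.factorial) :=
            mul_le_mul_of_nonneg_left h7 (by positivity)
        _ = _ := by
            rw [mul_pow, pow_succ]
            ring
    -- the lower order terms
    have hlow : (∑ i ∈ range j, ∑ T ∈ (PZ q z).powersetCard i,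
        (FF (j + 1) q i (X / tp T) (y / tp T) z : ℝ)) * (q * a) ≤ ρ * ((Real.log q) ^ (j + 1) * y) := by
      rw [Finset.sum_mul]
      have h3 : ∀ i ∈ range j, (∑ T ∈ (PZ q z).powersetCard i,
          (FF (j + 1) q i (X / tp T) (y / tp T) z : ℝ)) * (q * a) ≤ C * 2 ^ j * ((Real.log q) ^ j * y) := by
        intro i hi
        rw [mem_range] at hi
        rw [Finset.sum_mul]
        have h4 : ∑ T ∈ (PZ q z).powersetCard i, (FF (j + 1) q i (X / tp T) (y / tp T) z : ℝ) * (q * a) ≤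
            ∑ T ∈ (PZ q z).powersetCard i, (C * Real.log q) * (y / tp T) := by
          refine Finset.sum_le_sum fun T hT => ?_
          obtain ⟨t1, t2⟩ := mem_powersetCard.1 hT
          obtain ⟨g1, g2, g3, g4, g5⟩ := hscale T t1 (by omega)
          have h4 := hPb q hqb (X / tp T) (y / tp T) g2 g4
          unfold FF
          rw [if_neg (by omega)]
          exact h4
        rw [hesum] at h4
        refine h4.trans ?_
        have h5 := esum_le' (PZ q z) i
        have e1 : ∑ l ∈ PZ q z, ((l : ℝ))⁻¹ = s := rfl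
        rw [e1] at h5
        have h6 : s ≤ 2 * Real.log q := c1b.trans (mul_le_mul_of_nonneg_right (by linarith) hl0.le)
        have h7 : s ^ i ≤ 2 ^ j * (Real.log q) ^ i := by
          calc s ^ i ≤ (2 * Real.log q) ^ i := pow_le_pow_left₀ hs0 h6 _
            _ = 2 ^ i * (Real.log q) ^ i := mul_pow _ _ _
            _ ≤ 2 ^ j * (Real.log q) ^ i := by
                apply mul_le_mul_of_nonneg_right _ (by positivity)
                exact pow_le_pow_right₀ (by norm_num) hi.le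
        calc C * Real.log q * y * esum (PZ q z) i ≤ C * Real.log q * y * (2 ^ j * (Real.log q) ^ i) :=
              mul_le_mul_of_nonneg_left (h5.trans h7) (by positivity)
          _ = C * 2 ^ j * ((Real.log q) ^ (i + 1) * y) := by rw [pow_succ]; ring
          _ ≤ C * 2 ^ j * ((Real.log q) ^ j * y) := by
              apply mul_le_mul_of_nonneg_left _ (by positivity)
              apply mul_le_mul_of_nonneg_right _ hy0.le
              exact pow_le_pow_right₀ c2 (by omega)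
      refine (Finset.sum_le_sum h3).trans ?_
      rw [Finset.sum_const, card_range, nsmul_eq_mul]
      have h8 : (j : ℝ) * (C * 2 ^ j) ≤ ρ * Real.log q := by
        rw [div_le_iff₀ hρ] at c3
        linarith
      calc (j : ℝ) * (C * 2 ^ j * ((Real.log q) ^ j * y)) = (j * (C * 2 ^ j)) * ((Real.log q) ^ j * y) := by ring
        _ ≤ (ρ * Real.log q) * ((Real.log q) ^ j * y) := mul_le_mul_of_nonneg_right h8 (by positivity)
        _ = _ := by rw [pow_succ]; ring
    -- the squares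
    have hsq : (∑ l ∈ PZ q z, (y / (l : ℝ) ^ 2 + 1)) * (q * a) ≤ ρ * ((Real.log q) ^ (j + 1) * y) := by
      have h3 := mul_le_mul_of_nonneg_right (sq_sum (q := q) (z := z) (by omega) hz0 hy0.le) hL0.le
      refine h3.trans ?_
      have h4 : y / q * (q * a) = y * a := by field_simp
      have h5 : y * a ≤ ρ / 2 * (Real.log q * y) := by
        rw [div_le_iff₀ hρ] at c5
        have h9 := mul_le_mul_of_nonneg_left c5 hy0.le
        linarith
      have h6 : z * (q * a) ≤ ρ / 2 * y := by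
        have h7 : z ≤ Real.exp (-(1 / 4 * (q * a))) * y := by
          calc z ≤ Real.exp (-(1 / 4 * (q * a)) + (1 - θ / 4) * (q * a)) := by
                rw [hz, Real.exp_le_exp, ← neg_mul, ← add_mul]
                exact mul_le_mul_of_nonneg_right (by linarith) hL0.le
            _ = Real.exp (-(1 / 4 * (q * a))) * Real.exp ((1 - θ / 4) * (q * a)) := Real.exp_add _ _
            _ ≤ _ := mul_le_mul_of_nonneg_left hy1 (Real.exp_pos _).le
        calc z * (q * a) ≤ (Real.exp (-(1 / 4 * (q * a))) * y) * (q * a) :=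
              mul_le_mul_of_nonneg_right h7 hL0.le
          _ = (q * a * Real.exp (-(1 / 4 * (q * a)))) * y := by ring
          _ ≤ ρ / 2 * y := mul_le_mul_of_nonneg_right c6 hy0.le
      have h7 : y ≤ Real.log q * y := le_mul_of_one_le_left hy0.le c2
      have h8 : Real.log q * y ≤ (Real.log q) ^ (j + 1) * y := mul_le_mul_of_nonneg_right hlk hy0.le
      rw [add_mul, h4]
      calc y * a + z * (q * a) ≤ ρ / 2 * (Real.log q * y) + ρ / 2 * (Real.log q * y) := by
            refine add_le_add h5 (h6.trans ?_)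
            exact mul_le_mul_of_nonneg_left h7 (by positivity)
        _ = ρ * (Real.log q * y) := by ring
        _ ≤ _ := mul_le_mul_of_nonneg_left h8 hρ.le
    -- the large smooth parts
    have htl : (y * ((cutS (1 / 2) (q * a) : ℝ) ^ (-(1 / 2) : ℝ) * ZZ q) + cutS (1 / 2) (q * a) * q) * (q * a) ≤
        ρ * ((Real.log q) ^ (j + 1) * y) := by
      refine (c7 y ?_).trans ?_
      · refine le_trans ?_ hy1
        rw [Real.exp_le_exp]
        exact mul_le_mul_of_nonneg_right (by linarith) hL0.le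
      · have h7 : y ≤ Real.log q * y := le_mul_of_one_le_left hy0.le c2
        have h8 : Real.log q * y ≤ (Real.log q) ^ (j + 1) * y := mul_le_mul_of_nonneg_right hlk hy0.le
        exact mul_le_mul_of_nonneg_left (h7.trans h8) hρ.le
    have h11 : ((G + ρ) * (1 + ρ) ^ j / j.factorial + 4 * ρ) * ((Real.log q) ^ (j + 1) * y) ≤
        (G / j.factorial + ε) * ((Real.log q) ^ (j + 1) * y) :=
      mul_le_mul_of_nonneg_right hup (by positivity)
    have h12 : 0 ≤ ρ * ((Real.log q) ^ (j + 1) * y) := by positivity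
    linarith

end Pool.Agent.H538
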