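import Pool.Graph.R_seed8.W66.RB
import Pool.Graph.R_seed8.TH888.R.Sh
import Pool.Graph.R_pool_sql_team_seeded_1acbe0a2.Y895.OL.A2

set_option autoImplicit false

/-!
# Near pairs of sieved events
-/

namespace Pool.Agent.H538

open Finset Filter Topology
open Pool.Agent.W66 (sift_two ratio_bound MM MM_ne two_dvd_MM lt_of_not_dvd_MM)
open Pool.Agent.Helper112.E456.SieveAux (DD)
open Pool.Agent.TH888.R (wt wt_nonneg wt_le_one)

/-- no prime factor in `(q, z]` -/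
def NoMid (q : ℕ) (z : ℝ) (n : ℕ) : Prop := ∀ l : ℕ, l.Prime → q < l → (l : ℝ) ≤ z → ¬ l ∣ n

lemma DD_eq {X B r : ℕ} : DD 1 X B (B * X + r) = B * r := by
  unfold DD
  have e2 : ((((1 * (B * X + r) : ℕ) : ℤ)) - ((B * X : ℕ) : ℤ)).natAbs = r := by
    have : ((((1 * (B * X + r) : ℕ) : ℤ)) - ((B * X : ℕ) : ℤ)) = r := by
      push_cast; ring
    rw [this]; simp
  rw [e2, one_mul]

open Classical in
/-- two sieved events at related integers, one block -/
lemma near_one {b : ℕ} (hb : 2 ≤ b) {η Λ : ℝ} (hη : 0 < η) (hΛ : 1 ≤ Λ) : ∃ K : ℝ, 0 < K ∧ ∃ P : ℕ, 2 ≤ P ∧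
    ∀ p ≥ P, 2 ≤ ⌊Real.exp (η * p)⌋₊ ∧ ∀ h r : ℕ, ((p + h : ℕ) : ℝ) ≤ Λ * p → 0 < r → r < b ^ h → ∀ X : ℕ,
    ∀ A B : ℕ → Prop, (∀ n, A n → NoMid p (Real.exp (η * p)) n) →
    (∀ n, B n → NoMid (p + h) (Real.exp (η * p)) n) →
    (((Icc 1 ⌊Real.exp (η * p)⌋₊).filter (fun n => A (n + X) ∧ B (b ^ h * (n + X) + r))).card : ℝ) ≤
      K * (Real.log p / p) ^ 2 * ⌊Real.exp (η * p)⌋₊ := by
  obtain ⟨C0, hC0, hsv⟩ := sift_two
  obtain ⟨C1, hC1, hrat⟩ := ratio_bound hb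
  refine ⟨C0 * (2 * C1) ^ 2 / (η / 2) ^ 2, by positivity, ?_⟩
  obtain ⟨P, hP⟩ := eventually_atTop.1 hrat
  have hl1 : ∀ᶠ p : ℕ in atTop, 2 ≤ η * p :=
    (tendsto_natCast_atTop_atTop.const_mul_atTop hη).eventually_ge_atTop 2
  have hl2 : ∀ᶠ p : ℕ in atTop, Λ ≤ p := tendsto_natCast_atTop_atTop.eventually_ge_atTop _
  obtain ⟨P2, hP2⟩ := (hl1.and hl2).exists_forall_of_atTop
  refine ⟨max (max P P2) 2, le_max_right _ _, fun p hp => ?_⟩
  have hpP : P ≤ p := (le_max_left _ _).trans ((le_max_left _ _).trans hp)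
  have hpP2 : P2 ≤ p := (le_max_right _ _).trans ((le_max_left _ _).trans hp)
  have hp2 : 2 ≤ p := (le_max_right _ _).trans hp
  obtain ⟨g1, g2⟩ := hP2 p hpP2
  have hp2' : (2 : ℝ) ≤ p := by exact_mod_cast hp2
  have hp0 : (0 : ℝ) < p := by linarith
  set N0 := ⌊Real.exp (η * p)⌋₊ with hN0
  have hEpos := Real.exp_pos (η * p)
  have hN0le : (N0 : ℝ) ≤ Real.exp (η * p) := Nat.floor_le hEpos.le
  have hE3 : (3 : ℝ) ≤ Real.exp (η * p) := by have := Real.add_one_le_exp (η * p); linarith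
  have hN02 : 2 ≤ N0 := Nat.le_floor (by push_cast; linarith)
  refine ⟨hN02, fun h r hph hr hrb X A B hA hB => ?_⟩
  have hN0gt : Real.exp (η * p) < N0 + 1 := Nat.lt_floor_add_one _
  have hN0r : (2 : ℝ) ≤ N0 := by exact_mod_cast hN02
  set q := p + h with hq
  have hq2 : 2 ≤ q := by omega
  have hz : (N0 : ℝ) ^ ((1 : ℝ) / 8) ≤ Real.exp (η * p) := by
    calc (N0 : ℝ) ^ ((1 : ℝ) / 8) ≤ (N0 : ℝ) ^ (1 : ℝ) :=
          Real.rpow_le_rpow_of_exponent_le (by linarith) (by norm_num)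
      _ = N0 := Real.rpow_one _
      _ ≤ _ := hN0le
  set S := (Icc 1 N0).filter (fun n => A (n + X) ∧ B (b ^ h * (n + X) + r)) with hS
  have hM0 : MM q b h r ≠ 0 := MM_ne hb hr
  have hDD : DD 1 X (b ^ h) (b ^ h * X + r) ∣ MM q b h r := by
    rw [DD_eq]; unfold MM; exact dvd_mul_left _ _
  have hmain := hsv 1 X (b ^ h) (b ^ h * X + r) N0 (MM q b h r) one_pos (by positivity)
    (two_dvd_MM hq2) hM0 hDD hN02 S (filter_subset _ _) (by
      intro n hn l hl hlz hlM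
      have hql := lt_of_not_dvd_MM hl hlM
      rw [hS, mem_filter, mem_Icc] at hn
      obtain ⟨⟨hn1, _⟩, hQ1, hQ2⟩ := hn
      have e1 : 1 * n + X = n + X := by ring
      have e2 : b ^ h * n + (b ^ h * X + r) = b ^ h * (n + X) + r := by ring
      rw [e1, e2]
      exact ⟨hA _ hQ1 l hl (by omega) (hlz.trans hz), hB _ hQ2 l hl hql (hlz.trans hz)⟩)
  have hr1 := hP q (by omega) h r (by omega) hr hrb
  have hlq : Real.log q ≤ 2 * Real.log p := by
    have hq2p : (q : ℝ) ≤ p * p := hph.trans (mul_le_mul_of_nonneg_right g2 hp0.le)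
    calc Real.log q ≤ Real.log (p * p) := Real.log_le_log (by positivity) hq2p
      _ = 2 * Real.log p := by rw [Real.log_mul hp0.ne' hp0.ne']; ring
  have hlq0 : 0 ≤ Real.log q := Real.log_natCast_nonneg q
  have hlp0 : 0 ≤ Real.log p := Real.log_natCast_nonneg p
  have hr2 : ((MM q b h r : ℕ) : ℝ) / (Nat.totient (MM q b h r) : ℝ) ≤ 2 * C1 * Real.log p := by
    calc _ ≤ C1 * Real.log q := hr1
      _ ≤ C1 * (2 * Real.log p) := by gcongr
      _ = _ := by ring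
  have hr0 : 0 ≤ ((MM q b h r : ℕ) : ℝ) / (Nat.totient (MM q b h r) : ℝ) := by positivity
  have hlogH : η / 2 * p ≤ Real.log N0 := by
    have h1 : Real.exp (η * p) / 2 ≤ N0 := by linarith
    have h2 : Real.log (Real.exp (η * p) / 2) ≤ Real.log N0 := Real.log_le_log (by positivity) h1
    rw [Real.log_div hEpos.ne' two_ne_zero, Real.log_exp] at h2
    have h3 : Real.log 2 ≤ 1 := by
      have := Real.log_two_lt_d9
      linarith
    linarith
  have hlbp : 0 < η / 2 * p := by positivity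
  calc (S.card : ℝ) ≤ C0 * (((MM q b h r : ℕ) : ℝ) / (Nat.totient (MM q b h r) : ℝ)) ^ 2 * N0 /
        (Real.log N0) ^ 2 := hmain
    _ ≤ C0 * (2 * C1 * Real.log p) ^ 2 * N0 / (η / 2 * p) ^ 2 := by gcongr
    _ = _ := by field_simp

open Classical in
/-- two sieved events at related integers, a long block -/
lemma near_long {b : ℕ} (hb : 2 ≤ b) {η Λ : ℝ} (hη : 0 < η) (hΛ : 1 ≤ Λ) : ∃ K : ℝ, 0 < K ∧ ∃ P : ℕ, 2 ≤ P ∧
    ∀ p ≥ P, ∀ h r : ℕ, ((p + h : ℕ) : ℝ) ≤ Λ * p → 0 < r → r < b ^ h → ∀ X N : ℕ, 1 ≤ X →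
    Real.exp (η * p) ≤ N →
    ∀ A B : ℕ → Prop, (∀ n, A n → NoMid p (Real.exp (η * p)) n) →
    (∀ n, B n → NoMid (p + h) (Real.exp (η * p)) n) →
    (((range N).filter (fun k => A (X + k) ∧ B (b ^ h * (X + k) + r))).card : ℝ) ≤
      K * (Real.log p / p) ^ 2 * N := by
  obtain ⟨K, hK, P, hP2, hP⟩ := near_one hb hη hΛ
  refine ⟨2 * K, by positivity, P, hP2, fun p hp h r hph hr hrb X N hX hN A B hA hB => ?_⟩
  obtain ⟨hN02, hone⟩ := hP p hp
  set N0 := ⌊Real.exp (η * p)⌋₊ with hN0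
  have hN0le : (N0 : ℝ) ≤ Real.exp (η * p) := Nat.floor_le (Real.exp_pos _).le
  have hN0N : N0 ≤ N := by exact_mod_cast hN0le.trans hN
  have hN00 : (0 : ℝ) < N0 := by exact_mod_cast (by omega : 0 < N0)
  have hsub : (range N).filter (fun k => A (X + k) ∧ B (b ^ h * (X + k) + r)) ⊆
      (range (N / N0 + 1)).biUnion (fun i => ((Icc 1 N0).filter
        (fun n => A (n + (X + i * N0 - 1)) ∧ B (b ^ h * (n + (X + i * N0 - 1)) + r))).image
          (fun n => i * N0 + (n - 1))) := by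
    intro k hk
    rw [mem_filter, mem_range] at hk
    obtain ⟨hk1, hk2⟩ := hk
    have hmod : k % N0 < N0 := Nat.mod_lt _ (by omega)
    have hdiv := Nat.div_add_mod k N0
    rw [mem_biUnion]
    refine ⟨k / N0, ?_, ?_⟩
    · rw [mem_range]
      have := Nat.div_le_div_right (c := N0) hk1.le
      omega
    · rw [mem_image]
      refine ⟨k % N0 + 1, ?_, ?_⟩
      · rw [mem_filter, mem_Icc]
        have e : k % N0 + 1 + (X + k / N0 * N0 - 1) = X + k := by
          have : k / N0 * N0 = N0 * (k / N0) := mul_comm _ _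
          omega
        rw [e]
        exact ⟨⟨by omega, by omega⟩, hk2⟩
      · have : k / N0 * N0 = N0 * (k / N0) := mul_comm _ _
        omega
  have h1 := (card_le_card hsub).trans card_biUnion_le
  have h2 : (((range N).filter (fun k => A (X + k) ∧ B (b ^ h * (X + k) + r))).card : ℝ) ≤
      ∑ i ∈ range (N / N0 + 1), K * (Real.log p / p) ^ 2 * N0 := by
    have h3 : (((range N).filter (fun k => A (X + k) ∧ B (b ^ h * (X + k) + r))).card : ℝ) ≤
        ∑ i ∈ range (N / N0 + 1), ((((Icc 1 N0).filter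
        (fun n => A (n + (X + i * N0 - 1)) ∧ B (b ^ h * (n + (X + i * N0 - 1)) + r))).image
          (fun n => i * N0 + (n - 1))).card : ℝ) := by exact_mod_cast h1
    refine h3.trans (Finset.sum_le_sum fun i _ => ?_)
    refine le_trans ?_ (hone h r hph hr hrb (X + i * N0 - 1) A B hA hB)
    exact_mod_cast card_image_le
  refine h2.trans ?_
  rw [Finset.sum_const, card_range, nsmul_eq_mul]
  have h4 : ((N / N0 + 1 : ℕ) : ℝ) * N0 ≤ 2 * N := by
    have h5 : (N / N0 + 1) * N0 ≤ 2 * N := by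
      have := Nat.div_mul_le_self N N0
      nlinarith
    exact_mod_cast h5
  have h6 : 0 ≤ K * (Real.log p / p) ^ 2 := by positivity
  calc ((N / N0 + 1 : ℕ) : ℝ) * (K * (Real.log p / p) ^ 2 * N0) =
        K * (Real.log p / p) ^ 2 * (((N / N0 + 1 : ℕ) : ℝ) * N0) := by ring
    _ ≤ K * (Real.log p / p) ^ 2 * (2 * N) := mul_le_mul_of_nonneg_left h4 h6
    _ = _ := by ring

open Classical in
/-- the indicator of a family of sets -/
noncomputable def ind (A : ℕ → ℕ → Prop) (q n : ℕ) : ℝ := if A q n then 1 else 0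

lemma ind01 (A : ℕ → ℕ → Prop) (q n : ℕ) : ind A q n = 0 ∨ ind A q n = 1 := by
  unfold ind
  split_ifs
  · right; rfl
  · left; rfl

lemma ind_nonneg (A : ℕ → ℕ → Prop) (q n : ℕ) : 0 ≤ ind A q n := by
  rcases ind01 A q n with h | h <;> rw [h]
  norm_num

lemma ind_le_one (A : ℕ → ℕ → Prop) (q n : ℕ) : ind A q n ≤ 1 := by
  rcases ind01 A q n with h | h <;> rw [h]
  norm_num

/-- the family of sets is sieved -/
def Sieved (A : ℕ → ℕ → Prop) (η : ℝ) : Prop := ∀ q n, A q n → NoMid q (Real.exp (η * q)) n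

/-- near pairs -/
theorem near_pair {b : ℕ} (hb : 2 ≤ b) {η Λ : ℝ} (hη : 0 < η) (hΛ : 1 ≤ Λ) : ∃ K : ℝ, 0 < K ∧ ∃ P : ℕ, 2 ≤ P ∧
    ∀ A : ℕ → ℕ → Prop, Sieved A η →
    ∀ p ≥ P, ∀ q : ℕ, p ≤ q → (q : ℝ) ≤ Λ * p → ∀ X N : ℕ, 1 ≤ X → Real.exp (η * p) ≤ N →
    ∑ k ∈ range N, ∑ r ∈ range (b ^ (q - p)), ind A p (X + k) * ind A q (b ^ (q - p) * (X + k) + r) ≤
      K * (Real.log p / p) ^ 2 * (N * (b : ℝ) ^ (q - p)) + ∑ k ∈ range N, ind A p (X + k) := by
  classical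
  obtain ⟨K, hK, P, hP2, hP⟩ := near_long hb hη hΛ
  refine ⟨K, hK, P, hP2, fun A hA p hp q hpq hq X N hX hN => ?_⟩
  set h := q - p with hh
  have hqh : p + h = q := by omega
  have hbh : 0 < b ^ h := by positivity
  obtain ⟨M, hM⟩ : ∃ M, b ^ h = M + 1 := ⟨b ^ h - 1, by omega⟩
  rw [Finset.sum_comm, show range (b ^ h) = range (M + 1) by rw [hM], Finset.sum_range_succ']
  have h0 : ∑ k ∈ range N, ind A p (X + k) * ind A q (b ^ h * (X + k) + 0) ≤
      ∑ k ∈ range N, ind A p (X + k) := by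
    refine Finset.sum_le_sum fun k _ => ?_
    exact mul_le_of_le_one_right (ind_nonneg _ _ _) (ind_le_one _ _ _)
  have h1 : ∑ r ∈ range M, ∑ k ∈ range N,
      ind A p (X + k) * ind A q (b ^ h * (X + k) + (r + 1)) ≤
      ∑ r ∈ range M, K * (Real.log p / p) ^ 2 * N := by
    refine Finset.sum_le_sum fun r hr => ?_
    rw [mem_range] at hr
    have hr' : r + 1 < b ^ h := by omega
    have h2 := hP p hp h (r + 1) (by rw [hqh]; exact hq) (by omega) hr' X N hX hN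
      (A p) (A q) (hA p) (fun n hn => by
        rw [hqh]
        intro l hl hql hlz
        exact hA q n hn l hl hql (hlz.trans (Real.exp_le_exp.2
          (mul_le_mul_of_nonneg_left (by exact_mod_cast hpq) hη.le))))
    refine le_trans (le_of_eq ?_) h2
    rw [Finset.card_filter, Nat.cast_sum]
    refine Finset.sum_congr rfl fun k _ => ?_
    unfold ind
    by_cases g1 : A p (X + k) <;> by_cases g2 : A q (b ^ h * (X + k) + (r + 1)) <;> simp [g1, g2]
  refine (add_le_add h1 h0).trans ?_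
  rw [Finset.sum_const, card_range, nsmul_eq_mul]
  have h3 : (M : ℝ) ≤ (b : ℝ) ^ h := by
    have : M ≤ b ^ h := by omega
    exact_mod_cast this
  have h6 : 0 ≤ K * (Real.log p / p) ^ 2 * N := by positivity
  have h7 := mul_le_mul_of_nonneg_right h3 h6
  linarith

end Pool.Agent.H538
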