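import Pool.Agent.H538.K5
import Pool.Agent.H538.S6

set_option autoImplicit false

/-!
# Near pairs of integers with few prime factors in `(q, z]`
-/

namespace Pool.Agent.H538

open Finset Filter Topology
open Pool.Agent.W66 (sift_two ratio_bound MM MM_ne two_dvd_MM lt_of_not_dvd_MM)
open Pool.Agent.Helper112.E456.SieveAux (DD)
open Pool.Agent.TH888.R (wt wt_nonneg wt_le_one)

lemma ratio_mul {a b : ℕ} (ha : 0 < a) (hb : 0 < b) :
    ((a * b : ℕ) : ℝ) / (Nat.totient (a * b) : ℝ) ≤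
      ((a : ℕ) : ℝ) / (Nat.totient a : ℝ) * (((b : ℕ) : ℝ) / (Nat.totient b : ℝ)) := by
  have h1 : (0 : ℝ) < Nat.totient a := by exact_mod_cast Nat.totient_pos.2 ha
  have h2 : (0 : ℝ) < Nat.totient b := by exact_mod_cast Nat.totient_pos.2 hb
  have h3 : (Nat.totient a : ℝ) * Nat.totient b ≤ Nat.totient (a * b) := by
    exact_mod_cast Nat.totient_super_multiplicative a b
  rw [div_mul_div_comm]
  push_cast
  exact div_le_div_of_nonneg_left (by positivity) (by positivity) h3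

lemma ratio_tp : ∀ T : Finset ℕ, (∀ l ∈ T, l.Prime) →
    ((tp T : ℕ) : ℝ) / (Nat.totient (tp T) : ℝ) ≤ 2 ^ T.card := by
  classical
  intro T
  induction T using Finset.induction_on with
  | empty => intro _; simp [tp]
  | insert a T ha ih =>
    intro h
    have h1 := h a (Finset.mem_insert_self _ _)
    have h2 : ∀ l ∈ T, l.Prime := fun l hl => h l (Finset.mem_insert_of_mem hl)
    have hT0 : 0 < tp T := Finset.prod_pos fun l hl => (h2 l hl).pos
    have e : tp (insert a T) = a * tp T := by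
      unfold tp
      exact Finset.prod_insert ha
    rw [e, Finset.card_insert_of_notMem ha, pow_succ']
    refine (ratio_mul h1.pos hT0).trans (mul_le_mul ?_ (ih h2) (by positivity) (by norm_num))
    rw [Nat.totient_prime h1]
    have h3 : (2 : ℝ) ≤ a := by exact_mod_cast h1.two_le
    rw [Nat.cast_sub h1.one_lt.le, div_le_iff₀ (by push_cast; linarith)]
    push_cast
    linarith

/-- the sieve condition for fixed divisors -/
def SC (q : ℕ) (z : ℝ) (b h r : ℕ) (T1 T2 : Finset ℕ) (n : ℕ) : Prop :=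
  tp T1 ∣ n ∧ tp T2 ∣ b ^ h * n + r ∧ ∀ l ∈ PZ q z, l ∉ T1 → l ∉ T2 → ¬ l ∣ n ∧ ¬ l ∣ b ^ h * n + r

open Classical in
/-- fixed divisors, one block -/
lemma fix_block {b : ℕ} (hb : 2 ≤ b) {η Λ : ℝ} (hη : 0 < η) (hΛ : 1 ≤ Λ) (j : ℕ) : ∃ K : ℝ, 0 < K ∧
    ∃ P : ℕ, 2 ≤ P ∧ ∀ p ≥ P, 2 ≤ ⌊Real.exp (η * p)⌋₊ ∧ ∀ h r : ℕ, ((p + h : ℕ) : ℝ) ≤ Λ * p → 0 < r →
    r < b ^ h → ∀ T1 T2 : Finset ℕ, (∀ l ∈ T1, l.Prime) → (∀ l ∈ T2, l.Prime) → T1.card ≤ j → T2.card ≤ j →
    ∀ c : ℕ, tp T1 * tp T2 ≤ c →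
    (((range ⌊Real.exp (η * p)⌋₊).filter (fun i => SC (p + h) (Real.exp (η * p)) b h r T1 T2
      (c + tp T1 * tp T2 * i))).card : ℝ) ≤ K * (Real.log p / p) ^ 2 * ⌊Real.exp (η * p)⌋₊ := by
  obtain ⟨C0, hC0, hsv⟩ := sift_two
  obtain ⟨C1, hC1, hrat⟩ := ratio_bound hb
  refine ⟨C0 * ((8 : ℝ) ^ (2 * j) * (2 * C1)) ^ 2 / (η / 2) ^ 2, by positivity, ?_⟩
  obtain ⟨P, hP⟩ := eventually_atTop.1 hrat
  have hl1 : ∀ᶠ p : ℕ in atTop, 2 ≤ η * p :=
    (tendsto_natCast_atTop_atTop.const_mul_atTop hη).eventually_ge_atTop 2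
  have hl2 : ∀ᶠ p : ℕ in atTop, Λ ≤ p := tendsto_natCast_atTop_atTop.eventually_ge_atTop _
  obtain ⟨P2, hP2⟩ := (hl1.and hl2).exists_forall_of_atTop
  refine ⟨max (max P P2) 2, le_max_right _ _, fun p hp => ?_⟩
  have hpP : P ≤ p := (le_max_left _ _).trans ((le_max_left _ _).trans hp)
  have hpP2 : P2 ≤ p := (le_max_right _ _).trans ((le_max_left _ _).trans hp)
  have hp2 : 2 ≤ p := (le_max_right _ _).trans hp
  obtain ⟨g1, g2⟩ := hP2 p hpP2
  have hp2' : (2 : ℝ) ≤ p := by exact_mod_cast hp2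
  have hp0 : (0 : ℝ) < p := by linarith
  set N0 := ⌊Real.exp (η * p)⌋₊ with hN0
  have hEpos := Real.exp_pos (η * p)
  have hN0le : (N0 : ℝ) ≤ Real.exp (η * p) := Nat.floor_le hEpos.le
  have hE3 : (3 : ℝ) ≤ Real.exp (η * p) := by have := Real.add_one_le_exp (η * p); linarith
  have hN02 : 2 ≤ N0 := Nat.le_floor (by push_cast; linarith)
  refine ⟨hN02, fun h r hph hr hrb T1 T2 hT1 hT2 hc1 hc2 c htc => ?_⟩
  have hN0gt : Real.exp (η * p) < N0 + 1 := Nat.lt_floor_add_one _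
  have hN0r : (2 : ℝ) ≤ N0 := by exact_mod_cast hN02
  set q := p + h with hq
  have hq2 : 2 ≤ q := by omega
  have hz : (N0 : ℝ) ^ ((1 : ℝ) / 8) ≤ Real.exp (η * p) := by
    calc (N0 : ℝ) ^ ((1 : ℝ) / 8) ≤ (N0 : ℝ) ^ (1 : ℝ) :=
          Real.rpow_le_rpow_of_exponent_le (by linarith) (by norm_num)
      _ = N0 := Real.rpow_one _
      _ ≤ _ := hN0le
  have ht1 : 0 < tp T1 := Finset.prod_pos fun l hl => (hT1 l hl).pos
  have ht2 : 0 < tp T2 := Finset.prod_pos fun l hl => (hT2 l hl).pos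
  set t := tp T1 * tp T2 with ht
  have ht0 : 0 < t := by positivity
  set S := (range N0).filter (fun i => SC q (Real.exp (η * p)) b h r T1 T2 (c + t * i)) with hS
  set S' := S.image (fun i => i + 1) with hS'
  have hcard : S'.card = S.card := Finset.card_image_of_injective _ (fun x y hxy => by omega)
  set M := MM q b h r * (t * t * t) with hM
  have hMM0 : MM q b h r ≠ 0 := MM_ne hb hr
  have hM0 : M ≠ 0 := by positivity
  set b₁ := c - t with hb₁
  have hb₁t : b₁ + t = c := by omega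
  have hDD : DD t b₁ (b ^ h * t) (b ^ h * b₁ + r) ∣ M := by
    unfold DD
    have e2 : (((t * (b ^ h * b₁ + r) : ℕ) : ℤ) - ((b ^ h * t * b₁ : ℕ) : ℤ)).natAbs = t * r := by
      have : (((t * (b ^ h * b₁ + r) : ℕ) : ℤ) - ((b ^ h * t * b₁ : ℕ) : ℤ)) = ((t * r : ℕ) : ℤ) := by
        push_cast; ring
      rw [this, Int.natAbs_natCast]
    rw [e2, hM]
    unfold MM
    exact ⟨primorial q, by ring⟩
  have hmain := hsv t b₁ (b ^ h * t) (b ^ h * b₁ + r) N0 M ht0 (by positivity)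
    ((two_dvd_MM hq2).mul_right _) hM0 hDD hN02 S' (by
      intro n hn
      obtain ⟨i, hi, rfl⟩ := Finset.mem_image.1 hn
      have := mem_range.1 (mem_filter.1 hi).1
      rw [mem_Icc]
      omega) (by
      intro n hn l hl hlz hlM
      obtain ⟨i, hi, rfl⟩ := Finset.mem_image.1 hn
      have hlM1 : ¬ l ∣ MM q b h r := fun hd => hlM (hd.mul_right _)
      have hlt : ¬ l ∣ t := fun hd => hlM ((hd.mul_left _).mul_left _)
      have hql := lt_of_not_dvd_MM hl hlM1
      obtain ⟨_, _, _, hsc⟩ := mem_filter.1 hi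
      have hlP : l ∈ PZ q (Real.exp (η * p)) := (mem_PZ hEpos.le).2 ⟨hl, hql, hlz.trans hz⟩
      have hl1 : l ∉ T1 := fun hm => hlt ((Finset.dvd_prod_of_mem (fun l => l) hm).mul_right _)
      have hl2 : l ∉ T2 := fun hm => hlt ((Finset.dvd_prod_of_mem (fun l => l) hm).mul_left _)
      have e1 : t * (i + 1) + b₁ = c + t * i := by rw [← hb₁t]; ring
      have e2 : b ^ h * t * (i + 1) + (b ^ h * b₁ + r) = b ^ h * (c + t * i) + r := by
        rw [← hb₁t]; ring
      rw [e1, e2]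
      exact hsc l hlP hl1 hl2)
  rw [hcard] at hmain
  have hr1 := hP q (by omega) h r (by omega) hr hrb
  have hlq : Real.log q ≤ 2 * Real.log p := by
    have hq2p : (q : ℝ) ≤ p * p := hph.trans (mul_le_mul_of_nonneg_right g2 hp0.le)
    calc Real.log q ≤ Real.log (p * p) := Real.log_le_log (by positivity) hq2p
      _ = 2 * Real.log p := by rw [Real.log_mul hp0.ne' hp0.ne']; ring
  have hlq0 : 0 ≤ Real.log q := Real.log_natCast_nonneg q
  have hlp0 : 0 ≤ Real.log p := Real.log_natCast_nonneg p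
  have hr2 : ((MM q b h r : ℕ) : ℝ) / (Nat.totient (MM q b h r) : ℝ) ≤ 2 * C1 * Real.log p := by
    calc _ ≤ C1 * Real.log q := hr1
      _ ≤ C1 * (2 * Real.log p) := by gcongr
      _ = _ := by ring
  have hrt : ((t : ℕ) : ℝ) / (Nat.totient t : ℝ) ≤ 2 ^ (2 * j) := by
    refine (ratio_mul ht1 ht2).trans ?_
    have h1 := ratio_tp T1 hT1
    have h2 := ratio_tp T2 hT2
    calc _ ≤ (2 : ℝ) ^ T1.card * 2 ^ T2.card := mul_le_mul h1 h2 (by positivity) (by positivity)
      _ = 2 ^ (T1.card + T2.card) := by rw [pow_add]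
      _ ≤ 2 ^ (2 * j) := pow_le_pow_right₀ (by norm_num) (by omega)
  have hrt3 : ((t * t * t : ℕ) : ℝ) / (Nat.totient (t * t * t) : ℝ) ≤ 8 ^ (2 * j) := by
    have h1 := ratio_mul (show 0 < t * t by positivity) ht0
    have h2 := ratio_mul ht0 ht0
    have h0 : 0 ≤ ((t : ℕ) : ℝ) / (Nat.totient t : ℝ) := by positivity
    calc _ ≤ _ := h1
      _ ≤ (((t : ℕ) : ℝ) / (Nat.totient t : ℝ) * (((t : ℕ) : ℝ) / (Nat.totient t : ℝ))) *
          (((t : ℕ) : ℝ) / (Nat.totient t : ℝ)) := mul_le_mul_of_nonneg_right h2 h0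
      _ ≤ ((2 : ℝ) ^ (2 * j) * 2 ^ (2 * j)) * 2 ^ (2 * j) := by gcongr
      _ = 8 ^ (2 * j) := by
          rw [← mul_pow, ← mul_pow]
          norm_num
  have hrM : ((M : ℕ) : ℝ) / (Nat.totient M : ℝ) ≤ 8 ^ (2 * j) * (2 * C1) * Real.log p := by
    rw [hM]
    refine (ratio_mul (Nat.pos_of_ne_zero hMM0) (by positivity)).trans ?_
    calc _ ≤ (2 * C1 * Real.log p) * 8 ^ (2 * j) :=
          mul_le_mul hr2 hrt3 (by positivity) (by positivity)
      _ = _ := by ring
  have hr0 : 0 ≤ ((M : ℕ) : ℝ) / (Nat.totient M : ℝ) := by positivity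
  have hlogH : η / 2 * p ≤ Real.log N0 := by
    have h1 : Real.exp (η * p) / 2 ≤ N0 := by linarith
    have h2 : Real.log (Real.exp (η * p) / 2) ≤ Real.log N0 := Real.log_le_log (by positivity) h1
    rw [Real.log_div hEpos.ne' two_ne_zero, Real.log_exp] at h2
    have h3 : Real.log 2 ≤ 1 := by
      have := Real.log_two_lt_d9
      linarith
    linarith
  have hlbp : 0 < η / 2 * p := by positivity
  calc (S.card : ℝ) ≤ C0 * (((M : ℕ) : ℝ) / (Nat.totient M : ℝ)) ^ 2 * N0 / (Real.log N0) ^ 2 := hmain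
    _ ≤ C0 * (8 ^ (2 * j) * (2 * C1) * Real.log p) ^ 2 * N0 / (η / 2 * p) ^ 2 := by gcongr
    _ = _ := by field_simp

open Classical in
/-- fixed divisors, a long interval -/
lemma fix_long {b : ℕ} (hb : 2 ≤ b) {η Λ : ℝ} (hη : 0 < η) (hΛ : 1 ≤ Λ) (j : ℕ) : ∃ K : ℝ, 0 < K ∧
    ∃ P : ℕ, 2 ≤ P ∧ ∀ p ≥ P, ∀ h r : ℕ, ((p + h : ℕ) : ℝ) ≤ Λ * p → 0 < r →
    r < b ^ h → ∀ T1 T2 : Finset ℕ, T1 ⊆ PZ (p + h) (Real.exp (η * p)) → T2 ⊆ PZ (p + h) (Real.exp (η * p)) →
    Disjoint T1 T2 → T1.card ≤ j → T2.card ≤ j → ∀ X N : ℕ,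
    Real.exp ((2 * j + 1) * (η * p)) ≤ N → N ≤ X →
    (((range N).filter (fun k => SC (p + h) (Real.exp (η * p)) b h r T1 T2 (X + k))).card : ℝ) ≤
      K * (Real.log p / p) ^ 2 * (N * ((tp T1 : ℝ)⁻¹ * (tp T2 : ℝ)⁻¹)) := by
  obtain ⟨K, hK, P, hP2, hP⟩ := fix_block hb hη hΛ j
  refine ⟨3 * K, by positivity, max P b, hP2.trans (le_max_left _ _),
    fun p hp h r hph hr hrb T1 T2 hT1 hT2 hdis hc1 hc2 X N hN hNX => ?_⟩
  have hpP : P ≤ p := (le_max_left _ _).trans hp
  have hpb : b ≤ p := (le_max_right _ _).trans hp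
  obtain ⟨hN02, hone⟩ := hP p hpP
  set z := Real.exp (η * p) with hz
  have hz0 : 0 < z := Real.exp_pos _
  have hz1 : 1 ≤ z := Real.one_le_exp (by positivity)
  set q := p + h with hq
  set N0 := ⌊z⌋₊ with hN0
  have hN0le : (N0 : ℝ) ≤ z := Nat.floor_le hz0.le
  have hT1' := fun l hl => (mem_PZ hz0.le).1 (hT1 hl : l ∈ PZ q z)
  have hT2' := fun l hl => (mem_PZ hz0.le).1 (hT2 hl : l ∈ PZ q z)
  have ht1 : 0 < tp T1 := tp_pos hz0.le hT1
  have ht2 : 0 < tp T2 := tp_pos hz0.le hT2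
  set t := tp T1 * tp T2 with ht
  have ht0 : 0 < t := by positivity
  have htle : (t : ℝ) ≤ Real.exp (2 * j * (η * p)) := by
    have h1 := tp_le hz1 hT1 hc1
    have h2 := tp_le hz1 hT2 hc2
    rw [ht]
    push_cast
    calc (tp T1 : ℝ) * tp T2 ≤ z ^ j * z ^ j := mul_le_mul h1 h2 (Nat.cast_nonneg _) (by positivity)
      _ = Real.exp (2 * j * (η * p)) := by
          rw [← pow_add, hz, ← Real.exp_nat_mul]
          congr 1
          push_cast
          ring
  have htN0 : (t : ℝ) * N0 ≤ N := by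
    calc (t : ℝ) * N0 ≤ Real.exp (2 * j * (η * p)) * z :=
          mul_le_mul htle hN0le (Nat.cast_nonneg _) (Real.exp_pos _).le
      _ = Real.exp ((2 * j + 1) * (η * p)) := by
          rw [hz, ← Real.exp_add]
          congr 1
          ring
      _ ≤ N := hN
  have htN0' : t * N0 ≤ N := by exact_mod_cast htN0
  set E := (range N).filter (fun k => SC q z b h r T1 T2 (X + k)) with hE
  rcases E.eq_empty_or_nonempty with hemp | hne
  · rw [hemp]
    simp only [card_empty, Nat.cast_zero]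
    positivity
  set k0 := E.min' hne with hk0
  have hk0E : k0 ∈ E := Finset.min'_mem _ _
  have hcop : Nat.Coprime (tp T1) (tp T2) := by
    unfold tp
    refine Nat.Coprime.prod_left fun l hl => Nat.Coprime.prod_right fun m hm => ?_
    refine (Nat.coprime_primes (hT1' l hl).1 (hT2' m hm).1).2 ?_
    rintro rfl
    exact (Finset.disjoint_left.1 hdis hl) hm
  have hcopb : Nat.Coprime (tp T2) (b ^ h) := by
    refine Nat.Coprime.pow_right _ ?_
    unfold tp
    refine Nat.Coprime.prod_left fun l hl => ?_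
    refine (Nat.Prime.coprime_iff_not_dvd (hT2' l hl).1).2 fun hd => ?_
    have h1 := Nat.le_of_dvd (by omega) hd
    have h2 := (hT2' l hl).2.1
    omega
  have hprog : ∀ k ∈ E, t ∣ k - k0 := by
    intro k hk
    have hkk : k0 ≤ k := Finset.min'_le _ _ hk
    obtain ⟨_, a1, a2, _⟩ := mem_filter.1 hk
    obtain ⟨_, b1, b2, _⟩ := mem_filter.1 hk0E
    rw [ht]
    refine Nat.Coprime.mul_dvd_of_dvd_of_dvd hcop ?_ ?_
    · have h1 := Nat.dvd_sub a1 b1
      have e : X + k - (X + k0) = k - k0 := by omega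
      rwa [e] at h1
    · have h1 := Nat.dvd_sub a2 b2
      have e : b ^ h * (X + k) + r - (b ^ h * (X + k0) + r) = b ^ h * (k - k0) := by
        rw [Nat.add_sub_add_right, ← Nat.mul_sub]
        congr 1
        omega
      rw [e] at h1
      exact hcopb.dvd_of_dvd_mul_left h1
  have htX : t ≤ X + k0 := by
    have h1 : t ≤ t * N0 := Nat.le_mul_of_pos_right _ (by omega)
    omega
  have hsub : E ⊆ ((range (N / t + 1)).filter (fun u => SC q z b h r T1 T2 (X + k0 + t * u))).image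
      (fun u => k0 + t * u) := by
    intro k hk
    obtain ⟨u, hu⟩ := hprog k hk
    have hkk : k0 ≤ k := Finset.min'_le _ _ hk
    have hk' : k = k0 + t * u := by omega
    obtain ⟨c1, c2⟩ := mem_filter.1 hk
    rw [mem_range] at c1
    rw [mem_image]
    refine ⟨u, ?_, hk'.symm⟩
    rw [mem_filter, mem_range]
    refine ⟨?_, ?_⟩
    · have h1 : u * t ≤ N := by
        rw [mul_comm]; omega
      have := (Nat.le_div_iff_mul_le ht0).2 h1
      omega
    · rw [hk', ← add_assoc] at c2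
      exact c2
  have h1 : (E.card : ℝ) ≤ (((range (N / t + 1)).filter
      (fun u => SC q z b h r T1 T2 (X + k0 + t * u))).card : ℝ) := by
    exact_mod_cast (card_le_card hsub).trans card_image_le
  have h2 := block_cover (fun u => SC q z b h r T1 T2 (X + k0 + t * u)) (N1 := N0) (by omega)
    (K := K * (Real.log p / p) ^ 2 * N0) (fun a => by
      have h3 := hone h r hph hr hrb T1 T2 (fun l hl => (hT1' l hl).1) (fun l hl => (hT2' l hl).1) hc1 hc2
        (X + k0 + t * a) (by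
          have : t ≤ X + k0 + t * a := by omega
          exact this)
      refine le_trans (le_of_eq ?_) h3
      refine congrArg (fun s : Finset ℕ => (s.card : ℝ)) (Finset.filter_congr fun i _ => ?_)
      have e : X + k0 + t * (a + i) = X + k0 + t * a + t * i := by ring
      show SC q z b h r T1 T2 (X + k0 + t * (a + i)) ↔ SC q z b h r T1 T2 (X + k0 + t * a + t * i)
      rw [e]) 0 (N / t + 1)
  simp only [zero_add] at h2
  refine (h1.trans h2).trans ?_
  have ht0r : (0 : ℝ) < t := by exact_mod_cast ht0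
  have hN00 : (0 : ℝ) < N0 := by exact_mod_cast (by omega : 0 < N0)
  have h4 : (((N / t + 1) / N0 + 1 : ℕ) : ℝ) * N0 ≤ 3 * (N / t) := by
    have h5 : (((N / t + 1) / N0 : ℕ) : ℝ) * N0 ≤ ((N / t + 1 : ℕ) : ℝ) := by
      exact_mod_cast Nat.div_mul_le_self _ _
    have h6 : ((N / t : ℕ) : ℝ) ≤ (N : ℝ) / t := Nat.cast_div_le
    have h7 : (N0 : ℝ) ≤ (N : ℝ) / t := by
      rw [le_div_iff₀ ht0r]
      linarith
    have h8 : (1 : ℝ) ≤ (N0 : ℝ) := by exact_mod_cast (by omega : 1 ≤ N0)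
    push_cast at h5 ⊢
    linarith
  calc (((N / t + 1) / N0 + 1 : ℕ) : ℝ) * (K * (Real.log p / p) ^ 2 * N0) =
        K * (Real.log p / p) ^ 2 * ((((N / t + 1) / N0 + 1 : ℕ) : ℝ) * N0) := by ring
    _ ≤ K * (Real.log p / p) ^ 2 * (3 * (N / t)) := mul_le_mul_of_nonneg_left h4 (by positivity)
    _ = _ := by
        rw [ht]
        push_cast
        field_simp

end Pool.Agent.H538
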