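import Pool.Agent.H538.K6
import Pool.Agent.H538.K7
import Pool.Graph.R_pool_sql_team_seeded_1acbe0a2.Y895.PM.G2

set_option autoImplicit false

/-!
# Near pairs of integers with `k` prime factors
-/

namespace Pool.Agent.H538

open Finset Filter Topology
open Pool.Agent.TH888.R (wt wt_nonneg wt_le_one)
open Pool.Agent.H305R2 (roughPart SM SMz mem_SMz SM_pos ZZ ZZ_nonneg tail_le VV VV_le sum_le_VV
  VV_tendsto ZZ_le_exp VV_nonneg)
open Pool.Agent.Y895.PM (sum_blocks)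

lemma esum_tp (P : Finset ℕ) (i : ℕ) : ∑ T ∈ P.powersetCard i, (tp T : ℝ)⁻¹ = esum P i := by
  unfold esum tp
  refine Finset.sum_congr rfl fun T _ => ?_
  push_cast
  rw [Finset.prod_inv_distrib]

lemma PZ_anti {q q' : ℕ} (h : q ≤ q') (z : ℝ) : PZ q' z ⊆ PZ q z := by
  intro l hl
  unfold PZ at hl ⊢
  rw [mem_filter, mem_Ioc] at hl ⊢
  exact ⟨⟨by omega, hl.1.2⟩, hl.2⟩

open Classical in
/-- near pairs of integers with at most `j` prime factors in `(q, z]` -/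
theorem near_few {b : ℕ} (hb : 2 ≤ b) {η Λ : ℝ} (hη : 0 < η) (hΛ : 1 ≤ Λ) (j : ℕ) : ∃ K : ℝ, 0 < K ∧
    ∃ P : ℕ, 2 ≤ P ∧ ∀ p ≥ P, ∀ h r : ℕ, ((p + h : ℕ) : ℝ) ≤ Λ * p → 0 < r → r < b ^ h → ∀ X N : ℕ,
    Real.exp ((2 * j + 1) * (η * p)) ≤ N → N ≤ X →
    (((range N).filter (fun k => (TN (p + h) (Real.exp (η * p)) (X + k)).card ≤ j ∧
      (TN (p + h) (Real.exp (η * p)) (b ^ h * (X + k) + r)).card ≤ j)).card : ℝ) ≤
      K * ((Real.log p) ^ (2 * j) * (Real.log p / p) ^ 2) * N := by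
  obtain ⟨K, hK, P, hP2, hP⟩ := fix_long hb hη hΛ j
  obtain ⟨P3, hP3⟩ := ((S1_asymp hη one_pos).and
    ((Real.tendsto_log_atTop.comp tendsto_natCast_atTop_atTop).eventually_ge_atTop (1 : ℝ))).exists_forall_of_atTop
  refine ⟨K * (((j : ℝ) + 1) * 2 ^ j) ^ 2, by positivity, max P P3, hP2.trans (le_max_left _ _),
    fun p hp h r hph hr hrb X N hN hNX => ?_⟩
  have hpP : P ≤ p := (le_max_left _ _).trans hp
  obtain ⟨⟨_, c1⟩, c2⟩ := hP3 p ((le_max_right _ _).trans hp)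
  simp only [Function.comp] at c2
  set z := Real.exp (η * p) with hz
  have hz0 : 0 < z := Real.exp_pos _
  set q := p + h with hq
  set Q := PZ q z with hQ
  have hl0 : 0 < Real.log p := by linarith
  -- the covering
  have hsub : (range N).filter (fun k => (TN q z (X + k)).card ≤ j ∧ (TN q z (b ^ h * (X + k) + r)).card ≤ j) ⊆
      (range (j + 1)).biUnion (fun i1 => (Q.powersetCard i1).biUnion (fun T1 =>
        (range (j + 1)).biUnion (fun i2 => (Q.powersetCard i2).biUnion (fun T2 =>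
          (range N).filter (fun k => Disjoint T1 T2 ∧ SC q z b h r T1 T2 (X + k)))))) := by
    intro k hk
    obtain ⟨h1, h2, h3⟩ := mem_filter.1 hk
    set T1 := TN q z (X + k) with hT1
    set T2 := TN q z (b ^ h * (X + k) + r) \ T1 with hT2
    have hT2sub : T2 ⊆ TN q z (b ^ h * (X + k) + r) := sdiff_subset
    have hT2c : T2.card ≤ j := (card_le_card hT2sub).trans h3
    refine mem_biUnion.2 ⟨T1.card, mem_range.2 (by omega), mem_biUnion.2 ⟨T1,
      mem_powersetCard.2 ⟨TN_sub q z _, rfl⟩, mem_biUnion.2 ⟨T2.card, mem_range.2 (by omega),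
      mem_biUnion.2 ⟨T2, mem_powersetCard.2 ⟨hT2sub.trans (TN_sub q z _), rfl⟩, mem_filter.2 ⟨h1, ?_, ?_, ?_, ?_⟩⟩⟩⟩⟩
    · exact disjoint_sdiff
    · exact tp_TN_dvd hz0.le _
    · refine dvd_trans ?_ (tp_TN_dvd (q := q) hz0.le (b ^ h * (X + k) + r))
      exact Finset.prod_dvd_prod_of_subset _ _ _ hT2sub
    · intro l hl hl1 hl2
      have g1 : ¬ l ∣ X + k := fun hd => hl1 (mem_filter.2 ⟨hl, hd⟩)
      refine ⟨g1, fun hd => hl2 ?_⟩
      exact Finset.mem_sdiff.2 ⟨mem_filter.2 ⟨hl, hd⟩, hl1⟩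
  have h1 : (((range N).filter (fun k => (TN q z (X + k)).card ≤ j ∧
      (TN q z (b ^ h * (X + k) + r)).card ≤ j)).card : ℝ) ≤
      ∑ i1 ∈ range (j + 1), ∑ T1 ∈ Q.powersetCard i1, ∑ i2 ∈ range (j + 1), ∑ T2 ∈ Q.powersetCard i2,
        (((range N).filter (fun k => Disjoint T1 T2 ∧ SC q z b h r T1 T2 (X + k))).card : ℝ) := by
    refine (Nat.cast_le.2 ((card_le_card hsub).trans card_biUnion_le)).trans ?_
    rw [Nat.cast_sum]
    refine Finset.sum_le_sum fun i1 _ => ?_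
    refine (Nat.cast_le.2 card_biUnion_le).trans ?_
    rw [Nat.cast_sum]
    refine Finset.sum_le_sum fun T1 _ => ?_
    refine (Nat.cast_le.2 card_biUnion_le).trans ?_
    rw [Nat.cast_sum]
    refine Finset.sum_le_sum fun i2 _ => ?_
    refine (Nat.cast_le.2 card_biUnion_le).trans ?_
    rw [Nat.cast_sum]
  have h2 : ∑ i1 ∈ range (j + 1), ∑ T1 ∈ Q.powersetCard i1, ∑ i2 ∈ range (j + 1), ∑ T2 ∈ Q.powersetCard i2,
        (((range N).filter (fun k => Disjoint T1 T2 ∧ SC q z b h r T1 T2 (X + k))).card : ℝ) ≤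
      ∑ i1 ∈ range (j + 1), ∑ T1 ∈ Q.powersetCard i1, ∑ i2 ∈ range (j + 1), ∑ T2 ∈ Q.powersetCard i2,
        K * (Real.log p / p) ^ 2 * N * (tp T1 : ℝ)⁻¹ * (tp T2 : ℝ)⁻¹ := by
    refine Finset.sum_le_sum fun i1 hi1 => Finset.sum_le_sum fun T1 hT1 => Finset.sum_le_sum fun i2 hi2 =>
      Finset.sum_le_sum fun T2 hT2 => ?_
    rw [mem_range] at hi1 hi2
    obtain ⟨a1, a2⟩ := mem_powersetCard.1 hT1
    obtain ⟨b1, b2⟩ := mem_powersetCard.1 hT2
    by_cases hd : Disjoint T1 T2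
    · have h3 := hP p hpP h r hph hr hrb T1 T2 a1 b1 hd (by omega) (by omega) X N hN hNX
      simp only [hd, true_and]
      refine h3.trans (le_of_eq ?_)
      ring
    · simp only [hd, false_and, Finset.filter_false, Finset.card_empty, Nat.cast_zero]
      positivity
  have h3 : ∑ i1 ∈ range (j + 1), ∑ T1 ∈ Q.powersetCard i1, ∑ i2 ∈ range (j + 1), ∑ T2 ∈ Q.powersetCard i2,
        K * (Real.log p / p) ^ 2 * N * (tp T1 : ℝ)⁻¹ * (tp T2 : ℝ)⁻¹ =
      K * (Real.log p / p) ^ 2 * N * ((∑ i ∈ range (j + 1), esum Q i) * (∑ i ∈ range (j + 1), esum Q i)) := by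
    simp only [← esum_tp, ← Finset.mul_sum]
    simp only [Finset.sum_mul, Finset.mul_sum]
    refine Finset.sum_congr rfl fun i1 _ => Finset.sum_congr rfl fun T1 _ => Finset.sum_congr rfl fun i2 _ =>
      Finset.sum_congr rfl fun T2 _ => ?_
    ring
  have hs : ∑ l ∈ Q, ((l : ℝ))⁻¹ ≤ 2 * Real.log p := by
    have h4 : ∑ l ∈ Q, ((l : ℝ))⁻¹ ≤ S1 p z := by
      unfold S1
      exact Finset.sum_le_sum_of_subset_of_nonneg (PZ_anti (by omega) z) fun _ _ _ => by positivity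
    linarith
  have hs0 : 0 ≤ ∑ l ∈ Q, ((l : ℝ))⁻¹ := Finset.sum_nonneg fun _ _ => by positivity
  have h4 : ∑ i ∈ range (j + 1), esum Q i ≤ ((j : ℝ) + 1) * 2 ^ j * (Real.log p) ^ j := by
    calc ∑ i ∈ range (j + 1), esum Q i ≤ ∑ i ∈ range (j + 1), 2 ^ j * (Real.log p) ^ j := by
          refine Finset.sum_le_sum fun i hi => ?_
          rw [mem_range] at hi
          calc esum Q i ≤ (∑ l ∈ Q, ((l : ℝ))⁻¹) ^ i := esum_le' Q i
            _ ≤ (2 * Real.log p) ^ i := pow_le_pow_left₀ hs0 hs _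
            _ ≤ (2 * Real.log p) ^ j := pow_le_pow_right₀ (by linarith) (by omega)
            _ = _ := mul_pow _ _ _
      _ = _ := by
          rw [Finset.sum_const, card_range, nsmul_eq_mul]
          push_cast
          ring
  have h5 : 0 ≤ ∑ i ∈ range (j + 1), esum Q i := Finset.sum_nonneg fun i _ => esum_nonneg Q i
  refine (h1.trans h2).trans ?_
  rw [h3]
  calc K * (Real.log p / p) ^ 2 * N * ((∑ i ∈ range (j + 1), esum Q i) * (∑ i ∈ range (j + 1), esum Q i)) ≤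
        K * (Real.log p / p) ^ 2 * N *
          ((((j : ℝ) + 1) * 2 ^ j * (Real.log p) ^ j) * (((j : ℝ) + 1) * 2 ^ j * (Real.log p) ^ j)) := by
        gcongr
    _ = _ := by ring

/-- exponentially few large smooth parts -/
lemma tail_exp {a : ℝ} (ha : 0 < a) : ∀ᶠ q : ℕ in atTop,
    ∀ y : ℝ, Real.exp (3 / 4 * (q * a)) ≤ y →
    y * ((cutS (1 / 2) (q * a) : ℝ) ^ (-(1 / 2) : ℝ) * ZZ q) + cutS (1 / 2) (q * a) * q ≤
      3 * Real.exp (-(1 / 16 * (q * a))) * y := by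
  have ht : Tendsto (fun q : ℕ => (q : ℝ) * a) atTop atTop :=
    tendsto_natCast_atTop_atTop.atTop_mul_const ha
  filter_upwards [growth ha (show (0 : ℝ) < 1 / 2 by norm_num) one_pos, ht.eventually_ge_atTop 1,
    le_exp_ev (c := 1 / 4) (by norm_num) ha] with q hq hL1 hqe y hy1
  obtain ⟨k1, k2, k3, k4, k5, k6⟩ := hq
  obtain ⟨L, hLdef⟩ : ∃ L : ℝ, L = q * a := ⟨_, rfl⟩
  rw [← hLdef] at k2 k3 k4 hL1 hy1 hqe ⊢
  have hy0 : 0 < y := lt_of_lt_of_le (Real.exp_pos _) hy1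
  set S : ℕ := cutS (1 / 2) L with hS
  have hSle : (S : ℝ) ≤ Real.exp (1 / 2 / 2 * L) := Nat.floor_le (Real.exp_pos _).le
  have hexp1 : 1 ≤ Real.exp (1 / 2 / 2 * L) := Real.one_le_exp (by positivity)
  have hS1 : 1 ≤ S := Nat.le_floor (by exact_mod_cast hexp1)
  have hS1r : (1 : ℝ) ≤ S := by exact_mod_cast hS1
  have hSge : Real.exp (1 / 2 / 2 * L) / 2 ≤ S := by
    have : Real.exp (1 / 2 / 2 * L) < S + 1 := Nat.lt_floor_add_one (Real.exp (1 / 2 / 2 * L))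
    linarith
  set E1 := (S : ℝ) ^ (-(1 / 2) : ℝ) * ZZ q with hE1
  have hE1le : E1 ≤ 2 * Real.exp (-(1 / 16 * L)) := by
    have h1 : (S : ℝ) ^ (-(1 / 2) : ℝ) ≤ (Real.exp (1 / 2 / 2 * L) / 2) ^ (-(1 / 2) : ℝ) :=
      Real.rpow_le_rpow_of_nonpos (by positivity) hSge (by norm_num)
    have h2 : (Real.exp (1 / 2 / 2 * L) / 2) ^ (-(1 / 2) : ℝ) ≤ 2 * Real.exp (-(1 / 8 * L)) := by
      rw [Real.div_rpow (Real.exp_pos _).le (by norm_num), ← Real.exp_mul]
      have h3 : (1 : ℝ) / 2 ≤ (2 : ℝ) ^ (-(1 / 2) : ℝ) := by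
        have : (2 : ℝ) ^ (-1 : ℝ) ≤ (2 : ℝ) ^ (-(1 / 2) : ℝ) :=
          Real.rpow_le_rpow_of_exponent_le (by norm_num) (by norm_num)
        rw [Real.rpow_neg_one] at this
        linarith
      rw [div_le_iff₀ (by positivity)]
      have h4 : 1 / 2 / 2 * L * -(1 / 2) = -(1 / 8 * L) := by ring
      rw [h4]
      have h5 := Real.exp_pos (-(1 / 8 * L))
      nlinarith
    calc E1 ≤ (2 * Real.exp (-(1 / 8 * L))) * Real.exp (1 / 2 / 8 * L) :=
          mul_le_mul (h1.trans h2) k2 (ZZ_nonneg q) (by positivity)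
      _ = 2 * Real.exp (-(1 / 16 * L)) := by rw [mul_assoc, ← Real.exp_add]; congr 2; ring
  have hSq : (S : ℝ) * q ≤ Real.exp (-(1 / 16 * L)) * y := by
    calc (S : ℝ) * q ≤ Real.exp (1 / 2 / 2 * L) * Real.exp (1 / 4 * L) :=
          mul_le_mul hSle (by linarith) (Nat.cast_nonneg _) (Real.exp_pos _).le
      _ = Real.exp (1 / 2 / 2 * L + 1 / 4 * L) := (Real.exp_add _ _).symm
      _ ≤ Real.exp (-(1 / 16 * L) + 3 / 4 * L) := by
          rw [Real.exp_le_exp]; linarith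
      _ = Real.exp (-(1 / 16 * L)) * Real.exp (3 / 4 * L) := Real.exp_add _ _
      _ ≤ _ := mul_le_mul_of_nonneg_left hy1 (Real.exp_pos _).le
  have := mul_le_mul_of_nonneg_left hE1le hy0.le
  linarith

/-- a large smooth part -/
def LS (q : ℕ) (a : ℝ) (n : ℕ) : Prop := cutS (1 / 2) (q * a) < n / roughPart q n

open Classical in
lemma LS_count {a : ℝ} (ha : 0 < a) : ∀ᶠ q : ℕ in atTop, ∀ B N : ℕ, 1 ≤ B → Real.exp (3 / 4 * (q * a)) ≤ N →
    ∑ k ∈ range N, (if LS q a (B + k) then (1 : ℝ) else 0) ≤ 3 * Real.exp (-(1 / 16 * (q * a))) * N := by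
  filter_upwards [tail_exp ha, eventually_ge_atTop 1] with q hq hq1 B N hB hN
  have h1 := hq N hN
  have hL0 : 0 ≤ (q : ℝ) * a := by positivity
  have hS1 : 1 ≤ cutS (1 / 2) (q * a) := Nat.le_floor (by
      have : 1 ≤ Real.exp (1 / 2 / 2 * ((q : ℝ) * a)) := Real.one_le_exp (by positivity)
      exact_mod_cast this)
  have hBr : (1 : ℝ) ≤ B := by exact_mod_cast hB
  have h2 := large_smooth (X := (B : ℝ) + N - 1) (y := N) (by linarith) (Nat.cast_nonneg _) hq1 hS1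
  refine le_trans (le_of_eq ?_) (h2.trans h1)
  have hN0 : (0 : ℝ) < N := lt_of_lt_of_le (Real.exp_pos _) hN
  have hN1 : 1 ≤ N := by exact_mod_cast (Nat.cast_pos.1 hN0)
  have e1 : ⌊(B : ℝ) + N - 1 - N⌋₊ = B - 1 := by
    have : (B : ℝ) + N - 1 - N = ((B - 1 : ℕ) : ℝ) := by push_cast [hB]; ring
    rw [this, Nat.floor_natCast]
  have e2 : ⌊(B : ℝ) + N - 1⌋₊ = B + N - 1 := by
    have : (B : ℝ) + N - 1 = ((B + N - 1 : ℕ) : ℝ) := by
      rw [Nat.cast_sub (by omega)]; push_cast; ring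
    rw [this, Nat.floor_natCast]
  rw [e1, e2]
  have e3 : Ioc (B - 1) (B + N - 1) = Ico B (B + N) := by
    ext x; simp only [mem_Ioc, mem_Ico]; omega
  have e4 := Finset.sum_Ico_eq_sum_range (fun n => if LS q a n then (1 : ℝ) else 0) B (B + N)
  rw [Nat.add_sub_cancel_left] at e4
  rw [e3, ← e4, Finset.card_filter, Nat.cast_sum]
  refine Finset.sum_congr rfl fun n _ => ?_
  by_cases h : LS q a n
  · rw [if_pos h, if_pos (show cutS (1 / 2) (q * a) < n / roughPart q n from h)]; simp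
  · rw [if_neg h, if_neg (show ¬ cutS (1 / 2) (q * a) < n / roughPart q n from h)]; simp

/-- the family of the integers with exactly `j + 1` prime factors above `q` -/
def AK (j q n : ℕ) : Prop := Om q n = j + 1

/-- few prime factors in `(q', z]` or a large smooth part -/
lemma AK_dichotomy {j q q' n : ℕ} {a z : ℝ} (hqq : q ≤ q') (hz : 1 ≤ z) (hn : n ≠ 0)
    (hbig : ((cutS (1 / 2) (q * a) : ℝ) + 1) * z ^ (j + 1) ≤ n) (h : AK j q n) :
    (TN q' z n).card ≤ j ∨ LS q a n := by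
  by_contra hc
  push Not at hc
  obtain ⟨h1, h2⟩ := hc
  apply h2
  have hz0 : 0 ≤ z := by linarith
  obtain ⟨M, hM⟩ := tp_TN_dvd (q := q') hz0 n
  have ht0 : 0 < tp (TN q' z n) := tp_pos hz0 (TN_sub q' z n)
  have hM0 : M ≠ 0 := by
    rintro rfl
    rw [mul_zero] at hM
    exact hn hM
  have hOt : Om q (tp (TN q' z n)) = (TN q' z n).card := Om_prod _ fun l hl => by
    have := (mem_PZ hz0).1 (TN_sub q' z n hl)
    exact ⟨this.1, by omega⟩
  have hsplit : Om q n = (TN q' z n).card + Om q M := by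
    conv_lhs => rw [hM]
    rw [Om_mul ht0.ne' hM0, hOt]
  have hA : Om q n = j + 1 := h
  have h4 : Om q M = 0 := by omega
  have h3 : (TN q' z n).card = j + 1 := by omega
  have hMs : M ∈ SM q := by
    obtain ⟨s, hs, he⟩ := split_smooth q hM0
    rw [Om_zero h4, mul_one] at he
    rw [he]; exact hs
  have hrt : Rgh q (tp (TN q' z n)) := by
    intro l hl hd
    unfold tp at hd
    obtain ⟨m, hm1, hm2⟩ := (Prime.dvd_finsetProd_iff hl.prime _).1 hd
    have h5 := (mem_PZ hz0).1 (TN_sub q' z n hm1)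
    rw [(Nat.prime_dvd_prime_iff_eq hl h5.1).1 hm2]
    omega
  have h5 : roughPart q n = tp (TN q' z n) := by
    conv_lhs => rw [hM, mul_comm]
    exact roughPart_mul' hMs ht0.ne' hrt
  unfold LS
  rw [h5]
  have hdiv : n / tp (TN q' z n) = M := Nat.div_eq_of_eq_mul_right ht0 hM
  rw [hdiv]
  have h6 : (tp (TN q' z n) : ℝ) ≤ z ^ (j + 1) := tp_le hz (TN_sub q' z n) h3.le
  have ht0r : (0 : ℝ) < tp (TN q' z n) := by exact_mod_cast ht0
  have h8 : ((cutS (1 / 2) (q * a) : ℝ) + 1) * tp (TN q' z n) ≤ M * tp (TN q' z n) := by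
    have h9 : ((cutS (1 / 2) (q * a) : ℝ) + 1) * tp (TN q' z n) ≤ (cutS (1 / 2) (q * a) + 1) * z ^ (j + 1) :=
      mul_le_mul_of_nonneg_left h6 (by positivity)
    have h10 : (n : ℝ) = M * tp (TN q' z n) := by
      rw [mul_comm]
      exact_mod_cast hM
    linarith
  have h9 := le_of_mul_le_mul_right h8 ht0r
  have h10 : cutS (1 / 2) (q * a) + 1 ≤ M := by exact_mod_cast h9
  omega

end Pool.Agent.H538
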