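import Pool.Agent.H538.K8

set_option autoImplicit false

/-!
# The correlation of near pairs
-/

namespace Pool.Agent.H538

open Finset Filter Topology
open Pool.Agent.TH888.R (wt wt_nonneg wt_le_one)
open Pool.Agent.H305R2 (roughPart SM SMz mem_SMz SM_pos ZZ ZZ_nonneg tail_le VV VV_le sum_le_VV
  VV_tendsto ZZ_le_exp VV_nonneg)
open Pool.Agent.Y895.PM (sum_blocks)

/-- near pairs -/
theorem near_pairK {b : ℕ} (hb : 2 ≤ b) {Λ : ℝ} (hΛ : 1 ≤ Λ) (j : ℕ) : ∃ K : ℝ, 0 < K ∧ ∃ P : ℕ, 2 ≤ P ∧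
    ∀ p ≥ P, ∀ q : ℕ, p ≤ q → (q : ℝ) ≤ Λ * p → ∀ X N : ℕ, N ≤ X → Real.exp (3 / 4 * (p * Real.log b)) ≤ N →
    ∑ k ∈ range N, ∑ r ∈ range (b ^ (q - p)), ind (AK j) p (X + k) * ind (AK j) q (b ^ (q - p) * (X + k) + r) ≤
      K * ((Real.log p) ^ (2 * j) * (Real.log p / p) ^ 2) * (N * (b : ℝ) ^ (q - p)) +
        ∑ k ∈ range N, ind (AK j) p (X + k) := by
  classical
  have hbr : (2 : ℝ) ≤ b := by exact_mod_cast hb
  have hb0 : (0 : ℝ) < b := by linarith
  set a := Real.log b with ha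
  have ha0 : 0 < a := Real.log_pos (by linarith)
  set η := a / (8 * (2 * j + 1)) with hη
  have hj0 : (0 : ℝ) < 2 * (j : ℝ) + 1 := by positivity
  have hj00 : (0 : ℝ) ≤ j := Nat.cast_nonneg j
  have hη0 : 0 < η := by positivity
  have hηj : (2 * j + 1) * η = a / 8 := by rw [hη]; field_simp
  obtain ⟨K, hK, P, hP2, hP⟩ := near_few hb hη0 hΛ j
  have ht : Tendsto (fun q : ℕ => (q : ℝ) * a) atTop atTop :=
    tendsto_natCast_atTop_atTop.atTop_mul_const ha0
  have hexpL : ∀ᶠ q : ℕ in atTop, 6 * Real.exp (-(1 / 16 * (q * a))) * (q : ℝ) ^ 2 ≤ 1 := by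
    have g1 : Tendsto (fun x : ℝ => x ^ 2 * Real.exp (-x)) atTop (𝓝 0) :=
      Real.tendsto_pow_mul_exp_neg_atTop_nhds_zero 2
    have g2 : Tendsto (fun q : ℕ => 1 / 16 * ((q : ℝ) * a)) atTop atTop := ht.const_mul_atTop (by norm_num)
    have g3 := (g1.comp g2).eventually (ge_mem_nhds (show (0 : ℝ) < a ^ 2 / (256 * 6) by positivity))
    filter_upwards [g3] with q hq
    simp only [Function.comp] at hq
    have e : 6 * Real.exp (-(1 / 16 * (q * a))) * (q : ℝ) ^ 2 =
        (256 * 6) / a ^ 2 * ((1 / 16 * (q * a)) ^ 2 * Real.exp (-(1 / 16 * (q * a)))) := by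
      field_simp
      ring
    rw [e]
    calc (256 * 6) / a ^ 2 * ((1 / 16 * (q * a)) ^ 2 * Real.exp (-(1 / 16 * (q * a)))) ≤
          (256 * 6) / a ^ 2 * (a ^ 2 / (256 * 6)) := mul_le_mul_of_nonneg_left hq (by positivity)
      _ = 1 := by field_simp
  obtain ⟨P3, hP3⟩ := ((LS_count ha0).and (hexpL.and ((ht.eventually_ge_atTop 8).and
    ((Real.tendsto_log_atTop.comp tendsto_natCast_atTop_atTop).eventually_ge_atTop
      (1 : ℝ))))).exists_forall_of_atTop
  refine ⟨K + 1, by positivity, max P P3, hP2.trans (le_max_left _ _),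
    fun p hp q hpq hq X N hNX hN => ?_⟩
  have hpP : P ≤ p := (le_max_left _ _).trans hp
  have hpP3 : P3 ≤ p := (le_max_right _ _).trans hp
  obtain ⟨c1, c2, c3, c4⟩ := hP3 p hpP3
  obtain ⟨d1, d2, d3, d4⟩ := hP3 q (hpP3.trans hpq)
  simp only [Function.comp] at c4
  have hp2 : 2 ≤ p := hP2.trans hpP
  have hp0 : (0 : ℝ) < p := by exact_mod_cast (by omega : 0 < p)
  set h := q - p with hh
  have hqh : p + h = q := by omega
  have hqr : (q : ℝ) = p + h := by rw [← hqh]; push_cast; ring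
  have hbh : 0 < b ^ h := by positivity
  set z := Real.exp (η * p) with hz
  have hz1 : 1 ≤ z := Real.one_le_exp (by positivity)
  have hzj : z ^ (j + 1) ≤ Real.exp (1 / 8 * (p * a)) := by
    rw [hz, ← Real.exp_nat_mul, Real.exp_le_exp]
    push_cast
    have h1 : (j + 1 : ℝ) * η ≤ a / 8 := by
      rw [← hηj]
      exact mul_le_mul_of_nonneg_right (by linarith) hη0.le
    calc ((j : ℝ) + 1) * (η * p) = ((j + 1) * η) * p := by ring
      _ ≤ a / 8 * p := mul_le_mul_of_nonneg_right h1 hp0.le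
      _ = _ := by ring
  have hcut : ∀ x : ℝ, 0 ≤ x → (cutS (1 / 2) x : ℝ) + 1 ≤ 2 * Real.exp (1 / 4 * x) := by
    intro x hx
    have h1 : (cutS (1 / 2) x : ℝ) ≤ Real.exp (1 / 2 / 2 * x) := Nat.floor_le (Real.exp_pos _).le
    have h2 : 1 ≤ Real.exp (1 / 4 * x) := Real.one_le_exp (by positivity)
    have h3 : (1 : ℝ) / 2 / 2 * x = 1 / 4 * x := by ring
    rw [h3] at h1
    linarith
  have hN0 : (0 : ℝ) < N := lt_of_lt_of_le (Real.exp_pos _) hN
  have hNXr : (N : ℝ) ≤ X := by exact_mod_cast hNX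
  have hX1 : 1 ≤ X := by
    have : (0 : ℝ) < X := by linarith
    exact_mod_cast (Nat.cast_pos.1 this)
  have hpa0 : 0 ≤ (p : ℝ) * a := by positivity
  have hqa0 : 0 ≤ (q : ℝ) * a := by positivity
  have hpow : (b : ℝ) ^ h = Real.exp (h * a) := by rw [Real.exp_nat_mul, ha, Real.exp_log hb0]
  have hbig1 : ∀ n : ℕ, X ≤ n → ((cutS (1 / 2) (p * a) : ℝ) + 1) * z ^ (j + 1) ≤ n := by
    intro n hn
    have h1 : (X : ℝ) ≤ n := by exact_mod_cast hn
    calc ((cutS (1 / 2) (p * a) : ℝ) + 1) * z ^ (j + 1) ≤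
          (2 * Real.exp (1 / 4 * (p * a))) * Real.exp (1 / 8 * (p * a)) :=
          mul_le_mul (hcut _ hpa0) hzj (by positivity) (by positivity)
      _ = 2 * Real.exp (3 / 8 * (p * a)) := by
          rw [mul_assoc, ← Real.exp_add]
          congr 2
          ring
      _ ≤ Real.exp (3 / 8 * (p * a)) * Real.exp (3 / 8 * (p * a)) := by
          apply mul_le_mul_of_nonneg_right _ (Real.exp_pos _).le
          have := Real.add_one_le_exp (3 / 8 * ((p : ℝ) * a))
          linarith
      _ = Real.exp (3 / 4 * (p * a)) := by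
          rw [← Real.exp_add]
          congr 1
          ring
      _ ≤ n := hN.trans (hNXr.trans h1)
  have hbhX : Real.exp (3 / 4 * (q * a)) ≤ (b : ℝ) ^ h * N := by
    calc Real.exp (3 / 4 * (q * a)) ≤ Real.exp (h * a + 3 / 4 * (p * a)) := by
          rw [Real.exp_le_exp, hqr]
          have : 0 ≤ (h : ℝ) * a := by positivity
          linarith
      _ = Real.exp (h * a) * Real.exp (3 / 4 * (p * a)) := Real.exp_add _ _
      _ ≤ (b : ℝ) ^ h * N := by
          rw [← hpow]
          exact mul_le_mul_of_nonneg_left hN (by positivity)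
  have hbig2 : ∀ n r : ℕ, X ≤ n →
      ((cutS (1 / 2) (q * a) : ℝ) + 1) * z ^ (j + 1) ≤ ((b ^ h * n + r : ℕ) : ℝ) := by
    intro n r hn
    have h1 : (X : ℝ) ≤ n := by exact_mod_cast hn
    have hpq' : (p : ℝ) * a ≤ q * a := mul_le_mul_of_nonneg_right (by exact_mod_cast hpq) ha0.le
    calc ((cutS (1 / 2) (q * a) : ℝ) + 1) * z ^ (j + 1) ≤
          (2 * Real.exp (1 / 4 * (q * a))) * Real.exp (1 / 8 * (q * a)) :=
          mul_le_mul (hcut _ hqa0) (hzj.trans (Real.exp_le_exp.2 (by linarith))) (by positivity) (by positivity)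
      _ = 2 * Real.exp (3 / 8 * (q * a)) := by
          rw [mul_assoc, ← Real.exp_add]
          congr 2
          ring
      _ ≤ Real.exp (3 / 8 * (q * a)) * Real.exp (3 / 8 * (q * a)) := by
          apply mul_le_mul_of_nonneg_right _ (Real.exp_pos _).le
          have := Real.add_one_le_exp (3 / 8 * ((q : ℝ) * a))
          linarith
      _ = Real.exp (3 / 4 * (q * a)) := by
          rw [← Real.exp_add]
          congr 1
          ring
      _ ≤ (b : ℝ) ^ h * N := hbhX
      _ ≤ (b : ℝ) ^ h * n := mul_le_mul_of_nonneg_left (hNXr.trans h1) (by positivity)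
      _ ≤ ((b ^ h * n + r : ℕ) : ℝ) := by
          push_cast
          have : (0 : ℝ) ≤ r := Nat.cast_nonneg r
          linarith
  obtain ⟨M, hM⟩ : ∃ M, b ^ h = M + 1 := ⟨b ^ h - 1, by omega⟩
  rw [Finset.sum_comm, show range (b ^ h) = range (M + 1) by rw [hM], Finset.sum_range_succ']
  have h0 : ∑ k ∈ range N, ind (AK j) p (X + k) * ind (AK j) q (b ^ h * (X + k) + 0) ≤
      ∑ k ∈ range N, ind (AK j) p (X + k) := by
    refine Finset.sum_le_sum fun k _ => ?_
    exact mul_le_of_le_one_right (ind_nonneg _ _ _) (ind_le_one _ _ _)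
  set W := (Real.log p) ^ (2 * j) * (Real.log p / p) ^ 2 with hW
  have hW0 : 0 ≤ W := by positivity
  have hWp : 6 * Real.exp (-(1 / 16 * (p * a))) ≤ W := by
    have h1 : 1 / (p : ℝ) ^ 2 ≤ W := by
      rw [hW, div_pow]
      have g1 : 1 ≤ (Real.log p) ^ (2 * j) := one_le_pow₀ c4
      have g2 : 1 ≤ (Real.log p) ^ 2 := one_le_pow₀ c4
      calc 1 / (p : ℝ) ^ 2 ≤ (Real.log p) ^ 2 / (p : ℝ) ^ 2 := div_le_div_of_nonneg_right g2 (by positivity)
        _ ≤ _ := le_mul_of_one_le_left (by positivity) g1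
    refine le_trans ?_ h1
    rw [le_div_iff₀ (by positivity)]
    exact c2
  have hlsp : ∑ k ∈ range N, (if LS p a (X + k) then (1 : ℝ) else 0) ≤
      3 * Real.exp (-(1 / 16 * (p * a))) * N := c1 X N hX1 hN
  have h1 : ∀ r ∈ range M, ∑ k ∈ range N,
      ind (AK j) p (X + k) * ind (AK j) q (b ^ h * (X + k) + (r + 1)) ≤
      K * W * N + 3 * Real.exp (-(1 / 16 * (p * a))) * N +
        ∑ k ∈ range N, (if LS q a (b ^ h * (X + k) + (r + 1)) then (1 : ℝ) else 0) := by
    intro r hr
    rw [mem_range] at hr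
    have hr' : r + 1 < b ^ h := by omega
    have h2 := hP p hpP h (r + 1) (by rw [hqh]; exact hq) (by omega) hr' X N (by
        refine le_trans ?_ hN
        rw [Real.exp_le_exp, ← mul_assoc, hηj]
        linarith) hNX
    have h3 : ∀ k ∈ range N, ind (AK j) p (X + k) * ind (AK j) q (b ^ h * (X + k) + (r + 1)) ≤
        (if ((TN (p + h) z (X + k)).card ≤ j ∧ (TN (p + h) z (b ^ h * (X + k) + (r + 1))).card ≤ j) then (1 : ℝ) else 0)
        + (if LS p a (X + k) then (1 : ℝ) else 0) +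
        (if LS q a (b ^ h * (X + k) + (r + 1)) then (1 : ℝ) else 0) := by
      intro k _
      have hn1 : (0 : ℝ) ≤ (if ((TN (p + h) z (X + k)).card ≤ j ∧
        (TN (p + h) z (b ^ h * (X + k) + (r + 1))).card ≤ j) then (1 : ℝ) else 0) := by split_ifs <;> norm_num
      have hn2 : (0 : ℝ) ≤ (if LS p a (X + k) then (1 : ℝ) else 0) := by split_ifs <;> norm_num
      have hn3 : (0 : ℝ) ≤ (if LS q a (b ^ h * (X + k) + (r + 1)) then (1 : ℝ) else 0) := by
        split_ifs <;> norm_num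
      by_cases g1 : AK j p (X + k)
      · by_cases g2 : AK j q (b ^ h * (X + k) + (r + 1))
        · have hle : ind (AK j) p (X + k) * ind (AK j) q (b ^ h * (X + k) + (r + 1)) ≤ 1 := by
            have e1 := ind_le_one (AK j) p (X + k)
            have e2 := ind_le_one (AK j) q (b ^ h * (X + k) + (r + 1))
            exact mul_le_one₀ e1 (ind_nonneg _ _ _) e2
          rcases AK_dichotomy (q' := p + h) (a := a) (by omega) hz1 (by omega)
            (hbig1 (X + k) (by omega)) g1 with a1 | a1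
          · rcases AK_dichotomy (q' := p + h) (a := a) (by omega) hz1 (by omega)
              (hbig2 (X + k) (r + 1) (by omega)) g2 with a2 | a2
            · rw [if_pos ⟨a1, a2⟩]
              linarith
            · rw [if_pos a2]
              linarith
          · rw [if_pos a1]
            linarith
        · have : ind (AK j) q (b ^ h * (X + k) + (r + 1)) = 0 := if_neg g2
          rw [this, mul_zero]
          positivity
      · have : ind (AK j) p (X + k) = 0 := if_neg g1
        rw [this, zero_mul]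
        positivity
    refine (Finset.sum_le_sum h3).trans ?_
    rw [Finset.sum_add_distrib, Finset.sum_add_distrib]
    have h4 : ∑ k ∈ range N, (if ((TN (p + h) z (X + k)).card ≤ j ∧
        (TN (p + h) z (b ^ h * (X + k) + (r + 1))).card ≤ j) then (1 : ℝ) else 0) ≤ K * W * N := by
      refine le_trans (le_of_eq ?_) h2
      rw [Finset.card_filter, Nat.cast_sum]
      refine Finset.sum_congr rfl fun k _ => ?_
      split_ifs <;> simp
    linarith
  have h5 : ∑ r ∈ range M, ∑ k ∈ range N, (if LS q a (b ^ h * (X + k) + (r + 1)) then (1 : ℝ) else 0) ≤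
      3 * Real.exp (-(1 / 16 * (q * a))) * (N * (b : ℝ) ^ h) := by
    have h6 : ∑ r ∈ range M, ∑ k ∈ range N, (if LS q a (b ^ h * (X + k) + (r + 1)) then (1 : ℝ) else 0) ≤
        ∑ r ∈ range (b ^ h), ∑ k ∈ range N, (if LS q a (b ^ h * (X + k) + r) then (1 : ℝ) else 0) := by
      rw [hM, Finset.sum_range_succ' (fun r => ∑ k ∈ range N, (if LS q a ((M + 1) * (X + k) + r) then (1 : ℝ) else 0))]
      rw [le_add_iff_nonneg_right]
      exact Finset.sum_nonneg fun _ _ => by split_ifs <;> norm_num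
    refine h6.trans ?_
    rw [Finset.sum_comm]
    have h7 : ∑ k ∈ range N, ∑ r ∈ range (b ^ h), (if LS q a (b ^ h * (X + k) + r) then (1 : ℝ) else 0) =
        ∑ D ∈ range (b ^ h * N), (if LS q a (b ^ h * X + D) then (1 : ℝ) else 0) := by
      rw [← sum_blocks (fun D => if LS q a (b ^ h * X + D) then (1 : ℝ) else 0) N (b ^ h)]
      refine Finset.sum_congr rfl fun k _ => Finset.sum_congr rfl fun r _ => ?_
      have e : b ^ h * (X + k) + r = b ^ h * X + (b ^ h * k + r) := by ring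
      rw [e]
    rw [h7]
    have h8 := d1 (b ^ h * X) (b ^ h * N) (Nat.one_le_iff_ne_zero.2 (by positivity)) (by
      push_cast
      exact hbhX)
    refine h8.trans (le_of_eq ?_)
    push_cast
    ring
  have h9 : Real.exp (-(1 / 16 * (q * a))) ≤ Real.exp (-(1 / 16 * (p * a))) := by
    rw [Real.exp_le_exp]
    have : (p : ℝ) * a ≤ q * a := mul_le_mul_of_nonneg_right (by exact_mod_cast hpq) ha0.le
    linarith
  have h10 := Finset.sum_le_sum h1
  rw [Finset.sum_add_distrib, Finset.sum_const, card_range, nsmul_eq_mul] at h10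
  have h11 : (M : ℝ) ≤ (b : ℝ) ^ h := by
    have : M ≤ b ^ h := by omega
    exact_mod_cast this
  have h12 : (M : ℝ) * (K * W * N + 3 * Real.exp (-(1 / 16 * (p * a))) * N) ≤
      (b : ℝ) ^ h * (K * W * N + 3 * Real.exp (-(1 / 16 * (p * a))) * N) :=
    mul_le_mul_of_nonneg_right h11 (by positivity)
  have h13 : 0 ≤ (N : ℝ) * (b : ℝ) ^ h := by positivity
  have h14 := mul_le_mul_of_nonneg_right h9 h13
  have h15 := mul_le_mul_of_nonneg_right hWp h13
  linarith

end Pool.Agent.H538
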