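import Pool.Agent.H538.S2
import Pool.Graph.R_seed8.H305R2.Rough

set_option autoImplicit false

/-!
# Splitting off the smooth part in short intervals
-/

namespace Pool.Agent.H538

open Finset Filter Topology
open Pool.Agent.H305R2 (roughPart SM SMz mem_SMz SM_pos ZZ ZZ_nonneg tail_le)

/-- all the prime factors exceed `q` -/
def Rgh (q m : ℕ) : Prop := ∀ l : ℕ, l.Prime → l ∣ m → q < l

lemma roughPart_mul' {q s m : ℕ} (hs : s ∈ SM q) (hm : m ≠ 0) (hr : Rgh q m) :
    roughPart q (s * m) = m := by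
  have hs0 := (SM_pos hs).ne'
  unfold roughPart
  have h1 := (Nat.perm_primeFactorsList_mul hs0 hm).filter (fun r => decide (q < r))
  rw [h1.prod_eq, List.filter_append, List.prod_append]
  have h2 : (s.primeFactorsList.filter (fun r => decide (q < r))) = [] := by
    rw [List.filter_eq_nil_iff]
    intro r hr
    have := hs.2 r hr
    simp only [decide_eq_true_eq]
    omega
  have h3 : (m.primeFactorsList.filter (fun r => decide (q < r))) = m.primeFactorsList := by
    rw [List.filter_eq_self]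
    intro r hr'
    simp only [decide_eq_true_eq]
    exact hr r (Nat.prime_of_mem_primeFactorsList hr') (Nat.dvd_of_mem_primeFactorsList hr')
  rw [h2, h3, List.prod_nil, one_mul, Nat.prod_primeFactorsList hm]

lemma roughPart_dvd_prime {q n l : ℕ} (hl : l.Prime) (h : l ∣ roughPart q n) : q < l ∧ l ∣ n := by
  unfold roughPart at h
  obtain ⟨r, hr, hd⟩ := (Prime.dvd_prod_iff (Nat.Prime.prime hl)).1 h
  have hr' := List.mem_filter.1 hr
  have hrp := Nat.prime_of_mem_primeFactorsList hr'.1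
  have := (Nat.prime_dvd_prime_iff_eq hl hrp).1 hd
  rw [this]
  exact ⟨by simpa using hr'.2, Nat.dvd_of_mem_primeFactorsList hr'.1⟩

lemma roughPart_rgh (q n : ℕ) : Rgh q (roughPart q n) := fun _ hl h => (roughPart_dvd_prime hl h).1

lemma roughPart_ne (q n : ℕ) : roughPart q n ≠ 0 := by
  unfold roughPart
  refine List.prod_ne_zero fun h => ?_
  have := Nat.prime_of_mem_primeFactorsList (List.mem_filter.1 h).1
  exact this.ne_zero rfl

lemma split_smooth {n : ℕ} (q : ℕ) (hn : n ≠ 0) : ∃ s ∈ SM q, n = s * roughPart q n := by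
  refine ⟨(n.primeFactorsList.filter (fun r => decide (r < q + 1))).prod,
    Nat.prod_mem_smoothNumbers n (q + 1), ?_⟩
  unfold roughPart
  conv_lhs => rw [← Nat.prod_primeFactorsList hn]
  have h1 := List.filter_append_perm (fun r => decide (r < q + 1)) n.primeFactorsList
  rw [← h1.prod_eq, List.prod_append]
  congr 2
  refine List.filter_congr fun r _ => ?_
  by_cases h2 : r < q + 1
  · have h3 : ¬ q < r := by omega
    simp [h2, h3]
  · have h3 : q < r := by omega
    simp [h2, h3]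

/-- a smooth number exceeding `S` has a divisor in `(S, S q]` -/
lemma exists_div {q S : ℕ} (hS1 : 1 ≤ S) : ∀ s : ℕ, s ∈ SM q → S < s → ∃ d ∈ SM q, d ∣ s ∧ S < d ∧ d ≤ S * q := by
  intro s
  induction s using Nat.strong_induction_on with
  | _ s ih =>
    intro hs hS
    by_cases h : s ≤ S * q
    · exact ⟨s, hs, dvd_rfl, hS, h⟩
    · push Not at h
      have hs1 : s ≠ 1 := by
        rintro rfl
        omega
      have hp := Nat.minFac_prime hs1
      have hpd := Nat.minFac_dvd s
      have hs0 := SM_pos hs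
      have hpq : s.minFac ≤ q := by
        have := hs.2 s.minFac ((Nat.mem_primeFactorsList hs0.ne').2 ⟨hp, hpd⟩)
        omega
      obtain ⟨t, ht⟩ := hpd
      have ht0 : t ≠ 0 := by
        rintro rfl
        rw [mul_zero] at ht
        omega
      have htd : t ∣ s := ⟨s.minFac, by rw [mul_comm]; exact ht⟩
      have htS : S < t := by
        by_contra hc
        push Not at hc
        have : s ≤ q * S := by
          calc s = s.minFac * t := ht
            _ ≤ q * S := Nat.mul_le_mul hpq hc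
        rw [mul_comm] at this
        omega
      have hts : t < s := by
        have h2 := hp.two_le
        calc t < 2 * t := by omega
          _ ≤ s.minFac * t := Nat.mul_le_mul_right _ h2
          _ = s := ht.symm
      have htm : t ∈ SM q := by
        refine ⟨ht0, fun r hr => hs.2 r ?_⟩
        rw [Nat.mem_primeFactorsList ht0] at hr
        exact (Nat.mem_primeFactorsList hs0.ne').2 ⟨hr.1, hr.2.trans htd⟩
      obtain ⟨d, hd1, hd2, hd3⟩ := ih t hts htm htS
      exact ⟨d, hd1, hd2.trans htd, hd3⟩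

open Classical in
/-- few integers of a short interval have a large smooth part -/
lemma large_smooth {X y : ℝ} (hy : 0 ≤ X - y) (hy0 : 0 ≤ y) {q S : ℕ} (hq : 1 ≤ q) (hS : 1 ≤ S) :
    (((Ioc ⌊X - y⌋₊ ⌊X⌋₊).filter (fun n => S < n / roughPart q n)).card : ℝ) ≤
      y * ((S : ℝ) ^ (-(1 / 2) : ℝ) * ZZ q) + S * q := by
  have hsub : (Ioc ⌊X - y⌋₊ ⌊X⌋₊).filter (fun n => S < n / roughPart q n) ⊆
      ((Ioc S (S * q)).filter (fun d => d ∈ SM q)).biUnion
        (fun d => (Ioc ⌊X - y⌋₊ ⌊X⌋₊).filter (fun n => d ∣ n)) := by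
    intro n hn
    obtain ⟨h1, h2⟩ := Finset.mem_filter.1 hn
    have hn0 : n ≠ 0 := by
      rintro rfl
      simp at h1
    obtain ⟨s, hs, he⟩ := split_smooth q hn0
    have hdiv : n / roughPart q n = s := by
      conv_lhs => rw [he]
      rw [roughPart_mul' hs (roughPart_ne q n) (roughPart_rgh q n)]
      exact Nat.mul_div_cancel s (Nat.pos_of_ne_zero (roughPart_ne q n))
    rw [hdiv] at h2
    obtain ⟨d, hd1, hd2, hd3, hd4⟩ := exists_div (q := q) hS s hs h2
    refine Finset.mem_biUnion.2 ⟨d, Finset.mem_filter.2 ⟨Finset.mem_Ioc.2 ⟨hd3, hd4⟩, hd1⟩,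
      Finset.mem_filter.2 ⟨h1, hd2.trans ⟨roughPart q n, he⟩⟩⟩
  have h1 : (((Ioc ⌊X - y⌋₊ ⌊X⌋₊).filter (fun n => S < n / roughPart q n)).card : ℝ) ≤
      ∑ d ∈ (Ioc S (S * q)).filter (fun d => d ∈ SM q), (y * (d : ℝ)⁻¹ + 1) := by
    have h2 := (Finset.card_le_card hsub).trans Finset.card_biUnion_le
    have h3 : (((Ioc ⌊X - y⌋₊ ⌊X⌋₊).filter (fun n => S < n / roughPart q n)).card : ℝ) ≤
        ∑ d ∈ (Ioc S (S * q)).filter (fun d => d ∈ SM q),
          (((Ioc ⌊X - y⌋₊ ⌊X⌋₊).filter (fun n => d ∣ n)).card : ℝ) := by exact_mod_cast h2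
    refine h3.trans (Finset.sum_le_sum fun d hd => ?_)
    have hd0 : 0 < d := SM_pos (Finset.mem_filter.1 hd).2
    have := card_mult hy hy0 d hd0
    rw [div_eq_mul_inv] at this
    exact this
  refine h1.trans ?_
  rw [Finset.sum_add_distrib, ← Finset.mul_sum, Finset.sum_const, nsmul_eq_mul, mul_one]
  have hS0 : (0 : ℝ) < S := by exact_mod_cast hS
  have h2 := tail_le q hS0 ((Ioc S (S * q)).filter (fun d => d ∈ SM q)) (fun n hn => by
    obtain ⟨g1, g2⟩ := Finset.mem_filter.1 hn
    rw [Finset.mem_Ioc] at g1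
    exact ⟨g2, by exact_mod_cast g1.1.le⟩)
  have h3 : (((Ioc S (S * q)).filter (fun d => d ∈ SM q)).card : ℝ) ≤ S * q := by
    have h4 : ((Ioc S (S * q)).filter (fun d => d ∈ SM q)).card ≤ S * q := by
      refine (Finset.card_filter_le _ _).trans ?_
      rw [Nat.card_Ioc]
      omega
    exact_mod_cast h4
  exact add_le_add (mul_le_mul_of_nonneg_left h2 hy0) h3

open Classical in
/-- the integers of a short interval with a condition on the smooth and the rough part -/
noncomputable def NP (q : ℕ) (X y : ℝ) (P : ℕ → ℕ → Prop) : ℕ :=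
  ((Ioc ⌊X - y⌋₊ ⌊X⌋₊).filter (fun n => P (n / roughPart q n) (roughPart q n))).card

open Classical in
/-- the rough parts belonging to the smooth part `s` -/
noncomputable def MP (q s : ℕ) (X y : ℝ) (P : ℕ → ℕ → Prop) : ℕ :=
  ((Ioc ⌊X / s - y / s⌋₊ ⌊X / s⌋₊).filter (fun m => Rgh q m ∧ P s m)).card

lemma sub_div_nonneg {X y : ℝ} (hy : 0 ≤ X - y) (s : ℕ) : 0 ≤ X / s - y / s := by
  rw [← sub_div]
  exact div_nonneg hy (Nat.cast_nonneg s)

/-- lower bound -/
lemma NP_lower {X y : ℝ} (hy : 0 ≤ X - y) (hX : 0 ≤ X) (q S : ℕ) (P : ℕ → ℕ → Prop) :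
    ∑ s ∈ SMz q (S : ℝ), (MP q s X y P : ℝ) ≤ NP q X y P := by
  classical
  have h1 : ∑ s ∈ SMz q (S : ℝ), MP q s X y P ≤ NP q X y P := by
    unfold MP NP
    rw [← Finset.card_sigma]
    refine Finset.card_le_card_of_injOn (fun x : (_ : ℕ) × ℕ => x.1 * x.2) ?_ ?_
    · rintro ⟨s, m⟩ hx
      simp only [Finset.coe_sigma, Set.mem_sigma_iff, Finset.mem_coe, Finset.mem_filter,
        Finset.mem_Ioc] at hx
      obtain ⟨h1, ⟨h2, h3⟩, h4, h5⟩ := hx
      have hs := ((mem_SMz (by positivity)).1 h1).1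
      have hs0 := SM_pos hs
      have hs0' : (0 : ℝ) < s := by exact_mod_cast hs0
      have hm0 : m ≠ 0 := by omega
      rw [Nat.floor_lt (sub_div_nonneg hy s), ← sub_div, div_lt_iff₀ hs0'] at h2
      rw [Nat.le_floor_iff (by positivity), le_div_iff₀ hs0'] at h3
      simp only [Finset.mem_coe, Finset.mem_filter, Finset.mem_Ioc]
      rw [roughPart_mul' hs hm0 h4, Nat.mul_div_cancel s (Nat.pos_of_ne_zero hm0)]
      refine ⟨⟨?_, ?_⟩, h5⟩
      · rw [Nat.floor_lt hy]
        push_cast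
        linarith
      · rw [Nat.le_floor_iff hX]
        push_cast
        linarith
    · rintro ⟨s, m⟩ hx ⟨s', m'⟩ hx' he
      simp only [Finset.coe_sigma, Set.mem_sigma_iff, Finset.mem_coe, Finset.mem_filter,
        Finset.mem_Ioc] at hx hx'
      obtain ⟨h1, ⟨h2, h3⟩, h4, h5⟩ := hx
      obtain ⟨h1', ⟨h2', h3'⟩, h4', h5'⟩ := hx'
      simp only at he
      have hs := ((mem_SMz (by positivity)).1 h1).1
      have hs' := ((mem_SMz (by positivity)).1 h1').1
      have hm0 : m ≠ 0 := by omega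
      have hm0' : m' ≠ 0 := by omega
      have e1 := roughPart_mul' hs hm0 h4
      have e2 := roughPart_mul' hs' hm0' h4'
      rw [he, e2] at e1
      subst e1
      have := Nat.eq_of_mul_eq_mul_right (Nat.pos_of_ne_zero hm0) he
      subst this
      rfl
  exact_mod_cast h1

/-- upper bound -/
lemma NP_upper {X y : ℝ} (hy : 0 ≤ X - y) (hy0 : 0 ≤ y) {q S : ℕ} (hq : 1 ≤ q) (hS : 1 ≤ S)
    (P : ℕ → ℕ → Prop) :
    (NP q X y P : ℝ) ≤ ∑ s ∈ SMz q (S : ℝ), (MP q s X y P : ℝ) +
      (y * ((S : ℝ) ^ (-(1 / 2) : ℝ) * ZZ q) + S * q) := by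
  classical
  have hX : 0 ≤ X := by linarith
  have h0 : (Ioc ⌊X - y⌋₊ ⌊X⌋₊).filter (fun n => P (n / roughPart q n) (roughPart q n)) ⊆
      ((SMz q (S : ℝ)).sigma (fun s => (Ioc ⌊X / s - y / s⌋₊ ⌊X / s⌋₊).filter
        (fun m => Rgh q m ∧ P s m))).image (fun x : (_ : ℕ) × ℕ => x.1 * x.2) ∪
      (Ioc ⌊X - y⌋₊ ⌊X⌋₊).filter (fun n => S < n / roughPart q n) := by
    intro n hn
    obtain ⟨h1, h2⟩ := Finset.mem_filter.1 hn
    rw [Finset.mem_union]
    by_cases hS' : S < n / roughPart q n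
    · right
      exact Finset.mem_filter.2 ⟨h1, hS'⟩
    · left
      rw [Finset.mem_Ioc] at h1
      have hn0 : n ≠ 0 := by omega
      obtain ⟨s, hs, he⟩ := split_smooth q hn0
      have hs0' : (0 : ℝ) < s := by exact_mod_cast SM_pos hs
      have hdiv : n / roughPart q n = s := by
        conv_lhs => rw [he]
        rw [roughPart_mul' hs (roughPart_ne q n) (roughPart_rgh q n)]
        exact Nat.mul_div_cancel s (Nat.pos_of_ne_zero (roughPart_ne q n))
      rw [hdiv] at hS' h2
      push Not at hS'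
      have hcast : (n : ℝ) = s * (roughPart q n : ℝ) := by
        conv_lhs => rw [he]
        push_cast
        ring
      have g1 : X - y < n := (Nat.floor_lt hy).1 h1.1
      have g2 : (n : ℝ) ≤ X := (Nat.le_floor_iff hX).1 h1.2
      refine Finset.mem_image.2 ⟨⟨s, roughPart q n⟩, ?_, he.symm⟩
      rw [Finset.mem_sigma, Finset.mem_filter, Finset.mem_Ioc]
      refine ⟨(mem_SMz (by positivity)).2 ⟨hs, by exact_mod_cast hS'⟩, ⟨?_, ?_⟩, roughPart_rgh q n, h2⟩
      · rw [Nat.floor_lt (sub_div_nonneg hy s), ← sub_div, div_lt_iff₀ hs0']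
        rw [hcast] at g1
        simp only
        linarith
      · rw [Nat.le_floor_iff (by positivity), le_div_iff₀ hs0']
        rw [hcast] at g2
        simp only
        linarith
  have h1 := (Finset.card_le_card h0).trans (Finset.card_union_le _ _)
  have h2 : NP q X y P ≤ ∑ s ∈ SMz q (S : ℝ), MP q s X y P +
      ((Ioc ⌊X - y⌋₊ ⌊X⌋₊).filter (fun n => S < n / roughPart q n)).card := by
    refine h1.trans ?_
    apply Nat.add_le_add_right
    refine Finset.card_image_le.trans ?_
    rw [Finset.card_sigma]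
    exact le_rfl
  have h3 : (NP q X y P : ℝ) ≤ ∑ s ∈ SMz q (S : ℝ), (MP q s X y P : ℝ) +
      (((Ioc ⌊X - y⌋₊ ⌊X⌋₊).filter (fun n => S < n / roughPart q n)).card : ℝ) := by exact_mod_cast h2
  refine h3.trans ?_
  gcongr
  exact large_smooth hy hy0 hq hS

end Pool.Agent.H538
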