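import Pool.Agent.H538.S3
import Pool.Agent.H538.S4

set_option autoImplicit false

/-!
# The density of the integers without medium prime factors in short intervals
-/

namespace Pool.Agent.H538

open Finset Filter Topology
open Pool.Agent.R529.BU (om WW om_ge om_le WW_cont)
open Pool.Agent.H305R2 (roughPart SM SMz mem_SMz SM_pos ZZ ZZ_nonneg tail_le VV VV_le sum_le_VV
  VV_tendsto ZZ_le_exp VV_nonneg)

/-- one smooth part -/
lemma one_term {v ε1 : ℝ} (hv : 1 < v) (hε1 : 0 < ε1) : ∃ θ κ : ℝ, 0 < θ ∧ θ ≤ 1 / 4 ∧ 0 < κ ∧ κ ≤ 1 / 4 ∧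
    ∀ D : ℝ, 0 ≤ D → ∃ L0 : ℝ, 1 ≤ L0 ∧ ∀ L : ℝ, L0 ≤ L → ∀ X y : ℝ, Real.exp ((1 - θ) * L) ≤ y →
      y ≤ κ * X → X ≤ Real.exp (L + D) →
      |((DR X y (Real.exp (L / v))).card : ℝ) * L - y * WW v| ≤ 3 * ε1 * y := by
  set n : ℕ := ⌈2 * v⌉₊ with hn
  have hn2v : 2 * v ≤ n := Nat.le_ceil _
  have hn2 : 2 ≤ n := by
    have : (2 : ℝ) ≤ n := by linarith
    exact_mod_cast this
  obtain ⟨κ, z0, hκ, hκ4, hQS⟩ := QS_all n hn2 ((v - 1) / 2) ε1 (by linarith) hε1
  obtain ⟨η, hη, hcont⟩ := Metric.continuousAt_iff.1 (WW_cont.continuousAt (x := v)) ε1 hε1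
  have hv0 : 0 < v := by linarith
  set θ : ℝ := min (min (κ / 2) ((v - 1) / (2 * v))) (min (min (η / (2 * v)) (ε1 / (2 * (v + 2 * ε1)))) (1 / 4)) with hθ
  have hθ0 : 0 < θ := by
    have h1 : 0 < (v - 1) / (2 * v) := div_pos (by linarith) (by linarith)
    rw [hθ]
    positivity
  have hθκ : θ ≤ κ / 2 := (min_le_left _ _).trans (min_le_left _ _)
  have hθv : θ ≤ (v - 1) / (2 * v) := (min_le_left _ _).trans (min_le_right _ _)
  have hθη : θ ≤ η / (2 * v) := (min_le_right _ _).trans ((min_le_left _ _).trans (min_le_left _ _))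
  have hθε : θ ≤ ε1 / (2 * (v + 2 * ε1)) := (min_le_right _ _).trans ((min_le_left _ _).trans (min_le_right _ _))
  have hθ4 : θ ≤ 1 / 4 := (min_le_right _ _).trans (min_le_right _ _)
  refine ⟨θ, κ, hθ0, hθ4, hκ, hκ4, fun D hD => ?_⟩
  refine ⟨max 1 (max (D / θ) (v * Real.log (max z0 1))), le_max_left _ _, fun L hL X y hy1 hy2 hX => ?_⟩
  have hL1 : 1 ≤ L := (le_max_left _ _).trans hL
  have hLD : D ≤ θ * L := by
    have : D / θ ≤ L := (le_max_left _ _).trans ((le_max_right _ _).trans hL)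
    rw [div_le_iff₀ hθ0] at this
    linarith
  have hLz : v * Real.log (max z0 1) ≤ L := (le_max_right _ _).trans ((le_max_right _ _).trans hL)
  have hL0 : 0 < L := by linarith
  have hy0 : 0 < y := lt_of_lt_of_le (Real.exp_pos _) hy1
  have hX0 : 0 < X := by
    by_contra h
    push Not at h
    have : κ * X ≤ 0 := mul_nonpos_of_nonneg_of_nonpos hκ.le h
    linarith
  have hyX : y ≤ X := by
    have : κ * X ≤ 1 * X := mul_le_mul_of_nonneg_right (by linarith) hX0.le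
    linarith
  set ℓ := Real.log X with hℓ
  have hℓ1 : (1 - θ) * L ≤ ℓ := by
    rw [hℓ, Real.le_log_iff_exp_le hX0]
    linarith
  have hℓ2 : ℓ ≤ (1 + θ) * L := by
    rw [hℓ]
    have := Real.log_le_log hX0 hX
    rw [Real.log_exp] at this
    linarith
  have hXe : X = Real.exp ℓ := (Real.exp_log hX0).symm
  have hz0 : z0 ≤ Real.exp (L / v) := by
    have h1 : Real.log (max z0 1) ≤ L / v := by rw [le_div_iff₀ hv0]; linarith
    have h2 : 0 < max z0 1 := lt_of_lt_of_le one_pos (le_max_right _ _)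
    calc z0 ≤ max z0 1 := le_max_left _ _
      _ = Real.exp (Real.log (max z0 1)) := (Real.exp_log h2).symm
      _ ≤ Real.exp (L / v) := Real.exp_le_exp.2 h1
  have hmul : 0 < 2 * v := by linarith
  have q1 : Real.exp (L / v) ^ (1 + (v - 1) / 2) ≤ X := by
    rw [← Real.exp_mul, hXe, Real.exp_le_exp]
    refine le_trans ?_ hℓ1
    have h1 : L / v * (1 + (v - 1) / 2) = (1 - (v - 1) / (2 * v)) * L := by field_simp; ring
    rw [h1]
    apply mul_le_mul_of_nonneg_right _ hL0.le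
    linarith
  have q2 : X ≤ Real.exp (L / v) ^ (n : ℝ) := by
    rw [← Real.exp_mul, hXe, Real.exp_le_exp]
    refine hℓ2.trans ?_
    have h1 : (1 + θ) * L ≤ 2 * L := mul_le_mul_of_nonneg_right (by linarith) hL0.le
    refine h1.trans ?_
    rw [div_mul_eq_mul_div, le_div_iff₀ hv0]
    nlinarith
  have q3 : X ^ (1 - κ) ≤ y := by
    refine le_trans ?_ hy1
    rw [hXe, ← Real.exp_mul, Real.exp_le_exp]
    have h1 : ℓ * (1 - κ) ≤ (1 + θ) * L * (1 - κ) := mul_le_mul_of_nonneg_right hℓ2 (by linarith)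
    refine h1.trans ?_
    have h2 : (1 + θ) * L * (1 - κ) = (1 + θ) * (1 - κ) * L := by ring
    rw [h2]
    apply mul_le_mul_of_nonneg_right _ hL0.le
    nlinarith
  have hmain := hQS (Real.exp (L / v)) hz0 X q1 q2 y q3 hy2
  rw [Real.log_exp, ← hℓ] at hmain
  set C : ℝ := ((DR X y (Real.exp (L / v))).card : ℝ) with hC
  set v' := ℓ / (L / v) with hv'
  have hv'e : v' - v = v * (ℓ - L) / L := by rw [hv']; field_simp
  have hvv : |v' - v| < η := by
    rw [hv'e, abs_div, abs_mul, abs_of_pos hv0, abs_of_pos hL0, div_lt_iff₀ hL0]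
    have h1 : |ℓ - L| ≤ θ * L := by
      rw [abs_le]; constructor <;> linarith
    have h2 : v * |ℓ - L| ≤ v * (θ * L) := mul_le_mul_of_nonneg_left h1 hv0.le
    have h3 : v * θ ≤ η / 2 := by
      rw [le_div_iff₀ hmul] at hθη
      linarith
    have h4 : v * θ * L ≤ η / 2 * L := mul_le_mul_of_nonneg_right h3 hL0.le
    have h5 : 0 < η * L := by positivity
    nlinarith
  have hWc : |WW v' - WW v| ≤ ε1 := by
    have := hcont (show dist v' v < η by rw [Real.dist_eq]; exact hvv)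
    rw [Real.dist_eq] at this
    exact this.le
  have hWv : WW v ≤ v := by
    have := om_le v hv.le
    have h1 : v * om v ≤ v * 1 := mul_le_mul_of_nonneg_left this hv0.le
    rw [mul_one] at h1
    exact h1
  have hWv0 : 0 ≤ WW v := by
    have := om_ge v hv.le
    exact mul_nonneg hv0.le (by linarith)
  obtain ⟨m1, m2⟩ := abs_le.1 hmain
  obtain ⟨c1, c2⟩ := abs_le.1 hWc
  have hC0 : 0 ≤ C := Nat.cast_nonneg _
  have hℓ0 : 0 < ℓ := lt_of_lt_of_le (mul_pos (by linarith) hL0) hℓ1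
  -- the change of the logarithm
  have hdev : |C * L - C * ℓ| ≤ ε1 * y := by
    have h1 : |L - ℓ| ≤ θ * L := by rw [abs_le]; constructor <;> linarith
    have h2 : L ≤ 4 / 3 * ℓ := by
      have : (1 - 1 / 4) * L ≤ (1 - θ) * L := mul_le_mul_of_nonneg_right (by linarith) hL0.le
      linarith
    have h3 : |C * L - C * ℓ| = C * |L - ℓ| := by rw [← mul_sub, abs_mul, abs_of_nonneg hC0]
    rw [h3]
    have h4 : C * ℓ ≤ y * (v + 2 * ε1) := by
      have : y * WW v' ≤ y * (v + ε1) := mul_le_mul_of_nonneg_left (by linarith) hy0.le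
      linarith
    have h5 : θ * (v + 2 * ε1) ≤ ε1 / 2 := by
      rw [le_div_iff₀ (by positivity)] at hθε
      linarith
    calc C * |L - ℓ| ≤ C * (θ * L) := mul_le_mul_of_nonneg_left h1 hC0
      _ ≤ C * (θ * (4 / 3 * ℓ)) :=
        mul_le_mul_of_nonneg_left (mul_le_mul_of_nonneg_left h2 hθ0.le) hC0
      _ = 4 / 3 * θ * (C * ℓ) := by ring
      _ ≤ 4 / 3 * θ * (y * (v + 2 * ε1)) := mul_le_mul_of_nonneg_left h4 (by positivity)
      _ = 4 / 3 * (θ * (v + 2 * ε1)) * y := by ring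
      _ ≤ 4 / 3 * (ε1 / 2) * y := by gcongr
      _ ≤ ε1 * y := by
        apply mul_le_mul_of_nonneg_right _ hy0.le
        linarith
  obtain ⟨d1, d2⟩ := abs_le.1 hdev
  have e1 : y * WW v' ≤ y * (WW v + ε1) := mul_le_mul_of_nonneg_left (by linarith) hy0.le
  have e2 : y * (WW v - ε1) ≤ y * WW v' := mul_le_mul_of_nonneg_left (by linarith) hy0.le
  rw [abs_le]
  constructor
  · linarith
  · linarith

/-- the condition on the rough part -/
def Big (z : ℝ) (_s m : ℕ) : Prop := ∀ l : ℕ, l.Prime → l ∣ m → z < l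

lemma MP_big {q s : ℕ} {X y z : ℝ} (hqz : (q : ℝ) ≤ z) : MP q s X y (Big z) = (DR (X / s) (y / s) z).card := by
  classical
  unfold MP DR
  congr 1
  refine Finset.filter_congr fun m _ => ?_
  constructor
  · rintro ⟨_, h⟩
    exact h
  · intro h
    refine ⟨fun l hl hd => ?_, h⟩
    have := h l hl hd
    exact_mod_cast lt_of_le_of_lt hqz this

/-- growth conditions -/
lemma growth {a θ ε1 : ℝ} (ha : 0 < a) (hθ : 0 < θ) (hε1 : 0 < ε1) : ∀ᶠ q : ℕ in atTop,
    1 ≤ Real.log q ∧ ZZ q ≤ Real.exp (θ / 8 * (q * a)) ∧ 2 * (q * a) * Real.exp (-(θ / 8 * (q * a))) ≤ ε1 / 2 ∧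
      q * (q * a) * Real.exp (-(1 / 2 * (q * a))) ≤ ε1 / 2 ∧
      (Real.exp Real.eulerMascheroniConstant - ε1) * Real.log q ≤ VV q ∧
      VV q ≤ (Real.exp Real.eulerMascheroniConstant + ε1) * Real.log q := by
  have h1 : ∀ᶠ q : ℕ in atTop, 1 ≤ Real.log q :=
    (Real.tendsto_log_atTop.comp tendsto_natCast_atTop_atTop).eventually_ge_atTop 1
  have h2 := ZZ_le_exp (show 0 < θ / 8 * a by positivity)
  have ht : Tendsto (fun q : ℕ => (q : ℝ) * a) atTop atTop :=
    tendsto_natCast_atTop_atTop.atTop_mul_const ha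
  have h3 : ∀ᶠ q : ℕ in atTop, 2 * (q * a) * Real.exp (-(θ / 8 * (q * a))) ≤ ε1 / 2 := by
    have g1 : Tendsto (fun x : ℝ => x ^ 1 * Real.exp (-x)) atTop (𝓝 0) :=
      Real.tendsto_pow_mul_exp_neg_atTop_nhds_zero 1
    have g2 : Tendsto (fun q : ℕ => θ / 8 * ((q : ℝ) * a)) atTop atTop := ht.const_mul_atTop (by positivity)
    have g3 := (g1.comp g2).eventually (ge_mem_nhds (show (0 : ℝ) < ε1 * θ / 32 by positivity))
    filter_upwards [g3] with q hq
    simp only [Function.comp, pow_one] at hq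
    have h5 : 2 * (q * a) * Real.exp (-(θ / 8 * (q * a))) =
        16 / θ * (θ / 8 * (q * a) * Real.exp (-(θ / 8 * (q * a)))) := by field_simp; ring
    rw [h5]
    calc 16 / θ * (θ / 8 * (q * a) * Real.exp (-(θ / 8 * (q * a)))) ≤ 16 / θ * (ε1 * θ / 32) :=
          mul_le_mul_of_nonneg_left hq (by positivity)
      _ = ε1 / 2 := by field_simp; norm_num
  have h4 : ∀ᶠ q : ℕ in atTop, (q : ℝ) * (q * a) * Real.exp (-(1 / 2 * (q * a))) ≤ ε1 / 2 := by
    have g1 : Tendsto (fun x : ℝ => x ^ 2 * Real.exp (-x)) atTop (𝓝 0) :=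
      Real.tendsto_pow_mul_exp_neg_atTop_nhds_zero 2
    have g2 : Tendsto (fun q : ℕ => 1 / 2 * ((q : ℝ) * a)) atTop atTop := ht.const_mul_atTop (by positivity)
    have g3 := (g1.comp g2).eventually (ge_mem_nhds (show (0 : ℝ) < ε1 * a / 8 by positivity))
    filter_upwards [g3] with q hq
    simp only [Function.comp] at hq
    have h5 : (q : ℝ) * (q * a) * Real.exp (-(1 / 2 * (q * a))) =
        4 / a * ((1 / 2 * (q * a)) ^ 2 * Real.exp (-(1 / 2 * (q * a)))) := by field_simp; ring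
    rw [h5]
    calc 4 / a * ((1 / 2 * (q * a)) ^ 2 * Real.exp (-(1 / 2 * (q * a)))) ≤ 4 / a * (ε1 * a / 8) :=
          mul_le_mul_of_nonneg_left hq (by positivity)
      _ = ε1 / 2 := by field_simp; norm_num
  have h5 := VV_tendsto.eventually (Ioo_mem_nhds
    (show Real.exp Real.eulerMascheroniConstant - ε1 < Real.exp Real.eulerMascheroniConstant by linarith)
    (show Real.exp Real.eulerMascheroniConstant < Real.exp Real.eulerMascheroniConstant + ε1 by linarith))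
  filter_upwards [h1, h2, h3, h4, h5] with q k1 k2 k3 k4 k5
  have hl : 0 < Real.log q := by linarith
  refine ⟨k1, ?_, k3, k4, ?_, ?_⟩
  · refine k2.trans (le_of_eq ?_)
    congr 1; ring
  · have := k5.1
    rw [lt_div_iff₀ hl] at this
    exact this.le
  · have := k5.2
    rw [div_lt_iff₀ hl] at this
    exact this.le

lemma dens_arith {W G ε1 ε l y H V E1 Sum NL v ES : ℝ} (hε1 : 0 < ε1) (he8 : ε1 ≤ 1 / 8)
    (hee : ε1 * (2 * v + 3 * G + 10) ≤ ε) (hG : 1 ≤ G) (hW : 1 / 2 ≤ W) (hWv : W ≤ v) (hl : 1 ≤ l)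
    (hy : 0 < y) (hV1 : (G - ε1) * l ≤ V) (hV2 : V ≤ (G + ε1) * l) (hH1 : H ≤ V) (hH2 : V - E1 ≤ H)
    (hE1 : E1 ≤ ε1 * l) (hS1 : Sum ≤ y * (W + 3 * ε1) * H) (hS2 : y * (W - 3 * ε1) * H ≤ Sum)
    (hN1 : Sum ≤ NL) (hN2 : NL ≤ Sum + ES) (hES : ES ≤ ε1 * l * y) :
    |NL - G * W * l * y| ≤ ε * l * y := by
  have hly : 0 < l * y := by positivity
  have hεly : ε1 * (2 * v + 3 * G + 10) * (l * y) ≤ ε * (l * y) := mul_le_mul_of_nonneg_right hee hly.le
  have hup : NL ≤ y * ((W + 3 * ε1) * ((G + ε1) * l)) + ε1 * l * y := by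
    have h1 : y * (W + 3 * ε1) * H ≤ y * (W + 3 * ε1) * ((G + ε1) * l) :=
      mul_le_mul_of_nonneg_left (hH1.trans hV2) (by positivity)
    linarith
  have hlo : y * ((W - 3 * ε1) * ((G - 2 * ε1) * l)) ≤ NL := by
    have h1 : y * (W - 3 * ε1) * ((G - 2 * ε1) * l) ≤ y * (W - 3 * ε1) * H :=
      mul_le_mul_of_nonneg_left (by linarith) (mul_nonneg hy.le (by linarith))
    linarith
  have k1 : (W + 3 * ε1) * (G + ε1) ≤ G * W + ε1 * (2 * v + 3 * G + 9) := by nlinarith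
  have k2 : G * W - ε1 * (2 * v + 3 * G + 10) ≤ (W - 3 * ε1) * (G - 2 * ε1) := by nlinarith
  have k3 := mul_le_mul_of_nonneg_right k1 hly.le
  have k4 := mul_le_mul_of_nonneg_right k2 hly.le
  rw [abs_le]
  constructor
  · linarith
  · linarith

/-- **The density of the integers without medium prime factors in short intervals.** -/
theorem dens {v ε : ℝ} (hv : 1 < v) (hε : 0 < ε) : ∃ δ κ : ℝ, 0 < δ ∧ δ ≤ 1 / 8 ∧ 0 < κ ∧ κ ≤ 1 / 4 ∧
    ∀ a : ℝ, 0 < a → ∀ D : ℝ, 0 ≤ D → ∃ P : ℕ, 2 ≤ P ∧ ∀ q ≥ P, ∀ X y : ℝ, Real.exp ((1 - δ) * (q * a)) ≤ y →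
      y ≤ κ * X → X ≤ Real.exp (q * a + D) →
      |(NP q X y (Big (Real.exp (q * a / v))) : ℝ) * (q * a) -
        Real.exp Real.eulerMascheroniConstant * WW v * Real.log q * y| ≤ ε * Real.log q * y := by
  set G := Real.exp Real.eulerMascheroniConstant with hG
  have hG1 : 1 ≤ G := by
    rw [hG]
    have h1 := Real.one_half_lt_eulerMascheroniConstant
    have := Real.add_one_le_exp Real.eulerMascheroniConstant
    linarith
  have hv0 : 0 < v := by linarith
  set ε1 : ℝ := min (1 / 8) (ε / (2 * v + 3 * G + 10)) with hε1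
  have hε10 : 0 < ε1 := by positivity
  have hε18 : ε1 ≤ 1 / 8 := min_le_left _ _
  have hee : ε1 * (2 * v + 3 * G + 10) ≤ ε := by
    have : ε1 ≤ ε / (2 * v + 3 * G + 10) := min_le_right _ _
    rwa [le_div_iff₀ (by positivity)] at this
  obtain ⟨θ, κ, hθ, hθ4, hκ, hκ4, hone⟩ := one_term hv hε10
  refine ⟨θ / 2, κ, by positivity, by linarith, hκ, hκ4, fun a ha D hD => ?_⟩
  obtain ⟨L0, hL01, hterm⟩ := hone D hD
  have ht : Tendsto (fun q : ℕ => (q : ℝ) * a) atTop atTop :=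
    tendsto_natCast_atTop_atTop.atTop_mul_const ha
  have hz : ∀ᶠ q : ℕ in atTop, (q : ℝ) ≤ Real.exp (q * a / v) := by
    have g1 : Tendsto (fun x : ℝ => x ^ 1 * Real.exp (-x)) atTop (𝓝 0) :=
      Real.tendsto_pow_mul_exp_neg_atTop_nhds_zero 1
    have g2 : Tendsto (fun q : ℕ => (q : ℝ) * a / v) atTop atTop := ht.atTop_div_const hv0
    have g3 := (g1.comp g2).eventually (ge_mem_nhds (show (0 : ℝ) < a / v by positivity))
    filter_upwards [g3] with q hq
    simp only [Function.comp, pow_one] at hq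
    have h1 : (q : ℝ) * (a / v) * Real.exp (-(q * a / v)) ≤ a / v := by
      rw [← mul_div_assoc]; exact hq
    have h2 : (q : ℝ) * Real.exp (-(q * a / v)) ≤ 1 := by
      have h3 : (a / v) * ((q : ℝ) * Real.exp (-(q * a / v))) ≤ (a / v) * 1 := by linarith
      exact le_of_mul_le_mul_left h3 (by positivity)
    rw [Real.exp_neg, ← div_eq_mul_inv, div_le_one (Real.exp_pos _)] at h2
    exact h2
  obtain ⟨P, hP⟩ := ((growth ha hθ hε10).and ((ht.eventually_ge_atTop L0).and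
    (hz.and (eventually_ge_atTop 2)))).exists_forall_of_atTop
  refine ⟨max P 2, le_max_right _ _, fun q hq X y hy1 hy2 hX => ?_⟩
  obtain ⟨⟨k1, k2, k3, k4, k5, k6⟩, k7, k8, k9⟩ := hP q ((le_max_left _ _).trans hq)
  obtain ⟨L, hLdef⟩ : ∃ L : ℝ, L = q * a := ⟨_, rfl⟩
  rw [← hLdef] at k2 k3 k4 k7 k8 hy1 hX ⊢
  have hL1 : 1 ≤ L := hL01.trans k7
  have hy0 : 0 < y := lt_of_lt_of_le (Real.exp_pos _) hy1
  have hX0 : 0 < X := by
    by_contra h
    push Not at h
    have : κ * X ≤ 0 := mul_nonpos_of_nonneg_of_nonpos hκ.le h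
    linarith
  have hyX : 0 ≤ X - y := by
    have : κ * X ≤ 1 * X := mul_le_mul_of_nonneg_right (by linarith) hX0.le
    linarith
  set S : ℕ := ⌊Real.exp (θ / 2 * L)⌋₊ with hS
  have hSle : (S : ℝ) ≤ Real.exp (θ / 2 * L) := Nat.floor_le (Real.exp_pos _).le
  have hexp1 : 1 ≤ Real.exp (θ / 2 * L) := Real.one_le_exp (by positivity)
  have hS1 : 1 ≤ S := Nat.le_floor (by exact_mod_cast hexp1)
  have hS1r : (1 : ℝ) ≤ S := by exact_mod_cast hS1
  have hSge : Real.exp (θ / 2 * L) / 2 ≤ S := by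
    have := Nat.lt_floor_add_one (Real.exp (θ / 2 * L))
    rw [← hS] at this
    linarith
  set z := Real.exp (L / v) with hzdef
  -- the terms
  have hterms : ∀ s ∈ SMz q (S : ℝ), |(MP q s X y (Big z) : ℝ) * L - y * WW v * (s : ℝ)⁻¹| ≤
      3 * ε1 * y * (s : ℝ)⁻¹ := by
    intro s hs
    obtain ⟨g1, g2⟩ := (mem_SMz (by positivity)).1 hs
    have hs0 : 0 < s := SM_pos g1
    have hs1 : (1 : ℝ) ≤ s := by exact_mod_cast hs0
    have hs0' : (0 : ℝ) < s := by linarith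
    rw [MP_big k8]
    have h1 := hterm L k7 (X / s) (y / s) (by
        rw [le_div_iff₀ hs0']
        refine le_trans ?_ hy1
        calc Real.exp ((1 - θ) * L) * s ≤ Real.exp ((1 - θ) * L) * Real.exp (θ / 2 * L) := by
              apply mul_le_mul_of_nonneg_left (g2.trans hSle) (Real.exp_pos _).le
          _ = Real.exp ((1 - θ / 2) * L) := by rw [← Real.exp_add]; congr 1; ring) (by
        rw [← mul_div_assoc]
        exact div_le_div_of_nonneg_right hy2 hs0'.le) ((div_le_self hX0.le hs1).trans hX)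
    rw [div_eq_mul_inv y, show y * (s : ℝ)⁻¹ * WW v = y * WW v * (s : ℝ)⁻¹ by ring,
      show 3 * ε1 * (y * (s : ℝ)⁻¹) = 3 * ε1 * y * (s : ℝ)⁻¹ by ring] at h1
    exact h1
  set H := ∑ s ∈ SMz q (S : ℝ), (s : ℝ)⁻¹ with hH
  set Sm := (∑ s ∈ SMz q (S : ℝ), (MP q s X y (Big z) : ℝ)) * L with hSm
  have hsum : |Sm - y * WW v * H| ≤ 3 * ε1 * y * H := by
    rw [hSm, hH, Finset.sum_mul, Finset.mul_sum, Finset.mul_sum, ← Finset.sum_sub_distrib]
    exact (Finset.abs_sum_le_sum_abs _ _).trans (Finset.sum_le_sum hterms)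
  obtain ⟨s1, s2⟩ := abs_le.1 hsum
  have hHV : H ≤ VV q := by
    apply sum_le_VV
    intro s hs
    exact ((mem_SMz (by positivity)).1 hs).1
  have hHV2 := VV_le q (show (0 : ℝ) < S by linarith)
  rw [← hH] at hHV2
  set E1 := (S : ℝ) ^ (-(1 / 2) : ℝ) * ZZ q with hE1
  have hE1le : E1 ≤ 2 * Real.exp (-(θ / 8 * L)) := by
    have h1 : (S : ℝ) ^ (-(1 / 2) : ℝ) ≤ (Real.exp (θ / 2 * L) / 2) ^ (-(1 / 2) : ℝ) :=
      Real.rpow_le_rpow_of_nonpos (by positivity) hSge (by norm_num)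
    have h2 : (Real.exp (θ / 2 * L) / 2) ^ (-(1 / 2) : ℝ) ≤ 2 * Real.exp (-(θ / 4 * L)) := by
      rw [Real.div_rpow (Real.exp_pos _).le (by norm_num), ← Real.exp_mul]
      have h3 : (1 : ℝ) / 2 ≤ (2 : ℝ) ^ (-(1 / 2) : ℝ) := by
        have : (2 : ℝ) ^ (-1 : ℝ) ≤ (2 : ℝ) ^ (-(1 / 2) : ℝ) :=
          Real.rpow_le_rpow_of_exponent_le (by norm_num) (by norm_num)
        rw [Real.rpow_neg_one] at this
        linarith
      rw [div_le_iff₀ (by positivity)]
      have h4 : θ / 2 * L * -(1 / 2) = -(θ / 4 * L) := by ring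
      rw [h4]
      have h5 := Real.exp_pos (-(θ / 4 * L))
      nlinarith
    calc E1 ≤ (2 * Real.exp (-(θ / 4 * L))) * Real.exp (θ / 8 * L) :=
          mul_le_mul (h1.trans h2) k2 (ZZ_nonneg q) (by positivity)
      _ = 2 * Real.exp (-(θ / 8 * L)) := by rw [mul_assoc, ← Real.exp_add]; congr 2; ring
  have hE1L : E1 * L ≤ ε1 / 2 := by
    calc E1 * L ≤ 2 * Real.exp (-(θ / 8 * L)) * L := mul_le_mul_of_nonneg_right hE1le (by linarith)
      _ = 2 * L * Real.exp (-(θ / 8 * L)) := by ring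
      _ ≤ _ := k3
  have hE10 : 0 ≤ E1 := mul_nonneg (by positivity) (ZZ_nonneg q)
  have hE1l : E1 ≤ ε1 * Real.log q := by
    have h1 : E1 * 1 ≤ E1 * L := mul_le_mul_of_nonneg_left hL1 hE10
    have h2 : ε1 * 1 ≤ ε1 * Real.log q := mul_le_mul_of_nonneg_left k1 hε10.le
    linarith
  have hup := NP_upper hyX hy0.le (q := q) (S := S) (by omega) hS1 (Big z)
  have hlo := NP_lower hyX hX0.le q S (Big z)
  rw [← hE1] at hup
  have hL0 : 0 < L := by linarith
  have hSqL : (S : ℝ) * q * L ≤ ε1 / 2 * y := by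
    have h1 : (S : ℝ) * q * L ≤ Real.exp (θ / 2 * L) * q * L := by gcongr
    have h2 : Real.exp (θ / 2 * L) ≤ Real.exp (-(1 / 2 * L)) * y := by
      calc Real.exp (θ / 2 * L) ≤ Real.exp (-(1 / 2 * L) + (1 - θ / 2) * L) := by
            rw [Real.exp_le_exp]; nlinarith
        _ = Real.exp (-(1 / 2 * L)) * Real.exp ((1 - θ / 2) * L) := Real.exp_add _ _
        _ ≤ _ := mul_le_mul_of_nonneg_left hy1 (Real.exp_pos _).le
    calc (S : ℝ) * q * L ≤ Real.exp (θ / 2 * L) * q * L := h1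
      _ = Real.exp (θ / 2 * L) * (q * L) := by ring
      _ ≤ (Real.exp (-(1 / 2 * L)) * y) * (q * L) := by gcongr
      _ = (q * L * Real.exp (-(1 / 2 * L))) * y := by ring
      _ ≤ ε1 / 2 * y := mul_le_mul_of_nonneg_right k4 hy0.le
  have hWv : WW v ≤ v := by
    have := om_le v hv.le
    have h1 : v * om v ≤ v * 1 := mul_le_mul_of_nonneg_left this hv0.le
    rw [mul_one] at h1
    exact h1
  have hWv0 : 1 / 2 ≤ WW v := by
    have := om_ge v hv.le
    calc (1 : ℝ) / 2 = 1 * (1 / 2) := by ring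
      _ ≤ v * om v := mul_le_mul hv.le this (by norm_num) hv0.le
  refine dens_arith (H := H) (V := VV q) (E1 := E1) (Sum := Sm) (v := v)
    (ES := (y * E1 + S * q) * L) hε10 hε18 hee hG1 hWv0 hWv k1 hy0 k5 k6 hHV (by linarith) hE1l
    (by linarith) (by linarith) ?_ ?_ ?_
  · rw [hSm]
    exact mul_le_mul_of_nonneg_right hlo hL0.le
  · have := mul_le_mul_of_nonneg_right hup hL0.le
    rw [add_mul] at this
    exact this
  · have h1 : y * E1 * L ≤ ε1 / 2 * y := by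
      have := mul_le_mul_of_nonneg_left hE1L hy0.le
      linarith
    have h2 : ε1 * y ≤ ε1 * Real.log q * y := by
      have := mul_le_mul_of_nonneg_left k1 hε10.le
      have := mul_le_mul_of_nonneg_right this hy0.le
      linarith
    calc (y * E1 + S * q) * L = y * E1 * L + S * q * L := by ring
      _ ≤ ε1 / 2 * y + ε1 / 2 * y := add_le_add h1 hSqL
      _ = ε1 * y := by ring
      _ ≤ _ := h2

end Pool.Agent.H538
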