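import Pool.Graph.R_pool_sql_team_seeded_1acbe0a2.Y895.PS.Q8

set_option autoImplicit false

/-!
# The prime number theorem in short intervals, counting form
-/

namespace Pool.Agent.H538

open Filter Topology Finset
open Pool.Agent.Y895.PS (MM wt short_log)

open Classical in
/-- the primes in `(X - y, X]` -/
noncomputable def PR (X y : ℝ) : Finset ℕ := (Ioc ⌊X - y⌋₊ ⌊X⌋₊).filter Nat.Prime

lemma MM_sub {X y : ℝ} (h1 : 0 < X - y) (hy : 0 ≤ y) :
    MM (Real.log X) - MM (Real.log (X - y)) = ∑ p ∈ PR X y, Real.log p / p := by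
  classical
  have hX : 0 < X := by linarith
  unfold MM PR
  rw [Real.exp_log hX, Real.exp_log h1]
  have hfl : ⌊X - y⌋₊ ≤ ⌊X⌋₊ := Nat.floor_le_floor (by linarith)
  have hsub : Finset.range (⌊X - y⌋₊ + 1) ⊆ Finset.range (⌊X⌋₊ + 1) :=
    Finset.range_subset_range.2 (by omega)
  rw [← Finset.sum_sdiff_eq_sub hsub, Finset.sum_filter]
  have e2 : Finset.range (⌊X⌋₊ + 1) \ Finset.range (⌊X - y⌋₊ + 1) = Ioc ⌊X - y⌋₊ ⌊X⌋₊ := by
    ext n
    simp only [Finset.mem_sdiff, Finset.mem_range, Finset.mem_Ioc]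
    omega
  rw [e2]
  rfl

lemma log_div_anti {a b : ℝ} (ha : Real.exp 1 ≤ a) (hab : a ≤ b) : Real.log b / b ≤ Real.log a / a :=
  Real.log_div_self_antitoneOn (Set.mem_ofPred.2 ha) (Set.mem_ofPred.2 (ha.trans hab)) hab

lemma fin_arith {ε e κ y C b X Sg a : ℝ} (hε : 0 < ε) (he0 : 0 < e) (he1 : e ≤ 1 / 8) (he2 : e ≤ ε / 8)
    (hκ0 : 0 < κ) (hκe : κ ≤ e) (hy0 : 0 < y) (u1 : C * b ≤ X * Sg) (u2 : (1 - κ) * X * Sg ≤ C * b)
    (l1 : y ≤ X * (b - a)) (l2 : (1 - κ) * (X * (b - a)) ≤ y) (m1 : -(e * (b - a)) ≤ Sg - (b - a))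
    (m2 : Sg - (b - a) ≤ e * (b - a)) (hX0 : 0 < X) : |C * b - y| ≤ ε * y := by
  have h1κ : 0 < 1 - κ := by linarith
  obtain ⟨Lh, hLh⟩ : ∃ Lh, Lh = X * (b - a) := ⟨_, rfl⟩
  rw [← hLh] at l1 l2
  have v1 : X * Sg ≤ (1 + e) * Lh := by
    have : X * Sg ≤ X * ((1 + e) * (b - a)) := mul_le_mul_of_nonneg_left (by linarith) hX0.le
    rw [hLh]; linarith
  have v2 : (1 - e) * Lh ≤ X * Sg := by
    have : X * ((1 - e) * (b - a)) ≤ X * Sg := mul_le_mul_of_nonneg_left (by linarith) hX0.le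
    rw [hLh]; linarith
  have hey : e * y ≤ ε / 8 * y := mul_le_mul_of_nonneg_right he2 hy0.le
  have w1 : C * b ≤ (1 + 4 * e) * y := by
    have k1 : Lh ≤ (1 + 2 * e) * y := by
      have k0 : 1 ≤ (1 - κ) * (1 + 2 * e) := by nlinarith only [hκe, he0, he1, hκ0]
      have k5 := mul_le_mul_of_nonneg_right k0 hy0.le
      have : (1 - κ) * Lh ≤ (1 - κ) * ((1 + 2 * e) * y) := by linarith
      exact le_of_mul_le_mul_left this h1κ
    have k2 : (1 + e) * Lh ≤ (1 + e) * ((1 + 2 * e) * y) := mul_le_mul_of_nonneg_left k1 (by linarith)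
    have k3 : (1 + e) * (1 + 2 * e) ≤ 1 + 4 * e := by nlinarith only [he0, he1]
    have k4 := mul_le_mul_of_nonneg_right k3 hy0.le
    linarith
  have w2 : (1 - 2 * e) * y ≤ C * b := by
    have k0 : (1 - e) * y ≤ X * Sg := by
      refine le_trans ?_ v2
      exact mul_le_mul_of_nonneg_left l1 (by linarith)
    have k1 : (1 - κ) * ((1 - e) * y) ≤ (1 - κ) * (X * Sg) := mul_le_mul_of_nonneg_left k0 h1κ.le
    have k2 : (1 - 2 * e) ≤ (1 - κ) * (1 - e) := by nlinarith only [hκe, he0, he1, hκ0]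
    have k3 := mul_le_mul_of_nonneg_right k2 hy0.le
    linarith
  have hεy : 0 < ε * y := by positivity
  rw [abs_le]
  constructor
  · linarith
  · linarith

theorem pnt_short (ε : ℝ) (hε : 0 < ε) : ∃ κ X0 : ℝ, 0 < κ ∧ κ ≤ 1 / 2 ∧ 1 < X0 ∧ ∀ X, X0 ≤ X → ∀ y,
    X ^ (1 - κ) ≤ y → y ≤ κ * X → |((PR X y).card : ℝ) * Real.log X - y| ≤ ε * y := by
  classical
  set e : ℝ := min (ε / 8) (1 / 8) with he
  have he0 : 0 < e := by positivity
  have he1 : e ≤ 1 / 8 := min_le_right _ _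
  have he2 : e ≤ ε / 8 := min_le_left _ _
  obtain ⟨δ, x0, hδ, hx0, hsh⟩ := short_log e he0 (by linarith)
  set κ : ℝ := min (δ / 2) e with hκ
  have hκ0 : 0 < κ := by positivity
  have hκδ : κ ≤ δ / 2 := min_le_left _ _
  have hκe : κ ≤ e := min_le_right _ _
  refine ⟨κ, max (2 * Real.exp x0) (8 * Real.exp 1), hκ0, by linarith, ?_, ?_⟩
  · refine lt_of_lt_of_le ?_ (le_max_right _ _)
    have := Real.add_one_le_exp (1 : ℝ)
    linarith
  intro X hX y hy1 hy2
  have hX1 : 2 * Real.exp x0 ≤ X := (le_max_left _ _).trans hX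
  have hX2 : 8 * Real.exp 1 ≤ X := (le_max_right _ _).trans hX
  have hexp1 : (1 : ℝ) < Real.exp 1 := by
    have := Real.add_one_le_exp (1 : ℝ)
    linarith
  have hX0 : 0 < X := by linarith
  have hy0 : 0 < y := lt_of_lt_of_le (Real.rpow_pos_of_pos hX0 _) hy1
  have hyX : y ≤ X / 8 := by
    have : κ * X ≤ 1 / 8 * X := mul_le_mul_of_nonneg_right (by linarith) hX0.le
    linarith
  have hXy : X / 2 ≤ X - y := by linarith
  have hXy0 : 0 < X - y := by linarith
  set a := Real.log (X - y) with ha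
  set b := Real.log X with hb
  have hb0 : 0 < b := Real.log_pos (by linarith)
  -- length
  have hr : (X - y) / X = 1 - y / X := by field_simp
  have hba : b - a = -Real.log (1 - y / X) := by
    rw [ha, hb, ← hr, Real.log_div hXy0.ne' hX0.ne']
    ring
  have hyX8 : y / X ≤ κ := by rw [div_le_iff₀ hX0]; exact hy2
  have hyX0 : 0 < y / X := by positivity
  have h1y : 0 < 1 - y / X := by linarith
  have hlo : y / X ≤ b - a := by
    rw [hba]
    have := Real.log_le_sub_one_of_pos h1y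
    linarith
  have hup : b - a ≤ y / X / (1 - κ) := by
    rw [hba]
    have h2 : Real.log ((1 - y / X)⁻¹) ≤ (1 - y / X)⁻¹ - 1 := Real.log_le_sub_one_of_pos (by positivity)
    rw [Real.log_inv] at h2
    refine h2.trans ?_
    have h3 : (1 - y / X)⁻¹ - 1 = y / X / (1 - y / X) := by field_simp; ring
    rw [h3]
    apply div_le_div_of_nonneg_left hyX0.le (by linarith) (by linarith)
  have hxa : x0 ≤ a := by
    rw [ha, Real.le_log_iff_exp_le hXy0]
    linarith
  have hκ1 : κ ≤ 1 / 8 := by linarith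
  have hba1 : b - a ≤ 1 := by
    refine hup.trans ?_
    rw [div_le_one (by linarith)]
    linarith
  have hexp : Real.exp (-(δ * a)) ≤ b - a := by
    refine le_trans ?_ hlo
    have h3 : Real.exp (-(δ * a)) = (X - y) ^ (-δ) := by
      rw [Real.rpow_def_of_pos hXy0]
      congr 1
      rw [ha]; ring
    rw [h3, le_div_iff₀ hX0]
    have h4 : (X - y) ^ (-δ) ≤ (X / 2) ^ (-δ) :=
      Real.rpow_le_rpow_of_nonpos (by linarith) hXy (by linarith)
    have h5 : (X / 2) ^ (-δ) * X ≤ X ^ (1 - κ) := by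
      rw [Real.div_rpow hX0.le (by norm_num), div_mul_eq_mul_div, div_le_iff₀ (by positivity)]
      have h6 : X ^ (-δ) * X = X ^ (1 - δ) := by
        rw [← Real.rpow_add_one hX0.ne']
        congr 1; ring
      rw [h6]
      have h7 : X ^ (1 - δ) = X ^ (1 - κ) * X ^ (κ - δ) := by
        rw [← Real.rpow_add hX0]; congr 1; ring
      rw [h7]
      apply mul_le_mul_of_nonneg_left _ (by positivity)
      have h8 : X ^ (κ - δ) ≤ X ^ (-(δ / 2)) :=
        Real.rpow_le_rpow_of_exponent_le (by linarith) (by linarith)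
      refine h8.trans ?_
      have h9 : (2 : ℝ) ^ (-δ) = 4 ^ (-(δ / 2)) := by
        rw [show (4 : ℝ) = 2 ^ (2 : ℝ) by norm_num, ← Real.rpow_mul (by norm_num)]
        congr 1; ring
      rw [h9]
      exact Real.rpow_le_rpow_of_nonpos (by norm_num) (by linarith) (by linarith)
    calc (X - y) ^ (-δ) * X ≤ (X / 2) ^ (-δ) * X := mul_le_mul_of_nonneg_right h4 hX0.le
      _ ≤ X ^ (1 - κ) := h5
      _ ≤ y := hy1
  have hmain := hsh a b hxa hba1 hexp
  rw [ha, hb, MM_sub hXy0 hy0.le, ← ha, ← hb] at hmain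
  set Sg := ∑ p ∈ PR X y, Real.log p / p with hSg
  obtain ⟨m1, m2⟩ := abs_le.1 hmain
  have hmem : ∀ p ∈ PR X y, X - y < p ∧ (p : ℝ) ≤ X := by
    intro p hp
    rw [PR, Finset.mem_filter, Finset.mem_Ioc] at hp
    exact ⟨(Nat.floor_lt hXy0.le).1 hp.1.1, (Nat.le_floor_iff hX0.le).1 hp.1.2⟩
  have hexpXy : Real.exp 1 ≤ X - y := by linarith
  -- comparison of the sums
  have c1 : ((PR X y).card : ℝ) * (b / X) ≤ Sg := by
    rw [hSg, ← nsmul_eq_mul, ← Finset.sum_const]
    refine Finset.sum_le_sum fun p hp => ?_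
    obtain ⟨g1, g2⟩ := hmem p hp
    exact log_div_anti (by linarith) g2
  have c2 : Sg ≤ ((PR X y).card : ℝ) * (b / ((1 - κ) * X)) := by
    rw [hSg, ← nsmul_eq_mul, ← Finset.sum_const]
    refine Finset.sum_le_sum fun p hp => ?_
    obtain ⟨g1, g2⟩ := hmem p hp
    have hp0 : (0 : ℝ) < p := by linarith
    have g3 : (1 - κ) * X ≤ p := by
      have : y ≤ κ * X := hy2
      nlinarith
    have g4 : Real.log p ≤ b := Real.log_le_log hp0 g2
    exact div_le_div₀ hb0.le g4 (by have : 0 < 1 - κ := by linarith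
                                    positivity) g3
  set C : ℝ := ((PR X y).card : ℝ) with hC
  have hC0 : 0 ≤ C := Nat.cast_nonneg _
  have h1κ : 0 < 1 - κ := by linarith
  have u1 : C * b ≤ X * Sg := by
    rw [← mul_div_assoc, div_le_iff₀ hX0] at c1
    linarith
  have u2 : (1 - κ) * X * Sg ≤ C * b := by
    rw [← mul_div_assoc, le_div_iff₀ (by positivity)] at c2
    linarith
  -- bounds of the length
  have l1 : y ≤ X * (b - a) := by rw [div_le_iff₀ hX0] at hlo; linarith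
  have l2 : (1 - κ) * (X * (b - a)) ≤ y := by
    rw [div_div, le_div_iff₀ (by positivity)] at hup
    linarith
  exact fin_arith hε he0 he1 he2 hκ0 hκe hy0 u1 u2 l1 l2 m1 m2 hX0

end Pool.Agent.H538
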