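import Pool.Agent.H538.S1
import Pool.Graph.R_pool_sql_team_seeded_b0a926ef.R529.BU.Asym

set_option autoImplicit false

/-!
# Buchstab's identity in short intervals

Adapted from `Pool.Agent.R529.BU.Phi`.
-/

namespace Pool.Agent.H538

open Finset Filter Topology
open Pool.Agent.H510R2.Maier (PI mem_PI)
open Pool.Agent.R529.BU (mem_PIf)

open Classical in
/-- the integers in `(X - y, X]` without prime factors up to `z` -/
noncomputable def DR (X y z : ℝ) : Finset ℕ :=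
  (Ioc ⌊X - y⌋₊ ⌊X⌋₊).filter (fun m : ℕ => ∀ p : ℕ, p.Prime → p ∣ m → z < p)

theorem mem_DR {X y z : ℝ} (hy : 0 ≤ X - y) (hX : 0 ≤ X) {m : ℕ} :
    m ∈ DR X y z ↔ (X - y < m ∧ (m : ℝ) ≤ X) ∧ ∀ p : ℕ, p.Prime → p ∣ m → z < p := by
  classical
  unfold DR
  rw [Finset.mem_filter, Finset.mem_Ioc, Nat.floor_lt hy, Nat.le_floor_iff hX]

/-- multiples in an interval -/
theorem card_mult {X y : ℝ} (hy : 0 ≤ X - y) (hy0 : 0 ≤ y) (d : ℕ) (hd : 0 < d) :
    (((Ioc ⌊X - y⌋₊ ⌊X⌋₊).filter (fun m => d ∣ m)).card : ℝ) ≤ y / d + 1 := by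
  have hX : 0 ≤ X := by linarith
  have hfl : ⌊X - y⌋₊ ≤ ⌊X⌋₊ := Nat.floor_le_floor (by linarith)
  have hd0 : (0 : ℝ) < d := by exact_mod_cast hd
  have h1 : ((Ioc ⌊X - y⌋₊ ⌊X⌋₊).filter (fun m => d ∣ m)).card = ⌊X⌋₊ / d - ⌊X - y⌋₊ / d := by
    have e1 := Nat.Ioc_filter_dvd_card_eq_div ⌊X⌋₊ d
    have e2 := Nat.Ioc_filter_dvd_card_eq_div ⌊X - y⌋₊ d
    have e3 : (Ioc 0 ⌊X⌋₊).filter (fun m => d ∣ m) = (Ioc 0 ⌊X - y⌋₊).filter (fun m => d ∣ m) ∪
        (Ioc ⌊X - y⌋₊ ⌊X⌋₊).filter (fun m => d ∣ m) := by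
      rw [← Finset.filter_union]
      congr 1
      exact (Finset.Ioc_union_Ioc_eq_Ioc (Nat.zero_le _) hfl).symm
    have e4 : Disjoint ((Ioc 0 ⌊X - y⌋₊).filter (fun m => d ∣ m))
        ((Ioc ⌊X - y⌋₊ ⌊X⌋₊).filter (fun m => d ∣ m)) := by
      rw [Finset.disjoint_left]
      intro m hm hm'
      rw [Finset.mem_filter, Finset.mem_Ioc] at hm hm'
      omega
    rw [e3, Finset.card_union_of_disjoint e4] at e1
    omega
  rw [h1]
  have h2 : ⌊X - y⌋₊ / d = ⌊(X - y) / d⌋₊ := by rw [Nat.floor_div_natCast]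
  have h3 : ⌊X⌋₊ / d = ⌊X / d⌋₊ := by rw [Nat.floor_div_natCast]
  rw [h2, h3]
  have h4 : ⌊(X - y) / d⌋₊ ≤ ⌊X / d⌋₊ := Nat.floor_le_floor (by gcongr; linarith)
  rw [Nat.cast_sub h4]
  have h5 : (⌊X / d⌋₊ : ℝ) ≤ X / d := Nat.floor_le (by positivity)
  have h6 := Nat.lt_floor_add_one ((X - y) / (d : ℝ))
  have h7 : (X - y) / (d : ℝ) = X / d - y / d := by ring
  linarith

/-- Buchstab's identity in a short interval, upper bound -/
theorem buch_up (X y z z' : ℝ) (hy : 0 ≤ X - y) (hy0 : 0 ≤ y) (hz : 1 ≤ z) (hzz : z ≤ z') :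
    ((DR X y z).card : ℝ) ≤ (DR X y z').card + ∑ p ∈ PI ⌊z⌋₊ ⌊z'⌋₊, ((DR (X / p) (y / p) p).card : ℝ) +
      (2 * y / z + z') := by
  classical
  have hX : 0 ≤ X := by linarith
  have hyp : ∀ p : ℕ, 0 ≤ X / (p : ℝ) - y / p := by
    intro p
    rw [← sub_div]
    exact div_nonneg hy (Nat.cast_nonneg p)
  have hXp : ∀ p : ℕ, 0 ≤ X / (p : ℝ) := fun p => div_nonneg hX (Nat.cast_nonneg p)
  have h1 : DR X y z ⊆ DR X y z' ∪ ((PI ⌊z⌋₊ ⌊z'⌋₊).biUnion
      (fun p => (DR (X / p) (y / p) p).image (fun k => p * k)) ∪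
      (PI ⌊z⌋₊ ⌊z'⌋₊).biUnion (fun p => (Ioc ⌊X - y⌋₊ ⌊X⌋₊).filter (fun m => p ^ 2 ∣ m))) := by
    intro m hm
    have hm1 := (mem_DR hy hX).1 hm
    have hmI : m ∈ Ioc ⌊X - y⌋₊ ⌊X⌋₊ := (Finset.mem_filter.1 hm).1
    rw [Finset.mem_union, Finset.mem_union]
    by_cases hs : ∀ p : ℕ, p.Prime → p ∣ m → z' < p
    · exact Or.inl ((mem_DR hy hX).2 ⟨hm1.1, hs⟩)
    · right
      push Not at hs
      obtain ⟨q, hq, hqm, hqz⟩ := hs
      have hne : m ≠ 1 := by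
        rintro rfl
        exact hq.one_lt.ne' (Nat.dvd_one.1 hqm)
      have hp := Nat.minFac_prime hne
      have hpd := Nat.minFac_dvd m
      set p := m.minFac with hpdef
      have hpq : p ≤ q := Nat.minFac_le_of_dvd hq.two_le hqm
      have hpz : z < p := hm1.2 p hp hpd
      have hpz' : (p : ℝ) ≤ z' := (Nat.cast_le.2 hpq).trans hqz
      have hpm : p ∈ PI ⌊z⌋₊ ⌊z'⌋₊ := (mem_PIf (by linarith) (by linarith)).2 ⟨⟨hpz, hpz'⟩, hp⟩
      have hp0 : (0 : ℝ) < p := by exact_mod_cast hp.pos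
      obtain ⟨k, hk⟩ := hpd
      by_cases hpk : p ∣ k
      · right
        obtain ⟨j, hj⟩ := hpk
        refine Finset.mem_biUnion.2 ⟨p, hpm, Finset.mem_filter.2 ⟨hmI, ⟨j, ?_⟩⟩⟩
        rw [hk, hj]; ring
      · left
        refine Finset.mem_biUnion.2 ⟨p, hpm, Finset.mem_image.2 ⟨k, (mem_DR (hyp p) (hXp p)).2
          ⟨⟨?_, ?_⟩, ?_⟩, hk.symm⟩⟩
        · have h3 : X - y < m := hm1.1.1
          rw [hk] at h3
          push_cast at h3
          rw [← sub_div, div_lt_iff₀ hp0]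
          linarith
        · rw [le_div_iff₀ hp0]
          have : (m : ℝ) ≤ X := hm1.1.2
          rw [hk] at this
          push_cast at this
          linarith
        · intro r hr hrk
          have h3 : p ≤ r := Nat.minFac_le_of_dvd hr.two_le (hrk.trans ⟨p, by rw [hk]; ring⟩)
          have h4 : p ≠ r := by
            rintro rfl
            exact hpk hrk
          exact_mod_cast lt_of_le_of_ne h3 h4
  have h2 : (DR X y z).card ≤ (DR X y z').card + (∑ p ∈ PI ⌊z⌋₊ ⌊z'⌋₊, (DR (X / p) (y / p) p).card +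
      ∑ p ∈ PI ⌊z⌋₊ ⌊z'⌋₊, ((Ioc ⌊X - y⌋₊ ⌊X⌋₊).filter (fun m => p ^ 2 ∣ m)).card) := by
    refine (Finset.card_le_card h1).trans ((Finset.card_union_le _ _).trans ?_)
    apply Nat.add_le_add_left
    refine (Finset.card_union_le _ _).trans (Nat.add_le_add ?_ ?_)
    · exact Finset.card_biUnion_le.trans (Finset.sum_le_sum fun p _ => Finset.card_image_le)
    · exact Finset.card_biUnion_le
  have h3 : ((DR X y z).card : ℝ) ≤ (DR X y z').card +
      (∑ p ∈ PI ⌊z⌋₊ ⌊z'⌋₊, ((DR (X / p) (y / p) p).card : ℝ) +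
      ∑ p ∈ PI ⌊z⌋₊ ⌊z'⌋₊, ((((Ioc ⌊X - y⌋₊ ⌊X⌋₊).filter (fun m => p ^ 2 ∣ m)).card : ℕ) : ℝ)) := by
    exact_mod_cast h2
  have hz1 : 1 ≤ ⌊z⌋₊ := Nat.le_floor (by exact_mod_cast hz)
  have h4 : ∑ p ∈ PI ⌊z⌋₊ ⌊z'⌋₊, ((((Ioc ⌊X - y⌋₊ ⌊X⌋₊).filter (fun m => p ^ 2 ∣ m)).card : ℕ) : ℝ) ≤
      2 * y / z + z' := by
    calc ∑ p ∈ PI ⌊z⌋₊ ⌊z'⌋₊, ((((Ioc ⌊X - y⌋₊ ⌊X⌋₊).filter (fun m => p ^ 2 ∣ m)).card : ℕ) : ℝ) ≤
          ∑ p ∈ PI ⌊z⌋₊ ⌊z'⌋₊, (y * ((p : ℝ) ^ 2)⁻¹ + 1) := by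
          apply Finset.sum_le_sum
          intro p hp
          have hpp := (mem_PI.1 hp).2
          have := card_mult hy hy0 (p ^ 2) (by have := hpp.pos; positivity)
          push_cast at this
          rw [div_eq_mul_inv] at this
          exact this
      _ ≤ ∑ p ∈ Ioc ⌊z⌋₊ ⌊z'⌋₊, (y * ((p : ℝ) ^ 2)⁻¹ + 1) :=
          Finset.sum_le_sum_of_subset_of_nonneg (Finset.filter_subset _ _) fun _ _ _ => by positivity
      _ = y * ∑ p ∈ Ioc ⌊z⌋₊ ⌊z'⌋₊, ((p : ℝ) ^ 2)⁻¹ + (Ioc ⌊z⌋₊ ⌊z'⌋₊).card := by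
          rw [Finset.sum_add_distrib, Finset.mul_sum, Finset.sum_const, nsmul_eq_mul, mul_one]
      _ ≤ y * ((⌊z⌋₊ : ℝ)⁻¹ - (⌊z'⌋₊ : ℝ)⁻¹) + z' := by
          apply add_le_add
          · apply mul_le_mul_of_nonneg_left _ hy0
            exact sum_Ioc_inv_sq_le_sub (by omega) (Nat.floor_le_floor hzz)
          · rw [Nat.card_Ioc]
            have h5 : ((⌊z'⌋₊ - ⌊z⌋₊ : ℕ) : ℝ) ≤ (⌊z'⌋₊ : ℝ) := by exact_mod_cast Nat.sub_le _ _
            exact h5.trans (Nat.floor_le (by linarith))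
      _ ≤ y * (2 / z) + z' := by
          have h5 : (0 : ℝ) ≤ (⌊z'⌋₊ : ℝ)⁻¹ := by positivity
          have h6 : (⌊z⌋₊ : ℝ)⁻¹ ≤ 2 / z := by
            have h7 : (1 : ℝ) ≤ ⌊z⌋₊ := by exact_mod_cast hz1
            have h8 := Nat.lt_floor_add_one z
            rw [inv_eq_one_div, div_le_div_iff₀ (by linarith) (by linarith)]
            linarith
          have h7 : y * ((⌊z⌋₊ : ℝ)⁻¹ - (⌊z'⌋₊ : ℝ)⁻¹) ≤ y * (2 / z) :=
            mul_le_mul_of_nonneg_left (by linarith) hy0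
          linarith
      _ = 2 * y / z + z' := by ring
  linarith

/-- Buchstab's identity in a short interval, lower bound -/
theorem buch_lo (X y z z' : ℝ) (hy : 0 ≤ X - y) (_hy0 : 0 ≤ y) (hz : 1 ≤ z) (hzz : z ≤ z') :
    ((DR X y z').card : ℝ) + ∑ p ∈ PI ⌊z⌋₊ ⌊z'⌋₊, ((DR (X / p) (y / p) p).card : ℝ) ≤ (DR X y z).card := by
  classical
  have hX : 0 ≤ X := by linarith
  have hyp : ∀ p : ℕ, 0 ≤ X / (p : ℝ) - y / p := by
    intro p
    rw [← sub_div]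
    exact div_nonneg hy (Nat.cast_nonneg p)
  have hXp : ∀ p : ℕ, 0 ≤ X / (p : ℝ) := fun p => div_nonneg hX (Nat.cast_nonneg p)
  have hmf : ∀ p ∈ PI ⌊z⌋₊ ⌊z'⌋₊, ∀ k ∈ DR (X / p) (y / p) p, (p * k).minFac = p := by
    intro p hp k hk
    have hpp := (mem_PI.1 hp).2
    have hk2 := (mem_DR (hyp p) (hXp p)).1 hk
    have hk0 : 0 < k := by
      rcases Nat.eq_zero_or_pos k with h | h
      · exfalso
        rw [h] at hk2
        have := hk2.1.1
        push_cast at this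
        linarith [hyp p]
      · exact h
    have h1 : p * k ≠ 1 := by
      have := hpp.one_lt
      have := Nat.le_mul_of_pos_right p hk0
      omega
    have h2 := Nat.minFac_prime h1
    have h3 := Nat.minFac_dvd (p * k)
    rcases (Nat.Prime.dvd_mul h2).1 h3 with h | h
    · exact (Nat.prime_dvd_prime_iff_eq h2 hpp).1 h
    · have h4 := hk2.2 _ h2 h
      have h5 : (p * k).minFac ≤ p := Nat.minFac_le_of_dvd hpp.two_le ⟨k, rfl⟩
      have h6 : ((p * k).minFac : ℝ) ≤ p := by exact_mod_cast h5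
      linarith
  have hdisj : ∀ p ∈ PI ⌊z⌋₊ ⌊z'⌋₊, ∀ q ∈ PI ⌊z⌋₊ ⌊z'⌋₊, p ≠ q →
      Disjoint ((DR (X / p) (y / p) p).image (fun k => p * k))
        ((DR (X / q) (y / q) q).image (fun k => q * k)) := by
    intro p hp q hq hne
    rw [Finset.disjoint_left]
    intro w hw hw'
    obtain ⟨k, hk, rfl⟩ := Finset.mem_image.1 hw
    obtain ⟨j, hj, he⟩ := Finset.mem_image.1 hw'
    have h1 := hmf p hp k hk
    have h2 := hmf q hq j hj
    rw [he] at h2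
    exact hne (h1.symm.trans h2)
  have hcard : ∑ p ∈ PI ⌊z⌋₊ ⌊z'⌋₊, (DR (X / p) (y / p) p).card =
      ((PI ⌊z⌋₊ ⌊z'⌋₊).biUnion (fun p => (DR (X / p) (y / p) p).image (fun k => p * k))).card := by
    rw [Finset.card_biUnion hdisj]
    apply Finset.sum_congr rfl
    intro q hq
    rw [Finset.card_image_of_injective]
    intro a b hab
    exact Nat.eq_of_mul_eq_mul_left (mem_PI.1 hq).2.pos hab
  have h2 : (DR X y z').card + ∑ p ∈ PI ⌊z⌋₊ ⌊z'⌋₊, (DR (X / p) (y / p) p).card ≤ (DR X y z).card := by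
    rw [hcard, ← Finset.card_union_of_disjoint]
    · apply Finset.card_le_card
      intro m hm
      rw [Finset.mem_union] at hm
      rcases hm with hm | hm
      · have h1 := (mem_DR hy hX).1 hm
        exact (mem_DR hy hX).2 ⟨h1.1, fun p hp hd => hzz.trans_lt (h1.2 p hp hd)⟩
      · obtain ⟨p, hp, hm⟩ := Finset.mem_biUnion.1 hm
        obtain ⟨k, hk, rfl⟩ := Finset.mem_image.1 hm
        have hp2 := (mem_PIf (by linarith) (by linarith)).1 hp
        have hk2 := (mem_DR (hyp p) (hXp p)).1 hk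
        have hp0 : (0 : ℝ) < p := by exact_mod_cast hp2.2.pos
        refine (mem_DR hy hX).2 ⟨⟨?_, ?_⟩, ?_⟩
        · have h3 := hk2.1.1
          rw [← sub_div, div_lt_iff₀ hp0] at h3
          push_cast
          linarith
        · have h3 := hk2.1.2
          rw [le_div_iff₀ hp0] at h3
          push_cast
          linarith
        · intro q hq hd
          rcases (Nat.Prime.dvd_mul hq).1 hd with h | h
          · rw [(Nat.prime_dvd_prime_iff_eq hq hp2.2).1 h]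
            exact hp2.1.1
          · exact hp2.1.1.trans (hk2.2 q hq h)
    · rw [Finset.disjoint_left]
      intro m hm hm'
      obtain ⟨p, hp, hm'⟩ := Finset.mem_biUnion.1 hm'
      obtain ⟨k, hk, rfl⟩ := Finset.mem_image.1 hm'
      have hp2 := (mem_PIf (by linarith) (by linarith)).1 hp
      have h3 := ((mem_DR hy hX).1 hm).2 p hp2.2 ⟨k, rfl⟩
      linarith [hp2.1.2]
  exact_mod_cast h2

/-- in the range of primes the count is the number of primes -/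
theorem DR_prime {X y z : ℝ} (hy : z ≤ X - y) (hz : 1 ≤ z) (hy0 : 0 ≤ y) (hX : X ≤ z ^ 2) :
    DR X y z = PR X y := by
  classical
  have hX0 : 0 ≤ X := by linarith
  ext m
  rw [mem_DR (by linarith) hX0, PR, Finset.mem_filter, Finset.mem_Ioc, Nat.floor_lt (by linarith),
    Nat.le_floor_iff hX0]
  constructor
  · rintro ⟨⟨h1, h2⟩, h3⟩
    refine ⟨⟨h1, h2⟩, ?_⟩
    have hm1 : (1 : ℝ) < m := by linarith
    have hm2 : 1 < m := by exact_mod_cast hm1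
    by_contra hnp
    have h4 := Nat.minFac_sq_le_self (by omega : 0 < m) hnp
    have h5 := h3 _ (Nat.minFac_prime (by omega)) (Nat.minFac_dvd m)
    have h6 : ((m.minFac : ℕ) : ℝ) ^ 2 ≤ m := by exact_mod_cast h4
    nlinarith
  · rintro ⟨⟨h1, h2⟩, h3⟩
    refine ⟨⟨h1, h2⟩, fun p hp hpm => ?_⟩
    rw [(Nat.prime_dvd_prime_iff_eq hp h3).1 hpm]
    linarith

end Pool.Agent.H538
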