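import Pool.Agent.H538.S2
import Pool.Graph.R_pool_sql_team_seeded_b0a926ef.R529.BU.Step

set_option autoImplicit false

/-!
# Integers without small prime factors in short intervals

Adapted from `Pool.Agent.R529.BU.Asym` and `Pool.Agent.R529.BU.Step`.
-/

namespace Pool.Agent.H538

open Finset Filter Topology
open Pool.Agent.H510R2.Maier (PI mem_PI)
open Pool.Agent.R529.BU

/-- the asymptotic formula in short intervals in the range `z ^ (1 + δ) ≤ X ≤ z ^ n` -/
def QS (n : ℕ) : Prop := ∀ δ ε : ℝ, 0 < δ → 0 < ε → ∃ κ z0 : ℝ, 0 < κ ∧ κ ≤ 1 / 4 ∧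
  ∀ z : ℝ, z0 ≤ z → ∀ X : ℝ, z ^ (1 + δ) ≤ X → X ≤ z ^ (n : ℝ) →
  ∀ y : ℝ, X ^ (1 - κ) ≤ y → y ≤ κ * X →
  |((DR X y z).card : ℝ) * Real.log X - y * WW (Real.log X / Real.log z)| ≤ ε * y

theorem rpow_anti {X κ κ' : ℝ} (hX : 1 ≤ X) (h : κ ≤ κ') : X ^ (1 - κ') ≤ X ^ (1 - κ) :=
  Real.rpow_le_rpow_of_exponent_le hX (by linarith)

theorem QS_two : QS 2 := by
  intro δ ε hδ hε
  obtain ⟨κ, X0, hκ, hκ2, hX0, hsh⟩ := pnt_short ε hε
  have h2 : ∀ᶠ z : ℝ in atTop, 2 ≤ z ^ δ := (tendsto_rpow_atTop hδ).eventually_ge_atTop 2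
  obtain ⟨Z1, hZ1⟩ := eventually_atTop.1 h2
  refine ⟨min κ (1 / 4), max (max 2 X0) Z1, by positivity, min_le_right _ _, fun z hz X hx1 hx2 y hy1 hy2 => ?_⟩
  have hz2 : 2 ≤ z := (le_max_left _ _).trans ((le_max_left _ _).trans hz)
  have hzX0 : X0 ≤ z := (le_max_right _ _).trans ((le_max_left _ _).trans hz)
  have hzδ := hZ1 z ((le_max_right _ _).trans hz)
  have hz0 : 0 < z := by linarith
  have hzx2 : 2 * z ≤ X := by
    refine le_trans ?_ hx1
    rw [Real.rpow_add hz0, Real.rpow_one, mul_comm]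
    exact mul_le_mul_of_nonneg_left hzδ hz0.le
  have hX : 0 < X := by linarith
  have hκ' : min κ (1 / 4) ≤ κ := min_le_left _ _
  have hκ4 : min κ (1 / 4) ≤ 1 / 4 := min_le_right _ _
  have hy1' : X ^ (1 - κ) ≤ y := (rpow_anti (by linarith) hκ').trans hy1
  have hy2' : y ≤ κ * X := hy2.trans (mul_le_mul_of_nonneg_right hκ' hX.le)
  have hy4 : y ≤ 1 / 4 * X := hy2.trans (mul_le_mul_of_nonneg_right hκ4 hX.le)
  have hy0 : 0 ≤ y := (Real.rpow_nonneg hX.le _).trans hy1'
  have hlz := Real.log_pos (show 1 < z by linarith)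
  have hx2' : X ≤ z ^ 2 := by
    have : z ^ ((2 : ℕ) : ℝ) = z ^ 2 := Real.rpow_natCast z 2
    rw [this] at hx2
    exact hx2
  have hu1 : 1 ≤ Real.log X / Real.log z := by
    rw [le_div_iff₀ hlz, one_mul]
    exact Real.log_le_log hz0 (by linarith)
  have hu2 : Real.log X / Real.log z ≤ 2 := by
    rw [div_le_iff₀ hlz]
    have := Real.log_le_log hX hx2'
    rw [Real.log_pow] at this
    push_cast at this
    exact this
  have hW : WW (Real.log X / Real.log z) = 1 := om_one_two _ hu1 hu2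
  rw [hW, mul_one, DR_prime (by linarith) (by linarith) hy0 hx2']
  exact hsh X (by linarith) y hy1' hy2'

theorem DR_sub_PR {X y z : ℝ} (hy : 1 ≤ X - y) (hy0 : 0 ≤ y) (hz : 1 ≤ z) (hX : X ≤ z ^ 2) :
    DR X y z ⊆ PR X y := by
  classical
  have hX0 : 0 ≤ X := by linarith
  intro m
  rw [mem_DR (by linarith) hX0, PR, Finset.mem_filter, Finset.mem_Ioc, Nat.floor_lt (by linarith),
    Nat.le_floor_iff hX0]
  rintro ⟨⟨h1, h2⟩, h3⟩
  refine ⟨⟨h1, h2⟩, ?_⟩
  have hm1 : (1 : ℝ) < m := by linarith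
  have hm2 : 1 < m := by exact_mod_cast hm1
  by_contra hnp
  have h4 := Nat.minFac_sq_le_self (by omega : 0 < m) hnp
  have h5 := h3 _ (Nat.minFac_prime (by omega)) (Nat.minFac_dvd m)
  have h6 : ((m.minFac : ℕ) : ℝ) ^ 2 ≤ m := by exact_mod_cast h4
  nlinarith

/-- the lengths of the intervals after division by a prime -/
theorem div_len {X y κ κ1 : ℝ} {p : ℕ} (hX : 1 < X) (hp0 : (0 : ℝ) < p) (hpX : (p : ℝ) ≤ X ^ ((1 : ℝ) / 2))
    (hκ1 : 0 < κ1) (hκ : κ ≤ κ1 / 2) (hy : X ^ (1 - κ) ≤ y) : (X / p) ^ (1 - κ1) ≤ y / p := by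
  have hX0 : 0 < X := by linarith
  have h1 : (X / p) ^ (1 - κ1) = X ^ (1 - κ1) * (p : ℝ) ^ κ1 / p := by
    rw [Real.div_rpow hX0.le hp0.le, div_eq_div_iff (by positivity) (by positivity)]
    have : (p : ℝ) ^ κ1 * (p : ℝ) ^ (1 - κ1) = p := by
      rw [← Real.rpow_add hp0]; simp
    rw [mul_assoc, this]
  rw [h1]
  apply div_le_div_of_nonneg_right _ hp0.le
  have h2 : (p : ℝ) ^ κ1 ≤ X ^ (κ1 / 2) := by
    calc (p : ℝ) ^ κ1 ≤ (X ^ ((1 : ℝ) / 2)) ^ κ1 := Real.rpow_le_rpow hp0.le hpX hκ1.le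
      _ = X ^ (κ1 / 2) := by rw [← Real.rpow_mul hX0.le]; congr 1; ring
  calc X ^ (1 - κ1) * (p : ℝ) ^ κ1 ≤ X ^ (1 - κ1) * X ^ (κ1 / 2) :=
        mul_le_mul_of_nonneg_left h2 (by positivity)
    _ = X ^ (1 - κ1 / 2) := by rw [← Real.rpow_add hX0]; congr 1; ring
    _ ≤ X ^ (1 - κ) := rpow_anti hX.le hκ
    _ ≤ y := hy

/-- one term of the sum -/
theorem term_bd (n : ℕ) (hn : 2 ≤ n) (IH : QS n) (δ e : ℝ) (hδ : 0 < δ) (hδ1 : δ ≤ 1) (he : 0 < e) :
    ∃ κ z0 : ℝ, 0 < κ ∧ κ ≤ 1 / 4 ∧ ∀ p : ℕ, z0 ≤ p → p.Prime → ∀ X : ℝ, 1 < X →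
      (n : ℝ) ≤ Real.log X / Real.log p → Real.log X / Real.log p ≤ n + 1 →
      ∀ y : ℝ, X ^ (1 - κ) ≤ y → y ≤ κ * X →
      |((DR (X / p) (y / p) p).card : ℝ) * Real.log X -
        y * (om (Real.log X / Real.log p - 1) * (Real.log X / (p * Real.log p)))| ≤
        y * (gb e (n + δ) (Real.log X / Real.log p) * (Real.log X / (p * Real.log p))) := by
  have hn2 : (2 : ℝ) ≤ n := by exact_mod_cast hn
  obtain ⟨κ1, z1, hκ1, hκ14, hz1⟩ := IH δ e hδ he
  obtain ⟨κ2, Y0, hκ2, hκ22, hY01, hY0⟩ := pnt_short 1 one_pos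
  set κ : ℝ := min (κ1 / 2) (κ2 / 2) with hκdef
  have hκ0 : 0 < κ := by positivity
  have hκa : κ ≤ κ1 / 2 := min_le_left _ _
  have hκb : κ ≤ κ2 / 2 := min_le_right _ _
  refine ⟨κ, max (max 4 z1) Y0, hκ0, by linarith, fun p hp hpp x hx hu1 hu2 y hy1 hy2 => ?_⟩
  have hpz : z1 ≤ p := (le_max_right _ _).trans ((le_max_left _ _).trans hp)
  have hpY : Y0 ≤ p := (le_max_right _ _).trans hp
  have hp4 : (4 : ℝ) ≤ p := (le_max_left _ _).trans ((le_max_left _ _).trans hp)
  have hp2 : (2 : ℝ) ≤ p := by linarith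
  have hp0 : (0 : ℝ) < p := by linarith
  have hx0 : 0 < x := by linarith
  have hlp : 0 < Real.log p := Real.log_pos (by linarith)
  have hlx := Real.log_pos hx
  have hyp0 : 0 < y := lt_of_lt_of_le (Real.rpow_pos_of_pos hx0 _) hy1
  have hpx : (p : ℝ) ≤ x ^ ((1 : ℝ) / 2) := by
    have h1 : Real.log p ≤ Real.log x * (1 / 2) := by
      rw [le_div_iff₀ hlp] at hu1
      nlinarith
    calc (p : ℝ) = Real.exp (Real.log p) := (Real.exp_log hp0).symm
      _ ≤ Real.exp (Real.log x * (1 / 2)) := Real.exp_le_exp.2 h1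
      _ = x ^ ((1 : ℝ) / 2) := (Real.rpow_def_of_pos hx0 _).symm
  set v := Real.log x / Real.log p - 1 with hv
  have hv1 : 1 ≤ v := by linarith
  have hly : Real.log (x / p) = v * Real.log p := by
    rw [Real.log_div hx0.ne' hp0.ne', hv]
    field_simp
  have hly0 : 0 < Real.log (x / p) := by rw [hly]; positivity
  have hyx : x / p = (p : ℝ) ^ v := by
    rw [Real.rpow_def_of_pos hp0, mul_comm, ← hly, Real.exp_log (by positivity)]
  have hw : 0 < Real.log x / (p * Real.log p) := by positivity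
  have hom1 := om_ge v hv1
  have hom2 := om_le v hv1
  set C : ℝ := ((DR (x / p) (y / p) p).card : ℝ) with hC
  have hC0 : 0 ≤ C := Nat.cast_nonneg _
  rcases le_or_gt (1 + δ) v with hgood | hbad
  · -- the asymptotic formula
    have h1 := hz1 p hpz (x / p) (by
        rw [hyx]
        exact Real.rpow_le_rpow_of_exponent_le (by linarith) hgood) (by
        rw [hyx]
        exact Real.rpow_le_rpow_of_exponent_le (by linarith) (by linarith)) (y / p)
        (div_len hx hp0 hpx hκ1 hκa hy1) (by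
        rw [← mul_div_assoc]
        apply div_le_div_of_nonneg_right _ hp0.le
        exact hy2.trans (mul_le_mul_of_nonneg_right (by linarith) hx0.le))
    rw [hly, mul_div_cancel_right₀ _ hlp.ne'] at h1
    unfold WW at h1
    have h2 : C * Real.log x - y * (om v * (Real.log x / (p * Real.log p))) =
        (C * (v * Real.log p) - y / p * (v * om v)) * (Real.log x / (v * Real.log p)) := by
      field_simp
    rw [h2, abs_mul, abs_of_nonneg (show 0 ≤ Real.log x / (v * Real.log p) by positivity)]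
    calc |C * (v * Real.log p) - y / p * (v * om v)| * (Real.log x / (v * Real.log p))
        ≤ (e * (y / p)) * (Real.log x / (v * Real.log p)) := mul_le_mul_of_nonneg_right h1 (by positivity)
      _ = y * ((e / v) * (Real.log x / (p * Real.log p))) := by field_simp
      _ ≤ y * (gb e (n + δ) (Real.log x / Real.log p) * (Real.log x / (p * Real.log p))) := by
          apply mul_le_mul_of_nonneg_left _ hyp0.le
          apply mul_le_mul_of_nonneg_right _ hw.le
          have h3 : e / v ≤ e := div_le_self he.le hv1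
          unfold gb
          split_ifs <;> linarith
  · have hn3 : n = 2 := by
      by_contra hne
      have h1 : 3 ≤ n := by omega
      have h2 : (3 : ℝ) ≤ n := by exact_mod_cast h1
      linarith
    have hg : gb e (n + δ) (Real.log x / Real.log p) = e + 3 := by
      unfold gb
      rw [if_pos]
      rw [hn3]
      push_cast
      linarith
    rw [hg]
    have hyp : (p : ℝ) ≤ x / p := by
      rw [hyx]
      calc (p : ℝ) = (p : ℝ) ^ (1 : ℝ) := (Real.rpow_one _).symm
        _ ≤ (p : ℝ) ^ v := Real.rpow_le_rpow_of_exponent_le (by linarith) hv1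
    have hyp2 : x / p ≤ (p : ℝ) ^ 2 := by
      rw [hyx]
      calc (p : ℝ) ^ v ≤ (p : ℝ) ^ (2 : ℝ) := Real.rpow_le_rpow_of_exponent_le (by linarith) (by linarith)
        _ = (p : ℝ) ^ 2 := by norm_num
    have hyxp : y / p ≤ κ2 * (x / p) := by
      rw [← mul_div_assoc]
      apply div_le_div_of_nonneg_right _ hp0.le
      exact hy2.trans (mul_le_mul_of_nonneg_right (by linarith) hx0.le)
    have hyxh : y / p ≤ 1 / 2 * (x / p) :=
      hyxp.trans (mul_le_mul_of_nonneg_right hκ22 (by positivity))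
    have h1 : C ≤ ((PR (x / p) (y / p)).card : ℝ) := by
      rw [hC]
      exact_mod_cast Finset.card_le_card (DR_sub_PR (by linarith) (by positivity) (by linarith) hyp2)
    have h2 := (abs_le.1 (hY0 (x / p) (hpY.trans hyp) (y / p) (div_len hx hp0 hpx hκ2 hκb hy1) hyxp)).2
    have h3 : C * Real.log p ≤ 3 * (y / p) := by
      have h4 : Real.log p ≤ Real.log (x / p) := Real.log_le_log hp0 hyp
      calc C * Real.log p ≤ ((PR (x / p) (y / p)).card : ℝ) * Real.log (x / p) := by gcongr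
        _ ≤ 3 * (y / p) := by
          have : 0 < y / p := by positivity
          linarith
    have h6 : C * Real.log x ≤ y * (3 * (Real.log x / (p * Real.log p))) := by
      have h7 : C ≤ 3 * (y / p) / Real.log p := by rw [le_div_iff₀ hlp]; exact h3
      calc C * Real.log x ≤ 3 * (y / p) / Real.log p * Real.log x := mul_le_mul_of_nonneg_right h7 hlx.le
        _ = _ := by field_simp
    have h8 : y * (om v * (Real.log x / (p * Real.log p))) ≤ y * (3 * (Real.log x / (p * Real.log p))) := by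
      apply mul_le_mul_of_nonneg_left _ hyp0.le
      apply mul_le_mul_of_nonneg_right _ hw.le
      linarith
    have h9 : 0 ≤ y * (om v * (Real.log x / (p * Real.log p))) := by
      have : 0 ≤ om v := by linarith
      positivity
    have h10 : 0 ≤ C * Real.log x := by positivity
    have h11 : 0 ≤ y * (e * (Real.log x / (p * Real.log p))) := by positivity
    have h12 : y * ((e + 3) * (Real.log x / (p * Real.log p))) =
      y * (e * (Real.log x / (p * Real.log p))) + y * (3 * (Real.log x / (p * Real.log p))) := by ring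
    rw [h12, abs_le]
    constructor
    · linarith
    · linarith

theorem QS_succ (n : ℕ) (hn : 2 ≤ n) (IH : QS n) : QS (n + 1) := by
  intro δ ε hδ hε
  have hn2 : (2 : ℝ) ≤ n := by exact_mod_cast hn
  set δ1 : ℝ := min 1 (ε / 48) with hδ1
  have hδ10 : 0 < δ1 := by positivity
  have hδ11 : δ1 ≤ 1 := min_le_left _ _
  have hδ12 : δ1 ≤ ε / 48 := min_le_right _ _
  obtain ⟨κ1, z1, hκ1, hκ14, hz1⟩ := IH 1 (ε / 8) one_pos (by positivity)
  obtain ⟨κ2, z2, hκ2, hκ24, hz2⟩ := IH δ ε hδ hε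
  obtain ⟨κ3, z3, hκ3, hκ34, hz3⟩ := term_bd n hn IH δ1 (ε / 16) hδ10 hδ11 (by positivity)
  have hgc : Continuous (fun s => om (s - 1)) := om_cont.comp (continuous_id.sub continuous_const)
  have e1 := sum_unif (fun s => om (s - 1)) hgc (fun s hs => by linarith [om_ge (s - 1) (by linarith)])
    (fun s hs => om_le (s - 1) (by linarith)) n (ε / 8) hn2 (by positivity)
  have hone : ∀ s : ℝ, 2 ≤ s → |(fun _ : ℝ => (1 : ℝ)) s| ≤ 1 := fun s _ => by simp
  have e2 := sum_g (fun _ => (1 : ℝ)) continuous_const hone n (n + 1) 1 hn2 (by linarith) one_pos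
  have e3 := sum_g (fun _ => (1 : ℝ)) continuous_const hone n (n + δ1) (ε / 48) hn2 (by linarith) (by positivity)
  obtain ⟨X1, hX1⟩ := eventually_atTop.1 ((e1.and e2).and (e3.and (eventually_gt_atTop (1 : ℝ))))
  obtain ⟨z4, hz4⟩ := eventually_atTop.1 (log_small 0 (ε / (32 * (n + 1))) one_pos (by positivity))
  have e5 : ∀ᶠ X : ℝ in atTop, Real.log X ≤ ε / 16 * X ^ ((1 : ℝ) / 4) := by
    have h1 := (isLittleO_log_rpow_atTop (show (0 : ℝ) < 1 / 4 by norm_num)).def (show 0 < ε / 16 by positivity)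
    filter_upwards [h1, eventually_gt_atTop (1 : ℝ)] with X h2 h3
    have hl := Real.log_pos h3
    rw [Real.norm_eq_abs, abs_of_nonneg hl.le, Real.norm_eq_abs, abs_of_nonneg (by positivity)] at h2
    exact h2
  obtain ⟨X5, hX5⟩ := eventually_atTop.1 e5
  set κ : ℝ := min κ1 (min κ2 κ3) with hκdef
  have hκ0 : 0 < κ := by positivity
  have hκa : κ ≤ κ1 := min_le_left _ _
  have hκb : κ ≤ κ2 := (min_le_right _ _).trans (min_le_left _ _)
  have hκc : κ ≤ κ3 := (min_le_right _ _).trans (min_le_right _ _)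
  refine ⟨κ, max (max (max 2 z1) (max z2 z3)) (max (max X1 z4) X5), hκ0, by linarith,
    fun z hz x hx1 hx2 y hy1 hy2 => ?_⟩
  have hz' := (le_max_left (max (max 2 z1) (max z2 z3)) (max (max X1 z4) X5)).trans hz
  have hz'' := (le_max_right (max (max 2 z1) (max z2 z3)) (max (max X1 z4) X5)).trans hz
  have a0 : 2 ≤ z := (le_max_left _ _).trans ((le_max_left _ _).trans hz')
  have a1 : z1 ≤ z := (le_max_right _ _).trans ((le_max_left _ _).trans hz')
  have a2 : z2 ≤ z := (le_max_left _ _).trans ((le_max_right _ _).trans hz')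
  have a3 : z3 ≤ z := (le_max_right _ _).trans ((le_max_right _ _).trans hz')
  have a4 : X1 ≤ z := (le_max_left _ _).trans ((le_max_left _ _).trans hz'')
  have a5 : z4 ≤ z := (le_max_right _ _).trans ((le_max_left _ _).trans hz'')
  have a6 : X5 ≤ z := (le_max_right _ _).trans hz''
  have hz0 : 0 < z := by linarith
  have hzx : z ≤ x := by
    refine le_trans ?_ hx1
    calc z = z ^ (1 : ℝ) := (Real.rpow_one z).symm
      _ ≤ z ^ (1 + δ) := Real.rpow_le_rpow_of_exponent_le (by linarith) (by linarith)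
  have hx1' : 1 ≤ x := by linarith
  have hx0 : 0 < x := by linarith
  have hy0 : 0 < y := lt_of_lt_of_le (Real.rpow_pos_of_pos hx0 _) hy1
  have hyk : ∀ κ' : ℝ, κ ≤ κ' → x ^ (1 - κ') ≤ y ∧ y ≤ κ' * x := fun κ' h =>
    ⟨(rpow_anti hx1' h).trans hy1, hy2.trans (mul_le_mul_of_nonneg_right h hx0.le)⟩
  rcases le_or_gt x (z ^ (n : ℝ)) with hle | hgt
  · exact hz2 z a2 x hx1 hle y (hyk κ2 hκb).1 (hyk κ2 hκb).2
  obtain ⟨⟨h1, h2⟩, h3, h4⟩ := hX1 x (a4.trans hzx)
  have hlz := Real.log_pos (show 1 < z by linarith)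
  have hlx := Real.log_pos h4
  set u := Real.log x / Real.log z with hu
  have hu1 : (n : ℝ) ≤ u := by
    rw [hu, le_div_iff₀ hlz, ← Real.log_rpow hz0]
    exact Real.log_le_log (by positivity) hgt.le
  have hu2 : u ≤ n + 1 := by
    rw [hu, div_le_iff₀ hlz, ← Real.log_rpow hz0]
    have := Real.log_le_log hx0 hx2
    push_cast at this
    exact this
  have hu0 : 0 < u := by linarith
  have hzu : x ^ (1 / u) = z := by
    rw [Real.rpow_def_of_pos hx0]
    have : Real.log x * (1 / u) = Real.log z := by rw [hu]; field_simp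
    rw [this, Real.exp_log hz0]
  set z' := x ^ (1 / (n : ℝ)) with hz'def
  have hzz' : z ≤ z' := by
    rw [← hzu, hz'def]
    exact Real.rpow_le_rpow_of_exponent_le h4.le (one_div_le_one_div_of_le (by linarith) hu1)
  have hz'n : z' ^ (n : ℝ) = x := by
    rw [hz'def, ← Real.rpow_mul hx0.le, one_div_mul_cancel (by linarith), Real.rpow_one]
  have hlz' : Real.log z' = Real.log x / n := by
    rw [hz'def, Real.log_rpow hx0]; ring
  have hxy : 0 ≤ x - y := by
    have h5 : y ≤ 1 / 4 * x := hy2.trans (mul_le_mul_of_nonneg_right (by linarith) hx0.le)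
    linarith
  -- the first term
  have t1 := hz1 z' (a1.trans hzz') x (by
    rw [← hz'n]
    apply Real.rpow_le_rpow_of_exponent_le (by linarith) (by linarith)) (by rw [hz'n]) y
      (hyk κ1 hκa).1 (hyk κ1 hκa).2
  have hlz'2 : Real.log x / Real.log z' = n := by
    rw [hlz']; field_simp
  rw [hlz'2] at t1
  -- the sum
  set S := ∑ p ∈ PI ⌊z⌋₊ ⌊z'⌋₊, ((DR (x / p) (y / p) p).card : ℝ) with hS
  have hcell : PI ⌊z⌋₊ ⌊z'⌋₊ = PI ⌊x ^ (1 / u)⌋₊ ⌊x ^ (1 / (n : ℝ))⌋₊ := by rw [hzu]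
  have t2 : |S * Real.log x - y * AA x n u (fun s => om (s - 1))| ≤ y * AA x n u (gb (ε / 16) (n + δ1)) := by
    rw [hS, hcell]
    unfold AA
    rw [Finset.sum_mul, Finset.mul_sum, ← Finset.sum_sub_distrib, Finset.mul_sum]
    refine (Finset.abs_sum_le_sum_abs _ _).trans (Finset.sum_le_sum fun p hp => ?_)
    obtain ⟨q1, q2, q3, q4⟩ := mem_cell h4 (by linarith) (by linarith) hp
    rw [← hcell, mem_PIf (by linarith) (by linarith)] at hp
    exact hz3 p (a3.trans hp.1.1.le) hp.2 x h4 q1 (by linarith) y (hyk κ3 hκc).1 (hyk κ3 hκc).2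
  have t3 := AA_gb (x := x) (e := ε / 16) (δ := δ1) (u := u) n hn h4 (by positivity) hδ10.le hδ11 hu1 hu2
  have t4 : AA x n (n + 1) (fun _ => 1) ≤ 2 := by
    have := (abs_le.1 h2).2
    rw [intervalIntegral.integral_const, smul_eq_mul] at this
    linarith
  have t5 : AA x n (n + δ1) (fun _ => 1) ≤ ε / 24 := by
    have := (abs_le.1 h3).2
    rw [intervalIntegral.integral_const, smul_eq_mul] at this
    linarith
  have t6 : y * AA x n u (gb (ε / 16) (n + δ1)) ≤ ε / 4 * y := by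
    have : AA x n u (gb (ε / 16) (n + δ1)) ≤ ε / 4 := by
      have h5 : ε / 16 * AA x n (n + 1) (fun _ => 1) ≤ ε / 16 * 2 := by gcongr
      linarith
    calc y * AA x n u (gb (ε / 16) (n + δ1)) ≤ y * (ε / 4) := by gcongr
      _ = _ := by ring
  -- the integral
  have t7 := h1 u hu1 hu2
  rw [shift_int, ← WW_sub u n hn2 (by linarith)] at t7
  -- the error of the identity
  have t8 : (2 * y / z + z') * Real.log x ≤ ε / 8 * y := by
    have h5 := hz4 z a5
    rw [Real.rpow_zero, one_mul] at h5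
    have h6 : Real.log x ≤ (n + 1) * Real.log z := by
      rw [hu, div_le_iff₀ hlz] at hu2
      exact hu2
    have h7 : 2 * y / z * Real.log x ≤ ε / 16 * y := by
      calc 2 * y / z * Real.log x ≤ 2 * y / z * ((n + 1) * Real.log z) := by gcongr
        _ ≤ 2 * y / z * ((n + 1) * (ε / (32 * (n + 1)) * z)) := by gcongr
        _ = ε / 16 * y := by field_simp; ring
    have h8 : z' * Real.log x ≤ ε / 16 * y := by
      have h9 : z' ≤ x ^ ((1 : ℝ) / 2) := by
        rw [hz'def]
        exact Real.rpow_le_rpow_of_exponent_le hx1' (one_div_le_one_div_of_le (by norm_num) hn2)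
      calc z' * Real.log x ≤ x ^ ((1 : ℝ) / 2) * (ε / 16 * x ^ ((1 : ℝ) / 4)) :=
            mul_le_mul h9 (hX5 x (a6.trans hzx)) hlx.le (by positivity)
        _ = ε / 16 * x ^ ((1 : ℝ) - 1 / 4) := by
            rw [show (1 : ℝ) - 1 / 4 = 1 / 2 + 1 / 4 by norm_num, Real.rpow_add hx0]; ring
        _ ≤ ε / 16 * y := by
            apply mul_le_mul_of_nonneg_left _ (by positivity)
            exact (rpow_anti hx1' (by linarith)).trans hy1
    calc (2 * y / z + z') * Real.log x = 2 * y / z * Real.log x + z' * Real.log x := by ring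
      _ ≤ ε / 16 * y + ε / 16 * y := add_le_add h7 h8
      _ = _ := by ring
  have b1 := buch_up x y z z' hxy hy0.le (by linarith) hzz'
  have b2 := buch_lo x y z z' hxy hy0.le (by linarith) hzz'
  rw [← hS] at b1 b2
  have b1' := mul_le_mul_of_nonneg_right b1 hlx.le
  have b2' := mul_le_mul_of_nonneg_right b2 hlx.le
  have e7 : y * AA x n u (fun s => om (s - 1)) - y * (WW u - WW n) ≤ ε / 8 * y ∧
      -(ε / 8 * y) ≤ y * AA x n u (fun s => om (s - 1)) - y * (WW u - WW n) := by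
    rw [← mul_sub]
    obtain ⟨c1, c2⟩ := abs_le.1 t7
    constructor
    · nlinarith
    · nlinarith
  obtain ⟨d1, d2⟩ := abs_le.1 t1
  obtain ⟨d3, d4⟩ := abs_le.1 t2
  have hεx : 0 < ε * y := by positivity
  rw [abs_le]
  constructor
  · nlinarith only [b2', d1, d3, e7.2, t6, hεx]
  · nlinarith only [b1', d2, d4, e7.1, t6, t8, hεx]

theorem QS_all (n : ℕ) (hn : 2 ≤ n) : QS n := by
  induction n, hn using Nat.le_induction with
  | base => exact QS_two
  | succ n hn ih => exact QS_succ n hn ih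

end Pool.Agent.H538
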