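import Pool.Agent.H538.S5
import Pool.Agent.H538.S8

set_option autoImplicit false

/-!
# The law for the integers without medium prime factors
-/

namespace Pool.Agent.H538

open Finset Filter Topology MeasureTheory
open Pool.Agent.TH888.R (wt wt_nonneg wt_le_one)
open Pool.Agent.R529.BU (om WW om_ge om_le WW_cont)
open Pool.Agent.H305R2 (roughPart SM SM_pos)

lemma noMid_iff {q n : ℕ} (hn : n ≠ 0) (z : ℝ) : NoMid q z n ↔ Big z (n / roughPart q n) (roughPart q n) := by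
  constructor
  · intro h l hl hd
    obtain ⟨h1, h2⟩ := roughPart_dvd_prime hl hd
    by_contra hc
    push Not at hc
    exact h l hl h1 hc h2
  · intro h l hl hql hlz hd
    obtain ⟨s, hs, he⟩ := split_smooth q hn
    rw [he] at hd
    rcases (Nat.Prime.dvd_mul hl).1 hd with h1 | h1
    · have := hs.2 l ((Nat.mem_primeFactorsList (SM_pos hs).ne').2 ⟨hl, h1⟩)
      omega
    · have := h l hl h1
      linarith

/-- sums over blocks as counts in intervals -/
lemma block_NP (A : ℕ → ℕ → Prop) (q : ℕ) (P : ℕ → ℕ → Prop)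
    (hAP : ∀ n, n ≠ 0 → (A q n ↔ P (n / roughPart q n) (roughPart q n))) {B L : ℕ} (hB : 1 ≤ B) :
    ∑ D ∈ range L, ind A q (B + D) = NP q ((B : ℝ) + L - 1) L P := by
  classical
  unfold NP
  have e1 : ⌊(B : ℝ) + L - 1 - L⌋₊ = B - 1 := by
    have : (B : ℝ) + L - 1 - L = ((B - 1 : ℕ) : ℝ) := by push_cast [hB]; ring
    rw [this, Nat.floor_natCast]
  have e2 : ⌊(B : ℝ) + L - 1⌋₊ = B + L - 1 := by
    have : (B : ℝ) + L - 1 = ((B + L - 1 : ℕ) : ℝ) := by
      rw [Nat.cast_sub (by omega)]; push_cast; ring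
    rw [this, Nat.floor_natCast]
  rw [e1, e2]
  have e3 : Ioc (B - 1) (B + L - 1) = Ico B (B + L) := by
    ext x; simp only [mem_Ioc, mem_Ico]; omega
  have e4 := Finset.sum_Ico_eq_sum_range (fun n => ind A q n) B (B + L)
  rw [Nat.add_sub_cancel_left] at e4
  rw [e3, ← e4, Finset.card_filter, Nat.cast_sum]
  refine Finset.sum_congr rfl fun n hn => ?_
  rw [mem_Ico] at hn
  unfold ind
  have := hAP n (by omega)
  by_cases h : A q n
  · rw [if_pos h, if_pos (this.1 h)]; simp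
  · rw [if_neg h, if_neg fun h' => h (this.2 h')]; simp

/-- the integers without prime factors in `(q, b ^ (q / v)]` -/
def AR (b : ℕ) (v : ℝ) (q n : ℕ) : Prop := NoMid q (Real.exp (q * Real.log b / v)) n

lemma AR_sieved {b : ℕ} {v : ℝ} : Sieved (AR b v) (Real.log b / v) := by
  intro q n h
  have e : Real.log b / v * q = q * Real.log b / v := by ring
  rw [e]
  exact h

theorem AR_dens {b : ℕ} (hb : 2 ≤ b) {v : ℝ} (hv : 1 < v) :
    HasDens b (AR b v) (Real.exp Real.eulerMascheroniConstant / Real.log b * WW v) := by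
  intro ε hε
  have hbr : (2 : ℝ) ≤ b := by exact_mod_cast hb
  have hb0 : (0 : ℝ) < b := by linarith
  have hlb : 0 < Real.log b := Real.log_pos (by linarith)
  obtain ⟨δ, κ, hδ, hδ8, hκ, hκ4, hd⟩ := dens hv (show 0 < ε * Real.log b by positivity)
  refine ⟨δ, ⌈1 / κ⌉₊, hδ, hδ8, fun C hC => ?_⟩
  obtain ⟨P, hP2, hP⟩ := hd (Real.log b) hlb |Real.log (2 * C)| (abs_nonneg _)
  refine ⟨P, fun q hq B L hKL hBC hL => ?_⟩
  have hL0 : (0 : ℝ) < L := lt_of_lt_of_le (Real.exp_pos _) hL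
  have hL1 : 1 ≤ L := by exact_mod_cast (Nat.cast_pos.1 hL0)
  have hL1r : (1 : ℝ) ≤ L := by exact_mod_cast hL1
  have hK : 1 / κ ≤ (⌈1 / κ⌉₊ : ℝ) := Nat.le_ceil _
  have hKLr : (⌈1 / κ⌉₊ : ℝ) * L ≤ B := by exact_mod_cast hKL
  have hLB : (L : ℝ) ≤ κ * B := by
    have h1 : 1 / κ * L ≤ B := (mul_le_mul_of_nonneg_right hK hL0.le).trans hKLr
    rw [div_mul_eq_mul_div, div_le_iff₀ hκ, one_mul] at h1
    linarith
  have hB0 : (0 : ℝ) < B := by
    by_contra h
    push Not at h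
    have : κ * B ≤ 0 := mul_nonpos_of_nonneg_of_nonpos hκ.le h
    linarith
  have hB1 : 1 ≤ B := by exact_mod_cast (Nat.cast_pos.1 hB0)
  have hLB' : (L : ℝ) ≤ B := by
    have : κ * B ≤ 1 * B := mul_le_mul_of_nonneg_right (by linarith) hB0.le
    linarith
  have hq2 : 2 ≤ q := hP2.trans hq
  have hq0 : (0 : ℝ) < q := by exact_mod_cast (by omega : 0 < q)
  have h1 := hP q hq ((B : ℝ) + L - 1) L hL (by
      refine hLB.trans (mul_le_mul_of_nonneg_left (by linarith) hκ.le)) (by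
      have h2 : (B : ℝ) + L - 1 ≤ 2 * C * (b : ℝ) ^ q := by linarith
      refine h2.trans ?_
      rw [Real.exp_add, Real.exp_nat_mul, Real.exp_log hb0]
      have h3 : 2 * C ≤ Real.exp |Real.log (2 * C)| := by
        calc 2 * C = Real.exp (Real.log (2 * C)) := (Real.exp_log (by positivity)).symm
          _ ≤ _ := Real.exp_le_exp.2 (le_abs_self _)
      calc 2 * C * (b : ℝ) ^ q ≤ Real.exp |Real.log (2 * C)| * (b : ℝ) ^ q :=
            mul_le_mul_of_nonneg_right h3 (by positivity)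
        _ = _ := by ring)
  rw [block_NP (AR b v) q (Big (Real.exp (q * Real.log b / v))) (fun n hn => noMid_iff hn _) hB1]
  set N : ℝ := (NP q ((B : ℝ) + L - 1) L (Big (Real.exp (q * Real.log b / v))) : ℝ) with hN
  have hqa : 0 < q * Real.log b := by positivity
  have hw : wt q = Real.log q / q := rfl
  have e1 : N - Real.exp Real.eulerMascheroniConstant / Real.log b * WW v * wt q * L =
      (N * (q * Real.log b) - Real.exp Real.eulerMascheroniConstant * WW v * Real.log q * L) /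
        (q * Real.log b) := by
    rw [hw]; field_simp
  rw [e1, abs_div, abs_of_pos hqa, div_le_iff₀ hqa]
  refine h1.trans (le_of_eq ?_)
  rw [hw]; field_simp

lemma WW_pos {v : ℝ} (hv : 1 < v) : 0 < WW v := by
  have := om_ge v hv.le
  exact mul_pos (by linarith) (by linarith)

/-- the law at a fixed exponent -/
theorem law_AR {b : ℕ} (hb : 2 ≤ b) {v : ℝ} (hv : 1 < v) (S : Set ℕ) (hdiv : Tendsto (vS S) atTop atTop) :
    ∀ᵐ β : ℝ, 0 < β → Tendsto (fun n : ℕ => (cA (AR b v) b S β n : ℝ) / vS S n) atTop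
      (𝓝 (Real.exp Real.eulerMascheroniConstant / Real.log b * WW v)) := by
  have hlb : 0 < Real.log b := Real.log_pos (by exact_mod_cast (by omega : 1 < b))
  have hv0 : 0 < v := by linarith
  refine law_beta hb (div_pos hlb hv0) AR_sieved ?_ (AR_dens hb hv) S hdiv
  have := WW_pos hv
  positivity

open Classical in
/-- the number of primes `p ≤ n` in `S` for which the largest integer `N` below `β b ^ p` has no prime
factor in `(p, N ^ (1 / u)]` -/
noncomputable def cR (b : ℕ) (S : Set ℕ) (β u : ℝ) (n : ℕ) : ℕ :=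
  ((Finset.range (n + 1)).filter (fun p => p.Prime ∧ p ∈ S ∧
    NoMid p (((⌈β * (b : ℝ) ^ p⌉₊ - 1 : ℕ) : ℝ) ^ (1 / u)) (⌈β * (b : ℝ) ^ p⌉₊ - 1))).card

/-- comparison of counting functions -/
lemma card_cmp {P Q : ℕ → Prop} [DecidablePred P] [DecidablePred Q] {p0 : ℕ} (h : ∀ p ≥ p0, P p → Q p) (n : ℕ) :
    (((Finset.range (n + 1)).filter P).card : ℝ) ≤ ((Finset.range (n + 1)).filter Q).card + p0 := by
  have h1 : (Finset.range (n + 1)).filter P ⊆ (Finset.range (n + 1)).filter Q ∪ Finset.range p0 := by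
    intro p hp
    rw [mem_filter] at hp
    rw [mem_union, mem_filter, mem_range (m := p) (n := p0)]
    by_cases hpp : p < p0
    · exact Or.inr hpp
    · exact Or.inl ⟨hp.1, h p (by omega) hp.2⟩
  have h2 := (card_le_card h1).trans (card_union_le _ _)
  rw [card_range] at h2
  exact_mod_cast h2

/-- sizes -/
lemma size_ev {b : ℕ} (hb : 2 ≤ b) {β : ℝ} (hβ : 0 < β) {u v : ℝ} (hu : 0 < u) (hv : 0 < v) :
    (u < v → ∃ p0 : ℕ, ∀ p ≥ p0, Real.exp (p * Real.log b / v) ≤ ((⌈β * (b : ℝ) ^ p⌉₊ - 1 : ℕ) : ℝ) ^ (1 / u)) ∧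
    (v < u → ∃ p0 : ℕ, ∀ p ≥ p0, ((⌈β * (b : ℝ) ^ p⌉₊ - 1 : ℕ) : ℝ) ^ (1 / u) ≤ Real.exp (p * Real.log b / v)) := by
  have hbr : (2 : ℝ) ≤ b := by exact_mod_cast hb
  have hb0 : (0 : ℝ) < b := by linarith
  have hlb : 0 < Real.log b := Real.log_pos (by linarith)
  have ht : Tendsto (fun p : ℕ => (p : ℝ) * Real.log b) atTop atTop :=
    tendsto_natCast_atTop_atTop.atTop_mul_const hlb
  have hbp : ∀ p : ℕ, (b : ℝ) ^ p = Real.exp (p * Real.log b) := fun p => by
    rw [Real.exp_nat_mul, Real.exp_log hb0]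
  constructor
  · intro huv
    have hd : 0 < 1 / u - 1 / v := by
      have := one_div_lt_one_div_of_lt hu huv
      linarith
    have h1 : ∀ᶠ p : ℕ in atTop, 2 / β ≤ Real.exp (p * Real.log b) :=
      (Real.tendsto_exp_atTop.comp ht).eventually_ge_atTop _
    have h2 : ∀ᶠ p : ℕ in atTop, 1 / u * |Real.log (β / 2)| ≤ (1 / u - 1 / v) * (p * Real.log b) :=
      (ht.const_mul_atTop hd).eventually_ge_atTop _
    obtain ⟨p0, hp0⟩ := (h1.and h2).exists_forall_of_atTop
    refine ⟨p0, fun p hp => ?_⟩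
    obtain ⟨g1, g2⟩ := hp0 p hp
    have g3 : β / 2 * (b : ℝ) ^ p ≤ ((⌈β * (b : ℝ) ^ p⌉₊ - 1 : ℕ) : ℝ) := by
      rw [div_le_iff₀ hβ, ← hbp] at g1
      have h3 : 1 ≤ ⌈β * (b : ℝ) ^ p⌉₊ := Nat.one_le_iff_ne_zero.2 (by
        rw [Ne, Nat.ceil_eq_zero, not_le]; positivity)
      rw [Nat.cast_sub h3]
      have h4 := Nat.le_ceil (β * (b : ℝ) ^ p)
      push_cast
      nlinarith
    have g4 : (β / 2 * (b : ℝ) ^ p) ^ (1 / u) ≤ ((⌈β * (b : ℝ) ^ p⌉₊ - 1 : ℕ) : ℝ) ^ (1 / u) :=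
      Real.rpow_le_rpow (by positivity) g3 (by positivity)
    refine le_trans ?_ g4
    have e : β / 2 * (b : ℝ) ^ p = Real.exp (Real.log (β / 2) + p * Real.log b) := by
      rw [Real.exp_add, Real.exp_log (by positivity), hbp]
    rw [e, ← Real.exp_mul, Real.exp_le_exp]
    have h5 := neg_abs_le (Real.log (β / 2))
    have h6 : 1 / u * -|Real.log (β / 2)| ≤ 1 / u * Real.log (β / 2) :=
      mul_le_mul_of_nonneg_left h5 (by positivity)
    have h7 : (Real.log (β / 2) + p * Real.log b) * (1 / u) = 1 / u * Real.log (β / 2) + 1 / u * (p * Real.log b) := by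
      ring
    rw [h7]
    have h8 : (p : ℝ) * Real.log b / v = 1 / v * (p * Real.log b) := by ring
    rw [h8]
    linarith
  · intro hvu
    have hd : 0 < 1 / v - 1 / u := by
      have := one_div_lt_one_div_of_lt hv hvu
      linarith
    have h2 : ∀ᶠ p : ℕ in atTop, 1 / u * |Real.log β| ≤ (1 / v - 1 / u) * (p * Real.log b) :=
      (ht.const_mul_atTop hd).eventually_ge_atTop _
    obtain ⟨p0, hp0⟩ := h2.exists_forall_of_atTop
    refine ⟨p0, fun p hp => ?_⟩
    have g2 := hp0 p hp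
    have hpos : 0 < β * (b : ℝ) ^ p := by positivity
    have g3 : ((⌈β * (b : ℝ) ^ p⌉₊ - 1 : ℕ) : ℝ) ≤ β * (b : ℝ) ^ p := by
      have h3 : 1 ≤ ⌈β * (b : ℝ) ^ p⌉₊ := Nat.one_le_iff_ne_zero.2 (by
        rw [Ne, Nat.ceil_eq_zero, not_le]; positivity)
      rw [Nat.cast_sub h3]
      have h4 := Nat.ceil_lt_add_one hpos.le
      push_cast
      linarith
    have g4 : ((⌈β * (b : ℝ) ^ p⌉₊ - 1 : ℕ) : ℝ) ^ (1 / u) ≤ (β * (b : ℝ) ^ p) ^ (1 / u) :=
      Real.rpow_le_rpow (Nat.cast_nonneg _) g3 (by positivity)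
    refine g4.trans ?_
    have e : β * (b : ℝ) ^ p = Real.exp (Real.log β + p * Real.log b) := by
      rw [Real.exp_add, Real.exp_log hβ, hbp]
    rw [e, ← Real.exp_mul, Real.exp_le_exp]
    have h5 := le_abs_self (Real.log β)
    have h6 : 1 / u * Real.log β ≤ 1 / u * |Real.log β| :=
      mul_le_mul_of_nonneg_left h5 (by positivity)
    have h7 : (Real.log β + p * Real.log b) * (1 / u) = 1 / u * Real.log β + 1 / u * (p * Real.log b) := by
      ring
    rw [h7]
    have h8 : (p : ℝ) * Real.log b / v = 1 / v * (p * Real.log b) := by ring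
    rw [h8]
    linarith

/-- **Buchstab's law for almost every amplitude.** -/
theorem buchstab_law {b : ℕ} (hb : 2 ≤ b) (S : Set ℕ) (hdiv : Tendsto (vS S) atTop atTop) :
    ∀ᵐ β : ℝ, 0 < β → ∀ u : ℝ, 1 < u → Tendsto (fun n : ℕ => (cR b S β u n : ℝ) / vS S n) atTop
      (𝓝 (Real.exp Real.eulerMascheroniConstant / Real.log b * WW u)) := by
  classical
  set cc := Real.exp Real.eulerMascheroniConstant / Real.log b with hcc
  have hlb : 0 < Real.log b := Real.log_pos (by exact_mod_cast (by omega : 1 < b))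
  have hcc0 : 0 < cc := by rw [hcc]; positivity
  have h1 : ∀ᵐ β : ℝ, ∀ v : ℚ, (1 : ℝ) < v → 0 < β →
      Tendsto (fun n : ℕ => (cA (AR b v) b S β n : ℝ) / vS S n) atTop (𝓝 (cc * WW v)) := by
    rw [ae_all_iff]
    intro v
    by_cases hv : (1 : ℝ) < v
    · filter_upwards [law_AR hb hv S hdiv] with β hβ _ h0
      exact hβ h0
    · exact Eventually.of_forall fun β h => absurd h hv
  filter_upwards [h1] with β hβ hβ0 u hu
  have hu0 : 0 < u := by linarith
  rw [Metric.tendsto_atTop]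
  intro ε hε
  have hcW : ContinuousAt (fun v => cc * WW v) u := (continuous_const.mul WW_cont).continuousAt
  obtain ⟨ρ, hρ, hcont⟩ := Metric.continuousAt_iff.1 hcW (ε / 4) (by positivity)
  -- rational exponents on both sides
  obtain ⟨v2, hv2a, hv2b⟩ := exists_rat_btwn (show u < u + ρ by linarith)
  obtain ⟨v1, hv1a, hv1b⟩ := exists_rat_btwn (show max 1 (u - ρ) < u from max_lt hu (by linarith))
  have hv11 : (1 : ℝ) < v1 := lt_of_le_of_lt (le_max_left _ _) hv1a
  have hv1ρ : u - ρ < v1 := lt_of_le_of_lt (le_max_right _ _) hv1a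
  have t2 := hβ v2 (by linarith) hβ0
  have t1 := hβ v1 hv11 hβ0
  have c2 := hcont (show dist (v2 : ℝ) u < ρ by rw [Real.dist_eq, abs_lt]; constructor <;> linarith)
  have c1 := hcont (show dist (v1 : ℝ) u < ρ by rw [Real.dist_eq, abs_lt]; constructor <;> linarith)
  simp only [Real.dist_eq] at c1 c2
  obtain ⟨p2, hp2⟩ := (size_ev hb hβ0 hu0 (show (0 : ℝ) < v2 by linarith)).1 hv2a
  obtain ⟨p1, hp1⟩ := (size_ev hb hβ0 hu0 (show (0 : ℝ) < v1 by linarith)).2 hv1b
  have b2 : ∀ n : ℕ, (cR b S β u n : ℝ) ≤ cA (AR b v2) b S β n + p2 := fun n =>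
    card_cmp (fun p hp hP => ⟨hP.1, hP.2.1, fun l hl hpl hlz =>
      hP.2.2 l hl hpl (hlz.trans (hp2 p hp))⟩) n
  have b1 : ∀ n : ℕ, (cA (AR b v1) b S β n : ℝ) ≤ cR b S β u n + p1 := fun n =>
    card_cmp (fun p hp hP => ⟨hP.1, hP.2.1, fun l hl hpl hlz =>
      hP.2.2 l hl hpl (hlz.trans (hp1 p hp))⟩) n
  have s2 : Tendsto (fun n : ℕ => (p2 : ℝ) / vS S n) atTop (𝓝 0) := hdiv.const_div_atTop _
  have s1 : Tendsto (fun n : ℕ => (p1 : ℝ) / vS S n) atTop (𝓝 0) := hdiv.const_div_atTop _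
  have e2 := (Metric.tendsto_atTop.1 t2) (ε / 4) (by positivity)
  have e1 := (Metric.tendsto_atTop.1 t1) (ε / 4) (by positivity)
  have f2 := (Metric.tendsto_atTop.1 s2) (ε / 4) (by positivity)
  have f1 := (Metric.tendsto_atTop.1 s1) (ε / 4) (by positivity)
  obtain ⟨n2, hn2⟩ := e2
  obtain ⟨n1, hn1⟩ := e1
  obtain ⟨m2, hm2⟩ := f2
  obtain ⟨m1, hm1⟩ := f1
  obtain ⟨n0, hn0⟩ := eventually_atTop.1 (hdiv.eventually_gt_atTop 0)
  refine ⟨max (max n1 n2) (max (max m1 m2) n0), fun n hn => ?_⟩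
  have k1 := hn1 n ((le_max_left _ _).trans ((le_max_left _ _).trans hn))
  have k2 := hn2 n ((le_max_right _ _).trans ((le_max_left _ _).trans hn))
  have l1 := hm1 n ((le_max_left _ _).trans ((le_max_left _ _).trans ((le_max_right _ _).trans hn)))
  have l2 := hm2 n ((le_max_right _ _).trans ((le_max_left _ _).trans ((le_max_right _ _).trans hn)))
  have hV := hn0 n ((le_max_right _ _).trans ((le_max_right _ _).trans hn))
  rw [Real.dist_eq, abs_lt] at k1 k2 l1 l2
  rw [abs_lt] at c1 c2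
  have d2 := div_le_div_of_nonneg_right (b2 n) hV.le
  have d1 := div_le_div_of_nonneg_right (b1 n) hV.le
  rw [add_div] at d1 d2
  rw [Real.dist_eq, abs_lt]
  constructor
  · linarith [k1.1, l1.2, c1.1]
  · linarith [k2.2, l2.2, c2.2]

end Pool.Agent.H538
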