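import Pool.Agent.H538.K9

set_option autoImplicit false

/-!
# Near pairs of sieved integers, for shifted families
-/

namespace Pool.Agent.H538

open Finset Filter Topology
open Pool.Agent.W66 (sift_two ratio_bound MM MM_ne two_dvd_MM lt_of_not_dvd_MM)
open Pool.Agent.Helper112.E456.SieveAux (DD)

/-- the shifted integer -/
def shf (c : ℤ) (n : ℕ) : ℕ := ((n : ℤ) + c).toNat

lemma shf_cast {c : ℤ} {n : ℕ} (h : c.natAbs ≤ n) : ((shf c n : ℕ) : ℤ) = n + c := by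
  unfold shf
  rw [Int.toNat_of_nonneg]
  omega

lemma shf_add {c : ℤ} {n k : ℕ} (h : c.natAbs ≤ n) : shf c (n + k) = shf c n + k := by
  have h1 := shf_cast h
  have h2 := shf_cast (c := c) (n := n + k) (by omega)
  push_cast at h2
  omega

lemma DD_gen {X Y B : ℕ} : DD 1 X B Y = B * ((Y : ℤ) - (B * X : ℕ)).natAbs := by
  unfold DD
  rw [one_mul, one_mul]

open Classical in
/-- one block -/
lemma nearG_one {b : ℕ} (hb : 2 ≤ b) {η Λ : ℝ} (hη : 0 < η) (hΛ : 1 ≤ Λ) (j : ℕ) : ∃ K : ℝ, 0 < K ∧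
    ∃ P : ℕ, 2 ≤ P ∧ ∀ p ≥ P, 2 ≤ ⌊Real.exp (η * p)⌋₊ ∧ ∀ h : ℕ, ((p + h : ℕ) : ℝ) ≤ Λ * p →
    ∀ X Y : ℕ, (Y : ℤ) ≠ (b ^ h * X : ℕ) → ((Y : ℤ) - (b ^ h * X : ℕ)).natAbs < b ^ (h + j) →
    (((Icc 1 ⌊Real.exp (η * p)⌋₊).filter (fun n => NoMid p (Real.exp (η * p)) (n + X) ∧
      NoMid (p + h) (Real.exp (η * p)) (b ^ h * n + Y))).card : ℝ) ≤
      K * (Real.log p / p) ^ 2 * ⌊Real.exp (η * p)⌋₊ := by
  obtain ⟨C0, hC0, hsv⟩ := sift_two
  obtain ⟨C1, hC1, hrat⟩ := ratio_bound hb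
  refine ⟨C0 * (2 * C1) ^ 2 / (η / 2) ^ 2, by positivity, ?_⟩
  obtain ⟨P, hP⟩ := eventually_atTop.1 hrat
  have hl1 : ∀ᶠ p : ℕ in atTop, 2 ≤ η * p :=
    (tendsto_natCast_atTop_atTop.const_mul_atTop hη).eventually_ge_atTop 2
  have hl2 : ∀ᶠ p : ℕ in atTop, Λ ≤ p := tendsto_natCast_atTop_atTop.eventually_ge_atTop _
  obtain ⟨P2, hP2⟩ := (hl1.and hl2).exists_forall_of_atTop
  refine ⟨max (max P P2) (j + 2), by have := le_max_right (max P P2) (j + 2); omega, fun p hp => ?_⟩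
  have hpP : P ≤ p := (le_max_left _ _).trans ((le_max_left _ _).trans hp)
  have hpP2 : P2 ≤ p := (le_max_right _ _).trans ((le_max_left _ _).trans hp)
  have hpj : j + 2 ≤ p := (le_max_right _ _).trans hp
  have hp2 : 2 ≤ p := by omega
  obtain ⟨g1, g2⟩ := hP2 p hpP2
  have hp2' : (2 : ℝ) ≤ p := by exact_mod_cast hp2
  have hp0 : (0 : ℝ) < p := by linarith
  set N0 := ⌊Real.exp (η * p)⌋₊ with hN0
  have hEpos := Real.exp_pos (η * p)
  have hN0le : (N0 : ℝ) ≤ Real.exp (η * p) := Nat.floor_le hEpos.le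
  have hE3 : (3 : ℝ) ≤ Real.exp (η * p) := by have := Real.add_one_le_exp (η * p); linarith
  have hN02 : 2 ≤ N0 := Nat.le_floor (by push_cast; linarith)
  refine ⟨hN02, fun h hph X Y hXY hXYb => ?_⟩
  have hN0gt : Real.exp (η * p) < N0 + 1 := Nat.lt_floor_add_one _
  have hN0r : (2 : ℝ) ≤ N0 := by exact_mod_cast hN02
  set q := p + h with hq
  have hq2 : 2 ≤ q := by omega
  have hz : (N0 : ℝ) ^ ((1 : ℝ) / 8) ≤ Real.exp (η * p) := by
    calc (N0 : ℝ) ^ ((1 : ℝ) / 8) ≤ (N0 : ℝ) ^ (1 : ℝ) :=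
          Real.rpow_le_rpow_of_exponent_le (by linarith) (by norm_num)
      _ = N0 := Real.rpow_one _
      _ ≤ _ := hN0le
  set S := (Icc 1 N0).filter (fun n => NoMid p (Real.exp (η * p)) (n + X) ∧
    NoMid (p + h) (Real.exp (η * p)) (b ^ h * n + Y)) with hS
  set r := ((Y : ℤ) - (b ^ h * X : ℕ)).natAbs with hr
  have hr0 : 0 < r := by
    rw [hr]
    exact Int.natAbs_pos.2 (sub_ne_zero.2 hXY)
  have hM0 : MM q b (h + j) r ≠ 0 := MM_ne hb hr0
  have hDD : DD 1 X (b ^ h) Y ∣ MM q b (h + j) r := by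
    rw [DD_gen]
    unfold MM
    rw [pow_add]
    exact ⟨primorial q * b ^ j, by rw [← hr]; ring⟩
  have hmain := hsv 1 X (b ^ h) Y N0 (MM q b (h + j) r) one_pos (by positivity)
    (two_dvd_MM hq2) hM0 hDD hN02 S (filter_subset _ _) (by
      intro n hn l hl hlz hlM
      have hql := lt_of_not_dvd_MM hl hlM
      rw [hS, mem_filter, mem_Icc] at hn
      obtain ⟨⟨hn1, _⟩, hQ1, hQ2⟩ := hn
      have e1 : 1 * n + X = n + X := by ring
      rw [e1]
      exact ⟨hQ1 l hl (by omega) (hlz.trans hz), hQ2 l hl hql (hlz.trans hz)⟩)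
  have hr1 := hP q (by omega) (h + j) r (by omega) hr0 hXYb
  have hlq : Real.log q ≤ 2 * Real.log p := by
    have hq2p : (q : ℝ) ≤ p * p := hph.trans (mul_le_mul_of_nonneg_right g2 hp0.le)
    calc Real.log q ≤ Real.log (p * p) := Real.log_le_log (by positivity) hq2p
      _ = 2 * Real.log p := by rw [Real.log_mul hp0.ne' hp0.ne']; ring
  have hlq0 : 0 ≤ Real.log q := Real.log_natCast_nonneg q
  have hlp0 : 0 ≤ Real.log p := Real.log_natCast_nonneg p
  have hr2 : ((MM q b (h + j) r : ℕ) : ℝ) / (Nat.totient (MM q b (h + j) r) : ℝ) ≤ 2 * C1 * Real.log p := by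
    calc _ ≤ C1 * Real.log q := hr1
      _ ≤ C1 * (2 * Real.log p) := by gcongr
      _ = _ := by ring
  have hr00 : 0 ≤ ((MM q b (h + j) r : ℕ) : ℝ) / (Nat.totient (MM q b (h + j) r) : ℝ) := by positivity
  have hlogH : η / 2 * p ≤ Real.log N0 := by
    have h1 : Real.exp (η * p) / 2 ≤ N0 := by linarith
    have h2 : Real.log (Real.exp (η * p) / 2) ≤ Real.log N0 := Real.log_le_log (by positivity) h1
    rw [Real.log_div hEpos.ne' two_ne_zero, Real.log_exp] at h2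
    have h3 : Real.log 2 ≤ 1 := by
      have := Real.log_two_lt_d9
      linarith
    linarith
  have hlbp : 0 < η / 2 * p := by positivity
  calc (S.card : ℝ) ≤ C0 * (((MM q b (h + j) r : ℕ) : ℝ) / (Nat.totient (MM q b (h + j) r) : ℝ)) ^ 2 * N0 /
        (Real.log N0) ^ 2 := hmain
    _ ≤ C0 * (2 * C1 * Real.log p) ^ 2 * N0 / (η / 2 * p) ^ 2 := by gcongr
    _ = _ := by field_simp

open Classical in
/-- a long block -/
lemma nearG_long {b : ℕ} (hb : 2 ≤ b) {η Λ : ℝ} (hη : 0 < η) (hΛ : 1 ≤ Λ) (j : ℕ) : ∃ K : ℝ, 0 < K ∧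
    ∃ P : ℕ, 2 ≤ P ∧ ∀ p ≥ P, ∀ h : ℕ, ((p + h : ℕ) : ℝ) ≤ Λ * p → ∀ X Y N : ℕ, 1 ≤ X → b ^ h ≤ Y →
    (Y : ℤ) ≠ (b ^ h * X : ℕ) → ((Y : ℤ) - (b ^ h * X : ℕ)).natAbs < b ^ (h + j) →
    Real.exp (η * p) ≤ N →
    (((range N).filter (fun k => NoMid p (Real.exp (η * p)) (X + k) ∧
      NoMid (p + h) (Real.exp (η * p)) (b ^ h * k + Y))).card : ℝ) ≤
      K * (Real.log p / p) ^ 2 * N := by
  obtain ⟨K, hK, P, hP2, hP⟩ := nearG_one hb hη hΛ j
  refine ⟨2 * K, by positivity, P, hP2, fun p hp h hph X Y N hX hY hXY hXYb hN => ?_⟩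
  obtain ⟨hN02, hone⟩ := hP p hp
  set N0 := ⌊Real.exp (η * p)⌋₊ with hN0
  set z := Real.exp (η * p) with hz
  have hN0le : (N0 : ℝ) ≤ z := Nat.floor_le (Real.exp_pos _).le
  have hN0N : N0 ≤ N := by exact_mod_cast hN0le.trans hN
  have hN00 : (0 : ℝ) < N0 := by exact_mod_cast (by omega : 0 < N0)
  have hsub : (range N).filter (fun k => NoMid p z (X + k) ∧ NoMid (p + h) z (b ^ h * k + Y)) ⊆
      (range (N / N0 + 1)).biUnion (fun i => ((Icc 1 N0).filter
        (fun n => NoMid p z (n + (X + i * N0 - 1)) ∧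
          NoMid (p + h) z (b ^ h * n + (b ^ h * (i * N0) + Y - b ^ h)))).image
          (fun n => i * N0 + (n - 1))) := by
    intro k hk
    rw [mem_filter, mem_range] at hk
    obtain ⟨hk1, hk2⟩ := hk
    have hmod : k % N0 < N0 := Nat.mod_lt _ (by omega)
    have hdiv := Nat.div_add_mod k N0
    rw [mem_biUnion]
    refine ⟨k / N0, ?_, ?_⟩
    · rw [mem_range]
      have := Nat.div_le_div_right (c := N0) hk1.le
      omega
    · rw [mem_image]
      refine ⟨k % N0 + 1, ?_, ?_⟩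
      · rw [mem_filter, mem_Icc]
        have e0 : k / N0 * N0 = N0 * (k / N0) := mul_comm _ _
        have e : k % N0 + 1 + (X + k / N0 * N0 - 1) = X + k := by omega
        have e2 : b ^ h * (k % N0 + 1) + (b ^ h * (k / N0 * N0) + Y - b ^ h) = b ^ h * k + Y := by
          have e3 : b ^ h * k = b ^ h * (k / N0 * N0) + b ^ h * (k % N0) := by
            rw [← mul_add]
            congr 1
            omega
          rw [mul_add, mul_one, e3]
          omega
        rw [e, e2]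
        exact ⟨⟨by omega, by omega⟩, hk2⟩
      · have : k / N0 * N0 = N0 * (k / N0) := mul_comm _ _
        omega
  have h1 := (card_le_card hsub).trans card_biUnion_le
  have h2 : (((range N).filter (fun k => NoMid p z (X + k) ∧ NoMid (p + h) z (b ^ h * k + Y))).card : ℝ) ≤
      ∑ i ∈ range (N / N0 + 1), K * (Real.log p / p) ^ 2 * N0 := by
    have h3 : (((range N).filter (fun k => NoMid p z (X + k) ∧ NoMid (p + h) z (b ^ h * k + Y))).card : ℝ) ≤
        ∑ i ∈ range (N / N0 + 1), ((((Icc 1 N0).filter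
        (fun n => NoMid p z (n + (X + i * N0 - 1)) ∧
          NoMid (p + h) z (b ^ h * n + (b ^ h * (i * N0) + Y - b ^ h)))).image
          (fun n => i * N0 + (n - 1))).card : ℝ) := by exact_mod_cast h1
    refine h3.trans (Finset.sum_le_sum fun i _ => ?_)
    have hdiff : (((b ^ h * (i * N0) + Y - b ^ h : ℕ) : ℤ)) - ((b ^ h * (X + i * N0 - 1) : ℕ) : ℤ) =
        (Y : ℤ) - (b ^ h * X : ℕ) := by
      rw [Nat.cast_sub (by omega)]
      have e4 : ((X + i * N0 - 1 : ℕ) : ℤ) = X + i * N0 - 1 := by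
        rw [Nat.cast_sub (by omega)]; push_cast; ring
      push_cast at e4 ⊢
      rw [e4]
      ring
    refine le_trans ?_ (hone h hph (X + i * N0 - 1) (b ^ h * (i * N0) + Y - b ^ h)
      (by rw [← sub_ne_zero, hdiff]; exact sub_ne_zero.2 hXY) (by rw [hdiff]; exact hXYb))
    exact_mod_cast card_image_le
  refine h2.trans ?_
  rw [Finset.sum_const, card_range, nsmul_eq_mul]
  have h4 : ((N / N0 + 1 : ℕ) : ℝ) * N0 ≤ 2 * N := by
    have h5 : (N / N0 + 1) * N0 ≤ 2 * N := by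
      have := Nat.div_mul_le_self N N0
      nlinarith
    exact_mod_cast h5
  have h6 : 0 ≤ K * (Real.log p / p) ^ 2 := by positivity
  calc ((N / N0 + 1 : ℕ) : ℝ) * (K * (Real.log p / p) ^ 2 * N0) =
        K * (Real.log p / p) ^ 2 * (((N / N0 + 1 : ℕ) : ℝ) * N0) := by ring
    _ ≤ K * (Real.log p / p) ^ 2 * (2 * N) := mul_le_mul_of_nonneg_left h4 h6
    _ = _ := by ring

/-- the shifted family is sieved -/
def SievedS (A : ℕ → ℕ → Prop) (η : ℝ) (c : ℤ) : Prop := ∀ q n, A q n → NoMid q (Real.exp (η * q)) (shf c n)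

lemma SievedS.mono {A : ℕ → ℕ → Prop} {η η' : ℝ} {c : ℤ} (h : SievedS A η c) (hη : η' ≤ η) : SievedS A η' c := by
  intro q n hn l hl hql hlz
  exact h q n hn l hl hql (hlz.trans (Real.exp_le_exp.2
    (mul_le_mul_of_nonneg_right hη (Nat.cast_nonneg q))))

lemma NoMid_anti {q : ℕ} {z z' : ℝ} {n : ℕ} (h : NoMid q z n) (hz : z' ≤ z) : NoMid q z' n :=
  fun l hl hql hlz => h l hl hql (hlz.trans hz)

/-- near pairs of a shifted sieved family -/
theorem near_pairS {b : ℕ} (hb : 2 ≤ b) {η Λ : ℝ} (hη : 0 < η) (hΛ : 1 ≤ Λ) (c : ℤ) : ∃ K : ℝ, 0 < K ∧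
    ∃ P : ℕ, 2 ≤ P ∧ ∀ A : ℕ → ℕ → Prop, SievedS A η c →
    ∀ p ≥ P, ∀ q : ℕ, p ≤ q → (q : ℝ) ≤ Λ * p → ∀ X N : ℕ, Real.exp (η * p) ≤ N → N ≤ X →
    ∑ k ∈ range N, ∑ r ∈ range (b ^ (q - p)), ind A p (X + k) * ind A q (b ^ (q - p) * (X + k) + r) ≤
      K * (Real.log p / p) ^ 2 * (N * (b : ℝ) ^ (q - p)) + ∑ k ∈ range N, ind A p (X + k) := by
  classical
  set j := c.natAbs + 1 with hj
  have hjb : c.natAbs + 1 < b ^ j := by
    calc c.natAbs + 1 < 2 ^ j := Nat.lt_two_pow_self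
      _ ≤ b ^ j := Nat.pow_le_pow_left hb _
  obtain ⟨K, hK, P, hP2, hP⟩ := nearG_long hb hη hΛ j
  have hev : ∀ᶠ p : ℕ in atTop, ((c.natAbs + 2 : ℕ) : ℝ) ≤ η * p :=
    (tendsto_natCast_atTop_atTop.const_mul_atTop hη).eventually_ge_atTop _
  obtain ⟨P2, hP2'⟩ := hev.exists_forall_of_atTop
  refine ⟨K, hK, max P P2, hP2.trans (le_max_left _ _), fun A hA p hp q hpq hq X N hN hNX => ?_⟩
  have hpP : P ≤ p := (le_max_left _ _).trans hp
  have hpP2 : P2 ≤ p := (le_max_right _ _).trans hp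
  have hXc : c.natAbs + 3 ≤ X := by
    have h1 : ((c.natAbs + 2 : ℕ) : ℝ) ≤ η * p := hP2' p hpP2
    have h2 := Real.add_one_le_exp (η * p)
    have h3 : (N : ℝ) ≤ X := by exact_mod_cast hNX
    have h4 : ((c.natAbs + 3 : ℕ) : ℝ) ≤ X := by push_cast at h1 ⊢; linarith
    exact_mod_cast h4
  set h := q - p with hh
  have hqh : p + h = q := by omega
  have hbh : 0 < b ^ h := by positivity
  set X1 := shf c X with hX1
  have hX1c : (X1 : ℤ) = X + c := shf_cast (by omega)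
  have hX11 : 1 ≤ X1 := by omega
  rw [Finset.sum_comm, ← Finset.sum_filter_add_sum_filter_not (range (b ^ h))
    (fun r : ℕ => (r : ℤ) ≠ c * ((b : ℤ) ^ h - 1))]
  -- the second part: at most one `r`
  have h0 : ∑ r ∈ (range (b ^ h)).filter (fun r : ℕ => ¬ (r : ℤ) ≠ c * ((b : ℤ) ^ h - 1)),
      ∑ k ∈ range N, ind A p (X + k) * ind A q (b ^ h * (X + k) + r) ≤
      ∑ k ∈ range N, ind A p (X + k) := by
    have hcard : ((range (b ^ h)).filter (fun r : ℕ => ¬ (r : ℤ) ≠ c * ((b : ℤ) ^ h - 1))).card ≤ 1 := by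
      rw [Finset.card_le_one]
      intro x hx y hy
      rw [mem_filter, not_not] at hx hy
      have : (x : ℤ) = y := hx.2.trans hy.2.symm
      exact_mod_cast this
    have hle : ∀ r ∈ (range (b ^ h)).filter (fun r : ℕ => ¬ (r : ℤ) ≠ c * ((b : ℤ) ^ h - 1)),
        ∑ k ∈ range N, ind A p (X + k) * ind A q (b ^ h * (X + k) + r) ≤
        ∑ k ∈ range N, ind A p (X + k) := fun r _ => Finset.sum_le_sum fun k _ =>
      mul_le_of_le_one_right (ind_nonneg _ _ _) (ind_le_one _ _ _)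
    have hnn : 0 ≤ ∑ k ∈ range N, ind A p (X + k) := Finset.sum_nonneg fun k _ => ind_nonneg _ _ _
    refine (Finset.sum_le_card_nsmul _ _ _ hle).trans ?_
    rw [nsmul_eq_mul]
    have : (((range (b ^ h)).filter (fun r : ℕ => ¬ (r : ℤ) ≠ c * ((b : ℤ) ^ h - 1))).card : ℝ) ≤ 1 := by
      exact_mod_cast hcard
    nlinarith
  -- the first part
  have h1 : ∀ r ∈ (range (b ^ h)).filter (fun r : ℕ => (r : ℤ) ≠ c * ((b : ℤ) ^ h - 1)),
      ∑ k ∈ range N, ind A p (X + k) * ind A q (b ^ h * (X + k) + r) ≤ K * (Real.log p / p) ^ 2 * N := by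
    intro r hr
    rw [mem_filter, mem_range] at hr
    obtain ⟨hr1, hr2⟩ := hr
    set Y := shf c (b ^ h * X + r) with hY
    have hXb : X ≤ b ^ h * X := Nat.le_mul_of_pos_left _ hbh
    have hYc : (Y : ℤ) = b ^ h * X + r + c := by
      rw [hY, shf_cast (by omega)]
      push_cast
      ring
    have hcabs : |c| = (c.natAbs : ℤ) := Int.abs_eq_natAbs c
    have hbhZ : (1 : ℤ) ≤ (b : ℤ) ^ h := by exact_mod_cast hbh
    have hcl := neg_abs_le c
    have hcu := le_abs_self c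
    have hrZ : (r : ℤ) < (b : ℤ) ^ h := by exact_mod_cast hr1
    have hr0 : (0 : ℤ) ≤ r := Int.natCast_nonneg r
    have hXZ : (c.natAbs : ℤ) + 3 ≤ X := by exact_mod_cast hXc
    have hYb : b ^ h ≤ Y := by
      have : ((b : ℤ) ^ h) ≤ Y := by
        rw [hYc]
        nlinarith
      exact_mod_cast this
    have hdiff : (Y : ℤ) - ((b ^ h * X1 : ℕ) : ℤ) = r - c * ((b : ℤ) ^ h - 1) := by
      push_cast
      rw [hYc, hX1c]
      ring
    have hne : (Y : ℤ) ≠ ((b ^ h * X1 : ℕ) : ℤ) := by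
      rw [← sub_ne_zero, hdiff]
      exact sub_ne_zero.2 hr2
    have hbd : ((Y : ℤ) - ((b ^ h * X1 : ℕ) : ℤ)).natAbs < b ^ (h + j) := by
      have h2 : |(r : ℤ) - c * ((b : ℤ) ^ h - 1)| < (b : ℤ) ^ (h + j) := by
        have h3 : |(r : ℤ) - c * ((b : ℤ) ^ h - 1)| ≤ r + |c| * ((b : ℤ) ^ h - 1) := by
          refine (abs_sub _ _).trans ?_
          rw [abs_of_nonneg hr0, abs_mul, abs_of_nonneg (show (0 : ℤ) ≤ (b : ℤ) ^ h - 1 by linarith)]
        have h4 : ((c.natAbs : ℤ) + 1) < (b : ℤ) ^ j := by exact_mod_cast hjb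
        have h5 : (0 : ℤ) ≤ |c| := abs_nonneg c
        rw [pow_add]
        calc |(r : ℤ) - c * ((b : ℤ) ^ h - 1)| ≤ r + |c| * ((b : ℤ) ^ h - 1) := h3
          _ < (b : ℤ) ^ h + |c| * (b : ℤ) ^ h := by nlinarith
          _ = (b : ℤ) ^ h * (c.natAbs + 1) := by rw [hcabs]; ring
          _ ≤ (b : ℤ) ^ h * (b : ℤ) ^ j := mul_le_mul_of_nonneg_left h4.le (by positivity)
      rw [hdiff]
      have h6 : (((r : ℤ) - c * ((b : ℤ) ^ h - 1)).natAbs : ℤ) < ((b ^ (h + j) : ℕ) : ℤ) := by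
        rw [← Int.abs_eq_natAbs]
        push_cast
        exact h2
      exact_mod_cast h6
    have h2 := hP p hpP h (by rw [hqh]; exact hq) X1 Y N hX11 hYb hne hbd hN
    refine le_trans ?_ h2
    rw [Finset.card_filter, Nat.cast_sum]
    refine Finset.sum_le_sum fun k _ => ?_
    unfold ind
    by_cases g1 : A p (X + k)
    · by_cases g2 : A q (b ^ h * (X + k) + r)
      · rw [if_pos g1, if_pos g2, if_pos]
        · simp
        · have e1 := hA p _ g1
          have e2 := hA q _ g2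
          rw [shf_add (by omega)] at e1
          have e3 : b ^ h * (X + k) + r = (b ^ h * X + r) + b ^ h * k := by ring
          rw [e3, shf_add (by omega), add_comm] at e2
          refine ⟨e1, ?_⟩
          rw [hqh]
          exact NoMid_anti e2 (Real.exp_le_exp.2 (mul_le_mul_of_nonneg_left (by exact_mod_cast hpq) hη.le))
      · rw [if_neg g2, mul_zero]
        exact Nat.cast_nonneg _
    · rw [if_neg g1, zero_mul]
      exact Nat.cast_nonneg _
  refine add_le_add ?_ h0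
  refine (Finset.sum_le_card_nsmul _ _ _ h1).trans ?_
  rw [nsmul_eq_mul]
  have h3 : (((range (b ^ h)).filter (fun r : ℕ => (r : ℤ) ≠ c * ((b : ℤ) ^ h - 1))).card : ℝ) ≤ (b : ℝ) ^ h := by
    have := (Finset.card_filter_le (range (b ^ h)) (fun r : ℕ => (r : ℤ) ≠ c * ((b : ℤ) ^ h - 1)))
    rw [card_range] at this
    exact_mod_cast this
  have h6 : 0 ≤ K * (Real.log p / p) ^ 2 * N := by positivity
  have h7 := mul_le_mul_of_nonneg_right h3 h6
  linarith

end Pool.Agent.H538
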