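import Pool.Agent.H538.T1
import Pool.Agent.H538.K12

set_option autoImplicit false

/-!
# The law for shifted sieved families with a local density
-/

namespace Pool.Agent.H538

open Finset Filter Topology MeasureTheory
open Pool.Agent.TH888.R (wt wt_nonneg wt_le_one)
open Pool.Agent.W66S (count_primes)
open Pool.Agent.Y895.PM (U01 avg corr floor_meas sum_blocks)
open Pool.Agent.Y895.OL (gF gM cg Row row_of ae_U01 floor_lt_pow VI FI)
open Pool.Agent.Y895.PS (row_sharp)
open Pool.Agent.Y895.PT (lim_of_close2)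

/-- **The law in a block.** -/
theorem block_sharpS {b : ℕ} (hb : 2 ≤ b) {A : ℕ → ℕ → Prop} {η c : ℝ} (hη : 0 < η) {cc : ℤ}
    (hA : SievedS A η cc)
    (hc : 0 < c) (hD : HasDens b A c) (a j : ℕ) (ha : 1 ≤ a) {ε : ℝ} (hε : 0 < ε) (hεc : 2 * ε ≤ c)
    (S : Set ℕ) (hdiv : Tendsto (VI {p | p.Prime} wt S) atTop atTop) :
    ∀ᵐ t ∂U01, ∀ᶠ n : ℕ in atTop, (c - 2 * ε) * VI {p | p.Prime} wt S n ≤
        FI {p | p.Prime} (gF (ind A) b (fun q => a * b ^ (q - j)) (fun q => q - j)) S n t ∧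
      FI {p | p.Prime} (gF (ind A) b (fun q => a * b ^ (q - j)) (fun q => q - j)) S n t ≤
        (c + 2 * ε) * VI {p | p.Prime} wt S n := by
  classical
  have hbr : (2 : ℝ) ≤ b := by exact_mod_cast hb
  have hb0 : (0 : ℝ) < b := by linarith
  have hlb : 0 < Real.log b := Real.log_pos (by linarith)
  obtain ⟨δ, K0, hδ, hδ8, hdens⟩ := hD ε hε
  obtain ⟨P1, hP1⟩ := hdens (a + 1) (by positivity)
  set η' := min η (Real.log b / 2) with hη'
  have hη'0 : 0 < η' := by positivity
  have hη'η : η' ≤ η := min_le_left _ _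
  have hη'b : η' ≤ Real.log b / 2 := min_le_right _ _
  have hΛ : 1 ≤ 2 / δ := by rw [le_div_iff₀ hδ]; linarith
  obtain ⟨K2, hK2, P2, hP22, hP2⟩ := near_pairS hb hη'0 hΛ cc
  obtain ⟨C2, hC2, hcp⟩ := count_primes
  set l : ℕ → ℕ := fun q => ⌊δ / 2 * q⌋₊ with hl
  set m : ℕ → ℕ := fun q => q - j with hm
  set A0 : ℕ → ℕ := fun q => a * b ^ (q - j) with hA0
  -- large q
  have hev1 : ∀ᶠ q : ℕ in atTop, (j : ℝ) / (δ / 4) ≤ q := tendsto_natCast_atTop_atTop.eventually_ge_atTop _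
  have hev2 : ∀ᶠ q : ℕ in atTop, ((K0 : ℝ) + 1) / (δ / 2) ≤ q := tendsto_natCast_atTop_atTop.eventually_ge_atTop _
  have hev3 : ∀ᶠ q : ℕ in atTop, 1 ≤ Real.log q :=
    (Real.tendsto_log_atTop.comp tendsto_natCast_atTop_atTop).eventually_ge_atTop 1
  obtain ⟨P3, hP3⟩ := ((hev1.and hev2).and hev3).exists_forall_of_atTop
  set Q := max (max P1 P2) (max P3 (2 * j + 2)) with hQ
  have hQ1 : ∀ q ≥ Q, P1 ≤ q := fun q hq => (le_max_left _ _).trans ((le_max_left _ _).trans hq)
  have hQ2 : ∀ q ≥ Q, P2 ≤ q := fun q hq => (le_max_right _ _).trans ((le_max_left _ _).trans hq)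
  have hQ3 : ∀ q ≥ Q, P3 ≤ q := fun q hq => (le_max_left _ _).trans ((le_max_right _ _).trans hq)
  have hQ4 : ∀ q ≥ Q, 2 * j + 2 ≤ q := fun q hq => (le_max_right _ _).trans ((le_max_right _ _).trans hq)
  have hjq : ∀ q ≥ Q, (j : ℝ) ≤ δ / 4 * q := by
    intro q hq
    have := (hP3 q (hQ3 q hq)).1.1
    rw [div_le_iff₀ (by positivity)] at this
    linarith
  have hlq1 : ∀ q ≥ Q, 1 ≤ Real.log q := fun q hq => (hP3 q (hQ3 q hq)).2
  have hlK : ∀ q ≥ Q, K0 ≤ l q := by
    intro q hq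
    have := (hP3 q (hQ3 q hq)).1.2
    rw [div_le_iff₀ (by positivity)] at this
    exact Nat.le_floor (by linarith)
  have hlle : ∀ q, (l q : ℝ) ≤ δ / 2 * q := fun q => Nat.floor_le (by positivity)
  have hjq' : ∀ q ≥ Q, j ≤ q := fun q hq => by have := hQ4 q hq; omega
  have hmq : ∀ q ≥ Q, (m q : ℝ) = q - j := by
    intro q hq
    simp only [hm]
    rw [Nat.cast_sub (hjq' q hq)]
  have hlm : ∀ q ≥ Q, l q ≤ m q := by
    intro q hq
    have h1 : (l q : ℝ) ≤ m q := by
      rw [hmq q hq]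
      have := hlle q
      have := hjq q hq
      have : (0 : ℝ) ≤ q := Nat.cast_nonneg q
      nlinarith
    exact_mod_cast h1
  -- the local means
  have hdens' : ∀ q ≥ Q, ∀ k < b ^ l q,
      |∑ D ∈ range (b ^ (m q - l q)), ind A q (A0 q + b ^ (m q - l q) * k + D) -
        c * wt q * (b : ℝ) ^ (m q - l q)| ≤ ε * wt q * (b : ℝ) ^ (m q - l q) := by
    intro q hq k hk
    have h1 := hP1 q (hQ1 q hq) (A0 q + b ^ (m q - l q) * k) (b ^ (m q - l q)) (by
        have e1 : b ^ m q = b ^ l q * b ^ (m q - l q) := by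
          rw [← pow_add, Nat.add_sub_cancel' (hlm q hq)]
        have e2 : K0 ≤ b ^ l q := (hlK q hq).trans (Nat.lt_pow_self (by omega)).le
        calc K0 * b ^ (m q - l q) ≤ b ^ l q * b ^ (m q - l q) := Nat.mul_le_mul_right _ e2
          _ = b ^ m q := e1.symm
          _ ≤ a * b ^ m q := Nat.le_mul_of_pos_left _ ha
          _ ≤ _ := Nat.le_add_right _ _) (by
        have e1 : b ^ m q = b ^ (m q - l q) * b ^ l q := by
          rw [← pow_add, Nat.sub_add_cancel (hlm q hq)]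
        have e2 : A0 q + b ^ (m q - l q) * k ≤ (a + 1) * b ^ q := by
          calc A0 q + b ^ (m q - l q) * k ≤ a * b ^ m q + b ^ (m q - l q) * b ^ l q :=
                Nat.add_le_add_left (Nat.mul_le_mul_left _ hk.le) _
            _ = (a + 1) * b ^ m q := by rw [← e1]; ring
            _ ≤ (a + 1) * b ^ q := Nat.mul_le_mul_left _ (Nat.pow_le_pow_right (by omega) (Nat.sub_le _ _))
        exact_mod_cast e2) (by
        push_cast
        rw [show (b : ℝ) ^ (m q - l q) = Real.exp ((m q - l q : ℕ) * Real.log b) by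
          rw [Real.exp_nat_mul, Real.exp_log hb0], Real.exp_le_exp, ← mul_assoc]
        apply mul_le_mul_of_nonneg_right _ hlb.le
        rw [Nat.cast_sub (hlm q hq), hmq q hq]
        have := hlle q
        have := hjq q hq
        have : (0 : ℝ) ≤ q := Nat.cast_nonneg q
        nlinarith)
    push_cast at h1
    exact h1
  have hmean : ∀ q ≥ Q, ∀ t : ℝ, 0 ≤ t → t < 1 →
      (c - ε) * wt q ≤ gM (ind A) b A0 m l q t ∧ gM (ind A) b A0 m l q t ≤ (c + ε) * wt q := by
    intro q hq t ht0 ht1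
    have h0 : (0 : ℝ) < (b : ℝ) ^ (m q - l q) := by positivity
    have h1 := abs_le.1 (hdens' q hq _ (floor_lt_pow hb (l q) ht1))
    unfold gM cg
    rw [inv_mul_eq_div, le_div_iff₀ h0, div_le_iff₀ h0]
    constructor <;> linarith [h1.1, h1.2]
  -- the full block
  have hfull : ∀ q ≥ Q, ∑ k ∈ range (b ^ m q), ind A q (A0 q + k) ≤ (c + ε) * wt q * (b : ℝ) ^ m q := by
    intro q hq
    have e1 : b ^ m q = b ^ (m q - l q) * b ^ l q := by
      rw [← pow_add, Nat.sub_add_cancel (hlm q hq)]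
    rw [e1, ← sum_blocks (fun D => ind A q (A0 q + D)) (b ^ l q) (b ^ (m q - l q))]
    have h2 : ∀ k ∈ range (b ^ l q), ∑ r ∈ range (b ^ (m q - l q)), ind A q (A0 q + (b ^ (m q - l q) * k + r)) ≤
        (c + ε) * wt q * (b : ℝ) ^ (m q - l q) := by
      intro k hk
      rw [mem_range] at hk
      have h3 := (abs_le.1 (hdens' q hq k hk)).2
      have h4 : ∑ r ∈ range (b ^ (m q - l q)), ind A q (A0 q + (b ^ (m q - l q) * k + r)) =
          ∑ D ∈ range (b ^ (m q - l q)), ind A q (A0 q + b ^ (m q - l q) * k + D) :=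
        Finset.sum_congr rfl fun r _ => by rw [add_assoc]
      rw [h4]
      linarith
    refine (Finset.sum_le_sum h2).trans (le_of_eq ?_)
    rw [Finset.sum_const, card_range, nsmul_eq_mul]
    push_cast
    rw [show (b : ℝ) ^ m q = (b : ℝ) ^ (m q - l q) * (b : ℝ) ^ l q by exact_mod_cast congrArg (Nat.cast (R := ℝ)) e1]
    ring
  have hinteg : ∀ q ≥ Q, ∫ t, gF (ind A) b A0 m q t ∂U01 ≤ (c + ε) * wt q := by
    intro q hq
    have h1 : ∫ t, gF (ind A) b A0 m q t ∂U01 = ((b : ℝ) ^ m q)⁻¹ * ∑ D ∈ range (b ^ m q), ind A q (A0 q + D) :=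
      avg hb (G := fun D => ind A q (A0 q + D)) (fun n => by
        rw [abs_of_nonneg (ind_nonneg _ _ _)]; exact ind_le_one _ _ _) (m q)
    rw [h1, inv_mul_eq_div, div_le_iff₀ (by positivity)]
    exact hfull q hq
  -- near pairs
  have hcomp : ∀ q ≥ Q, ∀ p ≥ Q, l q < m p → δ / 2 * q ≤ p := by
    intro q hq p hp h
    have h1 : δ / 2 * (q : ℝ) < l q + 1 := Nat.lt_floor_add_one _
    have h2 : (l q : ℝ) + 1 ≤ m p := by exact_mod_cast h
    have h3 := hmq p hp
    have h4 : (0 : ℝ) ≤ j := Nat.cast_nonneg j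
    linarith
  have hwt : ∀ q ≥ Q, ∀ p ≥ Q, p < q → l q < m p → wt p ≤ 2 / δ * wt q := by
    intro q hq p hp hpq h
    have h2 := hcomp q hq p hp h
    have hp0 : (0 : ℝ) < p := by
      have := hQ4 p hp
      exact_mod_cast (by omega : 0 < p)
    have hq0 : (0 : ℝ) < q := by
      have := hQ4 q hq
      exact_mod_cast (by omega : 0 < q)
    have h3 : Real.log p ≤ Real.log q := Real.log_le_log hp0 (by exact_mod_cast hpq.le)
    have h4 : wt p ≤ Real.log q / (δ / 2 * q) := by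
      have := hlq1 q hq
      exact div_le_div₀ (by linarith) h3 (by positivity) h2
    refine h4.trans (le_of_eq ?_)
    have : wt q = Real.log q / q := rfl
    rw [this]
    field_simp
  have hpairint : ∀ p ≥ Q, ∀ q ≥ Q, p < q → l q < m p →
      ∫ t, gF (ind A) b A0 m p t * gF (ind A) b A0 m q t ∂U01 ≤
        K2 * (wt p) ^ 2 + (c + ε) * wt p * ((b : ℝ) ^ (q - p))⁻¹ := by
    intro p hp q hq hpq hlp
    have hmm : m p ≤ m q := by simp only [hm]; omega
    have hqp : m q - m p = q - p := by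
      have := hjq' p hp
      simp only [hm]; omega
    have hAq : A0 q = b ^ (q - p) * A0 p := by
      simp only [hA0]
      have : q - j = (q - p) + (p - j) := by
        have := hjq' p hp
        omega
      rw [this, pow_add]; ring
    have h1 : ∫ t, gF (ind A) b A0 m p t * gF (ind A) b A0 m q t ∂U01 =
        ((b : ℝ) ^ m q)⁻¹ * ∑ k ∈ range (b ^ m p), ∑ r ∈ range (b ^ (q - p)),
          ind A p (A0 p + k) * ind A q (b ^ (q - p) * (A0 p + k) + r) := by
      have h2 := corr hb (F := fun n => ind A p (A0 p + n)) (G := fun n => ind A q (A0 q + n))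
        (fun n => by rw [abs_of_nonneg (ind_nonneg _ _ _)]; exact ind_le_one _ _ _)
        (fun n => by rw [abs_of_nonneg (ind_nonneg _ _ _)]; exact ind_le_one _ _ _) (m p) (m q - m p)
      rw [Nat.sub_add_cancel hmm, hqp] at h2
      refine Eq.trans ?_ (h2.trans ?_)
      · rfl
      · congr 1
        refine Finset.sum_congr rfl fun k _ => Finset.sum_congr rfl fun r _ => ?_
        rw [hAq]
        congr 2
        ring
    rw [h1, inv_mul_eq_div, div_le_iff₀ (by positivity)]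
    have hX : b ^ m p ≤ A0 p := Nat.le_mul_of_pos_left _ ha
    have hN : Real.exp (η' * p) ≤ ((b ^ m p : ℕ) : ℝ) := by
      push_cast
      rw [show (b : ℝ) ^ m p = Real.exp ((m p : ℕ) * Real.log b) by
          rw [Real.exp_nat_mul, Real.exp_log hb0], Real.exp_le_exp, hmq p hp]
      have h3 : (j : ℝ) ≤ p / 2 := by
        have := hQ4 p hp
        have h4 : ((2 * j : ℕ) : ℝ) ≤ p := by exact_mod_cast (by omega : 2 * j ≤ p)
        push_cast at h4
        linarith
      calc η' * p ≤ Real.log b / 2 * p := mul_le_mul_of_nonneg_right hη'b (Nat.cast_nonneg p)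
        _ = (p - p / 2) * Real.log b := by ring
        _ ≤ ((p : ℝ) - j) * Real.log b := mul_le_mul_of_nonneg_right (by linarith) hlb.le
    have hqΛ : (q : ℝ) ≤ 2 / δ * p := by
      have := hcomp q hq p hp hlp
      rw [div_mul_eq_mul_div, le_div_iff₀ hδ]
      linarith
    have h3 := hP2 A (hA.mono hη'η) p (hQ2 p hp) q hpq.le hqΛ (A0 p) (b ^ m p) hN hX
    have h4 := hfull p hp
    have hpw : (b : ℝ) ^ m q = (b : ℝ) ^ m p * (b : ℝ) ^ (q - p) := by
      rw [← pow_add]; congr 1; omega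
    have hbq : (0 : ℝ) < (b : ℝ) ^ (q - p) := by positivity
    have h5 : (c + ε) * wt p * ((b : ℝ) ^ (q - p))⁻¹ * (b : ℝ) ^ m q = (c + ε) * wt p * (b : ℝ) ^ m p := by
      rw [hpw]; field_simp
    have h6 : K2 * (Real.log p / p) ^ 2 * (((b ^ m p : ℕ) : ℝ) * (b : ℝ) ^ (q - p)) =
        K2 * wt p ^ 2 * (b : ℝ) ^ m q := by
      rw [hpw]; push_cast; rfl
    rw [h6] at h3
    rw [add_mul, h5]
    linarith
  have hcard : ∀ q ≥ Q, ∀ T : Finset ℕ, (∀ p ∈ T, p ∈ {p : ℕ | p.Prime} ∧ Q ≤ p ∧ p < q ∧ l q < m p) →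
      (T.card : ℝ) ≤ C2 * q / Real.log q := by
    intro q hq T hT
    exact hcp q (by have := hQ4 q hq; omega) T fun p hp => ⟨(hT p hp).1, (hT p hp).2.2.1⟩
  have hnear : ∀ q ≥ Q, ∀ T : Finset ℕ, (∀ p ∈ T, p ∈ {p : ℕ | p.Prime} ∧ Q ≤ p ∧ p < q ∧ l q < m p) →
      ∑ p ∈ T, wt p ≤ 2 * C2 / δ := by
    intro q hq T hT
    have hlq := hlq1 q hq
    have hq0 : (0 : ℝ) < q := by
      have := hQ4 q hq
      exact_mod_cast (by omega : 0 < q)
    calc ∑ p ∈ T, wt p ≤ ∑ p ∈ T, 2 / δ * wt q := Finset.sum_le_sum fun p hp => by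
          obtain ⟨g1, g2, g3, g4⟩ := hT p hp
          exact hwt q hq p g2 g3 g4
      _ = T.card * (2 / δ * wt q) := by rw [Finset.sum_const, nsmul_eq_mul]
      _ ≤ (C2 * q / Real.log q) * (2 / δ * wt q) := by
          apply mul_le_mul_of_nonneg_right (hcard q hq T hT)
          have := wt_nonneg q
          positivity
      _ = 2 * C2 / δ := by
          have : wt q = Real.log q / q := rfl
          rw [this]
          field_simp
  have hcε : 0 < c + ε := by linarith
  set CC := K2 * (2 / δ) * (2 * C2 / δ) + (c + ε) * (2 / δ) * 2 + 2 * C2 / δ with hCC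
  have hCCp : 0 < CC := by positivity
  have hrow : Row U01 (gF (ind A) b A0 m) (gM (ind A) b A0 m l) {p | p.Prime} wt (fun _ => 1) Q := by
    refine row_of (ind01 A) hb (K := c + ε) (C := CC) hlm wt_nonneg wt_le_one (fun _ => le_rfl)
      ⟨1, zero_le_one, fun q _ => by rw [mul_one]; exact wt_le_one q⟩ hcε hCCp
      (ae_U01 fun t h0 h1 q hq _ => (hmean q hq t h0 h1).2) (fun q hq _ => hinteg q hq) ?_ ?_
    · intro q hq _ T hT
      rw [mul_one]
      have h1 : ∑ p ∈ T, ∫ t, gF (ind A) b A0 m p t * gF (ind A) b A0 m q t ∂U01 ≤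
          ∑ p ∈ T, (K2 * (2 / δ) * wt q * wt p + (c + ε) * (2 / δ) * wt q * ((b : ℝ) ^ (q - p))⁻¹) := by
        refine Finset.sum_le_sum fun p hp => ?_
        obtain ⟨g1, g2, g3, g4⟩ := hT p hp
        refine (hpairint p g2 q hq g3 g4).trans ?_
        have h2 := hwt q hq p g2 g3 g4
        have h3 := wt_nonneg p
        have h4 : (0 : ℝ) < ((b : ℝ) ^ (q - p))⁻¹ := by positivity
        apply add_le_add
        · calc K2 * wt p ^ 2 = K2 * (wt p * wt p) := by ring
            _ ≤ K2 * ((2 / δ * wt q) * wt p) := by gcongr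
            _ = _ := by ring
        · calc (c + ε) * wt p * ((b : ℝ) ^ (q - p))⁻¹ ≤ (c + ε) * (2 / δ * wt q) * ((b : ℝ) ^ (q - p))⁻¹ := by
                gcongr
            _ = _ := by ring
      refine h1.trans ?_
      rw [Finset.sum_add_distrib, ← Finset.mul_sum, ← Finset.mul_sum]
      have h5 := hnear q hq T hT
      have h6 := sum_pow_le hb T (q := q) fun p hp => (hT p hp).2.2.1
      have h7 := wt_nonneg q
      calc K2 * (2 / δ) * wt q * ∑ p ∈ T, wt p + (c + ε) * (2 / δ) * wt q * ∑ p ∈ T, ((b : ℝ) ^ (q - p))⁻¹ ≤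
          K2 * (2 / δ) * wt q * (2 * C2 / δ) + (c + ε) * (2 / δ) * wt q * 2 := by gcongr
        _ ≤ CC * wt q := by
          have : 0 ≤ 2 * C2 / δ * wt q := by positivity
          rw [hCC]; linarith
    · intro q hq _ T hT
      rw [mul_one]
      refine (hnear q hq T hT).trans ?_
      have : 0 ≤ K2 * (2 / δ) * (2 * C2 / δ) + (c + ε) * (2 / δ) * 2 := by positivity
      rw [hCC]; linarith
  have hfin := row_sharp hrow (c0 := c - ε) (K := c + ε) (e := ε) (by linarith) hcε hε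
    (ae_U01 fun t h0 h1 q hq _ => (hmean q hq t h0 h1).1)
    (ae_U01 fun t h0 h1 q hq _ => (hmean q hq t h0 h1).2) S hdiv
  filter_upwards [hfin] with t ht
  filter_upwards [ht] with n hn
  constructor
  · refine le_trans (le_of_eq ?_) hn.1
    ring
  · refine hn.2.trans (le_of_eq ?_)
    ring

/-- **The law for shifted sieved families.** -/
theorem lawS {b : ℕ} (hb : 2 ≤ b) {A : ℕ → ℕ → Prop} {η c : ℝ} (hη : 0 < η) {cc : ℤ} (hA : SievedS A η cc)
    (hc : 0 < c) (hD : HasDens b A c) (S : Set ℕ) (hdiv : Tendsto (vS S) atTop atTop) :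
    ∀ᵐ β : ℝ, 0 < β → Tendsto (fun n : ℕ => (cA A b S β n : ℝ) / vS S n) atTop (𝓝 c) := by
  have hvs : vS S = VI {p | p.Prime} wt S := funext (vS_eq S)
  have hdiv' : Tendsto (VI {p | p.Prime} wt S) atTop atTop := by rw [← hvs]; exact hdiv
  rw [hvs]
  refine transferW hb S hdiv' fun a j ha => ?_
  have h1 : ∀ k : ℕ, ∀ᵐ t ∂U01, ∀ᶠ n : ℕ in atTop, (1 - 1 / ((k : ℝ) + 2)) * c * VI {p | p.Prime} wt S n ≤
        FI {p | p.Prime} (gF (ind A) b (fun q => a * b ^ (q - j)) (fun q => q - j)) S n t ∧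
      FI {p | p.Prime} (gF (ind A) b (fun q => a * b ^ (q - j)) (fun q => q - j)) S n t ≤
        (1 + 1 / ((k : ℝ) + 2)) * c * VI {p | p.Prime} wt S n := by
    intro k
    have hk : (0 : ℝ) < (k : ℝ) + 2 := by positivity
    have h2 := block_sharpS hb hη hA hc hD a j ha (ε := c / (2 * ((k : ℝ) + 2))) (by positivity) (by
      rw [mul_div_assoc']
      rw [div_le_iff₀ (by positivity)]
      have : (0 : ℝ) ≤ k := Nat.cast_nonneg k
      nlinarith) S hdiv'
    filter_upwards [h2] with t ht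
    filter_upwards [ht] with n hn
    have e1 : (1 - 1 / ((k : ℝ) + 2)) * c = c - 2 * (c / (2 * ((k : ℝ) + 2))) := by field_simp
    have e2 : (1 + 1 / ((k : ℝ) + 2)) * c = c + 2 * (c / (2 * ((k : ℝ) + 2))) := by field_simp
    rw [e1, e2]
    exact hn
  filter_upwards [ae_all_iff.2 h1] with t ht
  exact lim_of_close2 hc hdiv' ht

end Pool.Agent.H538
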