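import Pool.Agent.H538.T2

set_option autoImplicit false

/-!
# Borel-Cantelli for almost every amplitude
-/

namespace Pool.Agent.H538

open Finset Filter Topology MeasureTheory
open Pool.Agent.Y895.PM (U01 avg)
open Pool.Agent.Y895.OL (gF gF_meas gF_nonneg gF_le_one)

/-- from the blocks to almost every amplitude, for tail properties -/
theorem transferT {b : ℕ} (hb : 2 ≤ b) {Ψ : (ℕ → ℕ) → Prop}
    (hΨ : ∀ f g : ℕ → ℕ, (∀ᶠ p in atTop, f p = g p) → Ψ f → Ψ g)
    (hblock : ∀ a j : ℕ, 1 ≤ a → ∀ᵐ t ∂U01, Ψ (fun p => a * b ^ (p - j) + ⌊(b : ℝ) ^ (p - j) * t⌋₊)) :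
    ∀ᵐ β : ℝ, 0 < β → Ψ (fun p => ⌈β * (b : ℝ) ^ p⌉₊ - 1) := by
  have hbr : (2 : ℝ) ≤ b := by exact_mod_cast hb
  have hb0 : (0 : ℝ) < b := by linarith
  have hb1 : ∀ a j : ℕ, ∀ᵐ β : ℝ, 1 ≤ a → 0 ≤ β * (b : ℝ) ^ j + (-(a : ℝ)) → β * (b : ℝ) ^ j + (-(a : ℝ)) < 1 →
      Ψ (fun p => ⌈β * (b : ℝ) ^ p⌉₊ - 1) := by
    intro a j
    by_cases ha : 1 ≤ a
    swap
    · exact Eventually.of_forall fun β h => absurd h ha
    have h1 := hblock a j ha
    unfold U01 at h1
    rw [ae_restrict_iff' measurableSet_Ico] at h1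
    have h2 : ∀ᵐ t : ℝ, ∀ M k : ℕ, t ≠ k / (b : ℝ) ^ M := by
      rw [ae_all_iff]
      intro M
      rw [ae_all_iff]
      intro k
      exact Measure.ae_ne volume _
    have h3 := ae_affine (h1.and h2) (c := (b : ℝ) ^ j) (by positivity) (-(a : ℝ))
    filter_upwards [h3] with β hβ _ g0 g1
    obtain ⟨hβ1, hβ2⟩ := hβ
    set t := β * (b : ℝ) ^ j + (-(a : ℝ)) with ht
    refine hΨ _ _ ?_ (hβ1 ⟨g0, g1⟩)
    filter_upwards [eventually_ge_atTop j] with p hp
    symm
    have e1 : β * (b : ℝ) ^ p = ((a * b ^ (p - j) : ℕ) : ℝ) + (b : ℝ) ^ (p - j) * t := by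
      have : (b : ℝ) ^ p = (b : ℝ) ^ j * (b : ℝ) ^ (p - j) := by
        rw [← pow_add, Nat.add_sub_cancel' hp]
      rw [this, ht]
      push_cast
      ring
    rw [e1, ceil_eq (by positivity)]
    intro k hk
    have h0 : (0 : ℝ) < (b : ℝ) ^ (p - j) := by positivity
    refine hβ2 (p - j) k ?_
    rw [eq_div_iff h0.ne']
    linarith
  have hall : ∀ᵐ β : ℝ, ∀ a j : ℕ, 1 ≤ a → 0 ≤ β * (b : ℝ) ^ j + (-(a : ℝ)) → β * (b : ℝ) ^ j + (-(a : ℝ)) < 1 →
      Ψ (fun p => ⌈β * (b : ℝ) ^ p⌉₊ - 1) := by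
    rw [ae_all_iff]
    intro a
    rw [ae_all_iff]
    exact hb1 a
  filter_upwards [hall] with β hβ hβ0
  obtain ⟨j, hj⟩ := pow_unbounded_of_one_lt (1 / β) (show (1 : ℝ) < b by linarith)
  have h1 : 1 < β * (b : ℝ) ^ j := by
    rw [div_lt_iff₀ hβ0] at hj
    linarith
  have h2 := Nat.floor_le (show 0 ≤ β * (b : ℝ) ^ j by linarith)
  have h3 := Nat.lt_floor_add_one (β * (b : ℝ) ^ j)
  exact hβ ⌊β * (b : ℝ) ^ j⌋₊ j (Nat.le_floor (by push_cast; linarith)) (by linarith) (by linarith)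

/-- **Borel-Cantelli**: if the densities of `A q` in the blocks are summable over a set of indices, then for almost
every amplitude only finitely many of the events occur. -/
theorem borel_cantelli {b : ℕ} (hb : 2 ≤ b) {A : ℕ → ℕ → Prop} {e : ℕ → ℝ} (he : Summable e)
    (hA : ∀ a j : ℕ, 1 ≤ a → ∀ᶠ q : ℕ in atTop,
      ∑ D ∈ range (b ^ (q - j)), ind A q (a * b ^ (q - j) + D) ≤ e q * (b : ℝ) ^ (q - j)) :
    ∀ᵐ β : ℝ, 0 < β → ∀ᶠ q : ℕ in atTop, ¬ A q (⌈β * (b : ℝ) ^ q⌉₊ - 1) := by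
  classical
  refine transferT hb (Ψ := fun f => ∀ᶠ q : ℕ in atTop, ¬ A q (f q)) (fun f g hfg hf => ?_) fun a j ha => ?_
  · filter_upwards [hfg, hf] with q h1 h2
    rw [← h1]
    exact h2
  · obtain ⟨Q, hQ⟩ := (hA a j ha).exists_forall_of_atTop
    set g := gF (ind A) b (fun q => a * b ^ (q - j)) (fun q => q - j) with hg
    have hint : ∀ q ≥ Q, ∫ t, g q t ∂U01 ≤ e q := by
      intro q hq
      have h1 : ∫ t, g q t ∂U01 = ((b : ℝ) ^ (q - j))⁻¹ * ∑ D ∈ range (b ^ (q - j)), ind A q (a * b ^ (q - j) + D) :=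
        avg hb (G := fun D => ind A q (a * b ^ (q - j) + D)) (fun n => by
          rw [abs_of_nonneg (ind_nonneg _ _ _)]; exact ind_le_one _ _ _) (q - j)
      have hbr : (2 : ℝ) ≤ b := by exact_mod_cast hb
      rw [h1, inv_mul_eq_div, div_le_iff₀ (by positivity)]
      exact hQ q hq
    set s : ℕ → Set ℝ := fun q => {t | g q t = 1} with hs
    have hms : ∀ q, MeasurableSet (s q) := fun q =>
      (gF_meas (ind A) b (fun q => a * b ^ (q - j)) (fun q => q - j) q) (measurableSet_singleton 1)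
    have hmu : ∀ q ≥ Q, U01 (s q) ≤ ENNReal.ofReal (e q) := by
      intro q hq
      have h1 : g q = (s q).indicator (fun _ => (1 : ℝ)) := by
        funext t
        by_cases h : g q t = 1
        · rw [Set.indicator_of_mem (show t ∈ s q from h), h]
        · rw [Set.indicator_of_notMem (show t ∉ s q from h)]
          rcases ind01 A q (a * b ^ (q - j) + ⌊(b : ℝ) ^ (q - j) * t⌋₊) with h2 | h2
          · exact h2
          · exact absurd h2 h
      have h2 : ∫ t, g q t ∂U01 = (U01 (s q)).toReal := by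
        rw [h1, integral_indicator (hms q), integral_const, smul_eq_mul, mul_one]
        simp [Measure.real]
      have h3 := hint q hq
      rw [h2] at h3
      have hfin : U01 (s q) ≠ ⊤ := measure_ne_top _ _
      rw [← ENNReal.ofReal_toReal hfin]
      exact ENNReal.ofReal_le_ofReal h3
    have hsum : ∑' q, U01 (s (q + Q)) ≠ ⊤ := by
      have hse : Summable fun q => |e (q + Q)| := ((summable_nat_add_iff Q).2 he).abs
      have h1 : ∑' q, U01 (s (q + Q)) ≤ ∑' q, ENNReal.ofReal |e (q + Q)| :=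
        ENNReal.tsum_le_tsum fun q => (hmu (q + Q) (by omega)).trans (ENNReal.ofReal_le_ofReal (le_abs_self _))
      refine ne_top_of_le_ne_top ?_ h1
      rw [← ENNReal.ofReal_tsum_of_nonneg (fun q => abs_nonneg _) hse]
      exact ENNReal.ofReal_ne_top
    filter_upwards [ae_eventually_notMem hsum] with t ht
    have h2 : ∀ᶠ q : ℕ in atTop, t ∉ s q := by
      obtain ⟨q0, hq0⟩ := ht.exists_forall_of_atTop
      filter_upwards [eventually_ge_atTop (q0 + Q)] with q hq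
      have := hq0 (q - Q) (by omega)
      rwa [Nat.sub_add_cancel (by omega)] at this
    filter_upwards [h2] with q hq hAq
    apply hq
    show g q t = 1
    exact if_pos hAq

end Pool.Agent.H538
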