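import Pool.Agent.H538.T3

set_option autoImplicit false

/-!
# The family of the shifted integers with a prime rough part
-/

namespace Pool.Agent.H538

open Finset Filter Topology MeasureTheory
open Pool.Agent.TH888.R (wt wt_nonneg wt_le_one)
open Pool.Agent.H305R2 (roughPart)

/-- the `q`-rough part of `n + c` is a prime -/
def EP (c : ℤ) (q n : ℕ) : Prop := Om q (shf c n) = 1

/-- the same, with a small smooth part -/
def EP' (a : ℝ) (c : ℤ) (q n : ℕ) : Prop :=
  Om q (shf c n) = 1 ∧ ¬ LS q a (shf c n) ∧ Real.exp (1 / 2 * (q * a)) ≤ shf c n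

lemma EP'_sieved {a : ℝ} (ha : 0 < a) (c : ℤ) : SievedS (EP' a c) (a / 8) c := by
  rintro q n ⟨h1, h2, h3⟩ l hl hql hlz hd
  set m := shf c n with hm
  have hm0 : m ≠ 0 := by
    rintro h
    rw [h, Nat.cast_zero] at h3
    exact absurd h3 (not_le.2 (Real.exp_pos _))
  have hP : (roughPart q m).Prime := Om_one_iff.1 h1
  have hlP : l ∣ roughPart q m := dvd_rough hm0 hl hql hd
  have hlP' : l = roughPart q m := (Nat.prime_dvd_prime_iff_eq hl hP).1 hlP
  obtain ⟨t, ht, he⟩ := split_smooth q hm0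
  have hs : m / roughPart q m = t := by
    conv_lhs => rw [he]
    rw [roughPart_mul' ht (roughPart_ne q m) (roughPart_rgh q m)]
    exact Nat.mul_div_cancel _ hP.pos
  unfold LS at h2
  rw [hs, not_lt] at h2
  have h4 : (t : ℝ) ≤ Real.exp (1 / 4 * (q * a)) := by
    have h5 : (t : ℝ) ≤ cutS (1 / 2) (q * a) := by exact_mod_cast h2
    refine h5.trans ((Nat.floor_le (Real.exp_pos _).le).trans (le_of_eq ?_))
    congr 1
    ring
  have h5 : (m : ℝ) = t * l := by
    rw [hlP']
    exact_mod_cast he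
  rcases Nat.eq_zero_or_pos q with hq | hq
  · subst hq
    rw [Nat.cast_zero, mul_zero, Real.exp_zero] at hlz
    have := hl.two_le
    have h6 : (2 : ℝ) ≤ l := by exact_mod_cast this
    linarith
  · have hq0 : (0 : ℝ) < q := by exact_mod_cast hq
    have h6 : (t : ℝ) * l ≤ Real.exp (1 / 4 * (q * a)) * Real.exp (a / 8 * q) :=
      mul_le_mul h4 hlz (Nat.cast_nonneg _) (Real.exp_pos _).le
    rw [← h5, ← Real.exp_add] at h6
    have h7 := h3.trans h6
    rw [Real.exp_le_exp] at h7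
    have : 0 < (q : ℝ) * a := by positivity
    linarith

lemma wk_zero (q : ℕ) : wk 0 q = wt q := by
  unfold wk
  have : wt q = Real.log q / q := rfl
  rw [this]
  simp

open Classical in
theorem EP'_dens {b : ℕ} (hb : 2 ≤ b) (c : ℤ) : HasDens b (EP' (Real.log b) c) (ck b 0) := by
  intro ε hε
  have hbr : (2 : ℝ) ≤ b := by exact_mod_cast hb
  have hb0 : (0 : ℝ) < b := by linarith
  set a := Real.log b with ha
  have ha0 : 0 < a := Real.log_pos (by linarith)
  obtain ⟨δ, K0, hδ, hδ8, hd⟩ := AK_dens hb 0 (ε / 2) (by positivity)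
  refine ⟨δ, K0 + 2, hδ, hδ8, fun C hC => ?_⟩
  obtain ⟨P1, hP1⟩ := hd (C + 1) (by positivity)
  have ht : Tendsto (fun q : ℕ => (q : ℝ) * a) atTop atTop :=
    tendsto_natCast_atTop_atTop.atTop_mul_const ha0
  -- the smooth parts
  have hsm : ∀ᶠ q : ℕ in atTop, 3 * Real.exp (-(1 / 16 * (q * a))) ≤ ε / 2 * wt q := by
    have g1 : Tendsto (fun x : ℝ => x * Real.exp (-x)) atTop (𝓝 0) := by
      have := Real.tendsto_pow_mul_exp_neg_atTop_nhds_zero 1
      simpa using this
    have g2 : Tendsto (fun q : ℕ => 1 / 16 * ((q : ℝ) * a)) atTop atTop := ht.const_mul_atTop (by norm_num)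
    have g3 := (g1.comp g2).eventually (ge_mem_nhds (show (0 : ℝ) < ε / 2 * (a / 16) / 3 by positivity))
    filter_upwards [g3, (Real.tendsto_log_atTop.comp tendsto_natCast_atTop_atTop).eventually_ge_atTop
      (1 : ℝ), eventually_ge_atTop 1] with q hq hl hq1
    simp only [Function.comp] at hq hl
    have hq0 : (0 : ℝ) < q := by exact_mod_cast hq1
    have : wt q = Real.log q / q := rfl
    rw [this]
    have h1 : 1 / (q : ℝ) ≤ Real.log q / q := div_le_div_of_nonneg_right hl hq0.le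
    have h2 : 3 * Real.exp (-(1 / 16 * (q * a))) ≤ ε / 2 * (1 / q) := by
      rw [mul_one_div, le_div_iff₀ hq0]
      have e : 3 * Real.exp (-(1 / 16 * (q * a))) * q =
          3 / (a / 16) * (1 / 16 * (q * a) * Real.exp (-(1 / 16 * (q * a)))) := by
        field_simp
      rw [e]
      calc 3 / (a / 16) * (1 / 16 * (q * a) * Real.exp (-(1 / 16 * (q * a)))) ≤
            3 / (a / 16) * (ε / 2 * (a / 16) / 3) := mul_le_mul_of_nonneg_left hq (by positivity)
        _ = ε / 2 := by field_simp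
    exact h2.trans (mul_le_mul_of_nonneg_left h1 (by positivity))
  obtain ⟨P2, hP2⟩ := ((LS_count ha0).and (hsm.and (ht.eventually_ge_atTop (2 * ((c.natAbs : ℝ) + 1))))).exists_forall_of_atTop
  refine ⟨max P1 P2, fun q hq B L hKL hBC hL => ?_⟩
  obtain ⟨c1, c2, c3⟩ := hP2 q ((le_max_right _ _).trans hq)
  have hqa0 : 0 ≤ (q : ℝ) * a := by positivity
  have hL34 : Real.exp (3 / 4 * (q * a)) ≤ L := by
    refine le_trans (Real.exp_le_exp.2 ?_) hL
    exact mul_le_mul_of_nonneg_right (by linarith) hqa0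
  have hL12 : Real.exp (1 / 2 * (q * a)) ≤ L := by
    refine le_trans (Real.exp_le_exp.2 ?_) hL34
    linarith
  have hLc : c.natAbs + 2 ≤ L := by
    have h1 := Real.add_one_le_exp (1 / 2 * ((q : ℝ) * a))
    have h2 : ((c.natAbs + 2 : ℕ) : ℝ) ≤ L := by
      push_cast
      linarith
    exact_mod_cast h2
  have hBL : K0 * L + 2 * L ≤ B := by linarith [hKL, add_mul K0 2 L]
  have hcB : c.natAbs ≤ B := by omega
  set B1 := shf c B with hB1
  have hB1c : (B1 : ℤ) = B + c := shf_cast hcB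
  have hB1L : K0 * L + L ≤ B1 := by
    have : ((K0 * L + L : ℕ) : ℤ) ≤ B1 := by
      rw [hB1c]
      have : ((K0 * L + 2 * L : ℕ) : ℤ) ≤ B := by exact_mod_cast hBL
      push_cast at this ⊢
      omega
    exact_mod_cast this
  have hB1C : (B1 : ℝ) ≤ (C + 1) * (b : ℝ) ^ q := by
    have h1 : (B1 : ℝ) = B + (c : ℝ) := by exact_mod_cast hB1c
    have h2 : (c : ℝ) ≤ (b : ℝ) ^ q := by
      have h3 : (c : ℝ) ≤ (c.natAbs : ℝ) := by
        rw [Nat.cast_natAbs]
        exact_mod_cast le_abs_self c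
      have h4 : (b : ℝ) ^ q = Real.exp (q * a) := by rw [Real.exp_nat_mul, ha, Real.exp_log hb0]
      have h5 := Real.add_one_le_exp ((q : ℝ) * a)
      rw [h4]
      linarith
    rw [h1, add_mul, one_mul]
    linarith
  have h1 := hP1 q ((le_max_left _ _).trans hq) B1 L (by omega) hB1C hL
  rw [wk_zero] at h1
  have h2 := c1 B1 L (by omega) hL34
  -- comparison
  have hle : ∀ D ∈ range L, ind (EP' a c) q (B + D) ≤ ind (AK 0) q (B1 + D) ∧
      ind (AK 0) q (B1 + D) - (if LS q a (B1 + D) then (1 : ℝ) else 0) ≤ ind (EP' a c) q (B + D) := by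
    intro D _
    have e1 : shf c (B + D) = B1 + D := shf_add hcB
    have e2 : Real.exp (1 / 2 * (q * a)) ≤ ((B1 + D : ℕ) : ℝ) := by
      refine hL12.trans ?_
      exact_mod_cast (by omega : L ≤ B1 + D)
    have e3 : EP' a c q (B + D) ↔ AK 0 q (B1 + D) ∧ ¬ LS q a (B1 + D) := by
      unfold EP' AK
      rw [e1]
      constructor
      · rintro ⟨g1, g2, _⟩
        exact ⟨g1, g2⟩
      · rintro ⟨g1, g2⟩
        exact ⟨g1, g2, e2⟩
    unfold ind
    by_cases g1 : AK 0 q (B1 + D)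
    · by_cases g2 : LS q a (B1 + D)
      · rw [if_neg (fun h => (e3.1 h).2 g2), if_pos g1, if_pos g2]
        constructor <;> norm_num
      · rw [if_pos (e3.2 ⟨g1, g2⟩), if_pos g1, if_neg g2]
        constructor <;> norm_num
    · rw [if_neg (fun h => g1 (e3.1 h).1), if_neg g1]
      constructor
      · exact le_rfl
      · split_ifs <;> norm_num
  have hup : ∑ D ∈ range L, ind (EP' a c) q (B + D) ≤ ∑ D ∈ range L, ind (AK 0) q (B1 + D) :=
    Finset.sum_le_sum fun D hD => (hle D hD).1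
  have hlo : ∑ D ∈ range L, ind (AK 0) q (B1 + D) - ∑ D ∈ range L, (if LS q a (B1 + D) then (1 : ℝ) else 0) ≤
      ∑ D ∈ range L, ind (EP' a c) q (B + D) := by
    rw [← Finset.sum_sub_distrib]
    exact Finset.sum_le_sum fun D hD => (hle D hD).2
  have h3 : 3 * Real.exp (-(1 / 16 * (q * a))) * L ≤ ε / 2 * wt q * L :=
    mul_le_mul_of_nonneg_right c2 (Nat.cast_nonneg L)
  obtain ⟨i1, i2⟩ := abs_le.1 h1
  have hw : 0 ≤ ε / 2 * wt q * L := by
    have := wt_nonneg q
    positivity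
  rw [abs_le]
  constructor <;> linarith

open Classical in
/-- the density in a full block -/
theorem dens_full {b : ℕ} (hb : 2 ≤ b) {A : ℕ → ℕ → Prop} {c : ℝ} (hD : HasDens b A c) {ε : ℝ} (hε : 0 < ε)
    (a j : ℕ) (ha : 1 ≤ a) : ∀ᶠ q : ℕ in atTop,
    ∑ k ∈ range (b ^ (q - j)), ind A q (a * b ^ (q - j) + k) ≤ (c + ε) * wt q * (b : ℝ) ^ (q - j) := by
  have hbr : (2 : ℝ) ≤ b := by exact_mod_cast hb
  have hb0 : (0 : ℝ) < b := by linarith
  have hlb : 0 < Real.log b := Real.log_pos (by linarith)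
  obtain ⟨δ, K0, hδ, hδ8, hdens⟩ := hD ε hε
  obtain ⟨P1, hP1⟩ := hdens (a + 1) (by positivity)
  have hev : ∀ᶠ q : ℕ in atTop, ((j : ℝ) + K0) / δ ≤ q := tendsto_natCast_atTop_atTop.eventually_ge_atTop _
  filter_upwards [eventually_ge_atTop P1, hev, eventually_ge_atTop (j + K0)] with q hq hq2 hq3
  set m := q - j with hm
  rw [div_le_iff₀ hδ] at hq2
  have hK0m : K0 ≤ m := by omega
  have e1 : b ^ m = b ^ (m - K0) * b ^ K0 := by
    rw [← pow_add, Nat.sub_add_cancel hK0m]
  have hdens' : ∀ k < b ^ K0,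
      |∑ D ∈ range (b ^ (m - K0)), ind A q (a * b ^ m + b ^ (m - K0) * k + D) -
        c * wt q * (b : ℝ) ^ (m - K0)| ≤ ε * wt q * (b : ℝ) ^ (m - K0) := by
    intro k hk
    have h1 := hP1 q hq (a * b ^ m + b ^ (m - K0) * k) (b ^ (m - K0)) (by
        have e2 : K0 ≤ b ^ K0 := (Nat.lt_pow_self (by omega)).le
        calc K0 * b ^ (m - K0) ≤ b ^ K0 * b ^ (m - K0) := Nat.mul_le_mul_right _ e2
          _ = b ^ m := by rw [e1]; ring
          _ ≤ a * b ^ m := Nat.le_mul_of_pos_left _ ha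
          _ ≤ _ := Nat.le_add_right _ _) (by
        have e2 : a * b ^ m + b ^ (m - K0) * k ≤ (a + 1) * b ^ q := by
          calc a * b ^ m + b ^ (m - K0) * k ≤ a * b ^ m + b ^ (m - K0) * b ^ K0 :=
                Nat.add_le_add_left (Nat.mul_le_mul_left _ hk.le) _
            _ = (a + 1) * b ^ m := by rw [← e1]; ring
            _ ≤ (a + 1) * b ^ q := Nat.mul_le_mul_left _ (Nat.pow_le_pow_right (by omega) (Nat.sub_le _ _))
        exact_mod_cast e2) (by
        push_cast
        rw [show (b : ℝ) ^ (m - K0) = Real.exp ((m - K0 : ℕ) * Real.log b) by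
          rw [Real.exp_nat_mul, Real.exp_log hb0], Real.exp_le_exp, ← mul_assoc]
        apply mul_le_mul_of_nonneg_right _ hlb.le
        have hmr : ((m - K0 : ℕ) : ℝ) = q - j - K0 := by
          rw [Nat.cast_sub hK0m, hm, Nat.cast_sub (by omega)]
        rw [hmr]
        linarith)
    push_cast at h1
    exact h1
  rw [e1, ← Pool.Agent.Y895.PM.sum_blocks (fun D => ind A q (a * (b ^ (m - K0) * b ^ K0) + D)) (b ^ K0) (b ^ (m - K0))]
  have h2 : ∀ k ∈ range (b ^ K0), ∑ r ∈ range (b ^ (m - K0)), ind A q (a * (b ^ (m - K0) * b ^ K0) + (b ^ (m - K0) * k + r)) ≤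
      (c + ε) * wt q * (b : ℝ) ^ (m - K0) := by
    intro k hk
    rw [mem_range] at hk
    have h3 := (abs_le.1 (hdens' k hk)).2
    rw [← e1]
    have h4 : ∑ r ∈ range (b ^ (m - K0)), ind A q (a * b ^ m + (b ^ (m - K0) * k + r)) =
        ∑ D ∈ range (b ^ (m - K0)), ind A q (a * b ^ m + b ^ (m - K0) * k + D) :=
      Finset.sum_congr rfl fun r _ => by rw [add_assoc]
    rw [h4]
    linarith
  refine (Finset.sum_le_sum h2).trans (le_of_eq ?_)
  rw [Finset.sum_const, card_range, nsmul_eq_mul]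
  push_cast
  rw [show (b : ℝ) ^ m = (b : ℝ) ^ (m - K0) * (b : ℝ) ^ K0 by exact_mod_cast congrArg (Nat.cast (R := ℝ)) e1]
  ring

end Pool.Agent.H538
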