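import Pool.Agent.H538.T4

set_option autoImplicit false

/-!
# The metric form of the new Mersenne conjecture
-/

namespace Pool.Agent.H538

open Finset Filter Topology MeasureTheory
open Pool.Agent.TH888.R (wt wt_nonneg wt_le_one)

/-- the integer below `β b ^ p` -/
noncomputable def NB (b : ℕ) (β : ℝ) (p : ℕ) : ℕ := ⌈β * (b : ℝ) ^ p⌉₊ - 1

lemma NB_large {b : ℕ} (hb : 2 ≤ b) {β : ℝ} (hβ : 0 < β) (c : ℤ) : ∀ᶠ q : ℕ in atTop,
    Real.exp (1 / 2 * (q * Real.log b)) ≤ shf c (NB b β q) := by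
  have hbr : (2 : ℝ) ≤ b := by exact_mod_cast hb
  have hb0 : (0 : ℝ) < b := by linarith
  have ha0 : 0 < Real.log b := Real.log_pos (by linarith)
  have ht : Tendsto (fun q : ℕ => Real.exp (1 / 2 * ((q : ℝ) * Real.log b))) atTop atTop := by
    refine Real.tendsto_exp_atTop.comp (Tendsto.const_mul_atTop (by norm_num) ?_)
    exact tendsto_natCast_atTop_atTop.atTop_mul_const ha0
  filter_upwards [ht.eventually_ge_atTop ((2 + |(c : ℝ)|) / β + 1 / β + (2 + |(c : ℝ)|))] with q hq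
  set E := Real.exp (1 / 2 * ((q : ℝ) * Real.log b)) with hE
  have hE0 : 0 < E := Real.exp_pos _
  have hpow : (b : ℝ) ^ q = E * E := by
    rw [hE, ← Real.exp_add, ← Real.exp_log (show (0 : ℝ) < (b : ℝ) ^ q by positivity), Real.log_pow]
    congr 1
    ring
  have h1 : β * (b : ℝ) ^ q - 1 ≤ NB b β q := by
    unfold NB
    have h2 := Nat.le_ceil (β * (b : ℝ) ^ q)
    have h3 : (⌈β * (b : ℝ) ^ q⌉₊ : ℝ) ≤ ((⌈β * (b : ℝ) ^ q⌉₊ - 1 : ℕ) : ℝ) + 1 := by
      have : ⌈β * (b : ℝ) ^ q⌉₊ ≤ (⌈β * (b : ℝ) ^ q⌉₊ - 1) + 1 := by omega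
      exact_mod_cast this
    linarith
  have hc0 : 0 ≤ |(c : ℝ)| := abs_nonneg _
  have h4 : (2 + |(c : ℝ)|) / β + 1 / β ≤ E := by linarith
  have h5 : 2 + |(c : ℝ)| ≤ E := by
    have : 0 ≤ (2 + |(c : ℝ)|) / β + 1 / β := by positivity
    linarith
  have h6 : (2 + |(c : ℝ)|) + 1 ≤ β * E := by
    rw [← add_div, div_le_iff₀ hβ] at h4
    linarith
  have h7 : E + |(c : ℝ)| + 1 ≤ β * (b : ℝ) ^ q := by
    rw [hpow, ← mul_assoc]
    nlinarith
  have h8 : (c.natAbs : ℝ) = |(c : ℝ)| := by rw [Nat.cast_natAbs]; push_cast; rfl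
  have h9 : c.natAbs ≤ NB b β q := by
    have : (c.natAbs : ℝ) ≤ NB b β q := by rw [h8]; linarith
    exact_mod_cast this
  have h10 : ((shf c (NB b β q) : ℕ) : ℝ) = (NB b β q : ℝ) + (c : ℝ) := by exact_mod_cast shf_cast h9
  rw [h10]
  have := neg_abs_le (c : ℝ)
  linarith

open Classical in
lemma LS_few {b : ℕ} (hb : 2 ≤ b) (c : ℤ) : ∀ᵐ β : ℝ, 0 < β → ∀ᶠ q : ℕ in atTop,
    ¬ LS q (Real.log b) (shf c (NB b β q)) := by
  have hbr : (2 : ℝ) ≤ b := by exact_mod_cast hb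
  have hb0 : (0 : ℝ) < b := by linarith
  set a := Real.log b with ha
  have ha0 : 0 < a := Real.log_pos (by linarith)
  have hs : Summable fun q : ℕ => 3 * Real.exp (-(1 / 16 * (q * a))) := by
    have h1 : Summable fun q : ℕ => Real.exp (q * (-(a / 16))) :=
      Real.summable_exp_nat_mul_iff.2 (by linarith)
    refine (h1.congr fun q => ?_).mul_left 3
    congr 1
    ring
  refine borel_cantelli hb (A := fun q n => LS q a (shf c n)) hs fun a' j ha' => ?_
  filter_upwards [LS_count ha0, eventually_ge_atTop (4 * j + c.natAbs + 4)] with q h1 hq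
  have hB : c.natAbs + 1 ≤ a' * b ^ (q - j) := by
    calc c.natAbs + 1 ≤ q - j := by omega
      _ ≤ b ^ (q - j) := (Nat.lt_pow_self (by omega)).le
      _ ≤ _ := Nat.le_mul_of_pos_left _ ha'
  have h2 := h1 (shf c (a' * b ^ (q - j))) (b ^ (q - j)) (by
    have := shf_cast (c := c) (n := a' * b ^ (q - j)) (by omega)
    omega) (by
    push_cast
    rw [show (b : ℝ) ^ (q - j) = Real.exp ((q - j : ℕ) * a) by
      rw [Real.exp_nat_mul, ha, Real.exp_log hb0], Real.exp_le_exp, ← mul_assoc]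
    apply mul_le_mul_of_nonneg_right _ ha0.le
    rw [Nat.cast_sub (by omega)]
    have : ((4 * j : ℕ) : ℝ) ≤ q := by exact_mod_cast (by omega : 4 * j ≤ q)
    push_cast at this
    linarith)
  push_cast at h2
  refine le_trans (le_of_eq ?_) h2
  refine Finset.sum_congr rfl fun D _ => ?_
  unfold ind
  rw [← shf_add (by omega)]

lemma EP_iff {b : ℕ} (hb : 2 ≤ b) (c : ℤ) : ∀ᵐ β : ℝ, 0 < β → ∀ᶠ q : ℕ in atTop,
    (EP c q (NB b β q) ↔ EP' (Real.log b) c q (NB b β q)) := by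
  filter_upwards [LS_few hb c] with β hβ h0
  filter_upwards [hβ h0, NB_large hb h0 c] with q h1 h2
  exact ⟨fun h => ⟨h, h1, h2⟩, fun h => h.1⟩

/-- **The law.** -/
theorem law_EP {b : ℕ} (hb : 2 ≤ b) (c : ℤ) (S : Set ℕ) (hdiv : Tendsto (vS S) atTop atTop) :
    ∀ᵐ β : ℝ, 0 < β → Tendsto (fun n : ℕ => (cA (EP c) b S β n : ℝ) / vS S n) atTop (𝓝 (ck b 0)) := by
  classical
  have hlb : 0 < Real.log b := Real.log_pos (by exact_mod_cast (by omega : 1 < b))
  filter_upwards [lawS hb (by positivity) (EP'_sieved hlb c) (ck_pos hb 0) (EP'_dens hb c) S hdiv,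
    EP_iff hb c] with β h1 h2 h0
  obtain ⟨Q, hQ⟩ := (h2 h0).exists_forall_of_atTop
  have hcmp : ∀ n : ℕ, |(cA (EP c) b S β n : ℝ) - (cA (EP' (Real.log b) c) b S β n : ℝ)| ≤ Q := by
    intro n
    have key : ∀ A A' : ℕ → ℕ → Prop, (∀ q ≥ Q, A q (NB b β q) → A' q (NB b β q)) →
        cA A b S β n ≤ cA A' b S β n + Q := by
      intro A A' hAA
      unfold cA
      have hsub : (Finset.range (n + 1)).filter (fun p => p.Prime ∧ p ∈ S ∧ A p (⌈β * (b : ℝ) ^ p⌉₊ - 1)) ⊆
          (Finset.range (n + 1)).filter (fun p => p.Prime ∧ p ∈ S ∧ A' p (⌈β * (b : ℝ) ^ p⌉₊ - 1)) ∪ range Q := by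
        intro p hp
        rw [mem_filter, mem_range] at hp
        rw [mem_union, mem_filter, mem_range, mem_range]
        by_cases hpQ : p < Q
        · exact Or.inr hpQ
        · exact Or.inl ⟨hp.1, hp.2.1, hp.2.2.1, hAA p (by omega) hp.2.2.2⟩
      refine (card_le_card hsub).trans ((card_union_le _ _).trans ?_)
      rw [card_range]
    have k1 := key (EP c) (EP' (Real.log b) c) fun q hq h => (hQ q hq).1 h
    have k2 := key (EP' (Real.log b) c) (EP c) fun q hq h => (hQ q hq).2 h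
    have k1' : (cA (EP c) b S β n : ℝ) ≤ cA (EP' (Real.log b) c) b S β n + Q := by exact_mod_cast k1
    have k2' : (cA (EP' (Real.log b) c) b S β n : ℝ) ≤ cA (EP c) b S β n + Q := by exact_mod_cast k2
    rw [abs_le]
    constructor <;> linarith
  have hdiff : Tendsto (fun n : ℕ => ((cA (EP c) b S β n : ℝ) - (cA (EP' (Real.log b) c) b S β n : ℝ)) /
      vS S n) atTop (𝓝 0) := by
    refine squeeze_zero_norm' ?_ (hdiv.const_div_atTop (Q : ℝ))
    filter_upwards [hdiv.eventually_gt_atTop 0] with n hn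
    rw [Real.norm_eq_abs, abs_div, abs_of_pos hn]
    exact div_le_div_of_nonneg_right (hcmp n) hn.le
  have hadd := hdiff.add (h1 h0)
  rw [zero_add] at hadd
  refine hadd.congr fun n => ?_
  ring

lemma summable_sq : Summable fun q : ℕ => (Real.log q / q) ^ 2 := by
  have h1 : Summable fun q : ℕ => 16 * (q : ℝ) ^ (-(3 / 2) : ℝ) :=
    (Real.summable_nat_rpow.2 (by norm_num)).mul_left 16
  refine Summable.of_nonneg_of_le (fun q => by positivity) (fun q => ?_) h1
  rcases Nat.eq_zero_or_pos q with h | h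
  · subst h
    simp
  · have hq0 : (0 : ℝ) < q := by exact_mod_cast h
    have h2 := Real.log_le_rpow_div hq0.le (show (0 : ℝ) < 1 / 4 by norm_num)
    have h3 : 0 ≤ Real.log q := Real.log_natCast_nonneg q
    have h4 : Real.log q ≤ 4 * (q : ℝ) ^ ((1 : ℝ) / 4) := by linarith
    rw [div_pow, div_le_iff₀ (by positivity)]
    calc Real.log q ^ 2 ≤ (4 * (q : ℝ) ^ ((1 : ℝ) / 4)) ^ 2 := pow_le_pow_left₀ h3 h4 2
      _ = 16 * (q : ℝ) ^ ((1 : ℝ) / 2) := by
          rw [mul_pow, ← Real.rpow_natCast ((q : ℝ) ^ ((1 : ℝ) / 4)) 2, ← Real.rpow_mul hq0.le]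
          norm_num
      _ = 16 * (q : ℝ) ^ (-(3 / 2) : ℝ) * (q : ℝ) ^ 2 := by
          rw [mul_assoc, ← Real.rpow_natCast (q : ℝ) 2, ← Real.rpow_add hq0]
          norm_num

/-- **Two shifts.** -/
theorem pair_few {b : ℕ} (hb : 2 ≤ b) {c c' : ℤ} (hcc : c ≠ c') : ∀ᵐ β : ℝ, 0 < β → ∀ᶠ q : ℕ in atTop,
    ¬ (EP c q (NB b β q) ∧ EP c' q (NB b β q)) := by
  classical
  have hbr : (2 : ℝ) ≤ b := by exact_mod_cast hb
  have hb0 : (0 : ℝ) < b := by linarith
  set a := Real.log b with ha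
  have ha0 : 0 < a := Real.log_pos (by linarith)
  set j' := (c' - c).natAbs with hj'
  obtain ⟨K, hK, P, hP2, hP⟩ := nearG_long hb (show 0 < a / 8 by positivity) (le_refl (1 : ℝ)) j'
  have hbc : ∀ᵐ β : ℝ, 0 < β → ∀ᶠ q : ℕ in atTop, ¬ (fun q n => EP' a c q n ∧ EP' a c' q n) q (⌈β * (b : ℝ) ^ q⌉₊ - 1) := by
    refine borel_cantelli hb (A := fun q n => EP' a c q n ∧ EP' a c' q n) (summable_sq.mul_left K) fun a' j ha' => ?_
    filter_upwards [eventually_ge_atTop P, eventually_ge_atTop (2 * j + c.natAbs + c'.natAbs + 4)] with q hqP hq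
    set B := a' * b ^ (q - j) with hB
    have hBq : c.natAbs + c'.natAbs + 1 ≤ B := by
      calc c.natAbs + c'.natAbs + 1 ≤ q - j := by omega
        _ ≤ b ^ (q - j) := (Nat.lt_pow_self (by omega)).le
        _ ≤ _ := Nat.le_mul_of_pos_left _ ha'
    have e1 := shf_cast (c := c) (n := B) (by omega)
    have e2 := shf_cast (c := c') (n := B) (by omega)
    have h1 := hP q hqP 0 (by simp) (shf c B) (shf c' B) (b ^ (q - j)) (by omega) (by rw [pow_zero]; omega)
      (by rw [pow_zero, one_mul]; omega) (by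
        rw [pow_zero, one_mul, zero_add]
        have e3 : (((shf c' B : ℕ) : ℤ) - ((shf c B : ℕ) : ℤ)).natAbs = j' := by
          rw [e1, e2, hj']
          congr 1
          ring
        rw [e3]
        exact Nat.lt_pow_self (by omega)) (by
        push_cast
        rw [show (b : ℝ) ^ (q - j) = Real.exp ((q - j : ℕ) * a) by
          rw [Real.exp_nat_mul, ha, Real.exp_log hb0], Real.exp_le_exp]
        rw [Nat.cast_sub (by omega)]
        have : ((2 * j : ℕ) : ℝ) ≤ q := by exact_mod_cast (by omega : 2 * j ≤ q)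
        push_cast at this
        have hq0 : (0 : ℝ) ≤ q := Nat.cast_nonneg q
        calc a / 8 * q ≤ q / 2 * a := by nlinarith
          _ ≤ (q - j) * a := mul_le_mul_of_nonneg_right (by linarith) ha0.le)
    push_cast at h1
    refine le_trans ?_ h1
    rw [Finset.card_filter, Nat.cast_sum]
    refine Finset.sum_le_sum fun k _ => ?_
    unfold ind
    by_cases g : EP' a c q (B + k) ∧ EP' a c' q (B + k)
    · rw [if_pos g, if_pos]
      · simp
      · have f1 := EP'_sieved ha0 c q _ g.1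
        have f2 := EP'_sieved ha0 c' q _ g.2
        rw [shf_add (by omega)] at f1 f2
        refine ⟨f1, ?_⟩
        rw [pow_zero, one_mul, add_comm k, add_zero]
        exact f2
    · rw [if_neg g]
      exact Nat.cast_nonneg _
  filter_upwards [hbc, EP_iff hb c, EP_iff hb c'] with β h1 h2 h3 h0
  filter_upwards [h1 h0, h2 h0, h3 h0] with q g1 g2 g3 g4
  exact g1 ⟨g2.1 g4.1, g3.1 g4.2⟩

/-- **Sparse sets of primes.** -/
theorem sparse_few {b : ℕ} (hb : 2 ≤ b) (c : ℤ) {T : Set ℕ} [DecidablePred (· ∈ T)]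
    (hT : Summable fun p : ℕ => if p.Prime ∧ p ∈ T then Real.log p / p else 0) :
    ∀ᵐ β : ℝ, 0 < β → ∀ᶠ q : ℕ in atTop, ¬ (q.Prime ∧ q ∈ T ∧ EP c q (NB b β q)) := by
  classical
  have hbc : ∀ᵐ β : ℝ, 0 < β → ∀ᶠ q : ℕ in atTop,
      ¬ (fun q n => (q.Prime ∧ q ∈ T) ∧ EP' (Real.log b) c q n) q (⌈β * (b : ℝ) ^ q⌉₊ - 1) := by
    refine borel_cantelli hb (A := fun q n => (q.Prime ∧ q ∈ T) ∧ EP' (Real.log b) c q n)
      (hT.mul_left (ck b 0 + 1)) fun a' j ha' => ?_
    filter_upwards [dens_full hb (EP'_dens hb c) one_pos a' j ha'] with q hq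
    by_cases g : q.Prime ∧ q ∈ T
    · rw [if_pos g]
      have e : ∀ k, ind (fun q n => (q.Prime ∧ q ∈ T) ∧ EP' (Real.log b) c q n) q (a' * b ^ (q - j) + k) =
          ind (EP' (Real.log b) c) q (a' * b ^ (q - j) + k) := by
        intro k
        unfold ind
        by_cases g2 : EP' (Real.log b) c q (a' * b ^ (q - j) + k)
        · rw [if_pos g2, if_pos ⟨g, g2⟩]
        · rw [if_neg g2, if_neg fun h => g2 h.2]
      simp only [e]
      exact hq
    · rw [if_neg g, mul_zero, zero_mul]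
      refine le_of_eq (Finset.sum_eq_zero fun k _ => ?_)
      unfold ind
      exact if_neg fun h => g h.1
  filter_upwards [hbc, EP_iff hb c] with β h1 h2 h0
  filter_upwards [h1 h0, h2 h0] with q g1 g2 g3
  exact g1 ⟨⟨g3.1, g3.2.1⟩, g2.1 g3.2.2⟩

end Pool.Agent.H538
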